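import Pool.Agent.Lib.MP_b7d179_gt.C.Mask
import Pool.Agent.Lib.MP_b7d179_gt.U.Defs

/-! Separation, obstacles, families of arcs, shellings, carriers and programs. -/

namespace Pool.Agent.Lib.MP_b7d179_gt.C

open Set

variable {Z : Type} [MetricSpace Z] {ι : Type}

/-- every arc in `O` from `a` to `a'` meets `s` -/
def Sep (O s a a' : Set Z) : Prop :=
  ∀ P x y, Arc P x y → P ⊆ O → x ∈ a → y ∈ a' → (P ∩ s).Nonempty

/-- a tree of disjoint discs (union `D`) joined by disjoint arcs (union `Y`) -/
inductive Obs (S : Set Z) : Set Z → Set Z → Prop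
  | disc {W w : Set Z} : Disc W w → W ⊆ S → Obs S W ∅
  | add {D Y a W w : Set Z} {p q : Z} : Obs S D Y → Arc a p q → a ⊆ S → a ∩ D = {p} →
      Disjoint a Y → Disc W w → W ⊆ S → Disjoint W (D ∪ Y) → a ∩ W = {q} → Obs S (D ∪ W) (Y ∪ a)

/-- `p` and `q` lie in two different members of `Ls` -/
def Lands (Ls : Set (Set Z)) (p q : Z) : Prop := ∃ L ∈ Ls, ∃ L' ∈ Ls, L ≠ L' ∧ p ∈ L ∧ q ∈ L'

/-- labelled arcs on `S` that meet the obstacle `Ob` in their ends -/
structure Fam (S Ob : Set Z) (Ls : Bool → Set (Set Z)) (rel : ι → ι → ι → Prop) (grp : ι → Bool)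
    (a : ι → Set Z) : Prop where
  arc : ∀ i, a i = ∅ ∨ ∃ p q, Arc (a i) p q ∧ a i ⊆ S ∧ a i ∩ Ob = {p, q} ∧ Lands (Ls (grp i)) p q
  dj : Pairwise (Function.onFun Disjoint a)
  sep : ∀ i j s, rel i j s → grp i = grp j → Sep (S \ Ob) (a s) (a i) (a j)

/-- labelled crosscuts of the disc `P` -/
structure FamD (P c : Set Z) (Ls : Bool → Set (Set Z)) (rel : ι → ι → ι → Prop) (grp : ι → Bool)
    (a : ι → Set Z) : Prop where
  arc : ∀ i, a i = ∅ ∨ ∃ p q, Cc P c (a i) p q ∧ Lands (Ls (grp i)) p q
  dj : Pairwise (Function.onFun Disjoint a)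
  sep : ∀ i j s, rel i j s → grp i = grp j → Sep (P \ c) (a s) (a i) (a j)

/-- labelled points on open arcs -/
structure FamP (L : Bool → Set Z) (rel : ι → ι → ι → Prop) (grp : ι → Bool) (a : ι → Set Z) :
    Prop where
  pt : ∀ i, a i = ∅ ∨ ∃ e ∈ L (grp i), a i = {e}
  dj : Pairwise (Function.onFun Disjoint a)
  sep : ∀ i j s, rel i j s → grp i = grp j → Sep (L (grp i)) (a s) (a i) (a j)

/-- union of the members of a family with label in `T` -/
def tot (T : Set ι) (a : ι → Set Z) : Set Z := ⋃ i ∈ T, a i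

/-- the sets of a list of masks -/
def sets (R : ℕ → Set Z) (l : List ℕ) : Set (Set Z) := {L | ∃ m ∈ l, L = R m}

/-! ### Refinement of tables -/

def small (n : ℕ) (m : ℕ) : Bool := Nat.beq (Nat.shiftRight m n) 0

/-- the open cell `cb` is cut into itself and the two new cells `n`, `n + 1` -/
def lift1 (cb n m : ℕ) : ℕ := if dis m cb then m else Nat.lor m (Nat.shiftLeft 3 n)

/-- Cut of the 2-cell number `t` along a new crosscut from the start to the end of the rim arcs
`u`, `v`. New arc numbers `2 n`, `2 n + 1`; disc number `t` is the half with rim arc `u`, number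
`n + 1` the other half, number `n` the whole cell. -/
def diag (A : Atoms) (n t : ℕ) (u v : TA) : Option Atoms :=
  match A.a2 t, A.evA u, A.evA v with
  | some (m, r), some (mu, p, q), some (mv, p', q') =>
    let cb := Nat.shiftLeft 1 t
    let g := orL [Nat.shiftLeft 1 n, p, q]
    if Nat.beq (df m r) cb && Nat.beq p p' && Nat.beq q q' && Nat.beq (Nat.lor mu mv) r &&
        Nat.beq (Nat.land mu mv) (Nat.lor p q) && small n m then
      some
        { a1 := fun s => if s = 2 * n then some (g, p, q) else if s = 2 * n + 1 then some (g, q, p)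
            else (A.a1 s).bind fun e =>
              if small n (orL [e.1, e.2.1, e.2.2]) && dis (orL [e.1, e.2.1, e.2.2]) cb then some e
              else none
          a2 := fun s => if s = t then some (orL [cb, mu, g], Nat.lor mu g)
            else if s = n + 1 then some (orL [Nat.shiftLeft 1 (n + 1), mv, g], Nat.lor mv g)
            else if s = n then some (lift1 cb n m, r)
            else (A.a2 s).bind fun e =>
              if small n (Nat.lor e.1 e.2) then some (lift1 cb n e.1, lift1 cb n e.2) else none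
          a3 := fun s => (A.a3 s).bind fun e =>
              if small n (Nat.lor e.1 e.2) then some (lift1 cb n e.1, lift1 cb n e.2) else none }
    else none
  | _, _, _ => none

/-- several cuts, one after the other -/
def diags (A : Atoms) (n : ℕ) : List (ℕ × TA × TA) → Option Atoms
  | [] => some A
  | (t, u, v) :: l => (diag A n t u v).bind fun A' => diags A' (n + 2) l

def lifts (n : ℕ) : List (ℕ × TA × TA) → ℕ → ℕ
  | [], m => m
  | (t, _, _) :: l, m => lifts (n + 2) l (lift1 (Nat.shiftLeft 1 t) n m)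

/-- Three open cells `hb j` of a table on `n` bits are replaced by the part `loc` of a table on
`w` bits; the part `bd` of the latter is read through `tr j`. -/
structure Amal where
  n : ℕ
  w : ℕ
  loc : ℕ
  bd : ℕ
  hb : ℕ → ℕ
  tr : ℕ → ℕ → ℕ

namespace Amal
variable (M : Amal)
def blk (j m : ℕ) : ℕ := Nat.shiftLeft (Nat.land m M.loc) (M.n + M.w * j)
def up (m : ℕ) : ℕ :=
  orL [m, if dis m (M.hb 0) then 0 else M.blk 0 M.loc, if dis m (M.hb 1) then 0 else M.blk 1 M.loc,
    if dis m (M.hb 2) then 0 else M.blk 2 M.loc]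
def emb (j m : ℕ) : ℕ := Nat.lor (M.blk j m) (M.up (M.tr j (Nat.land m M.bd)))
/-- arc numbers from `2 n` on and disc numbers from `n` on belong to the blocks -/
def tab (A A' : Atoms) : Atoms where
  a1 s :=
    if s < 2 * M.n then (A.a1 s).bind fun e =>
      if small M.n (orL [e.1, e.2.1, e.2.2]) then some (M.up e.1, M.up e.2.1, M.up e.2.2) else none
    else if (s - 2 * M.n) / (2 * M.w) < 3 then (A'.a1 ((s - 2 * M.n) % (2 * M.w))).bind fun e =>
      let j := (s - 2 * M.n) / (2 * M.w)
      if sub (orL [e.1, e.2.1, e.2.2]) (Nat.lor M.loc M.bd) then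
        some (M.emb j e.1, M.emb j e.2.1, M.emb j e.2.2) else none
    else none
  a2 s :=
    if s < M.n then (A.a2 s).bind fun e =>
      if small M.n (Nat.lor e.1 e.2) then some (M.up e.1, M.up e.2) else none
    else if (s - M.n) / M.w < 3 then (A'.a2 ((s - M.n) % M.w)).bind fun e =>
      let j := (s - M.n) / M.w
      if sub (Nat.lor e.1 e.2) (Nat.lor M.loc M.bd) then some (M.emb j e.1, M.emb j e.2) else none
    else none
  a3 s := (A.a3 s).bind fun e =>
    if small M.n (Nat.lor e.1 e.2) then some (M.up e.1, M.up e.2) else none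
end Amal

/-! ### Shellings -/

/-- one gluing step: the ball `(b1, s1)` and the node number `n` with masks `(w, sw)` are glued along
the disc `(d, c)` to `(b, s)` -/
structure Stp where
  n : ℕ
  b1 : ℕ
  s1 : ℕ
  w : ℕ
  sw : ℕ
  d : ℕ
  c : ℕ
  b : ℕ
  s : ℕ

def shellGo (A : Atoms) (nd : ℕ → Option (ℕ × ℕ)) (b s : ℕ) (acc : List Stp) :
    List (ℕ × TD) → Option (List Stp × ℕ × ℕ)
  | [] => some (acc, b, s)
  | (n, t) :: l =>
    match nd n, A.evD t with
    | some (w, sw), some (d, c) =>
      if Nat.beq (Nat.land b w) d && sub d s && sub d sw then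
        shellGo A nd (Nat.lor b w) (df (Nat.lor s sw) (df d c))
          (⟨n, b, s, w, sw, d, c, Nat.lor b w, df (Nat.lor s sw) (df d c)⟩ :: acc) l
      else none
    | _, _ => none

/-- the steps (the last one first) and the result -/
def shell (A : Atoms) (nd : ℕ → Option (ℕ × ℕ)) (n0 : ℕ) (l : List (ℕ × TD)) :
    Option (List Stp × ℕ × ℕ) :=
  (nd n0).bind fun e => shellGo A nd e.1 e.2 [] l

inductive Chain (R : ℕ → Set Z) (nd : ℕ → Option (ℕ × ℕ)) (n0 : ℕ) : List Stp → ℕ → ℕ → Prop
  | base {b s : ℕ} : nd n0 = some (b, s) → Chain R nd n0 [] b s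
  | step {l : List Stp} {x : Stp} : Chain R nd n0 l x.b1 x.s1 → nd x.n = some (x.w, x.sw) →
      Gl (R x.b) (R x.s) (R x.b1) (R x.s1) (R x.w) (R x.sw) (R x.d) (R x.c) →
      Chain R nd n0 (x :: l) x.b x.s

/-- the nodes are balls -/
def NdB (R : ℕ → Set Z) (nd : ℕ → Option (ℕ × ℕ)) : Prop :=
  ∀ n b s, nd n = some (b, s) → Ball (R b) (R s)

/-- the numbers of the nodes that do not lie in `fr` -/
def full (fr n0 : ℕ) (l : List Stp) : List ℕ :=
  n0 :: (l.filter fun x => !sub x.w fr).map fun x => x.n

/-- every wall between two full nodes has its rim in `fr` and contains a member of `hit` -/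
def gOk (fr : ℕ) (hit : List ℕ) (l : List Stp) : Bool :=
  l.all fun x => sub x.w fr || (sub x.c fr && hit.any fun h => sub h x.d)

/-- the open cells `hs` that carry feet behave well at every wall -/
def tOk (fr : ℕ) (hs : List ℕ) (l : List Stp) : Bool :=
  l.all fun x => (hs.all fun h => (sub h (df x.d x.c) || dis h x.d) &&
      (sub h x.s == ((sub h x.s1 || sub h x.sw) && dis h x.d))) &&
    (if sub x.w fr then hs.all fun h => dis h x.w else hs.any fun h => sub h x.d)

/-! ### Carriers -/

structure Car where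
  q : ℕ
  c : ℕ
  ls : List ℕ
  tag : Bool

/-- open disc and landing arcs -/
def Car.u (k : Car) : ℕ := Nat.lor (df k.q k.c) (orL k.ls)

def pairs {α : Type} (p : α → α → Bool) : List α → Bool
  | [] => true
  | a :: l => l.all (p a) && pairs p l

/-- the static conditions on carriers in the sphere `s` with pads `pad` and free part `fr` -/
def wf (fr pad s : ℕ) (cs : List Car) : Bool :=
  (cs.all fun k => sub k.q s && sub k.q fr && dis (df k.q k.c) pad && sub (orL k.ls) k.c &&
    pairs dis k.ls) &&
  pairs (fun k k' => dis (df k.q k.c) k'.q && dis (df k'.q k'.c) k.q &&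
    k.ls.all fun L => k'.ls.all fun L' => Nat.beq L L' || dis L L') cs

/-- pieces in the carriers -/
structure CS (R : ℕ → Set Z) (𝒞 : Set (Set ι)) (rel : ι → ι → ι → Prop) (grp : ι → Bool)
    (cs : List Car) (b : ℕ → ι → Set Z) : Prop where
  disc : ∀ k ∈ cs, Disc (R k.q) (R k.c)
  nil : ∀ n i, cs.length ≤ n → b n i = ∅
  cc : ∀ n k, cs[n]? = some k → ∀ i, b n i = ∅ ∨ (grp i = k.tag ∧
    ∃ p q, Cc (R k.q) (R k.c) (b n i) p q ∧ ∃ L ∈ k.ls, ∃ L' ∈ k.ls, L ≠ L' ∧ p ∈ R L ∧ q ∈ R L')
  dj : ∀ n, Pairwise (Function.onFun Disjoint (b n))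
  bal : ∀ n n' k k', cs[n]? = some k → cs[n']? = some k' → ∀ L ∈ k.ls, L ∈ k'.ls → ∀ T ∈ 𝒞,
    tot T (b n) ∩ R L = tot T (b n') ∩ R L
  sep : ∀ n k, cs[n]? = some k → ∀ i j s, rel i j s → Sep (R k.q \ R k.c) (b n s) (b n i) (b n j)

/-- all pieces of one label -/
def whole (b : ℕ → ι → Set Z) (i : ι) : Set Z := ⋃ n, b n i

inductive Op
  | re (n : ℕ) (t : TD)
  | pop
  | popF (n : ℕ)
  | popP (n n' : ℕ) (g g' : TA) (o1 o2 d1 d2 : TD)
  | split (n : ℕ) (t1 t2 : TD) (g j : TA)

/-- remaining chain, current ball, carriers -/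
structure PS where
  l : List Stp
  b : ℕ
  s : ℕ
  cs : List Car

def stepOp (A : Atoms) (fr : ℕ) (x : PS) : Op → Option PS
  | .re n t =>
    match x.cs[n]?, A.evD t with
    | some k, some (q, c) =>
      if sub q k.q || sub k.q q then some { x with cs := x.cs.set n { k with q := q, c := c } }
      else none
    | _, _ => none
  | .pop =>
    match x.l with
    | y :: l => if sub y.w fr && x.cs.all fun k => sub k.q y.s1 then some ⟨l, y.b1, y.s1, x.cs⟩
        else none
    | [] => none
  | .popF n =>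
    match x.l, x.cs[n]? with
    | y :: l, some k =>
      let O := Nat.land y.s y.w
      if sub y.w fr && sub O k.q then
        some ⟨l, y.b1, y.s1, x.cs.set n { k with q := Nat.lor (df k.q O) y.d }⟩
      else none
    | _, _ => none
  | .popP n n' g g' o1 o2 d1 d2 =>
    match x.l, x.cs[n]?, x.cs[n']?, A.evA g, A.evA g', A.evD o1, A.evD o2, A.evD d1, A.evD d2 with
    | y :: l, some k, some k', some (mg, p, q), some (mg', p', q'), some (m1, r1), some (m2, r2),
        some (e1, t1), some (e2, t2) =>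
      let O := Nat.land y.s y.w
      if sub y.w fr && !Nat.beq n n' && Nat.beq p p' && Nat.beq q q' &&
          Nat.beq (Nat.lor m1 m2) O && Nat.beq (Nat.land m1 m2) mg && sub mg r1 && sub mg r2 &&
          Nat.beq (Nat.lor e1 e2) y.d && Nat.beq (Nat.land e1 e2) mg' && sub mg' t1 && sub mg' t2 &&
          Nat.beq (Nat.land mg y.c) (Nat.lor p q) && Nat.beq (Nat.land mg' y.c) (Nat.lor p q) &&
          Nat.beq (Nat.land m1 y.c) (Nat.land e1 y.c) && sub m1 k.q && sub m2 k'.q &&
          dis (orL k.ls) (df O y.c) && dis (orL k'.ls) (df O y.c) then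
        some ⟨l, y.b1, y.s1,
          (x.cs.set n { k with q := Nat.lor (df k.q m1) e1, c := Nat.lor (df k.c mg) mg' }).set n'
            { k' with q := Nat.lor (df k'.q m2) e2, c := Nat.lor (df k'.c mg) mg' }⟩
      else none
    | _, _, _, _, _, _, _, _, _ => none
  | .split n t1 t2 g j =>
    match x.cs[n]?, A.evD t1, A.evD t2, A.evA g, A.evAo j with
    | some k, some (q1, c1), some (q2, c2), some (mg, _, _), some (mj, J) =>
      if Nat.beq (Nat.lor q1 q2) k.q && Nat.beq (Nat.land q1 q2) mg && sub mg c1 && sub mg c2 &&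
          sub mj mg && dis (orL k.ls) mg && (k.ls.all fun L => sub L c1 || sub L c2) &&
          x.cs.all fun k' => dis (orL k'.ls) mj then
        some { x with cs := (x.cs.set n ⟨q1, c1, J :: k.ls.filter fun L => sub L c1, k.tag⟩ ++
          [⟨q2, c2, J :: k.ls.filter fun L => !sub L c1, k.tag⟩]) }
      else none
    | _, _, _, _, _ => none

def run (A : Atoms) (fr pad : ℕ) (x : PS) : List Op → Option PS
  | [] => some x
  | o :: l => (stepOp A fr x o).bind fun y =>
      if wf fr pad y.s y.cs && sub pad y.s then run A fr pad y l else none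

/-- the meaning of a state -/
structure PS.Ok (R : ℕ → Set Z) (nd : ℕ → Option (ℕ × ℕ)) (n0 fr pad : ℕ) (x : PS) : Prop where
  ch : Chain R nd n0 x.l x.b x.s
  wf : wf fr pad x.s x.cs = true
  pad : sub pad x.s = true

/-- the move `H` carries the state `x` with pieces `b` to the state `y` with pieces `b'` -/
structure Mvd (R : ℕ → Set Z) (K : Set Z) (pad : ℕ) (x y : PS) (b b' : ℕ → ι → Set Z)
    (H : Z → Z) : Prop where
  mv : Mv K H (R x.b)
  ib : H '' R x.b = R y.b
  is : H '' R x.s = R y.s
  fix : EqOn H id (R pad)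
  im : ∀ i, H '' whole b i = whole b' i

/-! ### Distribution to the nodes -/

/-- the open sheets that end on the landing arc `L` -/
def sheets (cs : List Car) (ws : List (ℕ × ℕ)) (L : ℕ) : List ℕ :=
  ((cs.filter fun k => k.ls.contains L).map fun k => df k.q k.c) ++
    ((ws.filter fun h => sub L h.2).map fun h => df h.1 h.2)

/-- conditions at the walls of a chain; `ws` lists the discs (with rims) that carry lollipops -/
def locOk (fr : ℕ) (cs : List Car) (ws : List (ℕ × ℕ)) (l : List Stp) : Bool :=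
  let ym := orL (cs.map Car.u)
  let lands := cs.flatMap Car.ls
  let hm := orL (ws.map fun h => df h.1 h.2)
  dis ym hm && pairs (fun h h' => dis (df h.1 h.2) (df h'.1 h'.2)) ws &&
  (lands.all fun L => ws.all fun h => sub L h.2 || dis L h.2) &&
  (ws.all fun h => sub (Nat.land ym h.2) (orL lands)) &&
  l.all fun x =>
    if sub x.w fr then dis (Nat.lor ym hm) x.w
    else
      sub x.c fr && dis hm x.c && sub (Nat.land ym x.d) (Nat.land x.c (orL lands)) &&
      (lands.all fun L => dis L x.d || (sub L x.c &&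
        ((sheets cs ws L).any fun T => sub T (df (Nat.land x.s x.s1) x.d)) &&
        ((sheets cs ws L).any fun T => sub T (df (Nat.land x.s x.sw) x.d)) &&
        ws.any fun h => sub h.1 x.d && sub L h.2)) &&
      (ws.all fun h => (sub h.1 x.d && sub (df h.1 h.2) (df x.d x.c) &&
        sub (Nat.land ym h.2) x.c) || dis (df h.1 h.2) x.d) &&
      pairs (fun h h' => !(sub h.1 x.d && sub h'.1 x.d) || dis h.1 h'.1) ws &&
      ws.any fun h => sub h.1 x.d

end Pool.Agent.Lib.MP_b7d179_gt.C
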