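import Pool.Agent.Lib.MP_b7d179_gt.C.Vert
import Pool.Agent.Lib.MP_b7d179_gt.T.GP

/-! Obstacles, state descriptions, entries and exits of programs. -/

namespace Pool.Agent.Lib.MP_b7d179_gt.C

open Set

variable {Z : Type} [MetricSpace Z] {ι : Type}

/-! ### Obstacles -/

abbrev TO : Type := TD × List (TA × TD)

def obsGo (A : Atoms) (D Y : ℕ) : List (TA × TD) → Option (ℕ × ℕ)
  | [] => some (D, Y)
  | (a, t) :: l =>
    match A.evA a, A.evD t with
    | some (m, p, q), some (W, _) =>
      if Nat.beq (Nat.land m D) p && dis m Y && dis W (Nat.lor D Y) && Nat.beq (Nat.land m W) q then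
        obsGo A (Nat.lor D W) (Nat.lor Y m) l
      else none
    | _, _ => none

/-- the discs and the arcs of an obstacle -/
def evObs (A : Atoms) (o : TO) : Option (ℕ × ℕ) := (A.evD o.1).bind fun e => obsGo A e.1 0 o.2

/-! ### Descriptions of states -/

inductive Sp (α : Type)
  | fa (S D Y : α) (L0 L1 : List α)
  | di (P c : α) (L0 L1 : List α)
  | pt (L0 L1 : α)

def setsA {α : Type} (ρ : α → Set Z) (l : List α) : Set (Set Z) := {L | ∃ m ∈ l, L = ρ m}

/-- the meaning of a description -/
def Sp.St {α : Type} (ρ : α → Set Z) (rel : ι → ι → ι → Prop) (grp : ι → Bool) (a : ι → Set Z) :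
    Sp α → Prop
  | .fa S D Y L0 L1 => Fam (ρ S) (ρ D ∪ ρ Y) (fun g => setsA ρ (cond g L1 L0)) rel grp a
  | .di P c L0 L1 => FamD (ρ P) (ρ c) (fun g => setsA ρ (cond g L1 L0)) rel grp a
  | .pt L0 L1 => FamP (fun g => ρ (cond g L1 L0)) rel grp a

def mapO {α β : Type} (τ : α → Option β) : List α → Option (List β)
  | [] => some []
  | x :: l => (τ x).bind fun y => (mapO τ l).map fun l' => y :: l'

def Sp.tr {α β : Type} (τ : α → Option β) : Sp α → Option (Sp β)
  | .fa S D Y L0 L1 => (τ S).bind fun S' => (τ D).bind fun D' => (τ Y).bind fun Y' =>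
      (mapO τ L0).bind fun M0 => (mapO τ L1).map fun M1 => .fa S' D' Y' M0 M1
  | .di P c L0 L1 => (τ P).bind fun P' => (τ c).bind fun c' =>
      (mapO τ L0).bind fun M0 => (mapO τ L1).map fun M1 => .di P' c' M0 M1
  | .pt L0 L1 => (τ L0).bind fun M0 => (τ L1).map fun M1 => .pt M0 M1

/-! ### Entries -/

def eOk (s D Y : ℕ) (k : Car) : Bool :=
  sub k.q s && sub (Nat.land k.q (Nat.lor D Y)) k.c && k.ls.all fun L => sub L k.c && dis L Y

/-- the carriers into which a family of arcs is moved -/
def entry (A : Atoms) (pad s : ℕ) (sp : Sp ℕ) (ob : TO) (ts : List TD) : Option (List Car) :=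
  match sp, evObs A ob with
  | .fa S D Y L0 L1, some (D', Y') =>
    if Nat.beq S s && Nat.beq D D' && Nat.beq Y Y' && sub (Nat.lor D Y) s && sub pad D then
      match mapO A.evD ts with
      | some [(q, c)] => if L1.isEmpty && eOk s D Y ⟨q, c, L0, false⟩ then some [⟨q, c, L0, false⟩]
          else none
      | some [(q, c), (q', c')] =>
        if eOk s D Y ⟨q, c, L0, false⟩ && eOk s D Y ⟨q', c', L1, true⟩ && dis (df q c) q' &&
            dis (df q' c') q && dis (orL L0) q' && dis (orL L1) q then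
          some [⟨q, c, L0, false⟩, ⟨q', c', L1, true⟩]
        else none
      | _ => none
    else none
  | _, _ => none

/-! ### Exits -/

inductive Ex
  | fa (ob : TO) (kw : List ℕ)
  | di (t : TD) (kw : List ℕ)
  | pt (l : List (ℕ × TA × TA))

/-- the open arc of a term -/
def oArc (A : Atoms) (t : TA) : ℕ := ((A.evAo t).map Prod.snd).getD 0

/-- the pieces that go to a node -/
def Ex.pc (A : Atoms) (R : ℕ → Set Z) (b : ℕ → ι → Set Z) : Ex → ι → Set Z
  | .fa _ kw, i => ⋃ n ∈ kw, b n i
  | .di _ kw, i => ⋃ n ∈ kw, b n i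
  | .pt l, i => ⋃ e ∈ l, b e.1 i ∩ R (oArc A e.2.1)

/-- different members of `ls` lie in disjoint members of `Ms` -/
def cover (ls Ms : List ℕ) : Bool :=
  pairs (fun L L' => Ms.any fun M => Ms.any fun M' => sub L M && sub L' M' && dis M M') ls

/-- the carriers with number outside `kw` meet `sw` only in landing arcs from the list `Ls` -/
def seen (cs : List Car) (sw : ℕ) (kw Ls : List ℕ) : Bool :=
  (List.range cs.length).all fun n => kw.contains n ||
    match cs[n]? with
    | some k => sub (Nat.land k.u sw) (orL (k.ls.filter fun L => Ls.contains L))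
    | none => true

/-- the carriers `ks` take over everything in `sw` -/
def kwOk (cs ks : List Car) (kw : List ℕ) (sw : ℕ) (fl : Bool) (L0 L1 : List ℕ) : Bool :=
  (ks.all fun k => sub k.q sw && cover k.ls (cond (xor fl k.tag) L1 L0)) &&
  pairs (fun k k' => (k.tag != k'.tag) && dis (orL k.ls) (orL k'.ls)) ks &&
  seen cs sw kw (ks.flatMap Car.ls)

def exOk (A : Atoms) (cs : List Car) (sw : ℕ) (fl : Bool) : Sp ℕ → Ex → Bool
  | .fa S D Y L0 L1, .fa ob kw =>
    match evObs A ob, mapO (fun n => cs[n]?) kw with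
    | some (D', Y'), some ks =>
      Nat.beq S sw && Nat.beq D D' && Nat.beq Y Y' && sub (Nat.lor D Y) sw &&
        kwOk cs ks kw sw fl L0 L1 &&
        ks.all fun k => sub (Nat.land k.q (Nat.lor D Y)) k.c && sub (orL k.ls) D && dis (orL k.ls) Y
    | _, _ => false
  | .di P c L0 L1, .di t kw =>
    match A.evD t, mapO (fun n => cs[n]?) kw with
    | some (P', c'), some ks =>
      Nat.beq P P' && Nat.beq c c' && kwOk cs ks kw sw fl L0 L1 &&
        ks.all fun k => sub k.q P && dis (df k.q k.c) c && sub (orL k.ls) c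
    | _, _ => false
  | .pt L0 L1, .pt l =>
    match mapO (fun e : ℕ × TA × TA => cs[e.1]?.map fun k => (k, oArc A e.2.1)) l with
    | some ks =>
      (ks.all fun e => e.1.ls.contains e.2 && sub e.2 sw && sub e.2 (cond (xor fl e.1.tag) L1 L0)) &&
      pairs (fun e e' => (e.1.tag != e'.1.tag) && dis e.2 e'.2) ks &&
      seen cs sw [] (ks.map Prod.snd) &&
      l.all fun e => (A.evAo e.2.1).isSome &&
        match A.evA e.2.2, cs[e.1]? with
        | some (m, _, _), some k => sub (cond (xor fl k.tag) L1 L0) m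
        | _, _ => false
    | none => false
  | _, _ => false

/-- every disc of `ws` lies in `s` or its inside misses `s` -/
def wsOk (ws : List (ℕ × ℕ)) (s : ℕ) : Bool := ws.all fun h => sub h.1 s || dis (df h.1 h.2) s

/-- the lollipops on the discs of `ws` that lie in `s` -/
def lam (ws : List (ℕ × ℕ)) (Λ : ℕ × ℕ → Set Z) (s : ℕ) : Set Z :=
  ⋃ h ∈ ws, ⋃ _ : sub h.1 s = true, Λ h

/-! ### The first normal form -/

/-- arcs without control; an arc with both ends on one hole separates two other holes -/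
structure Raw (S Ob : Set Z) (Ls hs : Set (Set Z)) (a : ι → Set Z) (p q : ι → Z) : Prop where
  arcs : Arcs S Ob univ a p q
  land : ∀ i, (∃ L ∈ Ls, p i ∈ L) ∧ ∃ L ∈ Ls, q i ∈ L
  ess : ∀ i, Lands Ls (p i) (q i) ∨ ∃ W ∈ hs, ∃ W₁ ∈ hs, ∃ W₂ ∈ hs, W₁ ≠ W ∧ W₂ ≠ W ∧ p i ∈ W ∧
    q i ∈ W ∧ ∀ Y, IsPreconnected Y → Y ⊆ S \ (W ∪ a i) → Disjoint Y W₁ ∨ Disjoint Y W₂

/-- `k` empty cells are taken off -/
def peel (fr ob : ℕ) : ℕ → PS → Option PS
  | 0, x => some x
  | k + 1, x =>
    match x.l with
    | y :: l => if sub y.w fr && sub ob y.s1 then peel fr ob k ⟨l, y.b1, y.s1, x.cs⟩ else none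
    | [] => none

/-- the obstacle grows by cells `d` that are cleared across `g` into `e` -/
def grow (A : Atoms) (fr s ls : ℕ) (ob : ℕ) : List (TD × TD × TA) → Option ℕ
  | [] => some ob
  | (d, e, g) :: l =>
    match A.evD d, A.evD e, A.evAo g with
    | some (D, c), some (E, c'), some (mg, og) =>
      if Nat.beq (Nat.land D E) mg && sub mg c && sub mg c' && sub (Nat.lor D E) s &&
          sub (Nat.lor D E) fr && sub (df c og) ob && dis c ls &&
          dis (orL [df D c, df E c', og]) ob then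
        grow A fr s ls (Nat.lor ob D) l
      else none
    | _, _, _ => none

/-- a seam: mask, ends, landing arc (closed and open) -/
def seam (A : Atoms) (t : TA × TA) : Option ((ℕ × ℕ × ℕ) × ℕ × ℕ) :=
  (A.evA t.1).bind fun g => (A.evAo t.2).map fun j => (g, j)

/-- the two carriers on both sides of the seams -/
def seams (A : Atoms) (s ob : ℕ) (ls hs : List ℕ) (holes : List TD) (o1 o2 : TD)
    (sm : List (TA × TA)) : Option (List Car) :=
  match mapO A.evD holes, A.evD o1, A.evD o2, mapO (seam A) sm with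
  | some hl, some (q1, c1), some (q2, c2), some gs =>
    let G := orL (gs.map fun g => g.1.1)
    let js := gs.map fun g => g.2.2
    if Nat.beq (orL (hl.map Prod.fst)) ob && pairs (fun h h' => dis h.1 h'.1) hl &&
        Nat.beq (orL [q1, q2, ob]) s && Nat.beq (Nat.land q1 q2) G &&
        pairs (fun g g' => dis g.1.1 g'.1.1) gs &&
        (gs.all fun g => sub g.1.1 (Nat.land c1 c2) && sub g.2.1 g.1.1 &&
          Nat.beq (Nat.land g.1.1 ob) (Nat.lor g.1.2.1 g.1.2.2)) &&
        sub (Nat.lor c1 c2) (Nat.lor G ob) && sub (Nat.land q1 ob) c1 && sub (Nat.land q2 ob) c2 &&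
        (hl.all fun h => gs.any fun g => sub g.1.2.1 h.1 || sub g.1.2.2 h.1) &&
        dis (orL ls) G &&
        (ls.all fun L => (sub L c1 && dis L c2) || (sub L c2 && dis L c1)) &&
        (hs.all fun W => (hl.map Prod.fst).contains W) &&
        pairs (fun W W' => gs.any fun g => (sub g.1.2.1 W && sub g.1.2.2 W') ||
          (sub g.1.2.1 W' && sub g.1.2.2 W)) hs then
      some [⟨q1, c1, (ls.filter fun L => sub L c1) ++ js, false⟩,
        ⟨q2, c2, (ls.filter fun L => !sub L c1) ++ js, false⟩]
    else none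
  | _, _, _, _ => none

structure Ini where
  k : ℕ
  gr : List (TD × TD × TA)
  holes : List TD
  o1 : TD
  o2 : TD
  sm : List (TA × TA)

def initRun (A : Atoms) (fr pad ob : ℕ) (ls hs : List ℕ) (x : PS) (c : Ini) : Option PS :=
  (peel fr ob c.k x).bind fun y => (grow A fr y.s (orL ls) ob c.gr).bind fun ob' =>
    (seams A y.s ob' ls hs c.holes c.o1 c.o2 c.sm).bind fun cs =>
      if sub pad ob && sub ob x.s && sub (orL hs) ob && wf fr pad y.s cs && sub pad y.s then
        some { y with cs := cs } else none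

end Pool.Agent.Lib.MP_b7d179_gt.C
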