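import Pool.Agent.Lib.MP_b7d179_gt.C.Sep

/-! Separation by crosscuts. -/

namespace Pool.Agent.Lib.MP_b7d179_gt.C

open Set Metric

/-- a radial shrink of the unit disc near a closed part of the circle -/
theorem sepC_unit {P Y : Set ℂ} (hY : IsClosed Y) (hn : Y.Nonempty) (hs : Y ⊆ sphere 0 1)
    (hP : IsCompact P) (hb : P ⊆ closedBall 0 1) (hd : Disjoint P Y) :
    ∃ f : ℂ → ℂ, Emb f (closedBall 0 1) ∧ f '' closedBall 0 1 ⊆ closedBall 0 1 ∧
      P ⊆ f '' closedBall 0 1 ∧ Disjoint (f '' closedBall 0 1) Y := by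
  obtain ⟨δ, d0, d1⟩ := hP.exists_forall_le' (continuous_infDist_pt Y).continuousOn
    fun w hw => (hY.notMem_iff_infDist_pos hn).1 (disjoint_left.1 hd hw)
  let ε := min δ (1 / 2)
  have e0 : 0 < ε := lt_min d0 (by norm_num)
  have e1 : ε ≤ 1 / 2 := min_le_right _ _
  let R : ℂ → ℝ := fun z => min 1 (1 - ε + infDist (‖z‖⁻¹ • z) Y)
  have r0 : ∀ z, 0 < R z := fun z => lt_min one_pos (by linarith [infDist_nonneg (x := ‖z‖⁻¹ • z) (s := Y)])
  have r1 : ∀ z, R z ≤ 1 := fun z => min_le_left _ _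
  have r2 : ∀ (t : ℝ) z, 0 < t → R (t • z) = R z := fun t z ht => by
    simp only [R]
    rw [norm_smul, Real.norm_of_nonneg ht.le, smul_smul, mul_inv_rev, inv_mul_cancel_right₀ ht.ne']
  have r3 : ∀ z, ‖R z • z‖ = R z * ‖z‖ := fun z => by rw [norm_smul, Real.norm_of_nonneg (r0 z).le]
  have r4 : ∀ z, ‖R z • z‖ ≤ ‖z‖ := fun z => by
    rw [r3]
    exact mul_le_of_le_one_left (norm_nonneg z) (r1 z)
  refine ⟨fun z => R z • z, ⟨fun z _ => ContinuousAt.continuousWithinAt ?_, fun z _ w _ e => ?_⟩,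
    ?_, fun w hw => ⟨(R w)⁻¹ • w, ?_, ?_⟩, disjoint_left.2 ?_⟩
  · by_cases h : z = 0
    · subst h
      rw [ContinuousAt, smul_zero]
      exact squeeze_zero_norm r4 tendsto_norm_zero
    · refine ContinuousAt.smul (continuousAt_const.min (continuousAt_const.add
        ((continuous_infDist_pt Y).continuousAt.comp ?_))) continuousAt_id
      exact (continuous_norm.continuousAt.inv₀ (norm_ne_zero_iff.2 h)).smul continuousAt_id
  · have e' : R z • z = R w • w := e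
    have k : R z = R w := by rw [← r2 _ z (r0 z), e', r2 _ w (r0 w)]
    rw [k] at e'
    exact smul_right_injective _ (r0 w).ne' e'
  · rintro _ ⟨z, hz, rfl⟩
    exact mem_closedBall_zero_iff.2 ((r4 z).trans (mem_closedBall_zero_iff.1 hz))
  · have w1 := mem_closedBall_zero_iff.1 (hb hw)
    have w2 : dist w (‖w‖⁻¹ • w) ≤ 1 - ‖w‖ := by
      by_cases h : w = 0
      · simp [h]
      · have p := norm_pos_iff.2 h
        rw [dist_comm, dist_eq_norm, show ‖w‖⁻¹ • w - w = (‖w‖⁻¹ - 1) • w by rw [sub_smul, one_smul],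
          norm_smul, Real.norm_of_nonneg (sub_nonneg.2 ((one_le_inv₀ p).2 w1)), sub_mul,
          inv_mul_cancel₀ p.ne', one_mul]
    have w3 : ‖w‖ ≤ R w := le_min w1 (by
      linarith [d1 w hw, infDist_le_infDist_add_dist (x := w) (y := ‖w‖⁻¹ • w) (s := Y),
        min_le_left δ (1 / 2)])
    rw [mem_closedBall_zero_iff, norm_smul, Real.norm_of_nonneg (inv_pos.2 (r0 w)).le]
    exact (inv_mul_le_one₀ (r0 w)).2 w3
  · simp only [r2 _ w (inv_pos.2 (r0 w))]
    exact smul_inv_smul₀ (r0 w).ne' w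
  · rintro _ ⟨z, hz, rfl⟩ hy
    have y1 : ‖R z • z‖ = 1 := mem_sphere_zero_iff_norm.1 (hs hy)
    have y2 : R (R z • z) ≤ 1 - ε := (min_le_right _ _).trans (by
      rw [y1, inv_one, one_smul, infDist_zero_of_mem hy, add_zero])
    rw [r2 _ z (r0 z)] at y2
    rw [r3] at y1
    have := mul_le_of_le_one_right (r0 z).le (mem_closedBall_zero_iff.1 hz)
    linarith

variable {Z : Type} [MetricSpace Z] {ι : Type}

variable {S O O' Q c k s s' a a' b b' P Y D I L : Set Z} {p q p' q' x y e e' e₀ : Z}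

/-- a smaller disc that avoids a closed part of the rim -/
theorem subdisc (hQ : Disc Q c) (hY : IsClosed Y) (hYc : Y ∩ Q ⊆ c) (hP : IsCompact P) (hs : P ⊆ Q)
    (hd : Disjoint P Y) : ∃ Q' c', Disc Q' c' ∧ P ⊆ Q' ∧ Q' ⊆ Q ∧ Disjoint Q' Y := by
  rcases (Y ∩ Q).eq_empty_or_nonempty with h | h
  · exact ⟨Q, c, hQ, hs, subset_rfl, (disjoint_iff_inter_eq_empty.2 h).symm⟩
  obtain ⟨φ, ψ, e1, e2, i1, -, i3, i4, j1, -, j3⟩ := hQ.chart
  obtain ⟨f, f1, f2, f3, f4⟩ := sepC_unit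
    (e2.compact inter_subset_right (hQ.compact.inter_left hY)).isClosed (h.image ψ)
    (i4 ▸ image_mono hYc) (e2.compact hs hP) (i3 ▸ image_mono hs)
    (e2.disjoint hs inter_subset_right (hd.mono_right inter_subset_left))
  refine ⟨φ '' (f '' closedBall 0 1), _, (disc_unit.image f1 subset_rfl).image e1 f2,
    j3 P hs ▸ image_mono f3, i1 ▸ image_mono f2, disjoint_left.2 ?_⟩
  rintro _ ⟨z, hz, rfl⟩ hy
  exact disjoint_left.1 f4 hz ⟨φ z, ⟨hy, i1 ▸ mem_image_of_mem φ (f2 hz)⟩, j1 z (f2 hz)⟩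

/-- a cell is cleared across a crosscut -/
theorem grow_cell {u v g E X : Set Z} (h : Cut O c u v g D E x y) (hX : IsClosed X)
    (hd : Disjoint X u) : ∃ F, Sup F O c ∧ Disjoint (F '' X) D := by
  obtain ⟨g', D', E', k, d⟩ := bite0 h.disc h.two hX hd
  obtain ⟨F, f1, f2⟩ := mc1 h.disc k.cc h.cc
  have k' := f1.cut k
  rw [f2] at k'
  refine ⟨F, f1, ?_⟩
  rw [(h.unique k').1]
  exact disjoint_image_of_injective (f1.injective h.disc) d.symm

end Pool.Agent.Lib.MP_b7d179_gt.C
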