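import Pool.Agent.Lib.MP_b7d179_gt.C.Obs
import Pool.Agent.Lib.MP_b7d179_gt.C.SepC
import Pool.Agent.Lib.MP_b7d179_gt.G.KitA

/-! Obstacles: thickening, retraction into carriers, separation. -/

namespace Pool.Agent.Lib.MP_b7d179_gt.C

open Set

variable {Z : Type} [MetricSpace Z] {ι : Type}

variable {S D Y X W w W' w' a a' s Q c : Set Z} {p q p' q' x y : Z}

open Metric in
/-- a subdisc of the unit disc that meets the circle in a given compact set -/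
lemma ObsB_unit {P : Set ℂ} (hP : IsCompact P) (hn : P.Nonempty) (hs : P ⊆ sphere 0 1) :
    ∃ Q' c', Disc Q' c' ∧ Q' ⊆ closedBall 0 1 ∧ P ⊆ c' ∧ Q' ∩ sphere 0 1 ⊆ P := by
  have b : ∀ e ∈ sphere (0 : ℂ) 1, 0 < 1 - infDist e P / 4 := fun e m => by
    obtain ⟨x, hx⟩ := hn
    have h1 := (infDist_le_dist_of_mem (x := e) hx).trans (dist_triangle_right e x 0)
    rw [mem_sphere.1 m, mem_sphere.1 (hs hx)] at h1
    linarith
  have n : ∀ e ∈ sphere (0 : ℂ) 1, ∀ r : ℝ, 0 ≤ r → ‖(r : ℂ) * e‖ = r := fun e m r h => by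
    rw [norm_mul, mem_sphere_zero_iff_norm.1 m, mul_one, Complex.norm_real, Real.norm_of_nonneg h]
  refine ⟨_, _, Gm.disc_star (R := fun e => 1 - infDist e P / 4) (by fun_prop) b, ?_,
    fun e m => ⟨e, hs m, by simp [infDist_zero_of_mem m]⟩, ?_⟩
  · rintro _ ⟨e, m, r, hr, rfl⟩
    rw [mem_closedBall_zero_iff, n e m r hr.1]
    linarith [hr.2, infDist_nonneg (x := e) (s := P)]
  · rintro _ ⟨⟨e, m, r, hr, rfl⟩, k⟩
    rw [mem_sphere_zero_iff_norm, n e m r hr.1] at k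
    subst k
    rw [Complex.ofReal_one, one_mul]
    exact (hP.isClosed.mem_iff_infDist_zero hn).2
      (le_antisymm (by linarith [hr.2]) infDist_nonneg)

/-- a subdisc that meets the rim in a given finite set -/
lemma ObsB_shrink {P : Set Z} (hQ : Disc Q c) (hP : P.Finite) (hs : P ⊆ c) :
    ∃ Q' c', Disc Q' c' ∧ Q' ⊆ Q ∧ P ⊆ c' ∧ Q' ∩ c ⊆ P := by
  rcases P.eq_empty_or_nonempty with rfl | hn
  · obtain ⟨W, w, d, s, -⟩ := hQ.inner isCompact_empty (empty_subset _)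
    exact ⟨W, w, d, s.trans sdiff_subset, empty_subset _, fun x m => (s m.1).2 m.2⟩
  obtain ⟨φ, ψ, e, -, i, j, -, j', -, -, k⟩ := hQ.chart
  obtain ⟨Q', c', d, s, u, v⟩ := ObsB_unit (hP.image ψ).isCompact (hn.image ψ)
    (j' ▸ image_mono hs)
  have kP := k P (hs.trans hQ.rim_sub)
  refine ⟨φ '' Q', φ '' c', d.image e s, i ▸ image_mono s, kP ▸ image_mono u, ?_⟩
  rw [← j, ← e.inter s Metric.sphere_subset_closedBall, ← kP]
  exact image_mono v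

/-- the disc outside a thin neighbourhood of the obstacle -/
lemma ObsB_core (hS : Sph S) (ho : Obs S D Y) {t : Set ι} {a : ι → Set Z} {p q : ι → Z}
    (h : Arcs S (D ∪ Y) t a p q) (hY : ∀ i ∈ t, p i ∉ Y ∧ q i ∉ Y) (hX : IsClosed X)
    (hd : Disjoint X Y) : ∃ E e, Disc E e ∧ E ⊆ S ∧ Disjoint (E \ e) (D ∪ Y) ∧ Sys E e t a p q ∧
      ∀ Q c, Disc Q c → Q ⊆ S → Q ⊆ X → Q ∩ D ⊆ c → Q ⊆ E := by
  obtain ⟨T, e, dT, sT, oT, xT⟩ := ho.thick hS (hX.union (h.fin.isClosed_biUnion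
    fun i m => (h.arc i m).closed)) (disjoint_union_left.2 ⟨hd, disjoint_iUnion₂_left.2
      fun i m => disjoint_left.2 fun z u v => by
        rcases (h.inter i m).le ⟨u, Or.inr v⟩ with rfl | rfl
        exacts [(hY i m).1 v, (hY i m).2 v]⟩)
  obtain ⟨E, hE⟩ := hS.compl dT sT
  have out : ∀ {A B : Set Z}, A ⊆ S → A ∩ T ⊆ B → closure (A \ B) ⊆ E := fun s k =>
    closure_minimal (fun z m => (hE.union.ge (s m.1)).resolve_left fun u => m.2 (k ⟨m.1, u⟩))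
      hE.d2.closed
  refine ⟨E, e, hE.d2, hE.sub2, disjoint_left.2 fun z m u => m.2 (hE.inter.le ⟨oT u, m.1⟩),
    ⟨h.fin, fun i m => ?_, h.disj⟩, fun Q c dQ s x k => dQ.dense.trans
      (out s fun z m => k ⟨m.1, xT ⟨m.2, Or.inl (x m.1)⟩⟩)⟩
  have k : a i ∩ T ⊆ {p i, q i} := fun z u => (h.inter i m).le
    ⟨u.1, Or.inl (xT ⟨u.2, Or.inr (mem_iUnion₂.2 ⟨i, m, u.1⟩)⟩)⟩
  have s : a i ⊆ E := ((h.arc i m).dense (toFinite _)).trans (out (h.sub i m) k)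
  exact ⟨h.arc i m, s, Subset.antisymm (fun z u => k ⟨u.1, dT.rim_sub u.2⟩) fun z u =>
    ⟨(h.arc i m).ends u, hE.inter.le ⟨oT ((h.inter i m).ge u).2, s ((h.arc i m).ends u)⟩⟩⟩

lemma ObsB_ends {t : Set ι} (ht : t.Finite) {p q : ι → Z} (hQ : Disc Q c) (hi : Q ∩ (D ∪ Y) ⊆ c)
    (he : ∀ i ∈ t, p i ∈ c \ X ∧ q i ∈ c \ X) : ∃ Q' c', Disc Q' c' ∧ Q' ⊆ Q ∧
      (∀ i ∈ t, p i ∈ c' ∧ q i ∈ c') ∧ Q' ∩ D ⊆ c' ∧ Disjoint (Q' ∩ c) X := by
  have s : p '' t ∪ q '' t ⊆ c \ X := union_subset (forall_mem_image.2 fun i m => (he i m).1)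
    (forall_mem_image.2 fun i m => (he i m).2)
  obtain ⟨Q', c', d, u, v, w⟩ := ObsB_shrink hQ ((ht.image p).union (ht.image q))
    (s.trans sdiff_subset)
  exact ⟨Q', c', d, u, fun i m => ⟨v (Or.inl ⟨i, m, rfl⟩), v (Or.inr ⟨i, m, rfl⟩)⟩,
    fun z m => v (w ⟨m.1, hi ⟨u m.1, Or.inl m.2⟩⟩), disjoint_left.2 fun z m => (s (w m)).2⟩

theorem ob_retract1 (hS : Sph S) (ho : Obs S D Y) {t : Set ι} {a : ι → Set Z} {p q : ι → Z}
    (h : Arcs S (D ∪ Y) t a p q) (hQ : Disc Q c) (hs : Q ⊆ S) (hi : Q ∩ (D ∪ Y) ⊆ c)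
    (he : ∀ i ∈ t, p i ∈ c \ Y ∧ q i ∈ c \ Y) :
    ∃ F, Iso S (D ∪ Y) F ∧ ∀ i ∈ t, Cc Q c (F '' a i) (p i) (q i) := by
  obtain ⟨Q', c', d, u, v, w, x⟩ := ObsB_ends h.fin hQ hi he
  obtain ⟨E, e, dE, sE, dj, sy, k⟩ := ObsB_core hS ho h (fun i m => ⟨(he i m).1.2, (he i m).2.2⟩)
    d.closed (disjoint_left.2 fun z m m' => disjoint_left.1 x ⟨m, hi ⟨u m, Or.inr m'⟩⟩ m')
  obtain ⟨F, f, g⟩ := retract dE d (k _ _ d (u.trans hs) subset_rfl w) sy v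
  exact ⟨F, f.iso dE sE dj, fun i m => Sys_up hQ d u (g i m) (he i m).1.1 (he i m).2.1⟩

theorem ob_retract2 (hS : Sph S) (ho : Obs S D Y) {t : Set ι} {a : ι → Set Z} {p q : ι → Z}
    (h : Arcs S (D ∪ Y) t a p q) {Q c : Bool → Set Z} {g : ι → Bool}
    (hQ : ∀ k, Disc (Q k) (c k) ∧ Q k ⊆ S ∧ Q k ∩ (D ∪ Y) ⊆ c k ∧ Disjoint (Q k \ c k) (Q (!k)))
    (he : ∀ i ∈ t, p i ∈ c (g i) \ (Y ∪ Q (!g i)) ∧ q i ∈ c (g i) \ (Y ∪ Q (!g i))) :
    ∃ F, Iso S (D ∪ Y) F ∧ ∀ i ∈ t, Cc (Q (g i)) (c (g i)) (F '' a i) (p i) (q i) := by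
  have fin : ∀ k, {i ∈ t | g i = k}.Finite := fun k => h.fin.subset (sep_subset _ _)
  choose Q' c' d u v w x using fun k => ObsB_ends (p := p) (q := q) (X := Y ∪ Q (!k)) (fin k)
    (hQ k).1 (hQ k).2.2.1 fun i m => m.2 ▸ he i m.1
  have y : ∀ k, Disjoint (Q' k) Y := fun k => disjoint_left.2 fun z m m' =>
    disjoint_left.1 (x k) ⟨m, (hQ k).2.2.1 ⟨u k m, Or.inr m'⟩⟩ (Or.inl m')
  have dq : ∀ k, Disjoint (Q' k) (Q' (!k)) := fun k => disjoint_left.2 fun z m m' => by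
    by_cases e : z ∈ c k
    exacts [disjoint_left.1 (x k) ⟨m, e⟩ (Or.inr (u _ m')),
      disjoint_left.1 (hQ k).2.2.2 ⟨u k m, e⟩ (u _ m')]
  obtain ⟨E, e, dE, sE, dj, sy, k⟩ := ObsB_core hS ho h
    (fun i m => ⟨fun z => (he i m).1.2 (Or.inl z), fun z => (he i m).2.2 (Or.inl z)⟩)
    (isClosed_iUnion_of_finite fun k => (d k).closed) (disjoint_iUnion_left.2 y)
  choose F f hF using fun l => retract dE (d l) (k _ _ (d l) ((u l).trans (hQ l).2.1)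
    (subset_iUnion Q' l) (w l)) (⟨fin l, fun i m => sy.cc i m.1, sy.disj.subset (sep_subset _ _)⟩ :
      Sys E e {i ∈ t | g i = l} a p q) (v l)
  obtain ⟨G, hG, eG⟩ := mc_sup (a' := fun i => F (g i) '' a i) dE sy ⟨h.fin,
    fun i m => (f _).cc dE (sy.cc i m), fun i m j m' ne => by
      show Disjoint (F (g i) '' a i) (F (g j) '' a j)
      by_cases e : g j = g i
      · rw [e]
        exact ((f _).sys dE sy).disj m m' ne
      · exact (dq (g i)).mono (hF _ i ⟨m, rfl⟩).sub (hF _ j ⟨m', Bool.eq_not_of_ne e⟩ |>.sub.trans'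
          (by rw [← Bool.eq_not_of_ne e]))⟩
  exact ⟨G, hG.iso dE sE dj, fun i m => (eG i m).symm ▸ Sys_up (hQ _).1 (d _) (u _)
    (hF _ i ⟨m, rfl⟩) (he i m).1.1 (he i m).2.1⟩

end Pool.Agent.Lib.MP_b7d179_gt.C
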