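import Pool.Agent.Lib.MP_b7d179_gt.C.OpPop

/-! Carriers: pushes. -/

namespace Pool.Agent.Lib.MP_b7d179_gt.C

open Set

variable {Z : Type} [MetricSpace Z] {ι : Type}

/-- two discs that meet in an arc of both rims cut their union -/
theorem popB_cut {O C M1 r1 M2 r2 G : Set Z} {P Q : Z} (hO : Disc O C) (h1 : Disc M1 r1)
    (h2 : Disc M2 r2) (hg : Arc G P Q) (u : M1 ∪ M2 = O) (i : M1 ∩ M2 = G) (s1 : G ⊆ r1)
    (s2 : G ⊆ r2) : ∃ u v, Cut O C u v G M1 M2 P Q := by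
  obtain ⟨a, t1⟩ := h1.two_of_arc hg s1
  obtain ⟨b, t2⟩ := h2.two_of_arc hg s2
  have k := h1.glue h2 t1.symm t2.symm i
  rw [u] at k
  exact ⟨a, b, hO.rim_unique k.disc ▸ k⟩

theorem popB_other {c u v v' : Set Z} {p q : Z} (h : Two c u v p q) (h' : Two c u v' p q) :
    v' = v := by
  refine (h.unique h'.a2 h'.sub2).resolve_left fun e => ?_
  obtain ⟨z, hz, hn⟩ := h.a1.exists_notMem (toFinite {p, q})
  exact hn (h'.inter.le ⟨hz, e.ge hz⟩)

/-- two cut discs with the same rim data are homeomorphic, fixing the rim -/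
theorem popB_map {O D C u v u' v' G G' M1 M2 E1 E2 : Set Z} {P Q : Z}
    (h : Cut O C u v G M1 M2 P Q) (h' : Cut D C u' v' G' E1 E2 P Q) (e : M1 ∩ C = E1 ∩ C) :
    ∃ φ : Z → Z, Emb φ O ∧ φ '' O = D ∧ EqOn φ id C ∧ φ '' G = G' ∧ φ '' M1 = E1 ∧
      φ '' M2 = E2 := by
  obtain rfl : u' = u := by rw [← h.inter_rim, ← h'.inter_rim, e]
  obtain rfl := popB_other h.two h'.two
  obtain ⟨ψ, eψ, iψ, qψ⟩ := h.disc.cone h'.disc (emb_id C) (image_id C)
  have k := h.image eψ subset_rfl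
  rw [iψ, qψ.image_eq, (qψ.mono h.two.sub1).image_eq, (qψ.mono h.two.sub2).image_eq,
    qψ h.cc.left, qψ h.cc.right] at k
  simp only [image_id', id] at k
  obtain ⟨F, hF, iF⟩ := mc1 h'.disc k.cc h'.cc
  have k' := hF.cut k
  rw [iF] at k'
  refine ⟨F ∘ ψ, hF.emb.comp eψ iψ.le, by rw [image_comp, iψ, hF.img], fun z hz => ?_,
    by rw [image_comp, iF], by rw [image_comp, (k'.unique h').1],
    by rw [image_comp, (k'.unique h').2]⟩
  rw [Function.comp_apply, qψ hz]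
  exact hF.fix z fun m => m.2 hz

/-- one carrier that contains one half of the outer disc -/
theorem popB_car {O C u v G M1 M2 q c q' G' E1 T : Set Z} {P Q : Z} {H : Z → Z}
    (h : Cut O C u v G M1 M2 P Q) (hq : Disc q c) (s1 : M1 ⊆ q) (s2 : M2 ⊆ q')
    (d : Disjoint (q \ c) q') (hT : q \ M1 ⊆ T) (hC : C ⊆ T) (fix : EqOn H id T)
    (i1 : H '' M1 = E1) (iG : H '' G = G') :
    (q \ M1) ∪ E1 = H '' q ∧ (c \ G) ∪ G' = H '' c := by
  have gc : G ⊆ c := fun z hz => by_contra fun m =>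
    disjoint_left.1 d ⟨s1 (h.inter.ge hz).1, m⟩ (s2 (h.inter.ge hz).2)
  have ct : c \ G ⊆ T := fun z hz => by
    by_cases m : z ∈ M1
    · exact hC (h.two.sub1 ((by_contra fun m' => (hq.sub_int h.d1 s1 ⟨m, m'⟩).2 hz.1 :
        z ∈ u ∪ G).resolve_right hz.2))
    · exact hT ⟨hq.rim_sub hz.1, m⟩
  constructor
  · rw [← i1, ← (image_id (q \ M1)), ← (fix.mono hT).image_eq, ← image_union,
      sdiff_union_of_subset s1]
  · rw [← iG, ← (image_id (c \ G)), ← (fix.mono ct).image_eq, ← image_union,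
      sdiff_union_of_subset gc]

variable [Finite ι] {A : Atoms} {R : ℕ → Set Z} {nd : ℕ → Option (ℕ × ℕ)} {n0 fr pad : ℕ}
  {K : Set Z} {𝒞 : Set (Set ι)} {rel : ι → ι → ι → Prop} {grp : ι → Bool} {x y : PS}
  {b : ℕ → ι → Set Z}

/-- transport of carriers and pieces along an embedding that fixes the landing arcs -/
theorem popB_cs (hR : Rl R) {cs cs' : List Car} (h : CS R 𝒞 rel grp cs b) {S : Set Z} {H : Z → Z}
    (hS : IsCompact S) (hH : Emb H S) (len : cs'.length = cs.length)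
    (hk : ∀ (m : ℕ) (k' : Car), cs'[m]? = some k' → ∃ k : Car, cs[m]? = some k ∧ R k.q ⊆ S ∧
      R k'.q = H '' R k.q ∧ R k'.c = H '' R k.c ∧ k'.ls = k.ls ∧ k'.tag = k.tag ∧
      ∀ L ∈ k.ls, EqOn H id (R L) ∧ R L ⊆ S) :
    CS R 𝒞 rel grp cs' fun m i => H '' b m i := by
  have bs : ∀ m i, b m i ⊆ S := fun m i => by
    by_cases hm : m < cs'.length
    · obtain ⟨k, e, s, -⟩ := hk m _ (List.getElem?_eq_getElem hm)
      exact (h.sub_u hR e i).2.trans s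
    · rw [h.nil m i (len ▸ not_lt.1 hm)]
      exact empty_subset _
  have tt : ∀ m T L, EqOn H id L → L ⊆ S →
      tot T (fun i => H '' b m i) ∩ L = H '' (tot T (b m) ∩ L) := fun m T L e s => by
    rw [tot, tot, hH.inter (iUnion₂_subset fun i _ => bs m i) s, e.image_eq, image_id,
      image_iUnion₂]
  refine ⟨fun k' hk' => ?_, fun m i hm => by rw [h.nil m i (len ▸ hm), image_empty],
    fun m k' e i => ?_, fun m i j ne => hH.disjoint (bs m i) (bs m j) (h.dj m ne),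
    fun m m' k1 k2 e e' L h1 h2 T hT => ?_, fun m k' e i j s r => ?_⟩
  · obtain ⟨m, e⟩ := List.mem_iff_getElem?.1 hk'
    obtain ⟨k, e, s, e1, e2, -⟩ := hk m k' e
    rw [e1, e2]
    exact (h.disc k (List.mem_of_getElem? e)).image hH s
  · obtain ⟨k, e, s, e1, e2, e3, e4, f⟩ := hk m k' e
    rcases h.cc m k e i with h0 | ⟨t, p, q, cc, L, hL, L', hL', ne, hp, hq⟩
    · exact Or.inl (by rw [h0, image_empty])
    · have k := cc.image (h.disc k (List.mem_of_getElem? e)).rim_sub hH s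
      rw [(f L hL).1 hp, (f L' hL').1 hq, ← e1, ← e2] at k
      exact Or.inr ⟨t.trans e4.symm, p, q, k, L, e3 ▸ hL, L', e3 ▸ hL', ne, hp, hq⟩
  · obtain ⟨k, e, -, -, -, e3, -, f⟩ := hk m k1 e
    obtain ⟨k', e', -, -, -, e3', -⟩ := hk m' k2 e'
    rw [e3] at h1
    rw [e3'] at h2
    rw [tt m T _ (f L h1).1 (f L h1).2, tt m' T _ (f L h1).1 (f L h1).2,
      h.bal m m' k k' e e' L h1 h2 T hT]
  · obtain ⟨k, e, s', e1, e2, -⟩ := hk m k' e
    rw [e1, e2, ← hH.diff s' ((h.disc k (List.mem_of_getElem? e)).rim_sub.trans s')]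
    exact (h.sep m k e i j s r).image hS hH (sdiff_subset.trans s') (bs _ _) (bs _ _) (bs _ _)

theorem op_popP {n n' : ℕ} {g g' : TA} {o1 o2 d1 d2 : TD} (hA : A.Ok R Ball) (hn : NdB R nd) (hK : IsClosed K) (hf : Disjoint (R fr) K)
    (hx : x.Ok R nd n0 fr pad) (h : CS R 𝒞 rel grp x.cs b)
    (e : stepOp A fr x (.popP n n' g g' o1 o2 d1 d2) = some y) (hw : wf fr pad y.s y.cs = true) (hp : sub pad y.s = true) :
    ∃ b' H, y.Ok R nd n0 fr pad ∧ CS R 𝒞 rel grp y.cs b' ∧ Mvd R K pad x y b b' H := by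
  have hR := hA.rl
  obtain ⟨xl, xb, xs, cs⟩ := x
  simp only [stepOp] at e
  split at e
  swap
  · cases e
  rename_i z l k k' mg p q mg' p' q' m1 r1 m2 r2 e1 t1 e2 t2 ek ek' eg eg' eo1 eo2 ed1 ed2
  split at e
  swap
  · cases e
  rename_i ck
  cases e
  simp only [Bool.and_eq_true, Bool.not_eq_true'] at ck
  obtain ⟨⟨⟨⟨⟨⟨⟨⟨⟨⟨⟨⟨⟨⟨⟨⟨⟨⟨c1, c2⟩, c3⟩, c4⟩, c5⟩, c6⟩, c7⟩, c8⟩, c9⟩, c10⟩, c11⟩, c12⟩, -⟩, -⟩, c15⟩,
    c16⟩, c17⟩, c18⟩, c19⟩ := ck
  have ne : n ≠ n' := Nat.ne_of_beq_eq_false c2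
  obtain rfl := Nat.eq_of_beq_eq_true c3
  obtain rfl := Nat.eq_of_beq_eq_true c4
  have ch := hx.ch
  have xw := wf_facts hR hx.wf
  have xp := hR.sub hx.pad
  have yw := wf_facts hR hw
  have yp := hR.sub hp
  simp only at ch xw xp yw yp h
  cases ch with
  | step ch1 en gl => ?_
  have b1 := ch1.ball hn
  have bW := hn _ _ _ en
  obtain ⟨th, eS, -, -, -, -, eC⟩ := gl.th b1 bW
  obtain ⟨P, Q, ag, eP, eQ⟩ := hA.evA glues eg
  obtain ⟨P', Q', ag', eP', eQ'⟩ := hA.evA glues eg'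
  obtain rfl : P = P' := singleton_injective (eP.symm.trans eP')
  obtain rfl : Q = Q' := singleton_injective (eQ.symm.trans eQ')
  obtain ⟨u, v, cut⟩ := popB_cut th.d2 (hA.evD glues eo1) (hA.evD glues eo2) ag
    (by rw [← hR.or, Nat.eq_of_beq_eq_true c5, hR.and]) (hR.inter c6) (hR.sub c7) (hR.sub c8)
  obtain ⟨u', v', cut'⟩ := popB_cut th.d (hA.evD glues ed1) (hA.evD glues ed2) ag'
    (by rw [← hR.or, Nat.eq_of_beq_eq_true c9]) (hR.inter c10) (hR.sub c11) (hR.sub c12)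
  obtain ⟨φ, eφ, iφ, qφ, iG, i1, i2⟩ := popB_map cut cut'
    (by rw [← hR.and, ← hR.and, Nat.eq_of_beq_eq_true c15])
  obtain ⟨H, mv, iB, iS, fix, ag2⟩ := push' gl b1 bW hK (hf.mono_left (hR.sub c1)) eφ iφ qφ
  have bB := gl.ball b1 bW
  have hC : R z.c ⊆ R z.s ∩ R z.b1 := th.d1.rim_sub
  have mk := List.mem_of_getElem? ek
  have mk' := List.mem_of_getElem? ek'
  have l1 := (List.getElem?_eq_some_iff.1 ek).1
  have l2 := (List.getElem?_eq_some_iff.1 ek').1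
  have land : ∀ k ∈ cs, dis (orL k.ls) (df (Nat.land z.s z.w) z.c) = true → ∀ L ∈ k.ls,
      EqOn H id (R L) ∧ R L ⊆ R z.s := fun k hk d L hL => by
    have s := ((xw.1 k hk).2.2.2.1 L hL).trans ((h.disc k hk).rim_sub.trans (xw.1 k hk).1)
    have d := hR.dis d
    rw [hR.df, hR.and, hR.orL] at d
    refine ⟨fix.mono fun w hw => (eS.le (s hw)).elim id fun m => hC (by_contra fun m' => ?_), s⟩
    exact disjoint_left.1 d ⟨L, hL, hw⟩ ⟨m, m'⟩
  have g1 : ((cs.set n ⟨Nat.lor (df k.q m1) e1, Nat.lor (df k.c mg) mg', k.ls, k.tag⟩).set n'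
      ⟨Nat.lor (df k'.q m2) e2, Nat.lor (df k'.c mg) mg', k'.ls, k'.tag⟩)[n]? =
      some ⟨Nat.lor (df k.q m1) e1, Nat.lor (df k.c mg) mg', k.ls, k.tag⟩ := by
    rw [List.getElem?_set_ne ne.symm, List.getElem?_set_self l1]
  have g2 : ((cs.set n ⟨Nat.lor (df k.q m1) e1, Nat.lor (df k.c mg) mg', k.ls, k.tag⟩).set n'
      ⟨Nat.lor (df k'.q m2) e2, Nat.lor (df k'.c mg) mg', k'.ls, k'.tag⟩)[n']? =
      some ⟨Nat.lor (df k'.q m2) e2, Nat.lor (df k'.c mg) mg', k'.ls, k'.tag⟩ := by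
    rw [List.getElem?_set_self (by rwa [List.length_set])]
  have y1 := (yw.1 _ (List.mem_of_getElem? g1)).1
  have y2 := (yw.1 _ (List.mem_of_getElem? g2)).1
  simp only [hR.or, hR.df] at y1 y2
  have a1 := popB_car cut (h.disc k mk) (hR.sub c16) (hR.sub c17) (xw.2 n n' k k' ek ek' ne).1
    (fun w hw => mem_inter ((xw.1 k mk).1 hw.1) (b1.rim_sub (y1 (Or.inl hw)))) hC fix
    ((ag2.mono cut.sub1).image_eq.trans i1) ((ag2.mono cut.cc.sub).image_eq.trans iG)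
  have a2 := popB_car cut.symm (h.disc k' mk') (hR.sub c17) (hR.sub c16)
    (xw.2 n' n k' k ek' ek ne.symm).1
    (fun w hw => mem_inter ((xw.1 k' mk').1 hw.1) (b1.rim_sub (y2 (Or.inl hw)))) hC fix
    ((ag2.mono cut.sub2).image_eq.trans i2) ((ag2.mono cut.cc.sub).image_eq.trans iG)
  refine ⟨_, H, ⟨ch1, hw, hp⟩, popB_cs hR h bB.rim_compact (mv.1.mono bB.rim_sub) (by simp)
    fun m k'' e => ?_, mv, iB, iS, fix.mono (subset_inter xp (yp.trans b1.rim_sub)),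
    fun i => image_iUnion⟩
  by_cases h1 : m = n'
  · subst h1
    obtain rfl := Option.some.inj (g2.symm.trans e)
    exact ⟨k', ek', (xw.1 k' mk').1, by rw [hR.or, hR.df, a2.1], by rw [hR.or, hR.df, a2.2], rfl,
      rfl, land k' mk' c19⟩
  by_cases h2 : m = n
  · subst h2
    obtain rfl := Option.some.inj (g1.symm.trans e)
    exact ⟨k, ek, (xw.1 k mk).1, by rw [hR.or, hR.df, a1.1], by rw [hR.or, hR.df, a1.2], rfl,
      rfl, land k mk c18⟩
  have y3 := (yw.1 _ (List.mem_of_getElem? e)).1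
  rw [List.getElem?_set_ne (Ne.symm h1), List.getElem?_set_ne (Ne.symm h2)] at e
  have m3 := List.mem_of_getElem? e
  have f3 := fix.mono (subset_inter (xw.1 k'' m3).1 (y3.trans b1.rim_sub))
  have rs := (h.disc k'' m3).rim_sub
  refine ⟨k'', e, (xw.1 k'' m3).1, by rw [f3.image_eq, image_id],
    by rw [(f3.mono rs).image_eq, image_id], rfl, rfl, fun L hL => ?_⟩
  have s := ((xw.1 k'' m3).2.2.2.1 L hL).trans rs
  exact ⟨f3.mono s, s.trans (xw.1 k'' m3).1⟩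

end Pool.Agent.Lib.MP_b7d179_gt.C
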