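import Pool.Agent.Lib.MP_b7d179_gt.C.OpRe

/-! Carriers: splitting, and programs. -/

namespace Pool.Agent.Lib.MP_b7d179_gt.C

open Set

variable {Z : Type} [MetricSpace Z] {ι : Type}

section Geo
variable {O c u v g D E W a : Set Z} {x y p q : Z}

/-- a crosscut of one half with ends off `g` -/
lemma opSplit_in (h : Cut O c u v g D E x y) (ha : Cc D (u ∪ g) a p q) (hp : p ∉ g) (hq : q ∉ g) :
    a ∩ D = a ∧ a ∩ E = ∅ := by
  refine ⟨inter_eq_left.2 ha.sub, eq_empty_of_forall_notMem fun z hz => ?_⟩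
  have k : z ∈ g := h.inter.le ⟨ha.sub hz.1, hz.2⟩
  rcases ha.inter.le ⟨hz.1, Or.inr k⟩ with e | e
  exacts [hp (e ▸ k), hq (e ▸ k)]

/-- the part in `D` of an arc that crosses `g` once -/
lemma opSplit_half {b b' : Set Z} {e : Z} (h : Cut O c u v g D E x y) (hb : Cc D (u ∪ g) b p e)
    (hb' : Cc E (v ∪ g) b' e q) (hq : q ∉ g) : (b ∪ b') ∩ D = b := by
  refine Subset.antisymm (fun z hz => hz.1.elim id fun k => ?_)
    fun z hz => ⟨Or.inl hz, hb.sub hz⟩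
  have l : z ∈ g := h.inter.le ⟨hz.2, hb'.sub k⟩
  rcases hb'.inter.le ⟨k, Or.inr l⟩ with r | r
  · exact r ▸ hb.arc.right
  · exact absurd (r ▸ l) hq

lemma opSplit_uv (h : Cut O c u v g D E x y) (hp : p ∉ g) (h1 : p ∈ u) (h2 : p ∈ v ∪ g) : False :=
  h2.elim (fun k => hp (h.cc.arc.ends (h.two.inter.le ⟨h1, k⟩))) hp

/-- the piece in `D` -/
lemma opSplit_one (h : Cut O c u v g D E x y) (pc : p ∈ c) (qc : q ∈ c) (hp : p ∉ g) (hq : q ∉ g)
    (h1 : p ∈ u → q ∈ u → Cc D (u ∪ g) a p q) (h2 : p ∈ v → q ∈ v → Cc E (v ∪ g) a p q)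
    (h3 : p ∈ u → q ∈ v → ∃ e ∈ W, ∃ b b', Cc D (u ∪ g) b p e ∧ Cc E (v ∪ g) b' e q ∧ b ∪ b' = a)
    (h4 : p ∈ v → q ∈ u → ∃ e ∈ W, ∃ b b', Cc E (v ∪ g) b p e ∧ Cc D (u ∪ g) b' e q ∧ b ∪ b' = a) :
    a ∩ D = ∅ ∨ (p ∈ u ∧ q ∈ u ∧ Cc D (u ∪ g) (a ∩ D) p q) ∨
      (p ∈ u ∧ ∃ e ∈ W, Cc D (u ∪ g) (a ∩ D) p e) ∨ q ∈ u ∧ ∃ e ∈ W, Cc D (u ∪ g) (a ∩ D) q e := by
  rw [← h.two.union] at pc qc
  rcases pc with pc | pc <;> rcases qc with qc | qc
  · exact Or.inr (Or.inl ⟨pc, qc, (opSplit_in h (h1 pc qc) hp hq).1.symm ▸ h1 pc qc⟩)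
  · obtain ⟨e, m, b, b', k, k', rfl⟩ := h3 pc qc
    exact Or.inr (Or.inr (Or.inl ⟨pc, e, m, (opSplit_half h k k' hq).symm ▸ k⟩))
  · obtain ⟨e, m, b, b', k, k', rfl⟩ := h4 pc qc
    refine Or.inr (Or.inr (Or.inr ⟨qc, e, m, ?_⟩))
    rw [union_comm b, opSplit_half h k'.symm k.symm hp]
    exact k'.symm
  · exact Or.inl (opSplit_in h.symm (h2 pc qc) hp hq).2

lemma opSplit_fix {F : Z → Z} (hO : Disc O c) (hF : Sup F O c) (hW : W ⊆ c) :
    F '' a ∩ W = a ∩ W := by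
  have f (z) (k : z ∈ W) : F z = z := hF.fix z fun l => l.2 (hW k)
  ext z
  refine ⟨?_, fun k => ⟨⟨z, k.1, f z k.2⟩, k.2⟩⟩
  rintro ⟨⟨w, k, rfl⟩, l⟩
  exact ⟨(hF.injective hO (f _ l)).symm ▸ k, l⟩

omit [MetricSpace Z] in
lemma opSplit_tot {T : Set ι} {a a' : ι → Set Z} (h : ∀ i, a i ∩ W = a' i ∩ W) :
    tot T a ∩ W = tot T a' ∩ W := by
  simp only [tot, iUnion_inter, h]

end Geo

lemma opSplit_get {α : Type} {l : List α} {n m : ℕ} {k k1 k2 k' : α} (hn : l[n]? = some k)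
    (h : (l.set n k1 ++ [k2])[m]? = some k') : (m = n ∧ k' = k1) ∨ (m = l.length ∧ k' = k2) ∨
      m ≠ n ∧ m ≠ l.length ∧ l[m]? = some k' := by
  obtain ⟨lt, -⟩ := List.getElem?_eq_some_iff.1 hn
  by_cases a : m < l.length
  · rw [List.getElem?_append_left (by simpa using a)] at h
    by_cases b : m = n
    · rw [b, List.getElem?_set_self lt] at h
      exact Or.inl ⟨b, (Option.some.inj h).symm⟩
    · rw [List.getElem?_set_ne (Ne.symm b)] at h
      exact Or.inr (Or.inr ⟨b, a.ne, h⟩)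
  · rw [List.getElem?_append_right (by simpa using a), List.length_set] at h
    obtain ⟨c, d⟩ := List.getElem?_eq_some_iff.1 h
    refine Or.inr (Or.inl ⟨by simp at c; omega, ?_⟩)
    simpa using d.symm

variable [Finite ι] {A : Atoms} {R : ℕ → Set Z} {nd : ℕ → Option (ℕ × ℕ)} {n0 fr pad : ℕ}
  {K : Set Z} {𝒞 : Set (Set ι)} {rel : ι → ι → ι → Prop} {grp : ι → Bool} {x y : PS}
  {b : ℕ → ι → Set Z}

theorem op_split {n : ℕ} {t1 t2 : TD} {g j : TA} (hA : A.Ok R Ball) (hn : NdB R nd) (hK : IsClosed K) (hf : Disjoint (R fr) K)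
    (hx : x.Ok R nd n0 fr pad) (h : CS R 𝒞 rel grp x.cs b)
    (e : stepOp A fr x (.split n t1 t2 g j) = some y) (hw : wf fr pad y.s y.cs = true) (hp : sub pad y.s = true) :
    ∃ b' H, y.Ok R nd n0 fr pad ∧ CS R 𝒞 rel grp y.cs b' ∧ Mvd R K pad x y b b' H := by
  simp only [stepOp] at e
  split at e
  swap
  · cases e
  rename_i k q1 c1 q2 c2 mg _ _ mj J ek e1 e2 eg ej
  split at e
  swap
  · cases e
  rename_i ck
  obtain rfl := Option.some.inj e
  simp only [Bool.and_eq_true, List.all_eq_true, Bool.or_eq_true] at ck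
  obtain ⟨⟨⟨⟨⟨⟨⟨k1, k2⟩, k3⟩, k4⟩, k5⟩, k6⟩, k7⟩, k8⟩ := ck
  have hR := hA.rl
  have d1 := hA.evD glues e1
  have d2 := hA.evD glues e2
  obtain ⟨x0, y0, hg, -⟩ := hA.evA glues eg
  obtain ⟨j0, j1, hj, hJ⟩ := hA.evAo glues ej
  obtain ⟨u, hu⟩ := d1.two_of_arc hg (hR.sub k3)
  obtain ⟨v, hv⟩ := d2.two_of_arc hg (hR.sub k4)
  have cut := d1.glue d2 hu.symm hv.symm (hR.inter k2)
  have km : k ∈ x.cs := List.mem_of_getElem? ek
  have hO := h.disc k km
  have eO : R q1 ∪ R q2 = R k.q := by rw [← hR.or, Nat.eq_of_beq_eq_true k1]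
  rw [eO] at cut
  rw [cut.disc.rim_unique hO] at cut
  obtain ⟨w1, w2⟩ := wf_facts hR hx.wf
  obtain ⟨s1, s2, s3, s4, -⟩ := w1 k km
  have oL {l : List ℕ} {L} (a : L ∈ l) : R L ⊆ R (orL l) := fun z m => (hR.orL l).symm ▸ ⟨L, a, m⟩
  have ng {L} (a : L ∈ k.ls) {z} (m : z ∈ R L) : z ∉ R mg := disjoint_left.1 (hR.dis k6) (oL a m)
  have Jg : R J ⊆ R mg := hJ ▸ sdiff_subset.trans (hR.sub k5)
  have ch (i) : ∃ p q, b n i ≠ ∅ → grp i = k.tag ∧ Cc (R k.q) (R k.c) (b n i) p q ∧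
      ∃ L ∈ k.ls, ∃ L' ∈ k.ls, L ≠ L' ∧ p ∈ R L ∧ q ∈ R L' := by
    rcases h.cc n k ek i with a | ⟨a, p, q, c⟩
    · exact ⟨x0, x0, fun c => absurd a c⟩
    · exact ⟨p, q, fun _ => ⟨a, c⟩⟩
  choose p q hpq using ch
  have pg (i) (a : b n i ≠ ∅) : p i ∉ R mg ∧ q i ∉ R mg := by
    obtain ⟨-, -, L, m, L', m', -, r, r'⟩ := hpq i a
    exact ⟨ng m r, ng m' r'⟩
  obtain ⟨F, hF, hs⟩ := split (s := {i | b n i ≠ ∅}) cut hj (hR.sub k5)
    ⟨toFinite _, fun i a => (hpq i a).2.1, fun i _ i' _ a => h.dj n a⟩ pg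
  rw [← hJ] at hs
  have inj := hF.injective hO
  have nl : n ≠ x.cs.length := (List.getElem?_eq_some_iff.1 ek).1.ne
  have bq (i) : b n i ⊆ R k.q := (h.sub_u hR ek i).2
  obtain ⟨b', b1, b2, b3⟩ : ∃ b' : ℕ → ι → Set Z, (∀ i, b' n i = F '' b n i ∩ R q1) ∧
      (∀ i, b' x.cs.length i = F '' b n i ∩ R q2) ∧ ∀ m, m ≠ n → m ≠ x.cs.length → b' m = b m :=
    ⟨fun m i => if m = n then F '' b n i ∩ R q1 else if m = x.cs.length then F '' b n i ∩ R q2
      else b m i, fun i => if_pos rfl, fun i => (if_neg nl.symm).trans (if_pos rfl),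
      fun m a c => funext fun i => (if_neg a).trans (if_neg c)⟩
  obtain ⟨H, m1, m2, m3, m4⟩ := hF.ext (hx.ch.ball hn) hK hO s1 (hf.mono_left s2)
  have sp (i i' s) (r : rel i i' s) :
      Sep (R k.q \ R k.c) (F '' b n s) (F '' b n i) (F '' b n i') := by
    have := (h.sep n k ek i i' s r).image hO.compact hF.emb sdiff_subset (bq s) (bq i) (bq i')
    rwa [hF.emb.diff subset_rfl hO.rim_sub, hF.img, hF.rim] at this
  have l1 {L z} (a : L ∈ k.ls) (m : z ∈ R L) (r : z ∈ u) :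
      L ∈ J :: k.ls.filter fun L => sub L c1 :=
    List.mem_cons_of_mem _ (List.mem_filter.2 ⟨a, (k7 L a).resolve_right fun t =>
      opSplit_uv cut (ng a m) r (hv.symm.union.symm ▸ hR.sub t m)⟩)
  have l2 {L z} (a : L ∈ k.ls) (m : z ∈ R L) (r : z ∈ v) :
      L ∈ J :: k.ls.filter fun L => !sub L c1 :=
    List.mem_cons_of_mem _ (List.mem_filter.2 ⟨a, by
      rw [Bool.not_eq_true', ← Bool.not_eq_true]
      exact fun t => opSplit_uv cut.symm (ng a m) r (hu.symm.union.symm ▸ hR.sub t m)⟩)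
  have nJ {L z} (a : L ∈ k.ls) (m : z ∈ R L) : L ≠ J := fun t => ng a m (Jg (t ▸ m))
  have bl (m k') (a : (x.cs.set n ⟨q1, c1, J :: k.ls.filter fun L => sub L c1, k.tag⟩ ++
      [Car.mk q2 c2 (J :: k.ls.filter fun L => !sub L c1) k.tag])[m]? = some k') (L)
      (c : L ∈ k'.ls) : (L = J ∧ ∀ i, b' m i ∩ R L = F '' b n i ∩ R L) ∨
        ∃ m0 k0, x.cs[m0]? = some k0 ∧ L ∈ k0.ls ∧ ∀ i, b' m i ∩ R L = b m0 i ∩ R L := by
    rcases opSplit_get ek a with ⟨rfl, rfl⟩ | ⟨rfl, rfl⟩ | ⟨r, r', t⟩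
    · rcases List.mem_cons.1 c with rfl | c
      · exact Or.inl ⟨rfl, fun i => by
          rw [b1, inter_assoc, inter_eq_right.2 (Jg.trans ((hR.sub k3).trans d1.rim_sub))]⟩
      · obtain ⟨c, c'⟩ := List.mem_filter.1 c
        exact Or.inr ⟨_, k, ek, c, fun i => by
          rw [b1, inter_assoc, inter_eq_right.2 ((hR.sub c').trans d1.rim_sub),
            opSplit_fix hO hF (s4 L c)]⟩
    · rcases List.mem_cons.1 c with rfl | c
      · exact Or.inl ⟨rfl, fun i => by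
          rw [b2, inter_assoc, inter_eq_right.2 (Jg.trans ((hR.sub k4).trans d2.rim_sub))]⟩
      · obtain ⟨c, c'⟩ := List.mem_filter.1 c
        have c'' := (k7 L c).resolve_left (by simpa using c')
        exact Or.inr ⟨_, k, ek, c, fun i => by
          rw [b2, inter_assoc, inter_eq_right.2 ((hR.sub c'').trans d2.rim_sub),
            opSplit_fix hO hF (s4 L c)]⟩
    · exact Or.inr ⟨m, k', t, c, fun i => by rw [b3 m r r']⟩
  have J0 {m0 : ℕ} {k0 : Car} (a : x.cs[m0]? = some k0) (c : J ∈ k0.ls) : R J = ∅ :=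
    disjoint_self.1 ((hR.dis (k8 k0 (List.mem_of_getElem? a))).mono (oL c) (hJ ▸ sdiff_subset))
  refine ⟨b', H, ⟨hx.ch, hw, hp⟩, ⟨fun k' a => ?_, fun m i a => ?_, fun m k' a i => ?_,
    fun m i i' a => ?_, fun m m' k' k'' a a' L c c' T t => ?_, fun m k' a i i' s r => ?_⟩,
    ⟨m1, m2, m3, fun z a => ?_, fun i => ?_⟩⟩
  · obtain ⟨m, a⟩ := List.mem_iff_getElem?.1 a
    rcases opSplit_get ek a with ⟨-, rfl⟩ | ⟨-, rfl⟩ | ⟨-, -, t⟩
    exacts [d1, d2, h.disc k' (List.mem_of_getElem? t)]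
  · have := (List.getElem?_eq_some_iff.1 ek).1
    simp only [List.length_append, List.length_set, List.length_singleton] at a
    rw [b3 m (by omega) (by omega)]
    exact h.nil m i (by omega)
  · rcases opSplit_get ek a with ⟨rfl, rfl⟩ | ⟨rfl, rfl⟩ | ⟨r, r', t⟩
    · rw [b1]
      by_cases c : b m i = ∅
      · exact Or.inl (by rw [c, image_empty, empty_inter])
      obtain ⟨g1, g2, L, g3, L', g4, g5, g6, g7⟩ := hpq i c
      obtain ⟨f1, f2, f3, f4⟩ := hs i c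
      refine (opSplit_one cut g2.left g2.right (pg i c).1 (pg i c).2 f1 f2 f3 f4).imp_right
        fun r => ⟨g1, ?_⟩
      rw [hu.symm.union] at r
      rcases r with ⟨r1, r2, r3⟩ | ⟨r1, z, r2, r3⟩ | ⟨r1, z, r2, r3⟩
      · exact ⟨_, _, r3, L, l1 g3 g6 r1, L', l1 g4 g7 r2, g5, g6, g7⟩
      · exact ⟨_, _, r3, L, l1 g3 g6 r1, J, List.mem_cons_self, nJ g3 g6, g6, r2⟩
      · exact ⟨_, _, r3, L', l1 g4 g7 r1, J, List.mem_cons_self, nJ g4 g7, g7, r2⟩
    · rw [b2]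
      by_cases c : b n i = ∅
      · exact Or.inl (by rw [c, image_empty, empty_inter])
      obtain ⟨g1, g2, L, g3, L', g4, g5, g6, g7⟩ := hpq i c
      obtain ⟨f1, f2, f3, f4⟩ := hs i c
      refine (opSplit_one cut.symm g2.left g2.right (pg i c).1 (pg i c).2 f2 f1 f4 f3).imp_right
        fun r => ⟨g1, ?_⟩
      rw [hv.symm.union] at r
      rcases r with ⟨r1, r2, r3⟩ | ⟨r1, z, r2, r3⟩ | ⟨r1, z, r2, r3⟩
      · exact ⟨_, _, r3, L, l2 g3 g6 r1, L', l2 g4 g7 r2, g5, g6, g7⟩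
      · exact ⟨_, _, r3, L, l2 g3 g6 r1, J, List.mem_cons_self, nJ g3 g6, g6, r2⟩
      · exact ⟨_, _, r3, L', l2 g4 g7 r1, J, List.mem_cons_self, nJ g4 g7, g7, r2⟩
    · rw [b3 m r r']
      exact h.cc m k' t i
  · have d : Disjoint (F '' b n i) (F '' b n i') := disjoint_image_of_injective inj (h.dj n a)
    change Disjoint (b' m i) (b' m i')
    by_cases r : m = n
    · rw [r, b1, b1]
      exact d.mono inter_subset_left inter_subset_left
    by_cases r' : m = x.cs.length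
    · rw [r', b2, b2]
      exact d.mono inter_subset_left inter_subset_left
    · rw [b3 m r r']
      exact h.dj m a
  · rcases bl m k' a L c with ⟨r, f⟩ | ⟨m0, k0, r, r', f⟩ <;>
      rcases bl m' k'' a' L c' with ⟨s, f'⟩ | ⟨m1, k1, s, s', f'⟩
    · exact (opSplit_tot f).trans (opSplit_tot f').symm
    · rw [r, J0 s (r ▸ s'), inter_empty, inter_empty]
    · rw [s, J0 r (s ▸ r'), inter_empty, inter_empty]
    · exact (opSplit_tot f).trans ((h.bal _ _ _ _ r s L r' s' T t).trans (opSplit_tot f').symm)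
  · rcases opSplit_get ek a with ⟨rfl, rfl⟩ | ⟨rfl, rfl⟩ | ⟨t, t', t''⟩
    · rw [b1, b1, b1]
      exact (sp i i' s r).mono (hO.sub_int d1 cut.sub1) inter_subset_left inter_subset_left
        (inter_subset_inter_right _ sdiff_subset)
    · rw [b2, b2, b2]
      exact (sp i i' s r).mono (hO.sub_int d2 cut.sub2) inter_subset_left inter_subset_left
        (inter_subset_inter_right _ sdiff_subset)
    · rw [b3 m t t']
      exact h.sep m k' t'' i i' s r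
  · exact (m4 (hR.sub hx.pad a)).trans (hF.fix z fun c => disjoint_left.1 s3 c a)
  · have fx (m) (r : m ≠ n) {z} (a : z ∈ b m i) : H z = z := by
      by_cases c : m < x.cs.length
      · have t := List.getElem?_eq_getElem c
        have z1 := (h.sub_u hR t i).2 a
        exact (m4 ((w1 _ (List.mem_of_getElem? t)).1 z1)).trans
          (hF.fix z fun d => disjoint_left.1 (w2 n m _ _ ek t r.symm).1 d z1)
      · rw [h.nil m i (not_lt.1 c)] at a
        exact a.elim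
    have fn : H '' b n i = F '' b n i := image_congr fun z a => m4 (s1 (bq i a))
    ext z
    simp only [whole, mem_iUnion, image_iUnion]
    constructor
    · rintro ⟨m, a⟩
      by_cases r : m = n
      · rw [r, fn] at a
        rcases cut.union.ge (hF.img.le (image_mono (bq i) a)) with c | c
        exacts [⟨n, (b1 i).ge ⟨a, c⟩⟩, ⟨_, (b2 i).ge ⟨a, c⟩⟩]
      · obtain ⟨w, a, rfl⟩ := a
        have r' : m ≠ x.cs.length := fun c => by
          rw [h.nil m i c.ge] at a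
          exact a
        exact ⟨m, by rwa [b3 m r r', fx m r a]⟩
    · rintro ⟨m, a⟩
      by_cases r : m = n
      · exact ⟨n, fn.ge ((b1 i).le (r ▸ a)).1⟩
      by_cases r' : m = x.cs.length
      · exact ⟨n, fn.ge ((b2 i).le (r' ▸ a)).1⟩
      · rw [b3 m r r'] at a
        exact ⟨m, z, a, fx m r a⟩

end Pool.Agent.Lib.MP_b7d179_gt.C
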