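import Pool.Agent.Lib.MP_b7d179_gt.C.OpReB
import Pool.Agent.Lib.MP_b7d179_gt.C.OpPopB
import Pool.Agent.Lib.MP_b7d179_gt.C.OpSplit

/-! Carriers: splitting, and programs. -/

namespace Pool.Agent.Lib.MP_b7d179_gt.C

open Set

variable {Z : Type} [MetricSpace Z] {ι : Type}

theorem run_comp {R : ℕ → Set Z} {K : Set Z} {pad : ℕ} {x y z : PS} {b b' b'' : ℕ → ι → Set Z}
    {H H' : Z → Z} (h : Mvd R K pad x y b b' H) (h' : Mvd R K pad y z b' b'' H') :
    Mvd R K pad x z b b'' (H' ∘ H) := by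
  refine ⟨h.mv.comp (h.ib.symm ▸ h'.mv), ?_, ?_, fun w m => ?_, fun i => ?_⟩
  · rw [image_comp, h.ib, h'.ib]
  · rw [image_comp, h.is, h'.is]
  · have e : H w = w := h.fix m
    exact (congrArg H' e).trans (h'.fix m)
  · rw [image_comp, h.im, h'.im]

variable [Finite ι] {A : Atoms} {R : ℕ → Set Z} {nd : ℕ → Option (ℕ × ℕ)} {n0 fr pad : ℕ}
  {K : Set Z} {𝒞 : Set (Set ι)} {rel : ι → ι → ι → Prop} {grp : ι → Bool} {x y : PS}
  {b : ℕ → ι → Set Z}

theorem run_step {o : Op} (hA : A.Ok R Ball) (hn : NdB R nd) (hK : IsClosed K)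
    (hf : Disjoint (R fr) K) (hx : x.Ok R nd n0 fr pad) (h : CS R 𝒞 rel grp x.cs b)
    (e : stepOp A fr x o = some y) (hw : wf fr pad y.s y.cs = true) (hp : sub pad y.s = true) :
    ∃ b' H, y.Ok R nd n0 fr pad ∧ CS R 𝒞 rel grp y.cs b' ∧ Mvd R K pad x y b b' H := by
  cases o with
  | re n t => exact op_re hA hn hK hf hx h e hw hp
  | pop => exact op_pop hA hn hK hf hx h e hw hp
  | popF n => exact op_popF hA hn hK hf hx h e hw hp
  | popP n n' g g' o1 o2 d1 d2 => exact op_popP hA hn hK hf hx h e hw hp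
  | split n t1 t2 g j => exact op_split hA hn hK hf hx h e hw hp

theorem run_ok {l : List Op} (hA : A.Ok R Ball) (hn : NdB R nd) (hK : IsClosed K) (hf : Disjoint (R fr) K)
    (hx : x.Ok R nd n0 fr pad) (h : CS R 𝒞 rel grp x.cs b)
    (e : run A fr pad x l = some y) :
    ∃ b' H, y.Ok R nd n0 fr pad ∧ CS R 𝒞 rel grp y.cs b' ∧ Mvd R K pad x y b b' H := by
  induction l generalizing x b with
  | nil =>
    obtain rfl : x = y := Option.some.inj e
    exact ⟨b, id, hx, h, mv_id _ _, image_id _, image_id _, fun _ _ => rfl, fun _ => image_id _⟩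
  | cons o l ih =>
    obtain ⟨z, e1, e2⟩ := Option.bind_eq_some_iff.1 e
    split_ifs at e2 with k
    rw [Bool.and_eq_true] at k
    obtain ⟨b1, H1, z1, z2, z3⟩ := run_step hA hn hK hf hx h e1 k.1 k.2
    obtain ⟨b2, H2, y1, y2, y3⟩ := ih z1 z2 e2
    exact ⟨b2, H2 ∘ H1, y1, y2, run_comp z3 y3⟩

end Pool.Agent.Lib.MP_b7d179_gt.C
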