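import Pool.Agent.Lib.MP_b7d179_gt.C.Tr
import Pool.Agent.Lib.MP_b7d179_gt.C.ObsB
import Pool.Agent.Lib.MP_b7d179_gt.C.Run

/-! Entry into carriers. -/

namespace Pool.Agent.Lib.MP_b7d179_gt.C

open Set

variable {Z : Type} [MetricSpace Z] {ι : Type}

theorem enter_eOk {R : ℕ → Set Z} (hR : Rl R) {s D Y : ℕ} {k : Car} (e : eOk s D Y k = true) :
    R k.q ⊆ R s ∧ R k.q ∩ (R D ∪ R Y) ⊆ R k.c ∧
      ∀ L ∈ k.ls, R L ⊆ R k.c ∧ Disjoint (R L) (R Y) := by
  simp only [eOk, Bool.and_eq_true, List.all_eq_true] at e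
  exact ⟨hR.sub e.1.1, by rw [← hR.or, ← hR.and]; exact hR.sub e.1.2,
    fun L m => ⟨hR.sub (e.2 L m).1, hR.dis (e.2 L m).2⟩⟩

theorem enter_orL {R : ℕ → Set Z} (hR : Rl R) {l : List ℕ} {L : ℕ} (h : L ∈ l) :
    R L ⊆ R (orL l) := fun _ m => hR.orL l ▸ ⟨L, h, m⟩

omit [MetricSpace Z] in
theorem enter_lands {R : ℕ → Set Z} {l : List ℕ} {p q : Z} (h : Lands (setsA R l) p q) :
    ∃ L ∈ l, ∃ L' ∈ l, L ≠ L' ∧ p ∈ R L ∧ q ∈ R L' := by
  obtain ⟨_, ⟨L, m, rfl⟩, _, ⟨L', m', rfl⟩, n, h⟩ := h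
  exact ⟨L, m, L', m', fun e => n (e ▸ rfl), h⟩

theorem enter_cs {R : ℕ → Set Z} {S Ob : Set Z} {Ls : Bool → Set (Set Z)} {𝒞 : Set (Set ι)}
    {rel : ι → ι → ι → Prop} {grp : ι → Bool} {a : ι → Set Z} {cs : List Car} {F : Z → Z}
    (hS : Sph S) (hO : Ob ⊆ S) (hF : Iso S Ob F) (h : Fam S Ob Ls rel grp a)
    (h1 : ∀ (n : ℕ) k, cs[n]? = some k → k.tag.toNat = n ∧ Disc (R k.q) (R k.c) ∧ R k.q ⊆ S ∧
      R k.q ∩ Ob ⊆ R k.c)
    (h2 : ∀ i, a i = ∅ ∨ ∃ k, cs[(grp i).toNat]? = some k ∧ ∃ p q, Cc (R k.q) (R k.c) (F '' a i) p q ∧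
      ∃ L ∈ k.ls, ∃ L' ∈ k.ls, L ≠ L' ∧ p ∈ R L ∧ q ∈ R L')
    (h3 : ∀ (n n' : ℕ) k k', cs[n]? = some k → cs[n']? = some k' → n ≠ n' →
      Disjoint (R k.q \ R k.c) (R k'.q) ∧ ∀ L ∈ k.ls, L ∈ k'.ls → R L = ∅) :
    CS R 𝒞 rel grp cs fun n i => if (grp i).toNat = n then F '' a i else ∅ := by
  have sa (i) : a i ⊆ S := (h.arc i).elim (fun e => e ▸ empty_subset _) fun ⟨_, _, _, m, _⟩ => m
  obtain ⟨f1, f2⟩ := hF.emb hS
  refine ⟨fun k m => ?_, fun n i m => ?_, fun n k e i => ?_, fun n i j l => ?_,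
    fun n n' k k' e e' L m m' T _ => ?_, fun n k e i j s r => ?_⟩
  · obtain ⟨n, e⟩ := List.getElem?_of_mem m
    exact (h1 n k e).2.1
  · split_ifs with e
    · obtain e' | ⟨k, e', -⟩ := h2 i
      · rw [e', image_empty]
      · rw [e, List.getElem?_eq_none m] at e'
        cases e'
    · rfl
  · split_ifs with e0
    · obtain e' | ⟨k', e', c⟩ := h2 i
      · exact .inl (by rw [e', image_empty])
      · rw [e0, e] at e'
        obtain rfl := Option.some.inj e'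
        refine .inr ⟨?_, c⟩
        have := e0.trans (h1 n k e).1.symm
        revert this
        cases grp i <;> cases k.tag <;> simp
    · exact .inl rfl
  · simp only [Function.onFun]
    split_ifs
    exacts [f1.disjoint (sa i) (sa j) (h.dj l), disjoint_empty _, empty_disjoint _,
      empty_disjoint _]
  · by_cases c : n = n'
    · rw [c]
    · rw [(h3 n n' k k' e e' c).2 L m m', inter_empty, inter_empty]
  · by_cases ci : (grp i).toNat = n
    swap
    · rw [if_neg ci]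
      exact sep_empty_left
    by_cases cj : (grp j).toNat = n
    swap
    · rw [if_neg cj]
      exact sep_empty_right
    have g : grp i = grp j := by
      have := ci.trans cj.symm
      revert this
      cases grp i <;> cases grp j <;> simp
    have e1 : F '' Ob = Ob := (image_congr fun x m => hF.fix (.inl m)).trans (image_id' _)
    obtain ⟨-, -, c1, c2⟩ := h1 n k e
    rw [if_pos ci, if_pos cj]
    refine ((h.sep i j s r g).image hS.compact f1 sdiff_subset (sa s) (sa i) (sa j)).mono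
      (fun x m => ?_) subset_rfl subset_rfl fun x m => ?_
    · rw [f1.diff subset_rfl hO, f2, e1]
      exact ⟨c1 m.1, fun o => m.2 (c2 ⟨m.1, o⟩)⟩
    · split_ifs with c
      · exact m.1
      · obtain e' | ⟨k', e', _, _, cc, -⟩ := h2 s
        · simpa [e'] using m.1
        · exact disjoint_left.1 (h3 _ _ k k' e e' (Ne.symm c)).1 m.2 (cc.sub m.1)

variable [Finite ι] {A : Atoms} {R : ℕ → Set Z} {nd : ℕ → Option (ℕ × ℕ)} {n0 fr pad b s : ℕ}
  {K : Set Z} {𝒞 : Set (Set ι)} {rel : ι → ι → ι → Prop} {grp : ι → Bool} {a : ι → Set Z}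
  {sp : Sp ℕ} {ob : TO} {ts : List TD} {cs : List Car}

theorem clear_pads (hR : Rl R) (hS : Sph (R s)) (hf : Disjoint (R fr) K) {pl : List (ℕ × ℕ)}
    (hd : ∀ h ∈ pl, Disc (R h.1) (R h.2))
    (e : ((pl.all fun h => sub h.1 s && sub h.2 fr) && sub (df s (orL (pl.map Prod.fst))) fr) = true) :
    Disjoint (closure (R s \ R (orL (pl.map Prod.fst)))) K := by
  simp only [Bool.and_eq_true, List.all_eq_true] at e
  have u : R (orL (pl.map Prod.fst)) = ⋃ h ∈ {h | h ∈ pl}, R h.1 := by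
    rw [hR.orL]
    ext x
    simp only [List.mem_map, mem_ofPred_eq, mem_iUnion₂]
    exact ⟨fun ⟨_, ⟨h, m, rfl⟩, k⟩ => ⟨h, m, k⟩, fun ⟨h, m, k⟩ => ⟨_, ⟨h, m, rfl⟩, k⟩⟩
  have c := hR.sub e.2
  rw [hR.df, u] at c
  rw [u]
  exact clear_of_discs hS (v := fun h => R h.2)
    (fun h m => ⟨hd h m, hR.sub (e.1 h m).1, hf.mono_left (hR.sub (e.1 h m).2)⟩)
    fun x m => by_contra fun n => disjoint_left.1 hf (c ⟨m.2, n⟩) m.1

theorem enter_arcs {S Ob : Set Z} {Ls : Bool → Set (Set Z)} (hS : Sph S)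
    (h : Fam S Ob Ls rel grp a) : ∃ p q : ι → Z, Arcs S Ob {i | a i ≠ ∅} a p q ∧
      ∀ i, a i ≠ ∅ → Lands (Ls (grp i)) (p i) (q i) := by
  have : Nonempty Z := let ⟨_, _, _, h⟩ := hS; let ⟨φ, _⟩ := h.d1; ⟨φ 0⟩
  choose! p q hpq using fun i (n : a i ≠ ∅) => (h.arc i).resolve_left n
  exact ⟨p, q, ⟨toFinite _, fun i n => (hpq i n).1, fun i n => (hpq i n).2.1,
    fun i n => (hpq i n).2.2.1, fun _ _ _ _ l => h.dj l⟩, fun i n => (hpq i n).2.2.2⟩

theorem enter_iso (hA : A.Ok R Ball) (hS : Sph (R s)) (e : entry A pad s sp ob ts = some cs)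
    (h : sp.St R rel grp a) : ∃ Ob F, Iso (R s) Ob F ∧ R pad ⊆ Ob ∧ Ob ⊆ R s ∧ (∀ i, a i ⊆ R s) ∧
      CS R 𝒞 rel grp cs fun n i => if (grp i).toNat = n then F '' a i else ∅ := by
  have hR := hA.rl
  unfold entry at e
  split at e
  swap
  · cases e
  rename_i S D Y L0 L1 D' Y' eo
  split_ifs at e with c
  simp only [Bool.and_eq_true, Nat.beq_eq] at c
  obtain ⟨⟨⟨⟨rfl, rfl⟩, rfl⟩, c1⟩, c2⟩ := c
  have hO : R D ∪ R Y ⊆ R S := hR.or D Y ▸ hR.sub c1
  have ho := evObs_ok hA eo hO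
  obtain ⟨p, q, ar, la⟩ := enter_arcs hS h
  have sa (i) : a i ⊆ R S := (em (a i = ∅)).elim (fun e => e ▸ empty_subset _) (ar.sub i)
  have hp : R pad ⊆ R D ∪ R Y := (hR.sub c2).trans subset_union_left
  have ev {l} (e : mapO A.evD ts = some l) (x) (m : x ∈ l) : Disc (R x.1) (R x.2) :=
    let ⟨_, _, k⟩ := (mapO_mem e).2.1 x m
    hA.evD glues k
  split at e
  · rename_i Q c em
    split_ifs at e with k
    obtain rfl := Option.some.inj e
    simp only [Bool.and_eq_true, List.isEmpty_iff] at k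
    obtain ⟨rfl, k⟩ := k
    obtain ⟨k1, k2, k3⟩ := enter_eOk hR k
    have hd := ev em _ (List.mem_singleton_self _)
    have lb (i) (n : a i ≠ ∅) : grp i = false ∧
        ∃ L ∈ L0, ∃ L' ∈ L0, L ≠ L' ∧ p i ∈ R L ∧ q i ∈ R L' := by
      have := enter_lands (la i n)
      revert this
      cases grp i
      · exact fun t => ⟨rfl, t⟩
      · simp
    obtain ⟨F, hF, cc⟩ := ob_retract1 hS ho ar hd k1 k2 fun i n =>
      let ⟨_, L, m, L', m', _, u, v⟩ := lb i n
      ⟨⟨(k3 L m).1 u, disjoint_left.1 (k3 L m).2 u⟩, (k3 L' m').1 v, disjoint_left.1 (k3 L' m').2 v⟩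
    refine ⟨_, F, hF, hp, hO, sa, enter_cs hS hO hF h (fun n k e => ?_)
      (fun i => (Classical.em _).imp_right fun n => ⟨_, by rw [(lb i n).1]; rfl, _, _, cc i n,
        (lb i n).2⟩) fun n n' k k' e e' l => ?_⟩
    · obtain _ | n := n
      · obtain rfl := Option.some.inj e
        exact ⟨rfl, hd, k1, k2⟩
      · simp at e
    · have := (List.getElem?_eq_some_iff.1 e).1
      have := (List.getElem?_eq_some_iff.1 e').1
      simp only [List.length_singleton] at *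
      omega
  · rename_i Q c Q' c' em
    split_ifs at e with k
    obtain rfl := Option.some.inj e
    simp only [Bool.and_eq_true] at k
    obtain ⟨⟨⟨⟨⟨k, k'⟩, d1⟩, d2⟩, d3⟩, d4⟩ := k
    let car (g : Bool) : Car := cond g ⟨Q', c', L1, true⟩ ⟨Q, c, L0, false⟩
    have ok (g) : eOk S D Y (car g) = true := by cases g; exacts [k, k']
    have hd (g) : Disc (R (car g).q) (R (car g).c) := by
      cases g
      exacts [ev em (Q, c) (by simp), ev em (Q', c') (by simp)]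
    have d5 (g) : Disjoint (R (car g).q \ R (car g).c) (R (car !g).q) := by
      cases g
      exacts [hR.df Q c ▸ hR.dis d1, hR.df Q' c' ▸ hR.dis d2]
    have d6 (g) : ∀ L ∈ (car g).ls, Disjoint (R L) (R (car !g).q) := by
      cases g
      exacts [fun L m => (hR.dis d3).mono_left (enter_orL hR m),
        fun L m => (hR.dis d4).mono_left (enter_orL hR m)]
    have lb (i) (n : a i ≠ ∅) : ∃ L ∈ (car (grp i)).ls, ∃ L' ∈ (car (grp i)).ls,
        L ≠ L' ∧ p i ∈ R L ∧ q i ∈ R L' := by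
      have := enter_lands (la i n)
      revert this
      cases grp i <;> exact id
    have en (g) (L) (m : L ∈ (car g).ls) (x) (u : x ∈ R L) :
        x ∈ R (car g).c \ (R Y ∪ R (car !g).q) :=
      ⟨((enter_eOk hR (ok g)).2.2 L m).1 u, fun o => o.elim
        (disjoint_left.1 ((enter_eOk hR (ok g)).2.2 L m).2 u) (disjoint_left.1 (d6 g L m) u)⟩
    obtain ⟨F, hF, cc⟩ := ob_retract2 hS ho ar (Q := fun g => R (car g).q)
      (c := fun g => R (car g).c) (g := grp)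
      (fun g => ⟨hd g, (enter_eOk hR (ok g)).1, (enter_eOk hR (ok g)).2.1, d5 g⟩) fun i n =>
        let ⟨L, m, L', m', _, u, v⟩ := lb i n
        ⟨en _ L m _ u, en _ L' m' _ v⟩
    have ix (n : ℕ) (k) (e : [car false, car true][n]? = some k) : ∃ g, k = car g ∧ g.toNat = n := by
      obtain _ | _ | n := n
      · exact ⟨false, (Option.some.inj e).symm, rfl⟩
      · exact ⟨true, (Option.some.inj e).symm, rfl⟩
      · simp at e
    refine ⟨_, F, hF, hp, hO, sa, enter_cs hS hO hF h (fun n k e => ?_)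
      (fun i => (Classical.em _).imp_right fun n => ⟨car (grp i), by cases grp i <;> rfl, _, _,
        cc i n, lb i n⟩) fun n n' k k' e e' l => ?_⟩
    · obtain ⟨g, rfl, rfl⟩ := ix n k e
      exact ⟨by cases g <;> rfl, hd g, (enter_eOk hR (ok g)).1, (enter_eOk hR (ok g)).2.1⟩
    · obtain ⟨g, rfl, rfl⟩ := ix n k e
      obtain ⟨g', rfl, rfl⟩ := ix n' k' e'
      obtain rfl : g' = !g := by
        revert l
        cases g <;> cases g' <;> simp
      exact ⟨d5 g, fun L m m' => (d6 g L m).eq_bot_of_le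
        (((enter_eOk hR (ok _)).2.2 L m').1.trans (hd _).rim_sub)⟩
  · cases e

theorem enter (hA : A.Ok R Ball) (hB : Ball (R b) (R s)) (hK : IsClosed K)
    (hc : Disjoint (closure (R s \ R pad)) K) (e : entry A pad s sp ob ts = some cs)
    (h : sp.St R rel grp a) : ∃ bb H, CS R 𝒞 rel grp cs bb ∧ Mv K H (R b) ∧ H '' R b = R b ∧
      H '' R s = R s ∧ EqOn H id (R pad) ∧ ∀ i, H '' a i = whole bb i := by
  obtain ⟨Ob, F, hF, h1, h2, h3, h4⟩ := enter_iso (𝒞 := 𝒞) hA hB.sph e h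
  obtain ⟨H, a1, a2, a3, a4⟩ := hF.ext hB hK
    (hc.mono_left (closure_mono (sdiff_subset_sdiff_right h1)))
  refine ⟨_, H, h4, a1, a2, a3, fun x m => (a4 (h2 (h1 m))).trans (hF.fix (.inl (h1 m))),
    fun i => (a4.mono (h3 i)).image_eq.trans (subset_antisymm ?_ (iUnion_subset fun n => ?_))⟩
  · exact subset_iUnion_of_subset (grp i).toNat (if_pos rfl).ge
  · dsimp only
    split_ifs
    exacts [subset_rfl, empty_subset _]

/-- entry followed by a program -/
theorem enter_run {l : List Stp} {ops : List Op} {y : PS} (hA : A.Ok R Ball) (hn : NdB R nd)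
    (hl : Chain R nd n0 l b s) (hK : IsClosed K) (hf : Disjoint (R fr) K)
    (hc : Disjoint (closure (R s \ R pad)) K) (e : entry A pad s sp ob ts = some cs)
    (hw : wf fr pad s cs = true) (hp : sub pad s = true) (e' : run A fr pad ⟨l, b, s, cs⟩ ops = some y)
    (h : sp.St R rel grp a) : ∃ bb H, y.Ok R nd n0 fr pad ∧ CS R 𝒞 rel grp y.cs bb ∧ Mv K H (R b) ∧
      H '' R b = R y.b ∧ H '' R s = R y.s ∧ EqOn H id (R pad) ∧ ∀ i, H '' a i = whole bb i := by
  obtain ⟨b1, H, a0, a1, a2, a3, a4, a5⟩ := enter (𝒞 := 𝒞) hA (hl.ball hn) hK hc e h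
  obtain ⟨b2, G, c0, c1, c⟩ := run_ok hA hn hK hf (x := ⟨l, b, s, cs⟩) ⟨hl, hw, hp⟩ a0 e'
  refine ⟨b2, G ∘ H, c0, c1, a1.comp (a2.symm ▸ c.mv), ?_, ?_, fun w m => ?_, fun i => ?_⟩
  · rw [image_comp, a2, c.ib]
  · rw [image_comp, a3, c.is]
  · exact (congrArg G (show H w = w from a4 m)).trans (c.fix m)
  · rw [image_comp, a5, c.im]

end Pool.Agent.Lib.MP_b7d179_gt.C
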