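import Pool.Agent.Lib.MP_b7d179_gt.C.Sep

/-! Separation by crosscuts. -/

namespace Pool.Agent.Lib.MP_b7d179_gt.C

open Set

variable {Z : Type} [MetricSpace Z] {ι : Type}

variable {S O O' Q c k s s' a a' b b' P Y D I L : Set Z} {p q p' q' x y e e' e₀ : Z}

theorem sepB_cut (hQ : Disc Q c) (h : Cc Q c s x y) : ∃ u v D E, Cut Q c u v s D E x y := by
  obtain ⟨u, v, t⟩ := hQ.exists_two h.left h.right h.arc.ne
  obtain ⟨D, E, k⟩ := hQ.cut t h
  exact ⟨u, v, D, E, k⟩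

theorem sepB_int (h : Cc Q c s x y) : ∃ z ∈ s, z ∈ Q \ c := by
  obtain ⟨z, hz, n⟩ := h.arc.exists_notMem (toFinite {x, y})
  exact ⟨z, hz, h.sub hz, fun k => n (h.inter.le ⟨hz, k⟩)⟩

/-- two connected sets off a crosscut are separated unless they lie in the same half -/
theorem sepB_two (hQ : Disc Q c) (h : Cc Q c s x y) (ca : IsPreconnected a)
    (ca' : IsPreconnected a') (sa : a ⊆ Q) (sa' : a' ⊆ Q) (d : Disjoint a s) (d' : Disjoint a' s)
    (k : ∀ u v D E, Cut Q c u v s D E x y → a ⊆ D → a' ⊆ D → False) : Sep Q s a a' := by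
  obtain ⟨u, v, D, E, t⟩ := sepB_cut hQ h
  rcases t.side ca sa d with h1 | h1 <;> rcases t.side ca' sa' d' with h2 | h2
  · exact (k _ _ _ _ t h1 h2).elim
  · exact sep_of_cut t (inter_subset_left.trans h1) (inter_subset_left.trans h2)
  · exact sep_of_cut t.symm (inter_subset_left.trans h1) (inter_subset_left.trans h2)
  · exact (k _ _ _ _ t.symm h1 h2).elim

/-- from the open disc to the closed disc -/
theorem Sep.closed (h : Sep (Q \ c) s a a') (hQ : Disc Q c) (hs : s = ∅ ∨ ∃ x y, Cc Q c s x y)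
    (ha : a = ∅ ∨ ∃ x y, Cc Q c a x y) (ha' : a' = ∅ ∨ ∃ x y, Cc Q c a' x y)
    (d : Disjoint a s) (d' : Disjoint a' s) (d'' : Disjoint a a') : Sep Q s a a' := by
  rcases ha with rfl | ⟨p, q, ha⟩
  · exact sep_empty_left
  rcases ha' with rfl | ⟨p', q', ha'⟩
  · exact sep_empty_right
  rcases hs with rfl | ⟨x, y, hs⟩
  · simpa using h.nonempty hQ ha ha'
  refine sepB_two hQ hs ha.arc.conn ha'.arc.conn ha.sub ha'.sub d d' fun u v D E t h1 h2 => ?_
  obtain ⟨z, hz, -, n⟩ := sepB_int ha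
  obtain ⟨z', hz', -, n'⟩ := sepB_int ha'
  exact h.cut t ⟨z, hz, h1 hz, fun k => k.elim (fun k => n (t.two.sub1 k)) (disjoint_left.1 d hz)⟩
    ⟨z', hz', h2 hz', fun k => k.elim (fun k => n' (t.two.sub1 k)) (disjoint_left.1 d' hz')⟩ d''

theorem sepB_half {u v E u' v' D' E' : Set Z} {z : Z} (t : Cut O k u v s D E p q) (hs : Q ⊆ O)
    (t' : Cut Q c u' v' (s ∩ Q) D' E' x y) (h1 : z ∈ D') (h2 : z ∈ D) (h3 : z ∉ s) : D' ⊆ D := by
  have c1 := t'.d1.conn_diff (B := s ∩ Q) subset_union_right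
  have c2 := (t.side1 c1 (sdiff_subset.trans (t'.sub1.trans hs))
    (disjoint_left.2 fun w hw k => hw.2 ⟨k, t'.sub1 hw.1⟩) ⟨z, ⟨h1, fun k => h3 k.1⟩, h2⟩).1
  intro w hw
  by_cases m : w ∈ s
  · exact t.d1.rim_sub (Or.inr m)
  · exact c2 ⟨hw, fun k => m k.1⟩

/-- from a disc to a larger one that the separating crosscut cuts -/
theorem Sep.larger (h : Sep (Q \ c) (s ∩ Q) (a ∩ Q) (a' ∩ Q)) (hQ : Disc Q c) (hO : Disc O k)
    (hs : Q ⊆ O) (h0 : Cc O k s p q) (h1 : Cc Q c (s ∩ Q) x y) (ca : IsPreconnected a)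
    (ca' : IsPreconnected a') (sa : a ⊆ O) (sa' : a' ⊆ O) (na : (a ∩ (Q \ c)).Nonempty)
    (na' : (a' ∩ (Q \ c)).Nonempty) (d : Disjoint a s) (d' : Disjoint a' s) (d'' : Disjoint a a') :
    Sep O s a a' := by
  refine sepB_two hO h0 ca ca' sa sa' d d' fun u v D E t m m' => ?_
  obtain ⟨z, hz, zq, zc⟩ := na
  obtain ⟨z', hz', zq', zc'⟩ := na'
  have zs := disjoint_left.1 d hz
  have zs' := disjoint_left.1 d' hz'
  have same : ∀ u' v' D' E', Cut Q c u' v' (s ∩ Q) D' E' x y → z ∈ D' → z' ∈ D' → False :=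
    fun u' v' D' E' t' i i' => h.cut t'
      ⟨z, ⟨hz, zq⟩, i, fun k => k.elim (fun k => zc (t'.two.sub1 k)) fun k => zs k.1⟩
      ⟨z', ⟨hz', zq'⟩, i', fun k => k.elim (fun k => zc' (t'.two.sub1 k)) fun k => zs' k.1⟩
      (d''.mono inter_subset_left inter_subset_left)
  have no : ¬ Q ⊆ D := fun k => by
    obtain ⟨w, hw, n⟩ := sepB_int h1
    exact (t.d1.sub_int hQ k n).2 (Or.inr hw.1)
  obtain ⟨u', v', D', E', t'⟩ := sepB_cut hQ h1
  rcases t'.union.ge zq with i | i <;> rcases t'.union.ge zq' with i' | i'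
  · exact same _ _ _ _ t' i i'
  · exact no (t'.union.ge.trans (union_subset (sepB_half t hs t' i (m hz) zs)
      (sepB_half t hs t'.symm i' (m' hz') zs')))
  · exact no (t'.union.ge.trans (union_subset (sepB_half t hs t' i' (m' hz') zs')
      (sepB_half t hs t'.symm i (m hz) zs)))
  · exact same _ _ _ _ t'.symm i i'

/-- crosscuts that start on the arc `I` of the rim are separated as their first points are -/
theorem sep_of_order (hQ : Disc Q c) (hI : Arc I x y) (hIc : I ⊆ c) (h0 : Cc Q c s e₀ p)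
    (h1 : Cc Q c a e q) (h2 : Cc Q c a' e' q') (m0 : e₀ ∈ I) (m1 : e ∈ I) (m2 : e' ∈ I)
    (n0 : p ∉ I) (d : Disjoint a s) (d' : Disjoint a' s) (hne : e ≠ e') (h : Sep I {e₀} {e} {e'}) :
    Sep Q s a a' := by
  refine sepB_two hQ h0 h1.arc.conn h2.arc.conn h1.sub h2.sub d d' fun u v D E t m m' => ?_
  have i : e ∈ u \ {e₀, p} := ⟨t.inter_rim.le ⟨m h1.arc.left, h1.left⟩,
    fun k => disjoint_left.1 d h1.arc.left (h0.arc.ends k)⟩
  have i' : e' ∈ u \ {e₀, p} := ⟨t.inter_rim.le ⟨m' h2.arc.left, h2.left⟩,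
    fun k => disjoint_left.1 d' h2.arc.left (h0.arc.ends k)⟩
  obtain ⟨P, hP, aP⟩ := hI.sub m1 m2 hne
  obtain ⟨P', hP', aP'⟩ := t.two.a1.sub i.1 i'.1 hne
  have s' := t.two.a1.sub_of_conn aP' hP' t.two.a1.conn_open sdiff_subset i i'
  obtain ⟨w, hw, rfl⟩ := h P e e' aP hP rfl rfl
  obtain ⟨v', t'⟩ := hQ.two_of_arc aP' (hP'.trans t.two.sub1)
  rcases t'.unique aP (hP.trans hIc) with rfl | rfl
  · exact (s' hw).2 (Or.inl rfl)
  · exact (t'.union.ge h0.right).elim (fun k => (s' k).2 (Or.inr rfl)) fun k => n0 (hP k)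

end Pool.Agent.Lib.MP_b7d179_gt.C
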