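import Pool.Agent.Lib.MP_b7d179_gt.C.Obs
import Pool.Agent.Lib.MP_b7d179_gt.C.SepB
import Pool.Agent.Lib.MP_b7d179_gt.C.SepC

/-! Obstacles: thickening, retraction into carriers, separation. -/

namespace Pool.Agent.Lib.MP_b7d179_gt.C

open Set

variable {Z : Type} [MetricSpace Z] {ι : Type}

variable {S D Y X W w W' w' a a' s Q c : Set Z} {p q p' q' x y : Z}

/-- an arc that meets one hemisphere at most in its ends lies in the other one -/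
lemma obsC_in {T E t : Set Z} {e f : Z} (hT : Hemi S T E t) (ha : Arc a e f) (sa : a ⊆ S)
    (i : a ∩ T ⊆ {e, f}) : a ⊆ E := by
  refine (ha.dense (E := {e, f}) (toFinite _)).trans (closure_minimal ?_ hT.d2.closed)
  intro z hz
  rcases hT.union.ge (sa hz.1) with h | h
  · exact (hz.2 (i ⟨hz.1, h⟩)).elim
  · exact h

/-- a subdisc off `Y` whose interior keeps the inner points of `X` -/
lemma obsC_sub (hQ : Disc Q c) (hY : IsCompact Y) (hYc : Y ∩ Q ⊆ c) (hX : IsCompact X)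
    (hd : Disjoint X Y) : ∃ Q' c', Disc Q' c' ∧ Q' ⊆ Q ∧ Disjoint Q' Y ∧ X ∩ Q ⊆ Q' ∧
      X ∩ (Q \ c) ⊆ Q' \ c' := by
  obtain ⟨U, V, oU, oV, hU, hV, hUV⟩ := SeparatedNhds.of_isCompact_isCompact hX hY hd
  obtain ⟨Q', c', hQ', s1, s2, dQ⟩ := subdisc hQ hY.isClosed hYc (hQ.compact.diff oV) sdiff_subset
    (disjoint_left.2 fun z hz hz' => hz.2 (hV hz'))
  have s3 : U ∩ Q ⊆ Q' := fun z hz => s1 ⟨hz.2, fun h => disjoint_left.1 hUV hz.1 h⟩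
  refine ⟨Q', c', hQ', s2, dQ, fun z hz => s3 ⟨hU hz.1, hz.2⟩, fun z hz => ?_⟩
  obtain ⟨N, n, hN, sN, hz'⟩ := hQ.small hz.2 (oU.mem_nhds (hU hz.1))
  exact hQ'.sub_int hN (fun w hw => s3 ⟨(sN hw).2, (sN hw).1.1⟩) hz'

/-- separation inside a disc off the obstacle gives separation off the obstacle -/
theorem sep_ob (hS : Sph S) (ho : Obs S D Y) (hQ : Disc Q c) (hs : Q ⊆ S) (hi : Q ∩ (D ∪ Y) ⊆ c)
    (h0 : Arc s p q) (s0 : s ⊆ S) (i0 : s ∩ D = {p, q}) (d0 : Disjoint s Y)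
    (h1 : Cc Q c (s ∩ Q) x y) {e f e' f' : Z} (ha : Arc a e f) (sa : a ⊆ S) (ia : a ∩ D ⊆ {e, f})
    (da : Disjoint a Y) (ha' : Arc a' e' f') (sa' : a' ⊆ S) (ia' : a' ∩ D ⊆ {e', f'})
    (da' : Disjoint a' Y) (na : (a ∩ (Q \ c)).Nonempty) (na' : (a' ∩ (Q \ c)).Nonempty)
    (d : Disjoint a s) (d' : Disjoint a' s) (d'' : Disjoint a a')
    (h : Sep (Q \ c) (s ∩ Q) (a ∩ Q) (a' ∩ Q)) : Sep (S \ (D ∪ Y)) s a a' := by
  intro P x0 y0 hP hPs hx0 hy0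
  obtain ⟨-, kY, -⟩ := ho.facts
  have kX : IsCompact (s ∪ a ∪ a') := (h0.compact.union ha.compact).union ha'.compact
  have dX : Disjoint (s ∪ a ∪ a') Y := by
    rw [disjoint_union_left, disjoint_union_left]; exact ⟨⟨d0, da⟩, da'⟩
  obtain ⟨Q', c', hQ', s1, dQ, s2, s3⟩ :=
    obsC_sub hQ kY (fun z hz => hi ⟨hz.2, Or.inr hz.1⟩) kX dX
  have s4 : Q' \ c' ⊆ Q \ c := hQ.sub_int hQ' s1
  have e1 : s ∩ Q' = s ∩ Q :=
    Subset.antisymm (inter_subset_inter_right _ s1) fun z hz =>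
      ⟨hz.1, s2 ⟨Or.inl (Or.inl hz.1), hz.2⟩⟩
  have h2 : Cc Q' c' (s ∩ Q') x y := by
    refine ⟨e1 ▸ h1.arc, inter_subset_right, ?_⟩
    rw [← h1.inter, e1]
    refine Subset.antisymm (fun z hz => ⟨hz.1, ?_⟩) fun z hz => ⟨hz.1, ?_⟩
    · by_contra hc
      exact (s3 ⟨Or.inl (Or.inl hz.1.1), hz.1.2, hc⟩).2 hz.2
    · by_contra hc
      exact (s4 ⟨(e1.ge hz.1).2, hc⟩).2 hz.2
  have dP : Disjoint P Y := disjoint_left.2 fun z hz hz' => (hPs hz).2 (Or.inr hz')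
  obtain ⟨T, t, hT, sT, hDT, iT⟩ := ho.thick (X := s ∪ a ∪ a' ∪ P ∪ Q') hS
    ((kX.union hP.compact).union hQ'.compact).isClosed (by
      rw [disjoint_union_left, disjoint_union_left]; exact ⟨⟨dX, dP⟩, dQ⟩)
  obtain ⟨E, hE⟩ := hS.compl hT sT
  have out : ∀ z ∈ S, z ∉ T → z ∈ E := fun z hz hn => (hE.union.ge hz).resolve_left hn
  have iS : s ∩ T ⊆ {p, q} := fun z hz =>
    i0.le ⟨hz.1, iT ⟨hz.2, Or.inl (Or.inl (Or.inl (Or.inl hz.1)))⟩⟩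
  have sE : s ⊆ E := obsC_in hE h0 s0 iS
  have aE : a ⊆ E := obsC_in hE ha sa fun z hz =>
    ia ⟨hz.1, iT ⟨hz.2, Or.inl (Or.inl (Or.inl (Or.inr hz.1)))⟩⟩
  have aE' : a' ⊆ E := obsC_in hE ha' sa' fun z hz =>
    ia' ⟨hz.1, iT ⟨hz.2, Or.inl (Or.inl (Or.inr hz.1))⟩⟩
  have pE : P ⊆ E := fun z hz => out z (hPs hz).1 fun hz' =>
    (hPs hz).2 (Or.inl (iT ⟨hz', Or.inl (Or.inr hz)⟩))
  have qE : Q' ⊆ E := by
    refine hQ'.dense.trans (closure_minimal (fun z hz => out z (hs (s1 hz.1)) fun hz' => ?_)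
      hE.d2.closed)
    exact (s4 hz).2 (hi ⟨s1 hz.1, Or.inl (iT ⟨hz', Or.inr hz.1⟩)⟩)
  have h3 : Cc E t s p q := by
    refine ⟨h0, sE, Subset.antisymm (fun z hz => iS ⟨hz.1, hT.rim_sub hz.2⟩) fun z hz => ?_⟩
    have hz' := i0.ge hz
    exact ⟨hz'.1, hE.inter.le ⟨hDT (Or.inl hz'.2), sE hz'.1⟩⟩
  have h4 : Sep (Q' \ c') (s ∩ Q') (a ∩ Q') (a' ∩ Q') :=
    h.mono s4 (inter_subset_inter_right _ s1) (inter_subset_inter_right _ s1)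
      fun z hz => ⟨hz.1.1, hz.2.1⟩
  obtain ⟨α, hα⟩ := na
  obtain ⟨β, hβ⟩ := na'
  exact h4.larger hQ' hE.d2 qE h3 h2 ha.conn ha'.conn aE aE'
    ⟨α, hα.1, s3 ⟨Or.inl (Or.inr hα.1), hα.2⟩⟩ ⟨β, hβ.1, s3 ⟨Or.inr hβ.1, hβ.2⟩⟩ d d' d''
    P x0 y0 hP pE hx0 hy0

end Pool.Agent.Lib.MP_b7d179_gt.C
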