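import Pool.Agent.Lib.MP_b7d179_gt.C.OpRe

/-! Carriers: change of the disc. -/

namespace Pool.Agent.Lib.MP_b7d179_gt.C

open Set

variable {Z : Type} [MetricSpace Z] {ι : Type}

theorem opReB_red {O c O' : Set Z} {a : ι → Set Z} (hO : Disc O c)
    (cc : ∀ i, a i = ∅ ∨ ∃ p q, Cc O c (a i) p q) (dj : Pairwise (Function.onFun Disjoint a))
    {i j s : ι} (h : Sep (O \ c) (a s) (a i) (a j))
    (k : (∃ p q, Cc O c (a s) p q) → (∃ p q, Cc O c (a i) p q) → (∃ p q, Cc O c (a j) p q) →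
      Disjoint (a i) (a s) → Disjoint (a j) (a s) → Disjoint (a i) (a j) →
      Sep O' (a s) (a i) (a j)) : Sep O' (a s) (a i) (a j) := by
  rcases cc i with e | ⟨p, q, hi⟩
  · exact e ▸ sep_empty_left
  rcases cc j with e | ⟨p', q', hj⟩
  · exact e ▸ sep_empty_right
  by_cases e1 : i = s
  · exact fun P x y hP _ hx _ => ⟨x, hP.left, e1 ▸ hx⟩
  by_cases e2 : j = s
  · exact fun P x y hP _ _ hy => ⟨y, hP.right, e2 ▸ hy⟩
  rcases cc s with e | hs
  · simpa [e] using h.nonempty hO hi hj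
  refine k hs ⟨p, q, hi⟩ ⟨p', q', hj⟩ (dj e1) (dj e2) (dj ?_)
  rintro rfl
  obtain ⟨z, hz, n⟩ := hi.arc.exists_notMem (toFinite {p, q})
  obtain ⟨I, u, v, hI, sub, -⟩ := hi.arc.small ⟨hz, n⟩ Filter.univ_mem
  obtain ⟨w, w1, w2⟩ := h I u v hI
    (fun w m => ⟨hi.sub (sub m).1.1, fun l => (sub m).1.2 (hi.inter.le ⟨(sub m).1.1, l⟩)⟩)
    (sub hI.left).1.1 (sub hI.right).1.1
  exact disjoint_left.1 (dj e1) (sub w1).1.1 w2

theorem opReB_inner {O c a : Set Z} {p q : Z} (h : Cc O c a p q) : (a ∩ (O \ c)).Nonempty :=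
  let ⟨z, hz, n⟩ := h.arc.exists_notMem (toFinite {p, q})
  ⟨z, hz, h.sub hz, fun l => n (h.inter.le ⟨hz, l⟩)⟩

theorem opReB_move [Finite ι] {O c Q k : Set Z} {a : ι → Set Z} (hO : Disc O c) (hQ : Disc Q k)
    (hs : Q ⊆ O ∨ O ⊆ Q) (cc : ∀ i, a i = ∅ ∨ ∃ p q, Cc O c (a i) p q ∧ p ∈ k ∧ q ∈ k)
    (dj : Pairwise (Function.onFun Disjoint a)) : ∃ F, Sup F O c ∧
      (∀ i p q, Cc O c (a i) p q → Cc Q k (F '' a i) p q) ∧ ∀ i j s,
        Sep (O \ c) (a s) (a i) (a j) → Sep (Q \ k) (F '' a s) (F '' a i) (F '' a j) := by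
  have cc' : ∀ i, a i = ∅ ∨ ∃ p q, Cc O c (a i) p q := fun i =>
    (cc i).imp id fun ⟨p, q, h, _⟩ => ⟨p, q, h⟩
  have sub : ∀ i, a i ⊆ O := fun i => (cc' i).elim (fun e => e ▸ empty_subset _) fun ⟨_, _, h⟩ => h.sub
  have en : ∀ i p q, Cc O c (a i) p q → p ∈ k ∧ q ∈ k := fun i p q h => by
    rcases cc i with e | ⟨p', q', h', m⟩
    · exact absurd (e ▸ h.arc.left) (notMem_empty p)
    · have : ({p, q} : Set Z) ⊆ k := h.inter.ge.trans (h'.inter.le.trans (pair_subset m.1 m.2))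
      exact pair_subset_iff.1 this
  rcases hs with hs | hs
  · have : Nonempty Z := let ⟨φ, _⟩ := hO; ⟨φ 0⟩
    choose! p q hpq using fun i (h : a i ≠ ∅) => (cc' i).resolve_left h
    obtain ⟨F, hF, hc⟩ := retract (s := {i | a i ≠ ∅}) hO hQ hs
      ⟨toFinite _, hpq, fun _ _ _ _ l => dj l⟩ fun i h => en i _ _ (hpq i h)
    refine ⟨F, hF, fun i u v h => ?_, fun i j s h => ?_⟩
    · have n : a i ≠ ∅ := fun e => notMem_empty u (e ▸ h.arc.left)
      exact ⟨(hF.cc hO h).arc, (hc i n).sub,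
        (hc i n).inter.trans ((hpq i n).inter.symm.trans h.inter)⟩
    · have := (opReB_red (O' := O) hO cc' dj h fun a1 a2 a3 => h.closed hO (.inr a1) (.inr a2)
        (.inr a3)).image hO.compact hF.emb subset_rfl (sub s) (sub i) (sub j)
      exact this.mono (hF.img.symm ▸ sdiff_subset.trans hs) subset_rfl subset_rfl inter_subset_left
  · have up : ∀ i p q, Cc O c (a i) p q → Cc Q k (a i) p q := fun i p q h =>
      ⟨h.arc, h.sub.trans hs, subset_antisymm (fun z m => h.inter.le ⟨m.1, by_contra fun l =>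
        (hQ.sub_int hO hs ⟨h.sub m.1, l⟩).2 m.2⟩)
        (subset_inter h.arc.ends (pair_subset_iff.2 (en i p q h)))⟩
    refine ⟨id, sup_id, fun i p q h => (image_id _).symm ▸ up i p q h, fun i j s h => ?_⟩
    simp only [image_id]
    refine opReB_red hO cc' dj h fun ⟨p, q, a1⟩ ⟨_, _, a2⟩ ⟨_, _, a3⟩ d1 d2 d3 => ?_
    have e : ∀ i, a i ∩ O = a i := fun i => inter_eq_left.2 (sub i)
    exact (Sep.larger (by rwa [e, e, e]) hO hQ hs (up s p q a1) ((e s).symm ▸ a1) a2.arc.conn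
      a3.arc.conn ((sub i).trans hs) ((sub j).trans hs) (opReB_inner a2) (opReB_inner a3) d1 d2
      d3).mono sdiff_subset subset_rfl subset_rfl inter_subset_left

theorem opReB_fix {F : Z → Z} (hF : Function.Injective F) {L : Set Z} (h : ∀ z ∈ L, F z = z)
    (a : Set Z) : F '' a ∩ L = a ∩ L :=
  Set.ext fun z => ⟨fun ⟨⟨_, m, e⟩, l⟩ => ⟨hF (e.trans (h z l).symm) ▸ m, l⟩,
    fun ⟨m, l⟩ => ⟨⟨z, m, h z l⟩, l⟩⟩

variable [Finite ι] {A : Atoms} {R : ℕ → Set Z} {nd : ℕ → Option (ℕ × ℕ)} {n0 fr pad : ℕ}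
  {K : Set Z} {𝒞 : Set (Set ι)} {rel : ι → ι → ι → Prop} {grp : ι → Bool} {x y : PS}
  {b : ℕ → ι → Set Z}

theorem op_re {n : ℕ} {t : TD} (hA : A.Ok R Ball) (hn : NdB R nd) (hK : IsClosed K) (hf : Disjoint (R fr) K)
    (hx : x.Ok R nd n0 fr pad) (h : CS R 𝒞 rel grp x.cs b)
    (e : stepOp A fr x (.re n t) = some y) (hw : wf fr pad y.s y.cs = true) (hp : sub pad y.s = true) :
    ∃ b' H, y.Ok R nd n0 fr pad ∧ CS R 𝒞 rel grp y.cs b' ∧ Mvd R K pad x y b b' H := by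
  have hR := hA.rl
  simp only [stepOp] at e
  split at e
  swap
  · cases e
  rename_i k q c ek et
  split at e
  swap
  · cases e
  rename_i hq
  cases e
  obtain ⟨ln, -⟩ := List.getElem?_eq_some_iff.1 ek
  have mk := List.mem_of_getElem? ek
  obtain ⟨w1, w2⟩ := wf_facts hR hx.wf
  obtain ⟨v1, -⟩ := wf_facts hR hw
  have hO := h.disc k mk
  have hQ : Disc (R q) (R c) := hA.evD glues et
  have lc : ∀ L ∈ k.ls, R L ⊆ R c := (v1 _ (List.mem_set ln _)).2.2.2.1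
  obtain ⟨F, hF, f1, f2⟩ := opReB_move (a := b n) hO hQ
    ((Bool.or_eq_true _ _ ▸ hq :).imp hR.sub hR.sub) (fun i => (h.cc n k ek i).imp id
      fun ⟨_, p, q, a, L, m, L', m', _, u, v⟩ => ⟨p, q, a, lc L m u, lc L' m' v⟩) (h.dj n)
  obtain ⟨H, h1, h2, h3, h4⟩ := hF.ext (hx.ch.ball hn) hK hO (w1 k mk).1
    (hf.mono_left (w1 k mk).2.1)
  have inj := hF.injective hO
  have old : ∀ m k', (x.cs.set n ⟨q, c, k.ls, k.tag⟩)[m]? = some k' →
      m = n ∧ k' = ⟨q, c, k.ls, k.tag⟩ ∨ m ≠ n ∧ x.cs[m]? = some k' := fun m k' e => by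
    by_cases l : m = n
    · rw [l, List.getElem?_set_self ln] at e
      exact .inl ⟨l, (Option.some.inj e).symm⟩
    · exact .inr ⟨l, (List.getElem?_set_ne (Ne.symm l)).symm.trans e⟩
  have fx : ∀ m k', m ≠ n → x.cs[m]? = some k' → ∀ z ∈ R k'.q, F z = z := fun m k' l e z hz =>
    hF.fix z fun o => disjoint_left.1 (w2 n m k k' ek e l.symm).1 o hz
  have fb : ∀ m k', m ≠ n → x.cs[m]? = some k' → ∀ i, F '' b m i = b m i := fun m k' l e i =>
    (image_congr fun z hz => fx m k' l e z ((h.sub_u hR e i).2 hz)).trans (image_id' _)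
  have fl : ∀ (m : ℕ) (k' : Car), (x.cs.set n ⟨q, c, k.ls, k.tag⟩)[m]? = some k' →
      ∃ k₀ : Car, x.cs[m]? = some k₀ ∧ k₀.ls = k'.ls ∧ ∀ L ∈ k'.ls, ∀ z ∈ R L, F z = z :=
    fun m k' e => by
      rcases old m k' e with ⟨rfl, rfl⟩ | ⟨l, e⟩
      · exact ⟨k, ek, rfl, fun L o z hz => hF.fix z fun u => u.2 ((w1 k mk).2.2.2.1 L o hz)⟩
      · have o := List.mem_of_getElem? e
        exact ⟨k', e, rfl, fun L u z hz =>
          fx m k' l e z ((h.disc k' o).rim_sub ((w1 k' o).2.2.2.1 L u hz))⟩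
  refine ⟨fun m i => F '' b m i, H, ⟨hx.ch, hw, hp⟩, ⟨fun k' o => ?_, fun m i l => ?_,
    fun m k' e i => ?_, fun m i j l => disjoint_image_of_injective inj (h.dj m l),
    fun m m' k1 k2 e1 e2 L l1 l2 T hT => ?_, fun m k' e i j s r => ?_⟩, h1, h2, h3,
    fun z hz => (h4 (hR.sub hx.pad hz)).trans
      (hF.fix z fun o => disjoint_left.1 (w1 k mk).2.2.1 o hz), fun i => ?_⟩
  · rcases List.mem_or_eq_of_mem_set o with o | rfl
    · exact h.disc k' o
    · exact hQ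
  · rw [h.nil m i (by simpa using l), image_empty]
  · rcases old m k' e with ⟨rfl, rfl⟩ | ⟨l, e⟩
    · exact (h.cc m k ek i).imp (fun e => by rw [e, image_empty])
        fun ⟨g, p, q, a, r⟩ => ⟨g, p, q, f1 i p q a, r⟩
    · rw [fb m k' l e]
      exact h.cc m k' e i
  · obtain ⟨a1, a2, a3, a4⟩ := fl m k1 e1
    obtain ⟨b1, b2, b3, -⟩ := fl m' k2 e2
    have := h.bal m m' a1 b1 a2 b2 L (a3 ▸ l1) (b3 ▸ l2) T hT
    simp only [tot, ← image_iUnion₂] at this ⊢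
    rw [opReB_fix inj (a4 L l1), opReB_fix inj (a4 L l1), this]
  · rcases old m k' e with ⟨rfl, rfl⟩ | ⟨l, e⟩
    · exact f2 i j s (h.sep m k ek i j s r)
    · rw [fb m k' l e, fb m k' l e, fb m k' l e]
      exact h.sep m k' e i j s r
  · simp only [whole, ← image_iUnion]
    refine image_congr fun z hz => h4 ?_
    obtain ⟨m, hm⟩ := mem_iUnion.1 hz
    rcases le_or_gt x.cs.length m with l | l
    · exact absurd (h.nil m i l ▸ hm) (notMem_empty z)
    · exact (w1 _ (List.getElem_mem l)).1 ((h.sub_u hR (List.getElem?_eq_getElem l) i).2 hm)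

end Pool.Agent.Lib.MP_b7d179_gt.C
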