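import Pool.Agent.Lib.MP_b7d179_gt.C.Tr
import Pool.Agent.Lib.MP_b7d179_gt.C.ObsC
import Pool.Agent.Lib.MP_b7d179_gt.C.OpReB

/-! Exits of programs. -/

namespace Pool.Agent.Lib.MP_b7d179_gt.C

open Set

variable {Z : Type} [MetricSpace Z] {ι : Type}

variable [Finite ι] {A : Atoms} {R : ℕ → Set Z} {fr pad s sw : ℕ} {fl : Bool} {ex : Ex}
  {𝒞 : Set (Set ι)} {rel : ι → ι → ι → Prop} {grp : ι → Bool} {cs : List Car} {b : ℕ → ι → Set Z}

section
variable {ks : List Car} {kw L0 L1 : List ℕ}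

theorem exD_mem (hm : mapO (fun n => cs[n]?) kw = some ks) {n : ℕ} {k : Car} (hn : n ∈ kw)
    (e : cs[n]? = some k) : k ∈ ks := by
  obtain ⟨y, hy, e'⟩ := (mapO_mem hm).1 n hn
  exact Option.some.inj (e'.symm.trans e) ▸ hy

/-- two carriers that go to the node have different tags and disjoint landing arcs -/
theorem exD_two (hR : Rl R) (hm : mapO (fun n => cs[n]?) kw = some ks)
    (e : kwOk cs ks kw sw fl L0 L1 = true) {n n' : ℕ} {k k' : Car} (hn : n ∈ kw) (hn' : n' ∈ kw)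
    (c : cs[n]? = some k) (c' : cs[n']? = some k') (ne : n ≠ n') :
    k.tag ≠ k'.tag ∧ Disjoint (R (orL k.ls)) (R (orL k'.ls)) := by
  simp only [kwOk, Bool.and_eq_true] at e
  obtain ⟨i, hi⟩ := List.getElem?_of_mem hn
  obtain ⟨j, hj⟩ := List.getElem?_of_mem hn'
  obtain ⟨y, a, a'⟩ := (mapO_mem hm).2.2.2 i n hi
  obtain ⟨y', d, d'⟩ := (mapO_mem hm).2.2.2 j n' hj
  obtain rfl : y = k := Option.some.inj (a'.symm.trans c)
  obtain rfl : y' = k' := Option.some.inj (d'.symm.trans c')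
  rcases lt_trichotomy i j with o | rfl | o
  · have := pairs_get e.1.2 o a d
    simp only [Bool.and_eq_true, bne_iff_ne] at this
    exact ⟨this.1, hR.dis this.2⟩
  · exact absurd (Option.some.inj (hi.symm.trans hj)) ne
  · have := pairs_get e.1.2 o d a
    simp only [Bool.and_eq_true, bne_iff_ne] at this
    exact ⟨this.1.symm, (hR.dis this.2).symm⟩

omit [Finite ι] in
/-- the pieces of one label lie in one carrier -/
theorem exD_one (hR : Rl R) (h : CS R 𝒞 rel grp cs b) (hm : mapO (fun n => cs[n]?) kw = some ks)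
    (e : kwOk cs ks kw sw fl L0 L1 = true) {n : ℕ} {k : Car} (hn : n ∈ kw) (c : cs[n]? = some k)
    {i : ι} (t : grp i = k.tag) : ⋃ m ∈ kw, b m i = b n i := by
  refine (iUnion₂_subset fun m hm' => ?_).antisymm (subset_biUnion_of_mem (u := fun m => b m i) hn)
  rcases eq_or_ne m n with rfl | ne
  · exact subset_rfl
  obtain ⟨k', -, c'⟩ := (mapO_mem hm).1 m hm'
  rcases h.cc m k' c' i with o | ⟨o, -⟩
  · exact o ▸ empty_subset _
  · exact absurd (o.symm.trans t) (exD_two hR hm e hm' hn c' c ne).1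

omit [Finite ι] in
theorem exD_cases (hR : Rl R) (h : CS R 𝒞 rel grp cs b)
    (hm : mapO (fun n => cs[n]?) kw = some ks) (e : kwOk cs ks kw sw fl L0 L1 = true) (i : ι) :
    ⋃ m ∈ kw, b m i = ∅ ∨ ∃ n ∈ kw, ∃ k, cs[n]? = some k ∧ ⋃ m ∈ kw, b m i = b n i ∧
      grp i = k.tag ∧ ∃ p q, Cc (R k.q) (R k.c) (b n i) p q ∧
        ∃ L ∈ k.ls, ∃ L' ∈ k.ls, L ≠ L' ∧ p ∈ R L ∧ q ∈ R L' := by
  refine (eq_empty_or_nonempty _).imp_right fun ⟨z, hz⟩ => ?_
  obtain ⟨n, hn, hz⟩ := mem_iUnion₂.1 hz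
  obtain ⟨k, -, c⟩ := (mapO_mem hm).1 n hn
  rcases h.cc n k c i with o | ⟨o, r⟩
  · exact (o ▸ hz : z ∈ (∅ : Set Z)).elim
  · exact ⟨n, hn, k, c, exD_one hR h hm e hn c o, o, r⟩

omit [Finite ι] in
theorem exD_lands (hR : Rl R) {ls Ms : List ℕ} (e : cover ls Ms = true) {L L' : ℕ} (hL : L ∈ ls)
    (hL' : L' ∈ ls) (ne : L ≠ L') {p q : Z} (hp : p ∈ R L) (hq : q ∈ R L') :
    Lands (setsA R Ms) p q := by
  rcases opRe_pairs e hL hL' ne with o | o <;>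
    simp only [List.any_eq_true, Bool.and_eq_true] at o <;>
    obtain ⟨M, hM, M', hM', ⟨a, a'⟩, d⟩ := o
  · exact ⟨_, ⟨M, hM, rfl⟩, _, ⟨M', hM', rfl⟩,
      fun o => disjoint_left.1 (hR.dis d) (hR.sub a hp) (o ▸ hR.sub a hp), hR.sub a hp,
      hR.sub a' hq⟩
  · exact ⟨_, ⟨M', hM', rfl⟩, _, ⟨M, hM, rfl⟩,
      fun o => disjoint_left.1 (hR.dis d) (hR.sub a hq) (o ▸ hR.sub a hq), hR.sub a' hp,
      hR.sub a hq⟩

theorem exD_dj (hR : Rl R) (hw : wf fr pad s cs = true) (h : CS R 𝒞 rel grp cs b)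
    (hm : mapO (fun n => cs[n]?) kw = some ks) (e : kwOk cs ks kw sw fl L0 L1 = true) :
    Pairwise (Function.onFun Disjoint fun i => ⋃ m ∈ kw, b m i) := fun i j ne => by
  refine disjoint_left.2 fun z hi hj => ?_
  obtain ⟨n, hn, hi⟩ := mem_iUnion₂.1 hi
  obtain ⟨n', hn', hj⟩ := mem_iUnion₂.1 hj
  rcases eq_or_ne n n' with rfl | o
  · exact disjoint_left.1 (h.dj n ne) hi hj
  obtain ⟨k, -, c⟩ := (mapO_mem hm).1 n hn
  obtain ⟨k', -, c'⟩ := (mapO_mem hm).1 n' hn'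
  have u := (h.sub_u hR c i).1 hi
  have u' := (h.sub_u hR c' j).1 hj
  rw [Car.u, hR.or, hR.df] at u u'
  rcases u with u | u
  · exact disjoint_left.1 ((wf_facts hR hw).2 n n' k k' c c' o).1 u ((h.sub_u hR c' j).2 hj)
  rcases u' with u' | u'
  · exact disjoint_left.1 ((wf_facts hR hw).2 n' n k' k c' c o.symm).1 u' ((h.sub_u hR c i).2 hi)
  exact disjoint_left.1 (exD_two hR hm e hn hn' c c' o).2 u u'

/-- the trace on the sphere of the node -/
theorem exD_tr (hR : Rl R) (h : CS R 𝒞 rel grp cs b) (hm : mapO (fun n => cs[n]?) kw = some ks)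
    (e : kwOk cs ks kw sw fl L0 L1 = true) {T : Set ι} (hT : T ∈ 𝒞) :
    tot T (whole b) ∩ R sw = tot T fun i => ⋃ m ∈ kw, b m i := by
  simp only [kwOk, seen, Bool.and_eq_true, List.all_eq_true] at e
  refine Subset.antisymm (fun z ⟨hz, w⟩ => ?_) fun z hz => ?_
  · obtain ⟨i, hi, hz⟩ := mem_iUnion₂.1 hz
    obtain ⟨n, hz⟩ := mem_iUnion.1 hz
    by_cases o : n ∈ kw
    · exact mem_iUnion₂.2 ⟨i, hi, mem_iUnion₂.2 ⟨n, o, hz⟩⟩
    have l : n < cs.length := lt_of_not_ge fun l => by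
      rw [h.nil n i l] at hz
      exact hz
    have c := List.getElem?_eq_getElem l
    have a := e.2 n (List.mem_range.2 l)
    rw [c] at a
    simp only [Bool.or_eq_true, List.contains_iff_mem, o, false_or] at a
    have := hR.sub a ((hR.and _ _).ge ⟨(h.sub_u hR c i).1 hz, w⟩)
    rw [hR.orL] at this
    obtain ⟨L, hL, m⟩ := this
    simp only [List.mem_filter, List.contains_iff_mem, List.mem_flatMap] at hL
    obtain ⟨h1, k', h2, h3⟩ := hL
    obtain ⟨n', hn', c'⟩ := (mapO_mem hm).2.1 k' h2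
    obtain ⟨j, hj, m'⟩ := mem_iUnion₂.1
      ((h.bal n n' _ k' c c' L h1 h3 T hT).le ⟨mem_iUnion₂.2 ⟨i, hi, hz⟩, m⟩).1
    exact mem_iUnion₂.2 ⟨j, hj, mem_iUnion₂.2 ⟨n', hn', m'⟩⟩
  · obtain ⟨i, hi, hz⟩ := mem_iUnion₂.1 hz
    obtain ⟨n, hn, hz⟩ := mem_iUnion₂.1 hz
    obtain ⟨k, hk, c⟩ := (mapO_mem hm).1 n hn
    exact ⟨mem_iUnion₂.2 ⟨i, hi, mem_iUnion.2 ⟨n, hz⟩⟩,
      hR.sub (e.1.1 k hk).1 ((h.sub_u hR c i).2 hz)⟩

end

theorem exit_di {P c : ℕ} {L0 L1 : List ℕ} (hA : A.Ok R Ball) (hw : wf fr pad s cs = true)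
    (h : CS R 𝒞 rel grp cs b) (hS : Sph (R sw)) (e : exOk A cs sw fl (.di P c L0 L1) ex = true) :
    (Sp.di P c L0 L1).St R rel (fun i => xor fl (grp i)) (ex.pc A R b) ∧
      (∀ T ∈ 𝒞, tot T (whole b) ∩ R sw = tot T (ex.pc A R b)) ∧ ∀ i, ex.pc A R b i ⊆ whole b i := by
  have hR := hA.rl
  rcases ex with _ | ⟨t, kw⟩ | _
  · cases e
  swap
  · cases e
  simp only [exOk] at e
  split at e
  swap
  · cases e
  rename_i P' c' ks e1 hm
  simp only [Bool.and_eq_true, List.all_eq_true] at e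
  obtain ⟨⟨⟨a1, a2⟩, e⟩, a3⟩ := e
  obtain rfl := Nat.eq_of_beq_eq_true a1
  obtain rfl := Nat.eq_of_beq_eq_true a2
  have hP : Disc (R P) (R c) := hA.evD glues e1
  have up : ∀ {n k i p q}, n ∈ kw → cs[n]? = some k → Cc (R k.q) (R k.c) (b n i) p q →
      Cc (R P) (R c) (b n i) p q := fun {n k i p q} hn o x => by
    obtain ⟨⟨d1, d2⟩, d3⟩ := a3 k (exD_mem hm hn o)
    refine ⟨x.arc, x.sub.trans (hR.sub d1), Subset.antisymm (fun z hz => x.inter.le ⟨hz.1, ?_⟩)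
      fun z hz => ⟨(x.inter.ge hz).1, ?_⟩⟩
    · by_contra m
      exact disjoint_left.1 (hR.dis d2) ((hR.df _ _).ge ⟨x.sub hz.1, m⟩) hz.2
    · have u := (h.sub_u hR o i).1 (x.inter.ge hz).1
      rw [Car.u, hR.or, hR.df] at u
      exact hR.sub d3 (u.resolve_left fun m => m.2 (x.inter.ge hz).2)
  refine ⟨⟨fun i => ?_, exD_dj hR hw h hm e, fun i j r hr g => ?_⟩, fun T hT => exD_tr hR h hm e hT,
    fun i => iUnion₂_subset fun n _ => subset_iUnion (fun n => b n i) n⟩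
  · refine (exD_cases hR h hm e i).imp_right
      fun ⟨n, hn, k, o, m, g, p, q, x, L, hL, L', hL', ne, hp, hq⟩ => ⟨p, q, ?_, ?_⟩
    · exact (congrArg (Cc (R P) (R c) · p q) m).mpr (up hn o x)
    · simp only [kwOk, Bool.and_eq_true, List.all_eq_true] at e
      exact exD_lands hR (g ▸ (e.1.1 k (exD_mem hm hn o)).2) hL hL' ne hp hq
  change Sep _ (⋃ m ∈ kw, b m r) (⋃ m ∈ kw, b m i) (⋃ m ∈ kw, b m j)
  rcases exD_cases hR h hm e i with m | ⟨n, hn, k, o, m, g1, p, q, x, -⟩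
  · exact m ▸ sep_empty_left
  rcases exD_cases hR h hm e j with m' | ⟨n', -, k', -, -, -, -⟩
  · exact m' ▸ sep_empty_right
  have g' : grp j = k.tag := (Bool.xor_right_inj.1 g).symm.trans g1
  have hQ := h.disc k (List.mem_of_getElem? o)
  have sp := h.sep n k o i j r hr
  rw [m, exD_one hR h hm e hn o g']
  refine Sep.mono (s := b n r) (O := R P \ R c) ?_ subset_rfl subset_rfl subset_rfl
    (inter_subset_left.trans (subset_biUnion_of_mem (u := fun m => b m r) hn))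
  refine opReB_red hQ (fun i => (h.cc n k o i).imp_right fun ⟨_, p, q, x, _⟩ => ⟨p, q, x⟩) (h.dj n) sp
    fun ⟨_, _, x0⟩ ⟨_, _, x1⟩ ⟨_, _, x2⟩ d1 d2 d3 => ?_
  have sP := hR.sub (a3 k (exD_mem hm hn o)).1.1
  refine (Sep.larger ?_ hQ hP sP (up hn o x0) (by rwa [inter_eq_left.2 x0.sub]) x1.arc.conn
    x2.arc.conn (x1.sub.trans sP) (x2.sub.trans sP) (opReB_inner x1) (opReB_inner x2) d1 d2
    d3).mono sdiff_subset subset_rfl subset_rfl inter_subset_left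
  rwa [inter_eq_left.2 x0.sub, inter_eq_left.2 x1.sub, inter_eq_left.2 x2.sub]

end Pool.Agent.Lib.MP_b7d179_gt.C
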