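import Pool.Agent.Lib.MP_b7d179_gt.C.Shell
import Pool.Agent.Lib.MP_b7d179_gt.C.SepB
import Pool.Agent.Lib.MP_b7d179_gt.C.SepC

/-! Carriers: change of the disc. -/

namespace Pool.Agent.Lib.MP_b7d179_gt.C

open Set

variable {Z : Type} [MetricSpace Z] {ι : Type}

variable [Finite ι] {A : Atoms} {R : ℕ → Set Z} {nd : ℕ → Option (ℕ × ℕ)} {n0 fr pad : ℕ}
  {K : Set Z} {𝒞 : Set (Set ι)} {rel : ι → ι → ι → Prop} {grp : ι → Bool} {x y : PS}
  {b : ℕ → ι → Set Z}

theorem pairs_get {α : Type} {p : α → α → Bool} {l : List α} (h : pairs p l = true) {i j : ℕ}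
    {a a' : α} (hij : i < j) (hi : l[i]? = some a) (hj : l[j]? = some a') : p a a' = true := by
  induction l generalizing i j with
  | nil => simp at hi
  | cons x l ih =>
    simp only [pairs, Bool.and_eq_true, List.all_eq_true] at h
    obtain ⟨j, rfl⟩ := Nat.exists_eq_succ_of_ne_zero (Nat.ne_of_gt (Nat.zero_lt_of_lt hij))
    rw [List.getElem?_cons_succ] at hj
    cases i with
    | zero =>
      obtain rfl : x = a := by simpa using hi
      exact h.1 a' (List.mem_of_getElem? hj)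
    | succ i => exact ih h.2 (Nat.lt_of_succ_lt_succ hij) (by simpa using hi) hj

theorem opRe_pairs {α : Type} {p : α → α → Bool} {l : List α} (h : pairs p l = true) {a a' : α}
    (ha : a ∈ l) (ha' : a' ∈ l) (n : a ≠ a') : p a a' = true ∨ p a' a = true := by
  obtain ⟨i, hi⟩ := List.getElem?_of_mem ha
  obtain ⟨j, hj⟩ := List.getElem?_of_mem ha'
  rcases lt_trichotomy i j with c | rfl | c
  · exact .inl (pairs_get h c hi hj)
  · exact (n (Option.some.inj (hi.symm.trans hj))).elim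
  · exact .inr (pairs_get h c hj hi)

/-- the meaning of the static conditions -/
theorem wf_facts (hR : Rl R) {s : ℕ} {cs : List Car} (h : wf fr pad s cs = true) :
    (∀ k ∈ cs, R k.q ⊆ R s ∧ R k.q ⊆ R fr ∧ Disjoint (R k.q \ R k.c) (R pad) ∧
      (∀ L ∈ k.ls, R L ⊆ R k.c) ∧ ∀ L ∈ k.ls, ∀ L' ∈ k.ls, L ≠ L' → Disjoint (R L) (R L')) ∧
    ∀ (n n' : ℕ) (k k' : Car), cs[n]? = some k → cs[n']? = some k' → n ≠ n' →
      Disjoint (R k.q \ R k.c) (R k'.q) ∧
        ∀ L ∈ k.ls, ∀ L' ∈ k'.ls, L ≠ L' → Disjoint (R L) (R L') := by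
  simp only [wf, Bool.and_eq_true, List.all_eq_true] at h
  refine ⟨fun k hk => ?_, fun n n' k k' e e' ne => ?_⟩
  · obtain ⟨⟨⟨⟨h1, h2⟩, h3⟩, h4⟩, h5⟩ := h.1 k hk
    refine ⟨hR.sub h1, hR.sub h2, hR.df _ _ ▸ hR.dis h3, fun L hL z hz => hR.sub h4 ?_,
      fun L hL L' hL' n => (opRe_pairs h5 hL hL' n).elim hR.dis fun c => (hR.dis c).symm⟩
    rw [hR.orL]
    exact ⟨L, hL, hz⟩
  · have key : ∀ {L L' : ℕ}, (Nat.beq L L' || dis L L') = true → L ≠ L' → Disjoint (R L) (R L') :=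
      fun c n => hR.dis ((Bool.or_eq_true_iff.1 c).resolve_left fun o => n (Nat.eq_of_beq_eq_true o))
    rcases ne.lt_or_gt with c | c
    · have := pairs_get h.2 c e e'
      simp only [Bool.and_eq_true, List.all_eq_true] at this
      exact ⟨hR.df _ _ ▸ hR.dis this.1.1, fun L hL L' hL' => key (this.2 L hL L' hL')⟩
    · have := pairs_get h.2 c e' e
      simp only [Bool.and_eq_true, List.all_eq_true] at this
      exact ⟨hR.df _ _ ▸ hR.dis this.1.2, fun L hL L' hL' o =>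
        (key (this.2 L' hL' L hL) o.symm).symm⟩

theorem CS.sub_u (hR : Rl R) {cs : List Car} (h : CS R 𝒞 rel grp cs b) {n : ℕ} {k : Car}
    (e : cs[n]? = some k) (i : ι) : b n i ⊆ R k.u ∧ b n i ⊆ R k.q := by
  rcases h.cc n k e i with o | ⟨-, p, q, c, L, hL, L', hL', -, hp, hq⟩
  · exact o ▸ ⟨empty_subset _, empty_subset _⟩
  refine ⟨fun z hz => ?_, c.sub⟩
  rw [Car.u, hR.or, hR.df, hR.orL]
  refine (em (z ∈ R k.c)).symm.imp (fun o => ⟨c.sub hz, o⟩) fun o => ?_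
  rcases c.inter.le ⟨hz, o⟩ with rfl | rfl
  exacts [⟨L, hL, hp⟩, ⟨L', hL', hq⟩]

end Pool.Agent.Lib.MP_b7d179_gt.C
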