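import Pool.Agent.Lib.MP_b7d179_gt.C.Tr
import Pool.Agent.Lib.MP_b7d179_gt.C.ObsC
import Pool.Agent.Lib.MP_b7d179_gt.C.OpRe
import Pool.Agent.Lib.MP_b7d179_gt.C.OpReB

/-! Exits of programs. -/

namespace Pool.Agent.Lib.MP_b7d179_gt.C

open Set

variable {Z : Type} [MetricSpace Z] {ι : Type}

variable [Finite ι] {A : Atoms} {R : ℕ → Set Z} {fr pad s sw : ℕ} {fl : Bool} {ex : Ex}
  {𝒞 : Set (Set ι)} {rel : ι → ι → ι → Prop} {grp : ι → Bool} {cs : List Car} {b : ℕ → ι → Set Z}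

theorem exF_cover (hR : Rl R) {ls Ms : List ℕ} (h : cover ls Ms = true) {L L' : ℕ} (hL : L ∈ ls)
    (hL' : L' ∈ ls) (n : L ≠ L') {p q : Z} (hp : p ∈ R L) (hq : q ∈ R L') :
    Lands (setsA R Ms) p q := by
  have k : ∀ {L L' : ℕ} {p q : Z}, p ∈ R L → q ∈ R L' →
      (Ms.any fun M => Ms.any fun M' => sub L M && sub L' M' && dis M M') = true →
      ∃ M ∈ setsA R Ms, ∃ M' ∈ setsA R Ms, M ≠ M' ∧ p ∈ M ∧ q ∈ M' := fun hp hq e => by
    simp only [List.any_eq_true, Bool.and_eq_true] at e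
    obtain ⟨M, hM, M', hM', ⟨e1, e2⟩, e3⟩ := e
    exact ⟨_, ⟨M, hM, rfl⟩, _, ⟨M', hM', rfl⟩,
      fun e => disjoint_left.1 (hR.dis e3) (hR.sub e1 hp) (e ▸ hR.sub e1 hp), hR.sub e1 hp,
      hR.sub e2 hq⟩
  rcases opRe_pairs h hL hL' n with e | e
  · exact k hp hq e
  · obtain ⟨M, hM, M', hM', a, c, d⟩ := k hq hp e
    exact ⟨M', hM', M, hM, a.symm, d, c⟩

/-- what the check `kwOk` gives -/
theorem exF_kw {kw L0 L1 : List ℕ} {ks : List Car} (hR : Rl R) (hw : wf fr pad s cs = true)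
    (h : CS R 𝒞 rel grp cs b) (em : mapO (fun n => cs[n]?) kw = some ks)
    (e : kwOk cs ks kw sw fl L0 L1 = true) :
    (∀ i, (⋃ n ∈ kw, b n i) = ∅ ∨ ∃ n ∈ kw, ∃ k ∈ ks, cs[n]? = some k ∧
      ∀ j, grp j = grp i → (⋃ n ∈ kw, b n j) = b n j) ∧
    (Pairwise (Function.onFun Disjoint fun i => ⋃ n ∈ kw, b n i)) ∧
    ∀ T ∈ 𝒞, tot T (whole b) ∩ R sw = tot T fun i => ⋃ n ∈ kw, b n i := by
  obtain ⟨m1, m2, -, m4⟩ := mapO_mem em
  simp only [kwOk, Bool.and_eq_true, List.all_eq_true] at e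
  obtain ⟨⟨e1, e2⟩, e3⟩ := e
  have two : ∀ n ∈ kw, ∀ n' ∈ kw, n ≠ n' → ∀ k k', cs[n]? = some k → cs[n']? = some k' →
      k.tag ≠ k'.tag ∧ Disjoint (R (orL k.ls)) (R (orL k'.ls)) := fun n hn n' hn' ne k k' a a' => by
    obtain ⟨i, hi⟩ := List.getElem?_of_mem hn
    obtain ⟨j, hj⟩ := List.getElem?_of_mem hn'
    obtain ⟨y, y1, y2⟩ := m4 i n hi
    obtain ⟨y', y1', y2'⟩ := m4 j n' hj
    obtain rfl : k = y := Option.some.inj (a.symm.trans y2)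
    obtain rfl : k' = y' := Option.some.inj (a'.symm.trans y2')
    rcases lt_trichotomy i j with c | rfl | c
    · have := pairs_get e2 c y1 y1'
      simp only [Bool.and_eq_true, bne_iff_ne] at this
      exact ⟨this.1, hR.dis this.2⟩
    · exact absurd (Option.some.inj (hi.symm.trans hj)) ne
    · have := pairs_get e2 c y1' y1
      simp only [Bool.and_eq_true, bne_iff_ne] at this
      exact ⟨this.1.symm, (hR.dis this.2).symm⟩
  have tag : ∀ {n k i z}, cs[n]? = some k → z ∈ b n i → grp i = k.tag := fun a hz =>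
    ((h.cc _ _ a _).resolve_left (Nonempty.ne_empty ⟨_, hz⟩)).1
  refine ⟨fun i => ?_, fun i j ne => disjoint_left.2 fun z hz hz' => ?_, fun T hT => ?_⟩
  · refine (eq_empty_or_nonempty _).imp id fun ⟨z, hz⟩ => ?_
    obtain ⟨n, hn, hz⟩ := mem_iUnion₂.1 hz
    obtain ⟨k, hk, a⟩ := m1 n hn
    refine ⟨n, hn, k, hk, a, fun j hj => Subset.antisymm (iUnion₂_subset fun n' hn' w hw' => ?_)
      (subset_iUnion₂ (s := fun n _ => b n j) n hn)⟩
    obtain ⟨k', -, a'⟩ := m1 n' hn'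
    by_cases c : n = n'
    · exact c ▸ hw'
    · exact absurd ((tag a hz).symm.trans (hj.symm.trans (tag a' hw'))) (two n hn n' hn' c k k' a a').1
  · obtain ⟨n, hn, hz⟩ := mem_iUnion₂.1 hz
    obtain ⟨n', hn', hz'⟩ := mem_iUnion₂.1 hz'
    by_cases c : n = n'
    · subst c
      exact disjoint_left.1 (h.dj n ne) hz hz'
    obtain ⟨k, -, a⟩ := m1 n hn
    obtain ⟨k', -, a'⟩ := m1 n' hn'
    have u := (h.sub_u hR a i).1 hz
    have u' := (h.sub_u hR a' j).1 hz'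
    rw [Car.u, hR.or, hR.df] at u u'
    rcases u with u | u
    · exact disjoint_left.1 ((wf_facts hR hw).2 n n' k k' a a' c).1 u ((h.sub_u hR a' j).2 hz')
    rcases u' with u' | u'
    · exact disjoint_left.1 ((wf_facts hR hw).2 n' n k' k a' a (Ne.symm c)).1 u'
        ((h.sub_u hR a i).2 hz)
    exact disjoint_left.1 (two n hn n' hn' c k k' a a').2 u u'
  · refine Subset.antisymm ?_ ?_
    · rintro z ⟨hz, hs⟩
      obtain ⟨i, hi, hz⟩ := mem_iUnion₂.1 hz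
      obtain ⟨n, hz⟩ := mem_iUnion.1 hz
      by_cases c : n ∈ kw
      · exact mem_iUnion₂.2 ⟨i, hi, mem_iUnion₂.2 ⟨n, c, hz⟩⟩
      have l : n < cs.length := lt_of_not_ge fun l => by simp [h.nil n i l] at hz
      have a : cs[n]? = some cs[n] := List.getElem?_eq_getElem l
      have := List.all_eq_true.1 e3 n (List.mem_range.2 l)
      rw [a, Bool.or_eq_true, List.contains_iff_mem] at this
      have w := hR.sub (this.resolve_left c) ((hR.and _ _).ge ⟨(h.sub_u hR a i).1 hz, hs⟩)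
      rw [hR.orL] at w
      obtain ⟨L, hL, w⟩ := w
      rw [List.mem_filter, List.contains_iff_mem, List.mem_flatMap] at hL
      obtain ⟨hL, k', hk', hL'⟩ := hL
      obtain ⟨n', hn', a'⟩ := m2 k' hk'
      obtain ⟨j, hj, t⟩ := mem_iUnion₂.1
        ((h.bal n n' _ k' a a' L hL hL' T hT).le ⟨mem_iUnion₂.2 ⟨i, hi, hz⟩, w⟩).1
      exact mem_iUnion₂.2 ⟨j, hj, mem_iUnion₂.2 ⟨n', hn', t⟩⟩
    · intro z hz
      obtain ⟨i, hi, hz⟩ := mem_iUnion₂.1 hz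
      obtain ⟨n, hn, hz⟩ := mem_iUnion₂.1 hz
      obtain ⟨k, hk, a⟩ := m1 n hn
      exact ⟨mem_iUnion₂.2 ⟨i, hi, mem_iUnion.2 ⟨n, hz⟩⟩,
        hR.sub (e1 k hk).1 ((h.sub_u hR a i).2 hz)⟩

theorem exit_fa {S D Y : ℕ} {L0 L1 : List ℕ} (hA : A.Ok R Ball) (hw : wf fr pad s cs = true)
    (h : CS R 𝒞 rel grp cs b) (hS : Sph (R sw)) (e : exOk A cs sw fl (.fa S D Y L0 L1) ex = true) :
    (Sp.fa S D Y L0 L1).St R rel (fun i => xor fl (grp i)) (ex.pc A R b) ∧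
      (∀ T ∈ 𝒞, tot T (whole b) ∩ R sw = tot T (ex.pc A R b)) ∧ ∀ i, ex.pc A R b i ⊆ whole b i := by
  have hR := hA.rl
  cases ex with
  | di t kw => simp [exOk] at e
  | pt l => simp [exOk] at e
  | fa ob kw =>
  simp only [exOk] at e
  split at e
  swap
  · cases e
  rename_i D' Y' ks eo em
  simp only [Bool.and_eq_true, List.all_eq_true] at e
  obtain ⟨⟨⟨⟨⟨e1, e2⟩, e3⟩, e4⟩, e5⟩, e6⟩ := e
  obtain rfl := Nat.eq_of_beq_eq_true e1
  obtain rfl := Nat.eq_of_beq_eq_true e2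
  obtain rfl := Nat.eq_of_beq_eq_true e3
  have ho : Obs (R S) (R D) (R Y) := evObs_ok hA eo (hR.or D Y ▸ hR.sub e4)
  obtain ⟨k1, k2, k3⟩ := exF_kw hR hw h em e5
  simp only [kwOk, Bool.and_eq_true, List.all_eq_true] at e5
  have e7 := e5.1.1
  have hi : ∀ k ∈ ks, R k.q ∩ (R D ∪ R Y) ⊆ R k.c := fun k hk => by
    rw [← hR.or, ← hR.and]; exact hR.sub (e6 k hk).1.1
  have ml : ∀ {k : Car} {L : ℕ} {p : Z}, L ∈ k.ls → p ∈ R L → p ∈ R (orL k.ls) := fun hL hp => by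
    rw [hR.orL]; exact ⟨_, hL, hp⟩
  -- the pieces in a carrier of `ks`
  have pc : ∀ n, ∀ k ∈ ks, cs[n]? = some k → ∀ i p q, Cc (R k.q) (R k.c) (b n i) p q →
      ({p, q} : Set Z) ⊆ R D ∧ Disjoint (b n i) (R Y) ∧
        Lands (setsA R (cond (xor fl (grp i)) L1 L0)) p q := fun n k hk a i p q c => by
    obtain ⟨g, p', q', c', L, hL, L', hL', ne, hp, hq⟩ :=
      (h.cc n k a i).resolve_left (Nonempty.ne_empty ⟨p, c.arc.left⟩)
    have ee : ({p, q} : Set Z) = {p', q'} := c.inter.symm.trans c'.inter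
    have so : ({p', q'} : Set Z) ⊆ R (orL k.ls) :=
      insert_subset (ml hL hp) (singleton_subset_iff.2 (ml hL' hq))
    have la := exF_cover hR (e7 k hk).2 hL hL' ne hp hq
    refine ⟨ee ▸ so.trans (hR.sub (e6 k hk).1.2), disjoint_left.2 fun z hz hy => disjoint_left.1
      (hR.dis (e6 k hk).2) (so (c'.inter.le ⟨hz, hi k hk ⟨c.sub hz, .inr hy⟩⟩)) hy, ?_⟩
    rw [g]
    rcases pair_eq_pair_iff.1 ee with ⟨rfl, rfl⟩ | ⟨rfl, rfl⟩
    · exact la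
    · obtain ⟨M, hM, M', hM', x1, x2, x3⟩ := la
      exact ⟨M', hM', M, hM, x1.symm, x3, x2⟩
  have it : ∀ n, ∀ k ∈ ks, ∀ i p q, Cc (R k.q) (R k.c) (b n i) p q →
      b n i ∩ (R D ∪ R Y) ⊆ {p, q} := fun n k hk i p q c z hz =>
    c.inter.le ⟨hz.1, hi k hk ⟨c.sub hz.1, hz.2⟩⟩
  refine ⟨⟨fun i => ?_, k2, fun i j t hr hg => ?_⟩, k3,
    fun i => iUnion₂_subset fun n _ => subset_iUnion (fun n => b n i) n⟩
  · refine (k1 i).elim .inl fun ⟨n, _, k, hk, a, ek⟩ => ?_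
    change (⋃ n ∈ kw, b n i) = ∅ ∨ ∃ p q, Arc (⋃ n ∈ kw, b n i) p q ∧ (⋃ n ∈ kw, b n i) ⊆ _ ∧
      (⋃ n ∈ kw, b n i) ∩ _ = _ ∧ _
    rw [ek i rfl]
    refine (h.cc n k a i).imp id fun ⟨_, p, q, c, _⟩ => ?_
    obtain ⟨x1, -, x3⟩ := pc n k hk a i p q c
    exact ⟨p, q, c.arc, c.sub.trans (hR.sub (e7 k hk).1), Subset.antisymm (it n k hk i p q c)
      (subset_inter c.arc.ends (x1.trans subset_union_left)), x3⟩
  · change Sep _ (⋃ n ∈ kw, b n t) (⋃ n ∈ kw, b n i) (⋃ n ∈ kw, b n j)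
    rcases k1 i with z | ⟨n, hn, k, hk, a, ek⟩
    · exact z ▸ sep_empty_left
    have g : grp j = grp i := by revert hg; cases fl <;> simp [eq_comm]
    rw [ek i rfl, ek j g]
    have hQ := h.disc k (List.mem_of_getElem? a)
    have sq : R k.q ⊆ R S := hR.sub (e7 k hk).1
    refine Sep.mono (opReB_red hQ (fun i => (h.cc n k a i).imp id fun ⟨_, p, q, c, _⟩ => ⟨p, q, c⟩)
      (h.dj n) (h.sep n k a i j t hr) ?_) subset_rfl subset_rfl subset_rfl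
      (inter_subset_left.trans (subset_iUnion₂ (s := fun n _ => b n t) n hn))
    rintro ⟨p, q, c⟩ ⟨p1, q1, c1⟩ ⟨p2, q2, c2⟩ d1 d2 d3
    have iD : ∀ i p q, Cc (R k.q) (R k.c) (b n i) p q → b n i ∩ R D ⊆ {p, q} := fun i p q c =>
      (inter_subset_inter_right _ subset_union_left).trans (it n k hk i p q c)
    refine sep_ob hS ho hQ sq (hi k hk) c.arc (c.sub.trans sq) (Subset.antisymm (iD t p q c)
      (subset_inter c.arc.ends (pc n k hk a t p q c).1)) (pc n k hk a t p q c).2.1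
      (x := p) (y := q) (by rwa [inter_eq_left.2 c.sub]) c1.arc (c1.sub.trans sq) (iD i _ _ c1)
      (pc n k hk a i _ _ c1).2.1 c2.arc (c2.sub.trans sq) (iD j _ _ c2) (pc n k hk a j _ _ c2).2.1
      (opReB_inner c1) (opReB_inner c2) d1 d2 d3 ?_
    rw [inter_eq_left.2 c.sub, inter_eq_left.2 c1.sub, inter_eq_left.2 c2.sub]
    exact h.sep n k a i j t hr

end Pool.Agent.Lib.MP_b7d179_gt.C
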