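import Pool.Agent.Lib.MP_b7d179_gt.C.Tr
import Pool.Agent.Lib.MP_b7d179_gt.C.ObsC
import Pool.Agent.Lib.MP_b7d179_gt.C.OpRe

/-! Exits of programs. -/

namespace Pool.Agent.Lib.MP_b7d179_gt.C

open Set

variable {Z : Type} [MetricSpace Z] {ι : Type}

variable [Finite ι] {A : Atoms} {R : ℕ → Set Z} {fr pad s sw : ℕ} {fl : Bool} {ex : Ex}
  {𝒞 : Set (Set ι)} {rel : ι → ι → ι → Prop} {grp : ι → Bool} {cs : List Car} {b : ℕ → ι → Set Z}

/-- what the check says -/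
theorem exP_read {L0 L1 : ℕ} {l : List (ℕ × TA × TA)} (hA : A.Ok R Ball)
    (e : exOk A cs sw fl (.pt L0 L1) (.pt l) = true) :
    (∀ x ∈ l, ∃ k, cs[x.1]? = some k ∧ oArc A x.2.1 ∈ k.ls ∧ R (oArc A x.2.1) ⊆ R sw ∧
      R (oArc A x.2.1) ⊆ R (cond (xor fl k.tag) L1 L0) ∧ IsPreconnected (R (oArc A x.2.1)) ∧
      ∃ I p q, Arc I p q ∧ R (cond (xor fl k.tag) L1 L0) ⊆ I) ∧
    (∀ x ∈ l, ∀ y ∈ l, ∀ k k', cs[x.1]? = some k → cs[y.1]? = some k' → x ≠ y →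
      k.tag ≠ k'.tag ∧ Disjoint (R (oArc A x.2.1)) (R (oArc A y.2.1))) ∧
    ∀ (n : ℕ) k, cs[n]? = some k → ∀ z ∈ R k.u, z ∈ R sw →
      ∃ x ∈ l, oArc A x.2.1 ∈ k.ls ∧ z ∈ R (oArc A x.2.1) := by
  have hR := hA.rl
  simp only [exOk] at e
  split at e
  swap
  · cases e
  rename_i ks eks
  obtain ⟨m1, m2, -, m4⟩ := mapO_mem eks
  simp only [Bool.and_eq_true, List.all_eq_true] at e
  obtain ⟨⟨⟨e1, e2⟩, e3⟩, e4⟩ := e
  refine ⟨fun x hx => ?_, fun x hx y hy k k' ek ek' ne => ?_, fun n k ek z hz hs => ?_⟩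
  · obtain ⟨y, hy, ey⟩ := m1 x hx
    obtain ⟨k, ek, rfl⟩ := Option.map_eq_some_iff.1 ey
    obtain ⟨⟨a1, a2⟩, a3⟩ := e1 _ hy
    obtain ⟨a4, a5⟩ := e4 x hx
    refine ⟨k, ek, List.contains_iff_mem.1 a1, hR.sub a2, hR.sub a3, ?_, ?_⟩
    · obtain ⟨⟨m, m0⟩, em⟩ := Option.isSome_iff_exists.1 a4
      obtain ⟨p, q, ha, o⟩ := hA.evAo glues em
      rw [oArc, em]
      exact o ▸ ha.conn_open
    · rw [ek] at a5
      split at a5
      · rename_i m u v k' em ek'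
        obtain ⟨p, q, ha, -⟩ := hA.evA glues em
        cases ek'
        exact ⟨_, p, q, ha, hR.sub a5⟩
      · cases a5
  · obtain ⟨i, hi⟩ := List.getElem?_of_mem hx
    obtain ⟨j, hj⟩ := List.getElem?_of_mem hy
    obtain ⟨x', hx', ex⟩ := m4 i x hi
    obtain ⟨y', hy', ey⟩ := m4 j y hj
    rw [ek] at ex
    rw [ek'] at ey
    cases ex
    cases ey
    rcases lt_trichotomy i j with c | rfl | c
    · have := pairs_get e2 c hx' hy'
      simp only [Bool.and_eq_true, bne_iff_ne] at this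
      exact ⟨this.1, hR.dis this.2⟩
    · exact absurd (Option.some.inj (hi.symm.trans hj)) ne
    · have := pairs_get e2 c hy' hx'
      simp only [Bool.and_eq_true, bne_iff_ne] at this
      exact ⟨this.1.symm, (hR.dis this.2).symm⟩
  · have := List.all_eq_true.1 e3 n (List.mem_range.2 (List.getElem?_eq_some_iff.1 ek).1)
    simp only [ek, List.contains_nil, Bool.false_or] at this
    have := hR.sub this ((hR.and _ _).ge ⟨hz, hs⟩)
    rw [hR.orL] at this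
    obtain ⟨L, hL, zL⟩ := this
    obtain ⟨h1, h2⟩ := List.mem_filter.1 hL
    obtain ⟨y, hy, rfl⟩ := List.mem_map.1 (List.contains_iff_mem.1 h2)
    obtain ⟨x, hx, ex⟩ := m2 y hy
    obtain ⟨k', -, rfl⟩ := Option.map_eq_some_iff.1 ex
    exact ⟨x, hx, h1, zL⟩

theorem exit_pt {L0 L1 : ℕ} (hA : A.Ok R Ball) (hw : wf fr pad s cs = true)
    (h : CS R 𝒞 rel grp cs b) (hS : Sph (R sw)) (e : exOk A cs sw fl (.pt L0 L1) ex = true) :
    (Sp.pt L0 L1).St R rel (fun i => xor fl (grp i)) (ex.pc A R b) ∧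
      (∀ T ∈ 𝒞, tot T (whole b) ∩ R sw = tot T (ex.pc A R b)) ∧ ∀ i, ex.pc A R b i ⊆ whole b i := by
  have hR := hA.rl
  rcases ex with _ | _ | l
  · cases e
  · cases e
  obtain ⟨f1, f2, f3⟩ := exP_read hA e
  obtain ⟨w1, -⟩ := wf_facts hR hw
  have mem {i z} : z ∈ (Ex.pt l).pc A R b i ↔ ∃ x ∈ l, z ∈ b x.1 i ∧ z ∈ R (oArc A x.2.1) := by
    simp only [Ex.pc, mem_iUnion, mem_inter_iff, exists_prop]
  have tag {n : ℕ} {k : Car} {i z} (ek : cs[n]? = some k) (hz : z ∈ b n i) : grp i = k.tag :=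
    ((h.cc n k ek i).resolve_left fun o => by rw [o] at hz; exact hz).1
  have same {x y i j z w} (hx : x ∈ l) (hy : y ∈ l) (hz : z ∈ b x.1 i) (hw : w ∈ b y.1 j)
      (g : grp i = grp j) : x = y := by
    obtain ⟨k, ek, -⟩ := f1 x hx
    obtain ⟨k', ek', -⟩ := f1 y hy
    by_contra ne
    exact (f2 x hx y hy k k' ek ek' ne).1 ((tag ek hz).symm.trans (g.trans (tag ek' hw)))
  have one {i z w} (hz : z ∈ (Ex.pt l).pc A R b i) (hw : w ∈ (Ex.pt l).pc A R b i) : z = w := by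
    obtain ⟨x, hx, z1, z2⟩ := mem.1 hz
    obtain ⟨y, hy, w2, w3⟩ := mem.1 hw
    cases same hx hy z1 w2 rfl
    obtain ⟨k, ek, hJ, -⟩ := f1 x hx
    obtain ⟨-, -, -, c1, c2⟩ := w1 k (List.mem_of_getElem? ek)
    obtain ⟨-, p, q, c, L, hL, L', hL', ne, hp, hq⟩ :=
      (h.cc _ k ek i).resolve_left fun o => by rw [o] at z1; exact z1
    have no (a : p ∈ R (oArc A x.2.1)) (a' : q ∈ R (oArc A x.2.1)) : False := by
      by_cases o : L = oArc A x.2.1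
      · exact disjoint_left.1 (c2 L hL L' hL' ne) (o ▸ a') hq
      · exact disjoint_left.1 (c2 L hL _ hJ o) hp a
    rcases c.inter.le ⟨z1, c1 _ hJ z2⟩ with rfl | rfl <;>
      rcases c.inter.le ⟨w2, c1 _ hJ w3⟩ with rfl | rfl
    exacts [rfl, (no z2 w3).elim, (no w3 z2).elim, rfl]
  refine ⟨⟨fun i => ?_, fun i j ne => disjoint_left.2 fun z hz hz' => ?_,
    fun i j t r g P z w hP hPO hz hw => ?_⟩, fun T hT => ?_, fun i z hz => ?_⟩
  · refine ((Ex.pt l).pc A R b i).eq_empty_or_nonempty.imp_right fun ⟨z, hz⟩ => ?_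
    obtain ⟨x, hx, z1, z2⟩ := mem.1 hz
    obtain ⟨k, ek, -, -, a, -⟩ := f1 x hx
    exact ⟨z, by rw [tag ek z1]; exact a z2, eq_singleton_iff_unique_mem.2 ⟨hz, fun w hw => one hw hz⟩⟩
  · obtain ⟨x, hx, z1, z2⟩ := mem.1 hz
    obtain ⟨y, hy, w2, w3⟩ := mem.1 hz'
    by_cases o : x = y
    · subst o
      exact disjoint_left.1 (h.dj x.1 ne) z1 w2
    · obtain ⟨k, ek, -⟩ := f1 x hx
      obtain ⟨k', ek', -⟩ := f1 y hy
      exact disjoint_left.1 (f2 x hx y hy k k' ek ek' o).2 z2 w3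
  · obtain ⟨x, hx, z1, z2⟩ := mem.1 hz
    obtain ⟨y, hy, w2, w3⟩ := mem.1 hw
    cases same hx hy z1 w2 (Bool.xor_right_inj.1 g)
    obtain ⟨k, ek, hJ, -, a, cn, I, p, q, hI, sI⟩ := f1 x hx
    have hk := List.mem_of_getElem? ek
    rw [← tag ek z1] at a sI
    have PJ := hI.sub_of_conn hP (hPO.trans sI) cn (a.trans sI) z2 w3
    by_cases o1 : i = t
    · exact ⟨z, hP.left, o1 ▸ hz⟩
    by_cases o2 : j = t
    · exact ⟨w, hP.right, o2 ▸ hw⟩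
    have o3 : i ≠ j := fun o => hP.ne (one hz (o ▸ hw))
    have cc (i) : b x.1 i = ∅ ∨ ∃ p q, Cc (R k.q) (R k.c) (b x.1 i) p q :=
      (h.cc _ k ek i).imp_right fun ⟨_, p, q, c, _⟩ => ⟨p, q, c⟩
    obtain ⟨u, u1, u2⟩ := (h.sep _ k ek i j t r).closed (h.disc k hk) (cc t) (cc i) (cc j)
      (h.dj _ o1) (h.dj _ o2) (h.dj _ o3) P z w hP
      (PJ.trans (((w1 k hk).2.2.2.1 _ hJ).trans (h.disc k hk).rim_sub)) z1 w2
    exact ⟨u, u1, mem.2 ⟨x, hx, u2, PJ u1⟩⟩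
  · ext z
    simp only [tot, whole, mem_inter_iff, mem_iUnion, exists_prop, mem]
    constructor
    · rintro ⟨⟨i, hi, n, hz⟩, hs⟩
      have hn : n < cs.length := lt_of_not_ge fun o => by rw [h.nil n i o] at hz; exact hz
      have ek := List.getElem?_eq_getElem hn
      obtain ⟨x, hx, hJ, z2⟩ := f3 n _ ek z ((h.sub_u hR ek i).1 hz) hs
      obtain ⟨k, ek', hJ', -⟩ := f1 x hx
      obtain ⟨i', hi', z1⟩ := mem_iUnion₂.1
        ((h.bal n x.1 _ k ek ek' _ hJ hJ' T hT).le ⟨mem_iUnion₂.2 ⟨i, hi, hz⟩, z2⟩).1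
      exact ⟨i', hi', x, hx, z1, z2⟩
    · rintro ⟨i, hi, x, hx, z1, z2⟩
      obtain ⟨k, -, -, a, -⟩ := f1 x hx
      exact ⟨⟨i, hi, _, z1⟩, a z2⟩
  · obtain ⟨x, -, z1, -⟩ := mem.1 hz
    exact mem_iUnion.2 ⟨_, z1⟩

end Pool.Agent.Lib.MP_b7d179_gt.C
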