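import Pool.Agent.Lib.MP_b7d179_gt.C.OpRe
import Pool.Agent.Lib.MP_b7d179_gt.U.Surg

/-! Distribution of a spine to the nodes of a chain. -/

namespace Pool.Agent.Lib.MP_b7d179_gt.C

open Set

variable {Z : Type} [MetricSpace Z] {ι : Type}

variable [Finite ι] {R : ℕ → Set Z} {nd : ℕ → Option (ℕ × ℕ)} {n0 fr pad b s : ℕ} {l : List Stp}
  {σ : Tw Z} {𝒞 : Set (Set ι)} {rel : ι → ι → ι → Prop} {grp : ι → Bool} {cs : List Car}
  {bb : ℕ → ι → Set Z} {T : Set ι} {ws : List (ℕ × ℕ)} {Λ : ℕ × ℕ → Set Z}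

/-- lollipops in disjoint discs inside a wall -/
theorem lols_union {κ : Type} {K D C M : Set Z} {t : Set κ} (ht : t.Finite) (hn : t.Nonempty)
    {W w E Λ : κ → Set Z} (h : ∀ j ∈ t, Lols K (W j) (w j) univ (E j) (Λ j) ∧ W j ⊆ D ∧
      W j \ w j ⊆ M ∩ (D \ C) ∧ E j ⊆ C) (hd : t.PairwiseDisjoint W) :
    Lols K D C M (⋃ j ∈ t, E j) (⋃ j ∈ t, Λ j) := by
  obtain ⟨j0, h0⟩ := hn
  obtain ⟨-, -, -, -, -, -, -, -, -, y, hy, hy'⟩ := (h j0 h0).1
  have : Nonempty Z := ⟨y⟩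
  have : Nonempty κ := ⟨j0⟩
  have uq : ∀ j ∈ t, ∀ k ∈ t, ∀ z ∈ W j, z ∈ W k → j = k := fun j hj k hk z a c => by
    by_contra ne
    exact disjoint_left.1 (hd hj hk ne) a c
  choose! Q q η x h1 h2 h3 h4 using fun j hj => (h j hj).1.2.2
  choose! J J1 J2 using fun e (he : e ∈ ⋃ j ∈ t, E j) => mem_iUnion₂.1 he
  have sb : ∀ j ∈ t, ∀ e ∈ E j, Q j e ∪ η j e ⊆ W j := fun j hj e he =>
    union_subset (fun z hz => ((h1 j hj e he).2.2.1 hz).2.1) (h1 j hj e he).2.2.2.2.1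
  have eW : ∀ j ∈ t, ∀ e ∈ E j, e ∈ W j := fun j hj e he =>
    sb j hj e he (Or.inr (h1 j hj e he).1.arc.left)
  have eJ : ∀ j ∈ t, ∀ e ∈ E j, J e = j := fun j hj e he =>
    have m := mem_iUnion₂.2 ⟨j, hj, he⟩
    uq _ (J1 e m) j hj e (eW _ (J1 e m) e (J2 e m)) (eW j hj e he)
  refine ⟨ht.biUnion fun j hj => (h j hj).1.1, iUnion₂_subset fun j hj => (h j hj).2.2.2,
    fun e => Q (J e) e, fun e => q (J e) e, fun e => η (J e) e, fun e => x (J e) e,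
    fun e he => ?_, fun e he e' he' ne => ?_, ?_, y, ⟨hy.1, (h j0 h0).2.1 hy.2⟩, fun c => ?_⟩
  · obtain ⟨k1, k2, k3, k4, k5, k6⟩ := h1 _ (J1 e he) e (J2 e he)
    obtain ⟨-, a1, a2, a3⟩ := h _ (J1 e he)
    refine ⟨k1, k2, fun z hz => a2 (k3 hz).2, k4, k5.trans a1, Subset.antisymm ?_ ?_⟩
    · intro z hz
      refine k6.le ⟨hz.1, ?_⟩
      by_contra c
      exact (a2 ⟨k5 hz.1, c⟩).2.2 hz.2
    · exact singleton_subset_iff.2 ⟨k1.arc.left, a3 (J2 e he)⟩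
  · by_cases c : J e = J e'
    · have := h2 _ (J1 e he) (J2 e he) (c ▸ J2 e' he') ne
      simp only [Function.onFun] at this ⊢
      rwa [← c]
    · exact (hd (J1 e he) (J1 e' he') c).mono (sb _ (J1 e he) e (J2 e he))
        (sb _ (J1 e' he') e' (J2 e' he'))
  · ext z
    constructor
    · intro hz
      obtain ⟨j, hj, hz⟩ := mem_iUnion₂.1 hz
      rw [h3 j hj] at hz
      obtain ⟨e, he, hz⟩ := mem_iUnion₂.1 hz
      exact mem_iUnion₂.2 ⟨e, mem_iUnion₂.2 ⟨j, hj, he⟩, by simpa only [eJ j hj e he] using hz⟩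
    · intro hz
      obtain ⟨e, he, hz⟩ := mem_iUnion₂.1 hz
      refine mem_iUnion₂.2 ⟨J e, J1 e he, ?_⟩
      rw [h3 _ (J1 e he)]
      exact mem_iUnion₂.2 ⟨e, J2 e he, hz⟩
  · obtain ⟨j, hj, c⟩ := mem_iUnion₂.1 c
    exact hy' (uq j hj j0 h0 y ((h j hj).1.sub.1 c) hy.2 ▸ c)

theorem locx_pairs {α : Type} {p : α → α → Bool} {l : List α} (h : pairs p l = true) {a a' : α}
    (ha : a ∈ l) (ha' : a' ∈ l) (ne : a ≠ a') : p a a' = true ∨ p a' a = true := by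
  induction l with
  | nil => cases ha
  | cons c l ih =>
    simp only [pairs, Bool.and_eq_true, List.all_eq_true] at h
    rcases List.mem_cons.1 ha with e | h1 <;> rcases List.mem_cons.1 ha' with e' | h2
    · exact absurd (e.trans e'.symm) ne
    · exact Or.inl (e ▸ h.1 _ h2)
    · exact Or.inr (e' ▸ h.1 _ h1)
    · exact ih h.2 h1 h2

theorem locx_dumb {K S S' M X : Set Z} (h : Dumb K S M X) (hX : X ⊆ S') : Dumb K S' M X := by
  obtain ⟨κ, _, W, C, W', C', a, p, q, k, d, rfl⟩ := h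
  exact ⟨κ, inferInstance, W, C, W', C', a, p, q, fun i => ⟨(k i).1,
    (subset_iUnion (fun i => W i ∪ a i ∪ W' i) i).trans hX, (k i).2.2⟩, d, rfl⟩

omit [Finite ι] in
theorem locx_mem (h : CS R 𝒞 rel grp cs bb) {z : Z} (hz : z ∈ tot T (whole bb)) :
    ∃ n k, cs[n]? = some k ∧ ∃ i ∈ T, z ∈ bb n i := by
  obtain ⟨i, hi, hz⟩ := mem_iUnion₂.1 hz
  obtain ⟨n, hz⟩ := mem_iUnion.1 hz
  by_cases c : n < cs.length
  · exact ⟨n, cs[n], List.getElem?_eq_getElem c, i, hi, hz⟩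
  · rw [h.nil n i (not_lt.1 c)] at hz
    exact hz.elim

theorem locx_ym (hR : Rl R) (h : CS R 𝒞 rel grp cs bb) :
    tot T (whole bb) ⊆ R (orL (cs.map Car.u)) := by
  intro z hz
  obtain ⟨n, k, e, i, -, hz⟩ := locx_mem h hz
  rw [hR.orL]
  exact ⟨k.u, List.mem_map.2 ⟨k, List.mem_of_getElem? e, rfl⟩, (h.sub_u hR e i).1 hz⟩

omit [Finite ι] in
/-- a point of the spine on a landing arc is a limit of points of the spine in every sheet -/
theorem locx_sheet {K : Set Z} (hR : Rl R) {s₀ : ℕ} (hw : wf fr pad s₀ cs = true)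
    (h : CS R 𝒞 rel grp cs bb) (hT : T ∈ 𝒞)
    (hΛ : ∀ h ∈ ws, Lols K (R h.1) (R h.2) univ (tot T (whole bb) ∩ R h.2) (Λ h)) {z : Z}
    (hz : z ∈ tot T (whole bb)) {L m : ℕ} (hL : z ∈ R L) (hm : m ∈ sheets cs ws L) :
    z ∈ closure ((tot T (whole bb) ∪ ⋃ h ∈ ws, Λ h) ∩ R m) := by
  obtain ⟨w1, w2⟩ := wf_facts hR hw
  rcases List.mem_append.1 hm with hm | hm
  · obtain ⟨k, hk, rfl⟩ := List.mem_map.1 hm
    obtain ⟨hk, kL⟩ := List.mem_filter.1 hk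
    have kL : L ∈ k.ls := List.contains_iff_mem.1 kL
    obtain ⟨n, e⟩ := List.getElem?_of_mem hk
    have zc : z ∈ R k.c := (w1 k hk).2.2.2.1 L kL hL
    have key : z ∈ tot T (bb n) := by
      obtain ⟨n', k', e', i, hi, hz⟩ := locx_mem h hz
      have m' : z ∈ tot T (bb n') := mem_iUnion₂.2 ⟨i, hi, hz⟩
      by_cases c : n' = n
      · exact c ▸ m'
      obtain ⟨d1, d2⟩ := w2 n' n k' k e' e c
      rcases h.cc n' k' e' i with r | ⟨-, p, q, cc, L1, l1, L2, l2, -, p1, p2⟩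
      · rw [r] at hz
        exact hz.elim
      have zc' : z ∈ R k'.c := by
        by_contra n
        exact disjoint_left.1 d1 ⟨cc.sub hz, n⟩ ((h.disc k hk).rim_sub zc)
      have kL' : L ∈ k'.ls := by
        by_contra n
        rcases cc.inter.le ⟨hz, zc'⟩ with rfl | rfl
        · exact disjoint_left.1 (d2 L1 l1 L kL fun r => n (r ▸ l1)) p1 hL
        · exact disjoint_left.1 (d2 L2 l2 L kL fun r => n (r ▸ l2)) p2 hL
      exact ((h.bal n' n k' k e' e L kL' kL T hT).le ⟨m', hL⟩).1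
    obtain ⟨i, hi, hz⟩ := mem_iUnion₂.1 key
    rcases h.cc n k e i with r | ⟨-, p, q, cc, -⟩
    · rw [r] at hz
      exact hz.elim
    refine closure_mono (fun y hy => ?_) (cc.arc.dense (toFinite {p, q}) hz)
    rw [hR.df]
    exact ⟨Or.inl (mem_iUnion₂.2 ⟨i, hi, mem_iUnion.2 ⟨n, hy.1⟩⟩), cc.sub hy.1,
      fun c => hy.2 (cc.inter.le ⟨hy.1, c⟩)⟩
  · obtain ⟨k, hk, rfl⟩ := List.mem_map.1 hm
    obtain ⟨hk, kL⟩ := List.mem_filter.1 hk
    obtain ⟨-, -, W, w, η, x, a, -, eq, -⟩ := hΛ k hk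
    have m : z ∈ tot T (whole bb) ∩ R k.2 := ⟨hz, hR.sub kL hL⟩
    obtain ⟨k1, -, -, -, k5, k6⟩ := a z m
    refine closure_mono (fun y hy => ?_) (k1.arc.dense (finite_singleton z) k1.arc.left)
    rw [hR.df]
    refine ⟨Or.inr (mem_iUnion₂.2 ⟨k, hk, ?_⟩), k5 hy.1, fun c => hy.2 (k6.le ⟨hy.1, c⟩)⟩
    rw [eq]
    exact mem_iUnion₂.2 ⟨z, m, Or.inr hy.1⟩

theorem locx (ok : σ.Ok0) (hR : Rl R) (hc : Chain R nd n0 l b s) (hn : NdB R nd)
    (hf : Disjoint (R fr) σ.K) {s₀ : ℕ} (hw : wf fr pad s₀ cs = true) (h : CS R 𝒞 rel grp cs bb)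
    (hT : T ∈ 𝒞) (e : locOk fr cs ws l = true)
    (hΛ : ∀ h ∈ ws, Lols σ.K (R h.1) (R h.2) univ (tot T (whole bb) ∩ R h.2) (Λ h))
    (hd : Dumb σ.K (R s) (R (orL (ws.map fun h => df h.1 h.2)))
      ((tot T (whole bb) ∪ ⋃ h ∈ ws, Λ h) ∩ R s))
    (hs : ∀ n ∈ full fr n0 l, ∀ w sw, nd n = some (w, sw) →
      SolU σ (R w) (R sw) ((tot T (whole bb) ∪ ⋃ h ∈ ws, Λ h) ∩ R sw)) :
    SolU σ (R b) (R s) ((tot T (whole bb) ∪ ⋃ h ∈ ws, Λ h) ∩ R s) := by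
  have sh := fun z hz L m => locx_sheet (z := z) (L := L) (m := m) hR hw h hT hΛ hz
  have ym := locx_ym (T := T) hR h
  generalize tot T (whole bb) = Y at *
  have hM : ∀ k ∈ ws, R k.1 \ R k.2 ⊆ R (orL (ws.map fun h => df h.1 h.2)) := fun k hk z hz => by
    rw [hR.orL]
    exact ⟨_, List.mem_map.2 ⟨k, hk, rfl⟩, by rwa [hR.df]⟩
  have hX : ∀ z ∈ Y ∪ ⋃ h ∈ ws, Λ h, z ∈ Y ∨ ∃ k ∈ ws, z ∈ Λ k ∧ z ∈ R k.1 \ R k.2 := by
    rintro z (hz | hz)
    · exact Or.inl hz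
    · obtain ⟨k, hk, hz⟩ := mem_iUnion₂.1 hz
      by_cases c : z ∈ R k.2
      · exact Or.inl ((hΛ k hk).sub.2.1.le ⟨hz, c⟩).1
      · exact Or.inr ⟨k, hk, hz, (hΛ k hk).sub.1 hz, c⟩
  induction hc with
  | base e0 => exact hs n0 List.mem_cons_self _ _ e0
  | @step l x hc e0 g ih =>
    have h1 := hc.ball hn
    have h2 := hn _ _ _ e0
    simp only [locOk, List.all_cons, Bool.and_eq_true] at e ih
    obtain ⟨e1, e2, e3⟩ := e
    have pt := fun {z : Z} => (g.solc_pt z).2.2.2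
    by_cases c : sub x.w fr = true
    · rw [if_pos c] at e2
      have d := hR.dis e2
      rw [hR.or] at d
      have off : ∀ z ∈ Y ∪ ⋃ h ∈ ws, Λ h, z ∉ R x.w := fun z hz =>
        disjoint_left.1 d ((hX z hz).imp (fun a => ym a) fun ⟨k, hk, _, a⟩ => hM k hk a)
      have eq : (Y ∪ ⋃ h ∈ ws, Λ h) ∩ R x.s = (Y ∪ ⋃ h ∈ ws, Λ h) ∩ R x.s1 := by
        ext z
        refine and_congr_right fun hz => ?_
        exact ⟨fun a => (pt.1 a).1.resolve_right fun r => off z hz (h2.rim_sub r), fun a =>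
          pt.2 ⟨Or.inl a, fun r => off z hz (h2.rim_sub (g.s2 r.1))⟩⟩
      have s1 := ih ⟨e1, e3⟩ (eq ▸ locx_dumb hd (eq.le.trans inter_subset_right))
        fun n hn => hs n (by simpa [full, List.filter_cons, c] using hn)
      rw [eq]
      exact (SolU.glue0 ok g h1 h2 (hf.mono_left (hR.sub c))
        fun z hz => ⟨(eq.ge hz).2, h1.rim_sub hz.2⟩).1 s1
    · rw [if_neg c] at e2
      simp only [Bool.and_eq_true, Bool.or_eq_true, List.all_eq_true, List.any_eq_true] at e2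
      obtain ⟨⟨⟨⟨⟨⟨ca, cb⟩, cc⟩, cd⟩, ce⟩, cf⟩, cg⟩ := e2
      have hC : Disjoint (R x.c) σ.K := hf.mono_left (hR.sub ca)
      have dM := hR.dis cb
      have CD := g.d.rim_sub
      have yd : ∀ z ∈ Y, z ∈ R x.d → z ∈ R x.c ∧ ∃ L ∈ cs.flatMap Car.ls, z ∈ R L := by
        intro z hz hz'
        have := hR.sub cc (show z ∈ R _ by rw [hR.and]; exact ⟨ym hz, hz'⟩)
        rwa [hR.and, hR.orL] at this
      have cy : ∀ z ∈ Y ∪ ⋃ h ∈ ws, Λ h, z ∈ R x.c → z ∈ Y := fun z hz hz' =>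
        (hX z hz).elim id fun ⟨k, hk, _, a⟩ => absurd hz' (disjoint_left.1 dM (hM k hk a))
      have land : ∀ z ∈ Y, z ∈ R x.c → ∃ L, z ∈ R L ∧
          (∃ m ∈ sheets cs ws L, sub m (df (Nat.land x.s x.s1) x.d) = true) ∧
          (∃ m ∈ sheets cs ws L, sub m (df (Nat.land x.s x.sw) x.d) = true) ∧
          ∃ k ∈ ws, sub k.1 x.d = true ∧ sub L k.2 = true := fun z hz hz' => by
        obtain ⟨-, L, hL, zL⟩ := yd z hz (CD hz')
        rcases cd L hL with r | r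
        · exact absurd (CD hz') (disjoint_left.1 (hR.dis r) zL)
        · exact ⟨L, zL, r.1.1.2, r.1.2, r.2⟩
      set t : Set (ℕ × ℕ) := {k | k ∈ ws ∧ sub k.1 x.d = true} with ht
      have hL := lols_union (K := σ.K) (D := R x.d) (C := R x.c)
        (M := R (orL (ws.map fun h => df h.1 h.2))) (t := t)
        ((List.finite_toSet ws).subset fun k hk => hk.1) cg (W := fun k => R k.1)
        (w := fun k => R k.2) (E := fun k => Y ∩ R k.2) (Λ := Λ)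
        (fun k hk => ⟨hΛ k hk.1, hR.sub hk.2, fun z hz => ⟨hM k hk.1 hz, hR.sub hk.2 hz.1,
          disjoint_left.1 dM (hM k hk.1 hz)⟩, fun z hz => (yd z hz.1 (hR.sub hk.2
            ((hΛ k hk.1).sub.1 ((hΛ k hk.1).sub.2.1.ge hz).1))).1⟩)
        (fun k hk k' hk' ne => by
          rcases locx_pairs cf hk.1 hk'.1 ne with r | r <;>
            simp only [hk.2, hk'.2, Bool.and_self, Bool.not_true, Bool.false_or] at r
          · exact hR.dis r
          · exact (hR.dis r).symm)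
      have eE : ⋃ k ∈ t, Y ∩ R k.2 = (Y ∪ ⋃ h ∈ ws, Λ h) ∩ R x.s ∩ R x.c := by
        refine Subset.antisymm (fun z hz => ?_) fun z hz => ?_
        · have zc := hL.2.1 hz
          obtain ⟨k, -, a⟩ := mem_iUnion₂.1 hz
          exact ⟨⟨Or.inl a.1, pt.2 ⟨Or.inl (g.s1 (CD zc)), fun r => r.2 zc⟩⟩, zc⟩
        · have zy := cy z hz.1.1 hz.2
          obtain ⟨L, zL, -, -, k, hk, a1, a2⟩ := land z zy hz.2
          exact mem_iUnion₂.2 ⟨k, ⟨hk, a1⟩, zy, hR.sub a2 zL⟩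
      rw [eE] at hL
      have side : ∀ S' : Set Z, R x.d ⊆ S' → (∀ z ∈ S', (z ∈ R x.d → z ∈ R x.c) → z ∈ R x.s) →
          (Y ∪ ⋃ h ∈ ws, Λ h) ∩ R x.s ∩ S' ∪ ⋃ k ∈ t, Λ k = (Y ∪ ⋃ h ∈ ws, Λ h) ∩ S' := by
        intro S' a1 a2
        refine Subset.antisymm (union_subset (fun z hz => ⟨hz.1.1, hz.2⟩) fun z hz => ?_)
          fun z hz => ?_
        · refine ⟨?_, a1 (hL.sub.1 hz)⟩
          obtain ⟨k, hk, a⟩ := mem_iUnion₂.1 hz
          exact Or.inr (mem_iUnion₂.2 ⟨k, hk.1, a⟩)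
        · by_cases r : z ∈ R x.d → z ∈ R x.c
          · exact Or.inl ⟨⟨hz.1, a2 z hz.2 r⟩, hz.2⟩
          obtain ⟨r1, r2⟩ := Classical.not_imp.1 r
          rcases hX z hz.1 with a | ⟨k, hk, a, a'⟩
          · exact absurd (yd z a r1).1 r2
          rcases ce k hk with u | u
          · exact Or.inr (mem_iUnion₂.2 ⟨k, ⟨hk, u.1.1⟩, a⟩)
          · exact absurd r1 (disjoint_left.1 (hR.dis u) (by rwa [hR.df]))
      have sd1 := side (R x.s1) g.s1 fun z a1 a2 => pt.2 ⟨Or.inl a1, fun r => r.2 (a2 r.1)⟩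
      have sd2 := side (R x.sw) g.s2 fun z a1 a2 => pt.2 ⟨Or.inr a1, fun r => r.2 (a2 r.1)⟩
      have cr : Crs (R x.s1) (R x.sw) (R x.d) (R x.c) ((Y ∪ ⋃ h ∈ ws, Λ h) ∩ R x.s) := by
        refine ⟨hL.1, fun z hz => ?_⟩
        have zy := cy z hz.1.1 hz.2
        obtain ⟨L, zL, ⟨m, m1, m2⟩, ⟨m', m1', m2'⟩, -⟩ := land z zy hz.2
        refine ⟨closure_mono (fun y hy => ?_) (sh z zy L m zL m1),
          closure_mono (fun y hy => ?_) (sh z zy L m' zL m1')⟩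
        · have := hR.sub m2 hy.2
          rw [hR.df, hR.and] at this
          exact ⟨⟨⟨hy.1, this.1.1⟩, this.1.2⟩, this.2⟩
        · have := hR.sub m2' hy.2
          rw [hR.df, hR.and] at this
          exact ⟨⟨⟨hy.1, this.1.1⟩, this.1.2⟩, this.2⟩
      have fl : full fr n0 (x :: l) = n0 :: x.n :: (full fr n0 l).tail := by
        simp [full, c]
      have s1 := ih ⟨e1, e3⟩ (sd1 ▸ (surg_dumb g h1 h2 hd dM cr hL).1) fun n hn => hs n (by
        rw [fl]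
        rcases List.mem_cons.1 hn with r | r
        · exact r ▸ List.mem_cons_self
        · exact List.mem_cons_of_mem _ (List.mem_cons_of_mem _ r))
      have s2 := hs x.n (by rw [fl]; exact List.mem_cons_of_mem _ List.mem_cons_self) _ _ e0
      exact surg ok g hC hd dM cr hL (sd1.symm ▸ s1) (sd2.symm ▸ s2)

end Pool.Agent.Lib.MP_b7d179_gt.C
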