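import Pool.Agent.Lib.MP_b7d179_gt.C.ExF
import Pool.Agent.Lib.MP_b7d179_gt.C.ExD
import Pool.Agent.Lib.MP_b7d179_gt.C.ExP
import Pool.Agent.Lib.MP_b7d179_gt.C.Locx
import Pool.Agent.Lib.MP_b7d179_gt.U.SolC
import Pool.Agent.Lib.MP_b7d179_gt.U.JPiece

/-! Exits, distribution and dumbbells. -/

namespace Pool.Agent.Lib.MP_b7d179_gt.C

open Set

variable {Z : Type} [MetricSpace Z] {ι : Type}

variable [Finite ι] {A : Atoms} {R : ℕ → Set Z} {nd : ℕ → Option (ℕ × ℕ)} {n0 fr pad b s sw : ℕ}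
  {fl : Bool} {ex : Ex} {l : List Stp} {σ : Tw Z} {K S B : Set Z}
  {𝒞 : Set (Set ι)} {rel : ι → ι → ι → Prop} {grp : ι → Bool} {cs : List Car} {bb : ℕ → ι → Set Z}

theorem exit_ok {sp : Sp ℕ} (hA : A.Ok R Ball) (hw : wf fr pad s cs = true)
    (h : CS R 𝒞 rel grp cs bb) (hS : Sph (R sw)) (e : exOk A cs sw fl sp ex = true) :
    sp.St R rel (fun i => xor fl (grp i)) (ex.pc A R bb) ∧
      (∀ T ∈ 𝒞, tot T (whole bb) ∩ R sw = tot T (ex.pc A R bb)) ∧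
      ∀ i, ex.pc A R bb i ⊆ whole bb i := by
  cases sp with
  | fa S D Y L0 L1 => exact exit_fa hA hw h hS e
  | di P c L0 L1 => exact exit_di hA hw h hS e
  | pt L0 L1 => exact exit_pt hA hw h hS e

/-- the trace of a spine with all its lollipops on a sphere -/
theorem fin_lam {Y : Set Z} {ws : List (ℕ × ℕ)} {Λ : ℕ × ℕ → Set Z} (hR : Rl R)
    (hΛ : ∀ h ∈ ws, Lols K (R h.1) (R h.2) univ (Y ∩ R h.2) (Λ h)) (e : wsOk ws s = true) :
    (Y ∪ ⋃ h ∈ ws, Λ h) ∩ R s = Y ∩ R s ∪ lam ws Λ s := by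
  simp only [wsOk, List.all_eq_true, Bool.or_eq_true] at e
  ext z
  constructor
  · rintro ⟨hz | hz, hs⟩
    · exact Or.inl ⟨hz, hs⟩
    obtain ⟨k, hk, hz⟩ := mem_iUnion₂.1 hz
    rcases e k hk with r | r
    · exact Or.inr (mem_iUnion₂.2 ⟨k, hk, mem_iUnion.2 ⟨r, hz⟩⟩)
    · have d := hR.dis r
      rw [hR.df] at d
      have c : z ∈ R k.2 := by
        by_contra c
        exact disjoint_left.1 d ⟨(hΛ k hk).sub.1 hz, c⟩ hs
      exact Or.inl ⟨((hΛ k hk).sub.2.1.le ⟨hz, c⟩).1, hs⟩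
  · rintro (hz | hz)
    · exact ⟨Or.inl hz.1, hz.2⟩
    obtain ⟨k, hk, hz⟩ := mem_iUnion₂.1 hz
    obtain ⟨r, hz⟩ := mem_iUnion.1 hz
    exact ⟨Or.inr (mem_iUnion₂.2 ⟨k, hk, hz⟩), hR.sub r ((hΛ k hk).sub.1 hz)⟩

theorem fin_sol {y : PS} {T : Set ι} {ws : List (ℕ × ℕ)} {Λ : ℕ × ℕ → Set Z} (ok : σ.Ok0) (hR : Rl R)
    (hy : y.Ok R nd n0 fr pad) (hn : NdB R nd) (hf : Disjoint (R fr) σ.K)
    (h : CS R 𝒞 rel grp y.cs bb) (hT : T ∈ 𝒞) (e : locOk fr y.cs ws y.l = true)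
    (e' : wsOk ws y.s = true)
    (hΛ : ∀ h ∈ ws, Lols σ.K (R h.1) (R h.2) univ (tot T (whole bb) ∩ R h.2) (Λ h))
    (hd : Dumb σ.K (R y.s) (R (orL (ws.map fun h => df h.1 h.2))) (tot T (whole bb) ∪ lam ws Λ y.s))
    (hs : ∀ n ∈ full fr n0 y.l, ∀ w sw, nd n = some (w, sw) → wsOk ws sw = true ∧
      SolU σ (R w) (R sw) (tot T (whole bb) ∩ R sw ∪ lam ws Λ sw)) :
    SolU σ (R y.b) (R y.s) (tot T (whole bb) ∪ lam ws Λ y.s) := by
  have e0 : (tot T (whole bb) ∪ ⋃ h ∈ ws, Λ h) ∩ R y.s = tot T (whole bb) ∪ lam ws Λ y.s := by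
    rw [fin_lam hR hΛ e', inter_eq_left.2 (subset_union_left.trans (surg_sub hd))]
  rw [← e0] at hd ⊢
  refine locx ok hR hy.ch hn hf hy.wf h hT e hΛ hd fun n k w sw e1 => ?_
  rw [fin_lam hR hΛ (hs n k w sw e1).1]
  exact (hs n k w sw e1).2

/-- arcs between discs with lollipops -/
theorem dumb_arcs {κ : Type} {t : Set κ} (ht : t.Finite) {W w Λ : κ → Set Z} {T : Set ι}
    {a : ι → Set Z} (hW : ∀ j ∈ t, W j ⊆ S) (hd : t.PairwiseDisjoint W)
    (ha : ∀ i ∈ T, a i = ∅ ∨ ∃ p q, Arc (a i) p q ∧ a i ⊆ S ∧ (a i ∩ ⋃ j ∈ t, W j) = {p, q} ∧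
      (p ∈ ⋃ j ∈ t, w j) ∧ (q ∈ ⋃ j ∈ t, w j) ∧ Disjoint (a i) K)
    (dj : Pairwise (Function.onFun Disjoint a)) (hw : ∀ j ∈ t, w j ⊆ W j)
    (hΛ : ∀ j ∈ t, Lols K (W j) (w j) univ (tot T a ∩ w j) (Λ j)) :
    Dumb K S (⋃ j ∈ t, W j \ w j) (tot T a ∪ ⋃ j ∈ t, Λ j) := by
  rcases t.eq_empty_or_nonempty with rfl | ⟨j0, h0⟩
  · have e : tot T a = ∅ := eq_empty_of_forall_notMem fun z hz => by
      obtain ⟨i, hi, hz⟩ := mem_iUnion₂.1 hz
      rcases ha i hi with r | ⟨p, q, -, -, -, r, -⟩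
      · exact (r.le hz).elim
      · simp at r
    have := jp_intro (K := K) (M := ⋃ j ∈ (∅ : Set κ), W j \ w j) (S := S) (P := W) ht
      (fun _ n => n.elim) (fun _ n => n.elim) hd
    simpa [e] using this
  have : Nonempty κ := ⟨j0⟩
  choose! l l1 l2 l3 using fun j hj => (hΛ j hj).pops
  set E : Set Z := ⋃ j ∈ t, tot T a ∩ w j with hE
  choose! J J1 J2 using fun e (he : e ∈ E) => mem_iUnion₂.1 he
  have pop : ∀ e ∈ E, Pop K (W (J e)) (w (J e)) e (l (J e) e) := fun e he =>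
    l1 _ (J1 e he) e (J2 e he)
  have uq : ∀ e ∈ E, ∀ e' ∈ E, ∀ z ∈ l (J e) e, z ∈ l (J e') e' → e = e' := by
    intro e he e' he' z m m'
    have c : J e = J e' :=
      solB_eq hd (J1 e he) (J1 e' he') ((pop e he).facts.1 m) ((pop e' he').facts.1 m')
    by_contra ne
    exact disjoint_left.1 (l2 _ (J1 e he) (J2 e he) (c ▸ J2 e' he') ne) m (c ▸ m')
  have inE : ∀ i ∈ T, ∀ z ∈ a i, (z ∈ ⋃ j ∈ t, w j) → z ∈ E := fun i hi z m r => by
    obtain ⟨j, hj, r⟩ := mem_iUnion₂.1 r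
    exact mem_iUnion₂.2 ⟨j, hj, mem_iUnion₂.2 ⟨i, hi, m⟩, r⟩
  have hit : ∀ i ∈ T, ∀ e ∈ E, ∀ z ∈ a i, z ∈ l (J e) e → z = e := by
    intro i hi e he z m m'
    rcases ha i hi with r | ⟨p, q, -, -, r, r1, r2, -⟩
    · exact (r.le m).elim
    have zE : z ∈ E := inE i hi z m (by
      rcases r.le ⟨m, mem_iUnion₂.2 ⟨_, J1 e he, (pop e he).facts.1 m'⟩⟩ with c | c
      · exact c ▸ r1
      · exact (c : z = q) ▸ r2)
    exact uq z zE e he z (surg_left (pop z zE)) m'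
  have key := jp_intro (K := K) (M := ⋃ j ∈ t, W j \ w j) (S := S)
    (s := {i | i ∈ T ∧ (a i).Nonempty}) (P := fun i => a i ∪ ⋃ e ∈ a i ∩ E, l (J e) e) (toFinite _)
    (fun i hi => ?_) (fun i hi => ?_) fun i hi i' hi' ne => ?_
  · convert key using 1
    ext z
    constructor
    · rintro (hz | hz)
      · obtain ⟨i, hi, hz⟩ := mem_iUnion₂.1 hz
        exact mem_iUnion₂.2 ⟨i, ⟨hi, z, hz⟩, Or.inl hz⟩
      · obtain ⟨j, hj, hz⟩ := mem_iUnion₂.1 hz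
        rw [l3 j hj] at hz
        obtain ⟨e, he, hz⟩ := mem_iUnion₂.1 hz
        have eE : e ∈ E := mem_iUnion₂.2 ⟨j, hj, he⟩
        have c : J e = j := solB_eq hd (J1 e eE) hj (hw _ (J1 e eE) (J2 e eE).2) (hw j hj he.2)
        obtain ⟨i, hi, m⟩ := mem_iUnion₂.1 he.1
        exact mem_iUnion₂.2 ⟨i, ⟨hi, e, m⟩, Or.inr (mem_iUnion₂.2 ⟨e, ⟨m, eE⟩, c ▸ hz⟩)⟩
    · intro hz
      obtain ⟨i, hi, hz | hz⟩ := mem_iUnion₂.1 hz
      · exact Or.inl (mem_iUnion₂.2 ⟨i, hi.1, hz⟩)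
      · obtain ⟨e, he, hz⟩ := mem_iUnion₂.1 hz
        refine Or.inr (mem_iUnion₂.2 ⟨J e, J1 e he.2, ?_⟩)
        rw [l3 _ (J1 e he.2)]
        exact mem_iUnion₂.2 ⟨e, J2 e he.2, hz⟩
  · rcases ha i hi.1 with r | ⟨p, q, r0, -, r, r1, r2, r3⟩
    · exact absurd r hi.2.ne_empty
    have pE := inE i hi.1 p r0.left r1
    have qE := inE i hi.1 q r0.right r2
    have one : ∀ e ∈ E, e ∈ a i → a i ∩ l (J e) e = {e} := fun e he m =>
      Subset.antisymm (fun z hz => hit i hi.1 e he z hz.1 hz.2)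
        (singleton_subset_iff.2 ⟨m, surg_left (pop e he)⟩)
    obtain ⟨Q, c, Q', c', g, x, y, b1, b2, b3, -, -, b4⟩ := (pop p pE).bell (pop q qE) r0 r3
      (one p pE r0.left) (one q qE r0.right)
      (disjoint_left.2 fun z m m' => r0.ne (uq p pE q qE z m m'))
    have ee : a i ∩ E = {p, q} := by
      refine Subset.antisymm (fun z hz => r.le ⟨hz.1, ?_⟩)
        (insert_subset ⟨r0.left, pE⟩ (singleton_subset_iff.2 ⟨r0.right, qE⟩))
      exact mem_iUnion₂.2 ⟨_, J1 z hz.2, hw _ (J1 z hz.2) (J2 z hz.2).2⟩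
    refine ⟨Q, c, Q', c', g, x, y, b1, ?_, union_subset
      (fun z hz => mem_iUnion₂.2 ⟨_, J1 p pE, b2 hz⟩) fun z hz => mem_iUnion₂.2 ⟨_, J1 q qE, b3 hz⟩⟩
    rw [b4, ee, biUnion_pair, union_comm (l (J p) p), union_assoc]
  · refine union_subset ?_ (iUnion₂_subset fun e he =>
      (pop e he.2).facts.1.trans (hW _ (J1 e he.2)))
    rcases ha i hi.1 with r | ⟨p, q, -, r, -⟩
    · exact absurd r hi.2.ne_empty
    · exact r
  · refine disjoint_left.2 ?_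
    have d := disjoint_left.1 (dj ne)
    rintro z (m | m) (m' | m')
    · exact d m m'
    · obtain ⟨e, he, m'⟩ := mem_iUnion₂.1 m'
      exact d m (hit i hi.1 e he.2 z m m' ▸ he.1)
    · obtain ⟨e, he, m⟩ := mem_iUnion₂.1 m
      exact d (hit i' hi'.1 e he.2 z m' m ▸ he.1) m'
    · obtain ⟨e, he, m⟩ := mem_iUnion₂.1 m
      obtain ⟨e', he', m'⟩ := mem_iUnion₂.1 m'
      exact d he.1 (uq e he.2 e' he'.2 z m m' ▸ he'.1)

theorem Dumb.mv {M X : Set Z} {H : Z → Z} (h : Dumb K S M X) (hH : Mv K H B) (hs : S ⊆ B)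
    (hM : EqOn H id M) : Dumb K (H '' S) M (H '' X) := by
  obtain ⟨κ, _, W, C, W', C', a, p, q, k, d, rfl⟩ := h
  have fx : ∀ {V : Set Z}, V ⊆ M → H '' V = V := fun hV =>
    (image_congr fun x hx => hM (hV hx)).trans (image_id _)
  have w1 : ∀ i, W i ⊆ M := fun i => subset_union_left.trans (k i).2.2
  have w2 : ∀ i, W' i ⊆ M := fun i => subset_union_right.trans (k i).2.2
  have eq : ∀ i, W i ∪ H '' a i ∪ W' i = H '' (W i ∪ a i ∪ W' i) := fun i => by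
    rw [image_union, image_union, fx (w1 i), fx (w2 i)]
  have sB : ∀ i, W i ∪ a i ∪ W' i ⊆ B := fun i => (k i).2.1.trans hs
  refine ⟨κ, inferInstance, W, C, W', C', fun i => H '' a i, p, q, fun i => ⟨?_, ?_, (k i).2.2⟩,
    fun i j ne => ?_, ?_⟩
  · have u := (k i).1
    have aB : a i ⊆ B := fun z hz => sB i (Or.inl (Or.inr hz))
    have hp : H (p i) = p i := hM (w1 i (u.w.d.rim_sub u.m))
    have hq : H (q i) = q i := hM (w2 i (u.w'.d.rim_sub u.m'))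
    refine ⟨u.w, u.w', u.dj, ?_, (hH.disj aB).2 u.k, ?_, ?_, u.m, u.m'⟩
    · have := u.arc.image hH.1 aB
      rwa [hp, hq] at this
    · rw [← fx (w1 i), ← hH.1.inter aB fun z hz => sB i (Or.inl (Or.inl hz)), u.i, image_singleton,
        hp]
    · rw [← fx (w2 i), ← hH.1.inter aB fun z hz => sB i (Or.inr hz), u.i', image_singleton, hq]
  · rw [eq]
    exact image_mono (k i).2.1
  · simp only [Function.onFun, eq]
    exact hH.1.disjoint (sB i) (sB j) (d ne)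
  · simp only [eq, image_iUnion]

/-- a spine that misses all walls -/
theorem Chain.off (h : Chain R nd n0 l b s) (ok : σ.Ok0) (hR : Rl R) (hn : NdB R nd)
    (hf : Disjoint (R fr) σ.K) {hit : List ℕ} (hh : ∀ m ∈ hit, (σ.K ∩ R m).Nonempty)
    (e : gOk fr hit l = true) {xm : ℕ} {X : Set Z} (hX : X ⊆ R xm)
    (e' : (l.all fun x => dis xm x.d && (!sub x.w fr || dis xm x.w)) = true)
    (hs : ∀ n ∈ full fr n0 l, ∀ w sw, nd n = some (w, sw) →
      NSU (R sw) (X ∩ R sw) ∧ SolU σ (R w) (R sw) (X ∩ R sw)) :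
    NSU (R s) (X ∩ R s) ∧ SolU σ (R b) (R s) (X ∩ R s) := by
  induction h with
  | base e0 => exact hs n0 List.mem_cons_self _ _ e0
  | @step l x hc e0 g ih =>
    have h1 := hc.ball hn
    have h2 := hn _ _ _ e0
    simp only [gOk, List.all_cons, Bool.and_eq_true] at e e' ih
    obtain ⟨e1, e2⟩ := e
    obtain ⟨⟨a1, a2⟩, a3⟩ := e'
    have dX : Disjoint X (R x.d) := (hR.dis a1).mono_left hX
    have pt := fun {z : Z} => (g.solc_pt z).2.2.2
    have eq : X ∩ R x.s = X ∩ R x.s1 ∪ X ∩ R x.sw := by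
      ext z
      constructor
      · exact fun hz => (pt.1 hz.2).1.imp (fun r => ⟨hz.1, r⟩) fun r => ⟨hz.1, r⟩
      · rintro (hz | hz)
        · exact ⟨hz.1, pt.2 ⟨Or.inl hz.2, fun r => disjoint_left.1 dX hz.1 r.1⟩⟩
        · exact ⟨hz.1, pt.2 ⟨Or.inr hz.2, fun r => disjoint_left.1 dX hz.1 r.1⟩⟩
    have d1 : Disjoint (X ∩ R x.s1) (R x.d) := dX.mono_left inter_subset_left
    have d2 : Disjoint (X ∩ R x.sw) (R x.d) := dX.mono_left inter_subset_left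
    by_cases c : sub x.w fr = true
    · have fl : full fr n0 (x :: l) = full fr n0 l := by simp [full, c]
      rw [fl] at hs
      simp only [c, Bool.not_true, Bool.false_or] at a2
      have em : X ∩ R x.sw = ∅ :=
        (((hR.dis a2).mono_left hX).mono_right h2.rim_sub).inter_eq
      rw [em, union_empty] at eq
      obtain ⟨n1, s1⟩ := ih e2 a3 hs
      rw [eq]
      exact ⟨g.nsu h1 h2 n1 d1, (SolU.glue0 ok g h1 h2 (hf.mono_left (hR.sub c))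
        fun z hz => ⟨(eq.ge hz).2, h1.rim_sub hz.2⟩).1 s1⟩
    · have fl : ∀ n, n ∈ full fr n0 (x :: l) ↔ n ∈ full fr n0 l ∨ n = x.n := fun n => by
        simp only [full, List.filter_cons, c, Bool.not_false, if_true, List.map_cons,
          List.mem_cons]
        tauto
      simp only [c, Bool.false_or, Bool.and_eq_true] at e1
      obtain ⟨m, hm, k⟩ := List.any_eq_true.1 e1.2
      obtain ⟨n1, s1⟩ := ih e2 a3 fun n h => hs n ((fl n).2 (Or.inl h))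
      obtain ⟨n2, s2⟩ := hs x.n ((fl _).2 (Or.inr rfl)) _ _ e0
      rw [eq]
      exact ⟨(g.nsu h1 h2 n1 d1).union (g.symm.nsu h2 h1 n2 d2) (disjoint_left.2 fun z u v =>
          disjoint_left.1 dX u.1 (g.i.le ⟨h1.rim_sub u.2, h2.rim_sub v.2⟩)),
        SolU.both ok g ⟨g.d, hf.mono_left (hR.sub e1.1),
          (hh m hm).mono (inter_subset_inter_right _ (hR.sub k))⟩ s1 s2 n1 n2 d1 d2⟩

end Pool.Agent.Lib.MP_b7d179_gt.C
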