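import Pool.Agent.Lib.MP_b7d179_gt.C.Defs2
import Pool.Agent.Lib.MP_b7d179_gt.C.OpRe
import Pool.Agent.Lib.MP_b7d179_gt.T.NF2

/-! The first normal form: the two carriers on both sides of the seams. -/

namespace Pool.Agent.Lib.MP_b7d179_gt.C

open Set

variable {Z : Type} [MetricSpace Z] {ι : Type}

variable [Finite ι] {A : Atoms} {R : ℕ → Set Z} {nd : ℕ → Option (ℕ × ℕ)} {n0 fr pad ob : ℕ}
  {K : Set Z} {ls hs : List ℕ} {a : ι → Set Z} {p q : ι → Z} {x y : PS}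

theorem Raw.image {S B Ob : Set Z} {Ls Hs : Set (Set Z)} {H : Z → Z} (h : Raw S Ob Ls Hs a p q)
    (hS : IsCompact S) (hH : Emb H S) (ho : Ob ⊆ S) (hf : EqOn H id Ob) (hh : ∀ W ∈ Hs, W ⊆ Ob) :
    Raw (H '' S) Ob Ls Hs (fun i => H '' a i) p q := by
  have e := fun i => h.arcs.inter i (mem_univ i)
  have s := fun i => h.arcs.sub i (mem_univ i)
  have mp : ∀ i, H (p i) = p i := fun i => hf ((e i).ge (mem_insert _ _)).2
  have mq : ∀ i, H (q i) = q i := fun i => hf ((e i).ge (mem_insert_of_mem _ rfl)).2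
  refine ⟨⟨h.arcs.fin, fun i _ => ?_, fun i _ => image_mono (s i), fun i _ => ?_,
    fun i _ j _ n => hH.disjoint (s i) (s j) (h.arcs.disj (mem_univ i) (mem_univ j) n)⟩, h.land,
    fun i => (h.ess i).imp id ?_⟩
  · have := (h.arcs.arc i (mem_univ i)).image hH (s i)
    rwa [mp, mq] at this
  · have := hH.inter (s i) ho
    rw [hf.image_eq_self, e, image_pair, mp, mq] at this
    exact this.symm
  · rintro ⟨W, m, W₁, m1, W₂, m2, n1, n2, a1, a2, k⟩
    refine ⟨W, m, W₁, m1, W₂, m2, n1, n2, a1, a2, fun Y c hY => ?_⟩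
    have : Nonempty Z := ⟨p i⟩
    obtain ⟨g, g1, g2, -, -⟩ := hH.inv hS
    have key : ∀ V ∈ Hs, Disjoint (g '' Y) V → Disjoint Y V := fun V v d =>
      disjoint_left.2 fun z z1 z2 => disjoint_left.1 d ⟨z, z1, by
        have := g2 z (ho (hh V v z2))
        rwa [hf (hh V v z2)] at this⟩ z2
    refine (k (g '' Y) (c.image _ (g1.1.mono (hY.trans sdiff_subset))) ?_).imp (key _ m1) (key _ m2)
    rintro _ ⟨z, hz, rfl⟩
    obtain ⟨⟨w, w1, rfl⟩, w2⟩ := hY hz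
    rw [g2 w w1]
    refine ⟨w1, fun n => w2 (n.imp (fun o => ?_) (mem_image_of_mem H))⟩
    rwa [hf (hh W m o)]

theorem init_mapO {α β : Type} {τ : α → Option β} {l : List α} {l' : List β}
    (e : mapO τ l = some l') : ∀ y ∈ l', ∃ x, τ x = some y := by
  induction l generalizing l' with
  | nil => cases e; exact fun _ h => nomatch h
  | cons x l ih =>
    obtain ⟨y, e1, e2⟩ := Option.bind_eq_some_iff.1 e
    obtain ⟨m, e3, rfl⟩ := Option.map_eq_some_iff.1 e2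
    intro z hz
    rcases List.mem_cons.1 hz with rfl | hz
    exacts [⟨x, e1⟩, ih e3 z hz]

theorem init_orL {α : Type} (hR : Rl R) (l : List α) (f : α → ℕ) :
    R (orL (l.map f)) = ⋃ j ∈ {j | j ∈ l}, R (f j) := by
  rw [hR.orL]
  ext z
  simp only [List.mem_map, mem_ofPred_eq, mem_iUnion, exists_prop, exists_exists_and_eq_and]

/-- the pieces on the two sides -/
def initP {s₁ s₂ : Set (Set Z)} : ℕ → s₁ ⊕ s₂ → Set Z
  | 0, .inl b => b.1
  | 1, .inr b => b.1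
  | _, _ => ∅

theorem seams_ok {b s : ℕ} {holes : List TD} {o1 o2 : TD} {sm : List (TA × TA)} {cs : List Car}
    (hA : A.Ok R Ball) (hB : Ball (R b) (R s)) (hK : IsClosed K) (hf : Disjoint (R fr) K)
    (e : seams A s ob ls hs holes o1 o2 sm = some cs) (hw : wf fr pad s cs = true)
    (h : Raw (R s) (R ob) (sets R ls) (sets R hs) a p q) :
    ∃ (ι' : Type) (_ : Finite ι') (bb : ℕ → ι' → Set Z) (H : Z → Z),
      CS R {univ} (fun _ _ _ => False) (fun _ => false) cs bb ∧ Mv K H (R b) ∧ H '' R b = R b ∧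
      H '' R s = R s ∧ EqOn H id (R ob) ∧ H '' tot univ a = tot univ (whole bb) := by
  have hR := hA.rl
  simp only [seams] at e
  split at e
  swap
  · cases e
  rename_i hl q1 c1 q2 c2 gs e1 e2 e3 e4
  split at e
  swap
  · cases e
  rename_i k
  cases e
  simp only [Bool.and_eq_true, List.all_eq_true, List.any_eq_true, Bool.or_eq_true] at k
  obtain ⟨⟨⟨⟨⟨⟨⟨⟨⟨⟨⟨⟨⟨k1, k2⟩, k3⟩, k4⟩, k5⟩, k6⟩, k7⟩, k8⟩, k9⟩, k10⟩, k11⟩, k12⟩, k13⟩, k14⟩ := k
  have d1 := hA.evD glues e2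
  have d2 := hA.evD glues e3
  have dh : ∀ j ∈ hl, Disc (R j.1) (R j.2) := fun j m =>
    (init_mapO e1 j m).elim fun _ o => hA.evD glues o
  have dg : ∀ g ∈ gs, ∃ u v j j', (Arc (R g.1.1) u v ∧ R g.1.2.1 = {u} ∧ R g.1.2.2 = {v}) ∧
      Arc (R g.2.1) j j' ∧ R g.2.2 = R g.2.1 \ {j, j'} := fun g m => by
    obtain ⟨t, o⟩ := init_mapO e4 g m
    obtain ⟨g', o1, o2⟩ := Option.bind_eq_some_iff.1 o
    obtain ⟨j, o3, rfl⟩ := Option.map_eq_some_iff.1 o2
    obtain ⟨u, v, a1⟩ := hA.evA glues o1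
    obtain ⟨j, j', a2⟩ := hA.evAo glues o3
    exact ⟨u, v, j, j', a1, a2⟩
  have : Nonempty Z := (d1.exists_rim finite_empty).elim fun w _ => ⟨w⟩
  choose! u v j j' dg using dg
  have eO : ⋃ l ∈ {l | l ∈ hl}, R l.1 = R ob := by
    rw [← init_orL hR, Nat.eq_of_beq_eq_true k1]
  have eG := init_orL hR gs fun g => g.1.1
  have eS : R q1 ∪ R q2 ∪ R ob = R s := by
    rw [← Nat.eq_of_beq_eq_true k3, hR.orL]
    ext z
    simp only [List.mem_cons, List.not_mem_nil, or_false, exists_eq_or_imp, exists_eq_left,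
      mem_union, mem_ofPred_eq, or_assoc]
  have oS : R ob ⊆ R s := eS ▸ subset_union_right
  have hO : ∀ l ∈ hl, R l.1 ⊆ R ob := fun l m z hz =>
    eO.le (mem_iUnion₂.2 ⟨l, m, hz⟩)
  have gc : ∀ g ∈ gs, R g.1.1 ⊆ R c1 ∩ R c2 := fun g m => hR.and _ _ ▸ hR.sub (k6 g m).1.1
  have gO : ∀ g ∈ gs, R g.1.1 ∩ R ob = {u g, v g} := fun g m => by
    rw [hR.inter (k6 g m).2, hR.or, (dg g m).1.2.1, (dg g m).1.2.2]; rfl
  have rm := hR.sub k7
  rw [hR.or, hR.or, eG] at rm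
  have hd : ∀ l ∈ hl, ∀ l' ∈ hl, l ≠ l' → Disjoint (R l.1) (R l'.1) := fun l m l' m' n =>
    (opRe_pairs k2 m m' n).elim hR.dis fun c => (hR.dis c).symm
  have hS : Seams (R s) (R q1) (R q2) (R c1) (R c2) {l | l ∈ hl} (fun l => R l.1) (fun l => R l.2)
      {g | g ∈ gs} (fun g => R g.1.1) u v := by
    refine ⟨hB.sph, ⟨hl.finite_toSet, dh, fun l m => (hO l m).trans oS, hd⟩, d1, d2, eO.symm ▸ eS,
      gs.finite_toSet, fun g m => ⟨(dg g m).1.1, gc g m, eO.symm ▸ gO g m⟩, fun g m g' m' n =>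
        (opRe_pairs k5 m m' n).elim hR.dis fun c => (hR.dis c).symm, (hR.inter k4).trans eG,
      eO.symm ▸ subset_union_left.trans rm, eO.symm ▸ subset_union_right.trans rm,
      eO.symm ▸ hR.and _ _ ▸ hR.sub k8, eO.symm ▸ hR.and _ _ ▸ hR.sub k9, fun l m => ?_⟩
    obtain ⟨g, m', o⟩ := k10 l m
    obtain ⟨⟨a1, a2, a3⟩, -⟩ := dg g m'
    rcases o with o | o
    · exact ⟨u g, hR.sub o (a2.ge rfl), (gc g m' a1.left).1⟩
    · exact ⟨v g, hR.sub o (a3.ge rfl), (gc g m' a1.right).1⟩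
  have lG : ∀ L ∈ sets R ls, ∀ z ∈ L, z ∉ ⋃ g ∈ {g | g ∈ gs}, R g.1.1 := by
    rintro _ ⟨L, m, rfl⟩ z hz
    exact eG ▸ disjoint_left.1 (hR.dis k11) ((hR.orL ls).ge ⟨L, m, hz⟩)
  obtain ⟨F, hF, s₁, s₂, x', y', y1, y2, i1, i2, cov, hJ, hp⟩ := nf2 hS
    (J := fun g => R g.2.1) (j := j) (j' := j') (fun g m => ⟨(dg g m).2.1, hR.sub (k6 g m).1.2⟩)
    (eO.symm ▸ h.arcs) fun i _ => ⟨(h.land i).1.elim fun L o => lG L o.1 _ o.2,
      (h.land i).2.elim fun L o => lG L o.1 _ o.2⟩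
  rw [eO] at hF hp
  obtain ⟨w1, -⟩ := wf_facts hR hw
  have v1 := w1 _ List.mem_cons_self
  have v2 := w1 _ (List.mem_cons_of_mem _ List.mem_cons_self)
  obtain ⟨H, h1, h2, h3, h4⟩ := hF.ext hB hK (hf.mono_left ((closure_minimal
    (fun z hz => (eS.ge hz.1).resolve_right hz.2) (d1.closed.union d2.closed)).trans
      (union_subset v1.2.1 v2.2.1)))
  have fO : EqOn F id (R ob) := fun z hz => hF.fix (Or.inl hz)
  have hW : ∀ W ∈ sets R hs, ∃ l ∈ hl, W = R l.1 := by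
    rintro _ ⟨W, m, rfl⟩
    obtain ⟨l, m', rfl⟩ := List.mem_map.1 (List.contains_iff_mem.1 (k13 W m))
    exact ⟨l, m', rfl⟩
  have hWd : ∀ W ∈ sets R hs, ∀ W' ∈ sets R hs, W ≠ W' → Disjoint W W' := fun W m W' m' n => by
    obtain ⟨l, a1, rfl⟩ := hW W m
    obtain ⟨l', a2, rfl⟩ := hW W' m'
    exact hd l a1 l' a2 fun o => n (o ▸ rfl)
  have hWO : ∀ W ∈ sets R hs, W ⊆ R ob := fun W m => (hW W m).elim fun l o => o.2 ▸ hO l o.1
  have raw := h.image (B := ∅) hB.rim_compact (hF.emb hB.sph).1 oS fO hWO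
  rw [(hF.emb hB.sph).2] at raw
  set G := ⋃ g ∈ {g | g ∈ gs}, R g.1.1 with hG
  have jg : ∀ g ∈ gs, R g.2.2 ⊆ R g.1.1 := fun g m =>
    ((dg g m).2.2.le.trans sdiff_subset).trans (hR.sub (k6 g m).1.2)
  have gG : ∀ g ∈ gs, R g.1.1 ⊆ G := fun g m z hz => mem_iUnion₂.2 ⟨g, m, hz⟩
  have side : ∀ (O c : Set Z) (fl : List ℕ), ∀ b ∈ s₁ ∪ s₂, Cc O c b (x' b) (y' b) →
      c ⊆ G ∪ R ob → (∀ g ∈ gs, R g.1.1 ⊆ c) → (∀ L ∈ ls, ∀ z ∈ R L, z ∈ c → L ∈ fl) →
      ∃ L ∈ fl ++ gs.map (fun g => g.2.2), ∃ L' ∈ fl ++ gs.map (fun g => g.2.2),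
        L ≠ L' ∧ x' b ∈ R L ∧ y' b ∈ R L' := by
    intro O c fl b hb cc hc gc' hl'
    obtain ⟨nb, i, -, bi, be⟩ := hp b hb
    have eJ : ∀ z ∈ b, z ∈ G → ∃ g ∈ gs, z ∈ R g.2.2 := fun z m n => by
      obtain ⟨g, a1, a2⟩ := mem_iUnion₂.1 (hJ ⟨mem_biUnion (mem_univ i) (bi m), n⟩)
      exact ⟨g, a1, (dg g a1).2.2.ge a2⟩
    have eP : ∀ z ∈ b, z ∈ R ob → z = p i ∨ z = q i := fun z m n =>
      (raw.arcs.inter i (mem_univ i)).le ⟨bi m, n⟩
    have mj : ∀ g ∈ gs, g.2.2 ∈ fl ++ gs.map (fun g => g.2.2) := fun g m =>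
      List.mem_append_right _ (List.mem_map_of_mem m)
    have mix : ∀ z ∈ b, z ∈ G → ∀ z' ∈ b, z' ∈ c → z' ∉ G →
        ∃ L ∈ fl ++ gs.map (fun g => g.2.2), ∃ L' ∈ fl ++ gs.map (fun g => g.2.2),
          L ≠ L' ∧ z ∈ R L ∧ z' ∈ R L' := fun z m n z' m' c' n' => by
      obtain ⟨g, a1, a2⟩ := eJ z m n
      obtain ⟨_, ⟨L, a3, rfl⟩, a4⟩ : ∃ L ∈ sets R ls, z' ∈ L := by
        rcases eP z' m' ((hc c').resolve_left n') with rfl | rfl
        exacts [(h.land i).1, (h.land i).2]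
      exact ⟨_, mj g a1, L, List.mem_append_left _ (hl' L a3 z' a4 c'),
        fun o => n' (gG g a1 (jg g a1 (o ▸ a4))), a2, a4⟩
    have xb := cc.arc.left
    have yb := cc.arc.right
    by_cases gx : x' b ∈ G <;> by_cases gy : y' b ∈ G
    · obtain ⟨g, a1, a2⟩ := eJ _ xb gx
      obtain ⟨g', a3, a4⟩ := eJ _ yb gy
      exact ⟨_, mj g a1, _, mj g' a3, fun o => nb g a1 ⟨jg g a1 a2, jg g a1 (o ▸ a4)⟩, a2, a4⟩
    · exact mix _ xb gx _ yb cc.right gy
    · obtain ⟨L, a1, L', a2, a3, a4, a5⟩ := mix _ yb gy _ xb cc.left gx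
      exact ⟨L', a2, L, a1, a3.symm, a5, a4⟩
    have xo := (hc cc.left).resolve_left gx
    have yo := (hc cc.right).resolve_left gy
    have eb := be xo yo
    rcases raw.ess i with ⟨_, ⟨L, a1, rfl⟩, _, ⟨L', a2, rfl⟩, n, a3, a4⟩ |
      ⟨W, m, W₁, m1, W₂, m2, n1, n2, a1, a2, k⟩
    · have n' : L ≠ L' := fun o => n (o ▸ rfl)
      rcases eP _ xb xo with o | o <;> rcases eP _ yb yo with o' | o'
      · exact (cc.arc.ne (o.trans o'.symm)).elim
      · exact ⟨L, List.mem_append_left _ (hl' L a1 _ a3 (o ▸ cc.left)), L',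
          List.mem_append_left _ (hl' L' a2 _ a4 (o' ▸ cc.right)), n', o ▸ a3, o' ▸ a4⟩
      · exact ⟨L', List.mem_append_left _ (hl' L' a2 _ a4 (o ▸ cc.left)), L,
          List.mem_append_left _ (hl' L a1 _ a3 (o' ▸ cc.right)), n'.symm, o ▸ a4, o' ▸ a3⟩
      · exact (cc.arc.ne (o.trans o'.symm)).elim
    exfalso
    rw [← eb] at k
    have bW : ∀ z ∈ b, z ∈ R ob → z ∈ W := fun z m n => by
      rcases eP z m n with rfl | rfl
      exacts [a1, a2]
    have seam : ∀ g ∈ gs, ∀ V ∈ sets R hs, ∀ V' ∈ sets R hs, V ≠ W → V' ≠ W → u g ∈ V → v g ∈ V' →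
        R g.1.1 ⊆ R s \ (W ∪ b) := fun g mg V mV V' mV' o o' b1 b2 z hz => by
      refine ⟨eS.le (Or.inl (Or.inl (d1.rim_sub (gc g mg hz).1))), fun n => n.elim (fun n => ?_)
        fun n => ?_⟩
      · rcases (gO g mg).le ⟨hz, hWO W m n⟩ with rfl | rfl
        exacts [disjoint_left.1 (hWd V mV W m o) b1 n, disjoint_left.1 (hWd V' mV' W m o') b2 n]
      · rcases cc.inter.le ⟨n, gc' g mg hz⟩ with rfl | rfl
        exacts [gx (gG g mg hz), gy (gG g mg hz)]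
    by_cases n : W₁ = W₂
    · subst n
      obtain ⟨l, b1, rfl⟩ := hW W₁ m1
      obtain ⟨z, b2, -⟩ := (dh l b1).exists_rim finite_empty
      have b3 := (dh l b1).rim_sub b2
      have b4 := disjoint_left.1 (hWd _ m1 W m n1) b3
      exact disjoint_left.1 ((k {z} isPreconnected_singleton (singleton_subset_iff.2
        ⟨oS (hO l b1 b3), fun o => b4 (o.elim id fun o => bW z o (hO l b1 b3))⟩)).elim id id) rfl b3
    obtain ⟨M, b1, rfl⟩ := id m1
    obtain ⟨M', b2, rfl⟩ := id m2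
    have fin : ∀ g ∈ gs, (sub g.1.2.1 M && sub g.1.2.2 M' || sub g.1.2.1 M' && sub g.1.2.2 M) = true →
        False := fun g mg o => by
      obtain ⟨⟨a3, a4, a5⟩, -⟩ := dg g mg
      simp only [Bool.and_eq_true, Bool.or_eq_true] at o
      rcases o with o | o
      · have b3 := hR.sub o.1 (a4.ge rfl)
        have b4 := hR.sub o.2 (a5.ge rfl)
        exact (k _ a3.conn (seam g mg _ m1 _ m2 n1 n2 b3 b4)).elim
          (fun d => disjoint_left.1 d a3.left b3) fun d => disjoint_left.1 d a3.right b4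
      · have b3 := hR.sub o.1 (a4.ge rfl)
        have b4 := hR.sub o.2 (a5.ge rfl)
        exact (k _ a3.conn (seam g mg _ m2 _ m1 n2 n1 b3 b4)).elim
          (fun d => disjoint_left.1 d a3.right b4) fun d => disjoint_left.1 d a3.left b3
    rcases opRe_pairs k14 b1 b2 fun o => n (o ▸ rfl) with o | o <;>
      obtain ⟨g, mg, o⟩ := List.any_eq_true.1 o
    · exact fin g mg o
    · exact fin g mg (Bool.or_comm _ _ ▸ o)
  have t0 : tot univ (initP (s₁ := s₁) (s₂ := s₂) 0) = ⋃₀ s₁ := by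
    ext z
    simp [tot, initP]
  have t1 : tot univ (initP (s₁ := s₁) (s₂ := s₂) 1) = ⋃₀ s₂ := by
    ext z
    simp [tot, initP]
  have nil : ∀ n i, 2 ≤ n → initP (s₁ := s₁) (s₂ := s₂) n i = ∅ := fun n i l => by
    obtain ⟨n, rfl⟩ := Nat.exists_eq_add_of_le' l
    cases i <;> rfl
  have := y1.fin.to_subtype
  have := y2.fin.to_subtype
  refine ⟨s₁ ⊕ s₂, inferInstance, initP, H, ⟨fun k m => ?_, nil, fun n k e i => ?_,
    fun n i i' ne => ?_, fun n n' k k' e e' L m m' T hT => ?_, fun _ _ _ _ _ _ r => r.elim⟩, h1, h2, h3,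
    fun z hz => (h4 (oS hz)).trans (fO hz), ?_⟩
  · simp only [List.mem_cons, List.not_mem_nil, or_false] at m
    rcases m with rfl | rfl
    exacts [d1, d2]
  · rcases n with _ | _ | n
    · cases e
      rcases i with ⟨b, m⟩ | b
      · refine Or.inr ⟨rfl, _, _, y1.cc b m, side _ _ _ b (Or.inl m) (y1.cc b m)
          (subset_union_left.trans rm) (fun g o => (gc g o).trans inter_subset_left)
          fun L o z z1 z2 => List.mem_filter.2 ⟨o, ?_⟩⟩
        exact (k12 L o).elim And.left fun d => (disjoint_left.1 (hR.dis d.2) z1 z2).elim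
      · exact Or.inl rfl
    · cases e
      rcases i with b | ⟨b, m⟩
      · exact Or.inl rfl
      · refine Or.inr ⟨rfl, _, _, y2.cc b m, side _ _ _ b (Or.inr m) (y2.cc b m)
          (subset_union_right.trans rm) (fun g o => (gc g o).trans inter_subset_right)
          fun L o z z1 z2 => List.mem_filter.2 ⟨o, ?_⟩⟩
        rw [Bool.not_eq_true', ← Bool.not_eq_true]
        exact fun d => (k12 L o).elim (fun d => disjoint_left.1 (hR.dis d.2) z1 z2)
          fun d' => disjoint_left.1 (hR.dis d'.2) z1 (hR.sub d z1)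
    · cases e
  · rcases n with _ | _ | n <;> rcases i with i | i <;> rcases i' with i' | i' <;>
      first
      | exact disjoint_empty _
      | exact empty_disjoint _
      | exact y1.disj i.2 i'.2 fun o => ne (congrArg _ (Subtype.ext o))
      | exact y2.disj i.2 i'.2 fun o => ne (congrArg _ (Subtype.ext o))
  · obtain rfl : T = univ := hT
    have k0 : R L ⊆ R c1 → tot univ (initP (s₁ := s₁) (s₂ := s₂) 0) ∩ R L =
        (⋃ i ∈ univ, F '' a i) ∩ R L := fun o => by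
      rw [t0, ← i1, inter_assoc, inter_eq_right.2 (o.trans d1.rim_sub)]
    have k1 : R L ⊆ R c2 → tot univ (initP (s₁ := s₁) (s₂ := s₂) 1) ∩ R L =
        (⋃ i ∈ univ, F '' a i) ∩ R L := fun o => by
      rw [t1, ← i2, inter_assoc, inter_eq_right.2 (o.trans d2.rim_sub)]
    rcases n with _ | _ | n <;> rcases n' with _ | _ | n' <;> cases e <;> cases e'
    exacts [rfl, (k0 (v1.2.2.2.1 L m)).trans (k1 (v2.2.2.2.1 L m')).symm,
      (k1 (v2.2.2.2.1 L m)).trans (k0 (v1.2.2.2.1 L m')).symm, rfl]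
  · have e1 : H '' tot univ a = ⋃ i ∈ univ, F '' a i := by
      rw [tot, image_iUnion₂]
      exact iUnion₂_congr fun i m => (h4.mono (h.arcs.sub i m)).image_eq
    rw [e1, ← cov, ← t0, ← t1]
    ext z
    simp only [tot, whole, mem_union, mem_iUnion, mem_univ, exists_true_left]
    refine ⟨fun o => o.elim (fun ⟨i, m⟩ => ⟨i, 0, m⟩) fun ⟨i, m⟩ => ⟨i, 1, m⟩, fun ⟨i, n, m⟩ => ?_⟩
    rcases n with _ | _ | n
    exacts [Or.inl ⟨i, m⟩, Or.inr ⟨i, m⟩, (nil _ i (Nat.le_add_left 2 n) ▸ m : z ∈ (∅ : Set Z)).elim]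

end Pool.Agent.Lib.MP_b7d179_gt.C
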