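import Pool.Agent.Lib.MP_b7d179_gt.C.Tr
import Pool.Agent.Lib.MP_b7d179_gt.C.InitB
import Pool.Agent.Lib.MP_b7d179_gt.C.Run

/-! The first normal form. -/

namespace Pool.Agent.Lib.MP_b7d179_gt.C

open Set

variable {Z : Type} [MetricSpace Z] {ι : Type}

variable [Finite ι] {A : Atoms} {R : ℕ → Set Z} {nd : ℕ → Option (ℕ × ℕ)} {n0 fr pad ob : ℕ}
  {K : Set Z} {ls hs : List ℕ} {a : ι → Set Z} {p q : ι → Z} {x y : PS}

theorem peel_ok {k : ℕ} (hR : Rl R) (hn : NdB R nd) (hK : IsClosed K) (hf : Disjoint (R fr) K)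
    (hx : Chain R nd n0 x.l x.b x.s) (ho : R ob ⊆ R x.s) (e : peel fr ob k x = some y) :
    Chain R nd n0 y.l y.b y.s ∧ R ob ⊆ R y.s ∧ ∃ H, Mv K H (R x.b) ∧ H '' R x.b = R y.b ∧
      H '' R x.s = R y.s ∧ EqOn H id (R ob) := by
  induction k generalizing x with
  | zero =>
    obtain rfl : x = y := Option.some.inj e
    exact ⟨hx, ho, id, mv_id _ _, image_id _, image_id _, fun _ _ => rfl⟩
  | succ k ih =>
    obtain ⟨l, bb, s, cs⟩ := x
    simp only [peel] at e
    split at e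
    · rename_i t l
      split at e
      · rename_i c
        rw [Bool.and_eq_true] at c
        obtain ⟨rfl, rfl, ch, h1, hW, g⟩ := opPop_step hn hx
        obtain ⟨H, m, i, j, f, -⟩ := push g h1 hW hK (hf.mono_left (hR.sub c.1))
        obtain ⟨a1, a2, H', m', i', j', f'⟩ := ih (x := ⟨l, t.b1, t.s1, cs⟩) ch (hR.sub c.2) e
        refine ⟨a1, a2, H' ∘ H, m.comp (i.symm ▸ m'), by rw [image_comp, i, i'],
          by rw [image_comp, j, j'], fun w hw => ?_⟩
        have : H w = w := f ⟨ho hw, h1.rim_sub (hR.sub c.2 hw)⟩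
        exact (congrArg H' this).trans (f' hw)
      · cases e
    · cases e

theorem grow_ok {b s ob' : ℕ} {gr : List (TD × TD × TA)} (hA : A.Ok R Ball) (hB : Ball (R b) (R s))
    (hK : IsClosed K) (hf : Disjoint (R fr) K) (ho : R ob ⊆ R s) (hh : R (orL hs) ⊆ R ob)
    (e : grow A fr s (orL ls) ob gr = some ob') (h : Raw (R s) (R ob) (sets R ls) (sets R hs) a p q) :
    R ob ⊆ R ob' ∧ ∃ H, Mv K H (R b) ∧ H '' R b = R b ∧ H '' R s = R s ∧ EqOn H id (R ob) ∧
      Raw (R s) (R ob') (sets R ls) (sets R hs) (fun i => H '' a i) p q := by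
  have hR := hA.rl
  induction gr generalizing ob a with
  | nil =>
    obtain rfl : ob = ob' := Option.some.inj e
    exact ⟨subset_rfl, id, mv_id _ _, image_id _, image_id _, fun _ _ => rfl, by
      simpa only [image_id] using h⟩
  | cons t l ih =>
    obtain ⟨d, e', g⟩ := t
    simp only [grow] at e
    split at e
    swap
    · cases e
    rename_i D c E c' mg og e1 e2 e3
    split at e
    swap
    · cases e
    rename_i k
    simp only [Bool.and_eq_true] at k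
    obtain ⟨⟨⟨⟨⟨⟨⟨k1, k2⟩, k3⟩, k4⟩, k5⟩, k6⟩, k7⟩, k8⟩ := k
    have d1 := hA.evD glues e1
    have d2 := hA.evD glues e2
    obtain ⟨x0, y0, hg, eo⟩ := hA.evAo glues e3
    obtain ⟨u, hu⟩ := d1.two_of_arc hg (hR.sub k2)
    obtain ⟨v, hv⟩ := d2.two_of_arc hg (hR.sub k3)
    have cut := d1.glue d2 hu.symm hv.symm (hR.inter k1)
    have s4 : R D ∪ R E ⊆ R s := hR.or _ _ ▸ hR.sub k4
    have s5 : R D ∪ R E ⊆ R fr := hR.or _ _ ▸ hR.sub k5
    have s6 : R c \ R og ⊆ R ob := hR.df _ _ ▸ hR.sub k6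
    have s8 : ∀ m ∈ [df D c, df E c', og], ∀ z ∈ R m, z ∉ R ob := fun m o z hz =>
      disjoint_left.1 (hR.dis k8) ((hR.orL _).ge ⟨m, o, hz⟩)
    obtain ⟨F, f1, f2⟩ := grow_cell (X := tot univ a) cut
      (h.arcs.fin.isClosed_biUnion fun i m => (h.arcs.arc i m).closed) (disjoint_left.2 fun z m n => by
        obtain ⟨i, o, m⟩ := mem_iUnion₂.1 m
        have zo := s6 ⟨hu.sub2 n, fun o => (eo.le o).2 (hu.inter.le ⟨(eo.le o).1, n⟩)⟩
        obtain ⟨_, ⟨L, a3, rfl⟩, a4⟩ : ∃ L ∈ sets R ls, z ∈ L := by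
          rcases (h.arcs.inter i o).le ⟨m, zo⟩ with rfl | rfl
          exacts [(h.land i).1, (h.land i).2]
        exact disjoint_left.1 (hR.dis k7) (hu.sub2 n) ((hR.orL _).ge ⟨L, a3, a4⟩))
    obtain ⟨H, h1, h2, h3, h4⟩ := f1.ext hB hK cut.disc s4 (hf.mono_left s5)
    have fx : EqOn H id (R ob) := fun z hz => (h4 (ho hz)).trans (f1.fix z fun ⟨m, n⟩ => by
      have ng : z ∉ R mg := fun o => s8 og (by simp) z
        (eo.ge ⟨o, fun o' => n (Or.inl (hu.a2.ends o'))⟩) hz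
      rcases m with m | m
      · exact s8 (df D c) (by simp) z ((hR.df _ _).ge ⟨m, fun o =>
          (hu.union.ge o).elim ng fun o => n (Or.inl o)⟩) hz
      · exact s8 (df E c') (by simp) z ((hR.df _ _).ge ⟨m, fun o =>
          (hv.union.ge o).elim ng fun o => n (Or.inr o)⟩) hz)
    have raw := h.image (B := ∅) hB.rim_compact (h1.1.mono hB.rim_sub) ho fx (by
      rintro _ ⟨W, m, rfl⟩ z hz
      exact hh ((hR.orL _).ge ⟨W, m, hz⟩))
    rw [h3] at raw
    have so : R ob ⊆ R (Nat.lor ob D) := hR.or _ _ ▸ subset_union_left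
    obtain ⟨b1, H', m', i', j', f', r'⟩ := ih (ob := Nat.lor ob D) (a := fun i => H '' a i)
      (hR.or _ _ ▸ union_subset ho (subset_union_left.trans s4)) (hh.trans so) e
      ⟨⟨raw.arcs.fin, raw.arcs.arc, raw.arcs.sub, fun i m => by
        rw [hR.or, inter_union_distrib_left, raw.arcs.inter i m,
          (h4.mono (h.arcs.sub i m)).image_eq, (f2.mono_left (image_mono
            (subset_biUnion_of_mem (u := a) m))).inter_eq, union_empty], raw.arcs.disj⟩,
        raw.land, raw.ess⟩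
    refine ⟨so.trans b1, H' ∘ H, h1.comp (h2.symm ▸ m'), by rw [image_comp, h2, i'],
      by rw [image_comp, h3, j'], fun w hw => ?_, by simpa only [image_comp] using r'⟩
    have : H w = w := fx hw
    exact (congrArg H' this).trans (f' (so hw))

theorem init_run {c : Ini} {ops : List Op} {z : PS} (hA : A.Ok R Ball) (hn : NdB R nd)
    (hK : IsClosed K) (hf : Disjoint (R fr) K) (hx : Chain R nd n0 x.l x.b x.s)
    (e : initRun A fr pad ob ls hs x c = some y) (e' : run A fr pad y ops = some z)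
    (h : Raw (R x.s) (R ob) (sets R ls) (sets R hs) a p q) :
    ∃ (ι' : Type) (_ : Finite ι') (bb : ℕ → ι' → Set Z) (H : Z → Z), z.Ok R nd n0 fr pad ∧
      CS R {univ} (fun _ _ _ => False) (fun _ => false) z.cs bb ∧ Mv K H (R x.b) ∧
      H '' R x.b = R z.b ∧ H '' R x.s = R z.s ∧ EqOn H id (R pad) ∧
      H '' tot univ a = tot univ (whole bb) := by
  have hR := hA.rl
  obtain ⟨w, e1, e2⟩ := Option.bind_eq_some_iff.1 e
  obtain ⟨ob', e3, e4⟩ := Option.bind_eq_some_iff.1 e2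
  obtain ⟨cs, e5, e6⟩ := Option.bind_eq_some_iff.1 e4
  split_ifs at e6 with k
  cases e6
  simp only [Bool.and_eq_true] at k
  obtain ⟨⟨⟨⟨k1, k2⟩, k3⟩, k4⟩, k5⟩ := k
  obtain ⟨c1, o1, H1, m1, i1, j1, f1⟩ := peel_ok hR hn hK hf hx (hR.sub k2) e1
  have bx := hx.ball hn
  have bw := c1.ball hn
  have r1 := h.image (B := ∅) bx.rim_compact (m1.1.mono bx.rim_sub) (hR.sub k2) f1 (by
    rintro _ ⟨W, m, rfl⟩ z hz
    exact hR.sub k3 ((hR.orL _).ge ⟨W, m, hz⟩))
  rw [j1] at r1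
  obtain ⟨o2, H2, m2, i2, j2, f2, r2⟩ := grow_ok hA bw hK hf o1 (hR.sub k3) e3 r1
  obtain ⟨ι', fin, bb, H3, cs3, m3, i3, j3, f3, t3⟩ := seams_ok hA bw hK hf e5 k4 r2
  obtain ⟨b', H4, z1, z2, mv⟩ := run_ok (x := { w with cs := cs }) hA hn hK hf ⟨c1, k4, k5⟩ cs3 e'
  have ti : ∀ {κ : Type} (G : Z → Z) (a : κ → Set Z), G '' tot univ a = tot univ fun i => G '' a i :=
    fun G a => image_iUnion₂ _ _
  refine ⟨ι', fin, b', H4 ∘ H3 ∘ H2 ∘ H1, z1, z2, ((m1.comp (i1.symm ▸ m2)).comp ?_).comp ?_, ?_, ?_,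
    fun u hu => ?_, ?_⟩
  · rwa [image_comp, i1, i2]
  · rw [image_comp, image_comp, i1, i2, i3]
    exact mv.mv
  · rw [image_comp, image_comp, image_comp, i1, i2, i3, mv.ib]
  · rw [image_comp, image_comp, image_comp, j1, j2, j3, mv.is]
  · have o := hR.sub k1 hu
    have a1 : H1 u = u := f1 o
    have a2 : H2 u = u := f2 o
    have a3 : H3 u = u := f3 (o2 o)
    simp only [Function.comp_apply, a1, a2, a3]
    exact mv.fix hu
  · rw [image_comp, image_comp, image_comp, ti H1, ti H2, t3, ti H4]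
    exact congrArg _ (funext mv.im)

end Pool.Agent.Lib.MP_b7d179_gt.C
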