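import Pool.Agent.Lib.MP_b7d179_gt.T.Defs

/-! Bit masks as sets of cells; arcs, discs and balls built from atoms by checked gluing. -/

namespace Pool.Agent.Lib.MP_b7d179_gt.C

open Set

def df (a b : ℕ) : ℕ := Nat.xor a (Nat.land a b)
def sub (a b : ℕ) : Bool := Nat.beq (Nat.land a b) a
def dis (a b : ℕ) : Bool := Nat.beq (Nat.land a b) 0
def orL (l : List ℕ) : ℕ := l.foldr Nat.lor 0

lemma bit_and (a b i : ℕ) : (Nat.land a b).testBit i = (a.testBit i && b.testBit i) :=
  Nat.testBit_and a b i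
lemma bit_or (a b i : ℕ) : (Nat.lor a b).testBit i = (a.testBit i || b.testBit i) :=
  Nat.testBit_or a b i
lemma bit_df (a b i : ℕ) : (df a b).testBit i = (a.testBit i && !b.testBit i) := by
  have : (df a b).testBit i = (a.testBit i ^^ (Nat.land a b).testBit i) := Nat.testBit_xor _ _ i
  rw [this, bit_and]; cases a.testBit i <;> cases b.testBit i <;> rfl

variable {Z : Type} [MetricSpace Z]

/-- a realisation of masks by sets -/
structure Rl (R : ℕ → Set Z) : Prop where
  and : ∀ a b, R (Nat.land a b) = R a ∩ R b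
  or : ∀ a b, R (Nat.lor a b) = R a ∪ R b
  df : ∀ a b, R (df a b) = R a \ R b

/-- union of the open cells of a mask -/
def cells (o : ℕ → Set Z) (m : ℕ) : Set Z := {x | ∃ i, m.testBit i = true ∧ x ∈ o i}

omit [MetricSpace Z] in
lemma cells_bit {o : ℕ → Set Z} (h : Pairwise (Function.onFun Disjoint o)) {x : Z} {i : ℕ}
    (hx : x ∈ o i) (m : ℕ) : x ∈ cells o m ↔ m.testBit i = true := by
  refine ⟨fun ⟨j, hj, hx'⟩ => ?_, fun hm => ⟨i, hm, hx⟩⟩
  by_cases e : i = j
  · rwa [e]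
  · exact absurd hx' (disjoint_left.1 (h e) hx)

lemma rl_cells {o : ℕ → Set Z} (h : Pairwise (Function.onFun Disjoint o)) : Rl (cells o) := by
  have key : ∀ x, (∃ i, x ∈ o i) ∨ ∀ m, x ∉ cells o m := fun x => by
    by_cases hx : ∃ i, x ∈ o i
    · exact Or.inl hx
    · exact Or.inr fun m ⟨i, _, hi⟩ => hx ⟨i, hi⟩
  refine ⟨fun a b => ?_, fun a b => ?_, fun a b => ?_⟩ <;> ext x <;>
    rcases key x with ⟨i, hi⟩ | hn
  · simp only [mem_inter_iff, cells_bit h hi, bit_and, Bool.and_eq_true]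
  · simp [hn]
  · simp only [mem_union, cells_bit h hi, bit_or, Bool.or_eq_true]
  · simp [hn]
  · simp [mem_diff, cells_bit h hi, bit_df]
  · simp [hn]

namespace Rl
variable {R : ℕ → Set Z} (h : Rl R)
include h

lemma zero : R 0 = ∅ := by
  have := h.df 0 0
  rw [diff_self] at this
  exact this
lemma sub {a b : ℕ} (e : sub a b = true) : R a ⊆ R b := by
  rw [← Nat.eq_of_beq_eq_true e, h.and]; exact inter_subset_right
lemma dis {a b : ℕ} (e : dis a b = true) : Disjoint (R a) (R b) := by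
  rw [disjoint_iff_inter_eq_empty, ← h.and, Nat.eq_of_beq_eq_true e, h.zero]
lemma inter {a b c : ℕ} (e : Nat.beq (Nat.land a b) c = true) : R a ∩ R b = R c := by
  rw [← h.and, Nat.eq_of_beq_eq_true e]
lemma orL (l : List ℕ) : R (orL l) = {x | ∃ m ∈ l, x ∈ R m} := by
  induction l with
  | nil => simpa [C.orL] using h.zero
  | cons a l ih =>
    have : C.orL (a :: l) = Nat.lor a (C.orL l) := rfl
    rw [this, h.or, ih]; ext x; simp
end Rl

/-! ### Terms -/

abbrev TA : Type := List ℕ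
abbrev TD : Type := ℕ × List (ℕ × TA)
abbrev TB : Type := ℕ × List (ℕ × TD)

/-- tables of atoms: arcs (mask, first end, last end), discs and balls (mask, rim) -/
structure Atoms where
  a1 : ℕ → Option (ℕ × ℕ × ℕ)
  a2 : ℕ → Option (ℕ × ℕ)
  a3 : ℕ → Option (ℕ × ℕ)

def arcGo (a1 : ℕ → Option (ℕ × ℕ × ℕ)) (m y : ℕ) : List ℕ → Option (ℕ × ℕ)
  | [] => some (m, y)
  | t :: l =>
    match a1 t with
    | none => none
    | some (s, u, v) =>
      if Nat.beq u y && Nat.beq (Nat.land m s) y then arcGo a1 (Nat.lor m s) v l else none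

def glueGo {α : Type} (ev : α → Option (ℕ × ℕ)) (at' : ℕ → Option (ℕ × ℕ)) (O c : ℕ) :
    List (ℕ × α) → Option (ℕ × ℕ)
  | [] => some (O, c)
  | (b, t) :: l =>
    match at' b, ev t with
    | some (m, r), some (d, d0) =>
      if Nat.beq (Nat.land O m) d && sub d c && sub d r then
        glueGo ev at' (Nat.lor O m) (df (Nat.lor c r) d0) l
      else none
    | _, _ => none

namespace Atoms
variable (A : Atoms)

/-- mask and the two ends -/
def evA : TA → Option (ℕ × ℕ × ℕ)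
  | [] => none
  | t :: l =>
    match A.a1 t with
    | none => none
    | some (s, u, v) => (arcGo A.a1 s v l).map fun r => (r.1, u, r.2)
/-- mask and the part without the ends -/
def evAo (l : TA) : Option (ℕ × ℕ) := (A.evA l).map fun r => (r.1, df r.1 (Nat.lor r.2.1 r.2.2))
/-- disc and rim -/
def evD (t : TD) : Option (ℕ × ℕ) :=
  match A.a2 t.1 with
  | none => none
  | some (m, r) => glueGo A.evAo A.a2 m r t.2
/-- disc and the part off the rim -/
def evDo (t : TD) : Option (ℕ × ℕ) := (A.evD t).map fun r => (r.1, df r.1 r.2)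
/-- ball and rim -/
def evB (t : TB) : Option (ℕ × ℕ) :=
  match A.a3 t.1 with
  | none => none
  | some (m, r) => glueGo A.evDo A.a3 m r t.2

/-- the tables are correct -/
structure Ok (R : ℕ → Set Z) (Bl : Set Z → Set Z → Prop) : Prop where
  rl : Rl R
  h1 : ∀ t m u v, A.a1 t = some (m, u, v) → ∃ x y, Arc (R m) x y ∧ R u = {x} ∧ R v = {y}
  h2 : ∀ t m r, A.a2 t = some (m, r) → Disc (R m) (R r)
  h3 : ∀ t m r, A.a3 t = some (m, r) → Bl (R m) (R r)
end Atoms

/-- the three gluing lemmas -/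
structure Glues (Z : Type) [MetricSpace Z] (Bl : Set Z → Set Z → Prop) : Prop where
  cat : ∀ {a b : Set Z} {p q r : Z}, Arc a p q → Arc b q r → a ∩ b = {q} → Arc (a ∪ b) p r
  disc : ∀ {O c O' c' g : Set Z} {x y : Z}, Disc O c → Disc O' c' → Arc g x y → O ∩ O' = g →
    g ⊆ c → g ⊆ c' → Disc (O ∪ O') ((c ∪ c') \ (g \ {x, y}))
  ball : ∀ {B S B' S' D c : Set Z}, Bl B S → Bl B' S' → Disc D c → B ∩ B' = D → D ⊆ S → D ⊆ S' →
    Bl (B ∪ B') ((S ∪ S') \ (D \ c))

theorem glueGo_ok {α : Type} {R : ℕ → Set Z} (hR : Rl R) {P Qo : Set Z → Set Z → Prop}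
    {ev : α → Option (ℕ × ℕ)} {at' : ℕ → Option (ℕ × ℕ)}
    (hev : ∀ t d d0, ev t = some (d, d0) → Qo (R d) (R d0))
    (hat : ∀ t m r, at' t = some (m, r) → P (R m) (R r))
    (hg : ∀ O c m r d d0, P O c → P m r → Qo d d0 → O ∩ m = d → d ⊆ c → d ⊆ r →
      P (O ∪ m) ((c ∪ r) \ d0)) (l : List (ℕ × α)) :
    ∀ O c O' c', P (R O) (R c) → glueGo ev at' O c l = some (O', c') → P (R O') (R c') := by
  induction l with
  | nil => intro O c O' c' h e; simp only [glueGo, Option.some.injEq, Prod.mk.injEq] at e; rwa [← e.1, ← e.2]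
  | cons a l ih =>
    obtain ⟨b, t⟩ := a
    intro O c O' c' h e
    simp only [glueGo] at e
    split at e
    · rename_i m r d d0 e1 e2
      split at e
      · rename_i k
        simp only [Bool.and_eq_true] at k
        refine ih _ _ _ _ ?_ e
        rw [hR.or, hR.df, hR.or]
        exact hg _ _ _ _ _ _ h (hat _ _ _ e1) (hev _ _ _ e2) (hR.inter k.1.1) (hR.sub k.1.2)
          (hR.sub k.2)
      · cases e
    · cases e

namespace Atoms.Ok
variable {A : Atoms} {R : ℕ → Set Z} {Bl : Set Z → Set Z → Prop} (h : A.Ok R Bl) (g : Glues Z Bl)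
include h g

theorem arcGo_ok (l : List ℕ) : ∀ m y m' y' (p q : Z), Arc (R m) p q → R y = {q} →
    arcGo A.a1 m y l = some (m', y') → ∃ r, Arc (R m') p r ∧ R y' = {r} := by
  induction l with
  | nil =>
    intro m y m' y' p q ha hy e
    simp only [arcGo, Option.some.injEq, Prod.mk.injEq] at e
    exact ⟨q, e.1 ▸ ha, e.2 ▸ hy⟩
  | cons t l ih =>
    intro m y m' y' p q ha hy e
    simp only [arcGo] at e
    split at e
    · cases e
    · rename_i s u v e1
      split at e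
      · rename_i k
        simp only [Bool.and_eq_true] at k
        obtain ⟨x, z, hs, hu, hv⟩ := h.h1 _ _ _ _ e1
        have : x = q := by
          rw [Nat.eq_of_beq_eq_true k.1, hy] at hu; exact (singleton_injective hu).symm
        subst this
        refine ih _ _ _ _ p z ?_ hv e
        rw [h.rl.or]
        exact g.cat ha hs (by rw [h.rl.inter k.2, hy])
      · cases e

theorem evA {t : TA} {m u v : ℕ} (e : A.evA t = some (m, u, v)) :
    ∃ x y, Arc (R m) x y ∧ R u = {x} ∧ R v = {y} := by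
  cases t with
  | nil => cases e
  | cons t l =>
    simp only [Atoms.evA] at e
    split at e
    · cases e
    · rename_i s u' v' e1
      obtain ⟨x, z, hs, hu, hv⟩ := h.h1 _ _ _ _ e1
      obtain ⟨⟨m', y'⟩, e2, e3⟩ := Option.map_eq_some_iff.1 e
      simp only [Prod.mk.injEq] at e3
      obtain ⟨r, h1, h2⟩ := h.arcGo_ok g l _ _ _ _ x z hs hv e2
      exact ⟨x, r, e3.1 ▸ h1, e3.2.1 ▸ hu, e3.2.2 ▸ h2⟩

theorem evAo {t : TA} {m m0 : ℕ} (e : A.evAo t = some (m, m0)) :
    ∃ x y, Arc (R m) x y ∧ R m0 = R m \ {x, y} := by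
  obtain ⟨⟨m', u, v⟩, e2, e3⟩ := Option.map_eq_some_iff.1 e
  simp only [Prod.mk.injEq] at e3
  obtain ⟨x, y, ha, hu, hv⟩ := h.evA g e2
  refine ⟨x, y, e3.1 ▸ ha, ?_⟩
  rw [← e3.2, h.rl.df, h.rl.or, hu, hv, e3.1]; rfl

theorem evD {t : TD} {m r : ℕ} (e : A.evD t = some (m, r)) : Disc (R m) (R r) := by
  simp only [Atoms.evD] at e
  split at e
  · cases e
  · rename_i m0 r0 e1
    refine glueGo_ok h.rl (P := Disc) (Qo := fun d d0 => ∃ x y, Arc d x y ∧ d0 = d \ {x, y})
      (fun t d d0 e => h.evAo g e) h.h2 ?_ _ _ _ _ _ (h.h2 _ _ _ e1) e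
    rintro O c m r d d0 h1 h2 ⟨x, y, ha, rfl⟩ i s1 s2
    exact g.disc h1 h2 ha i s1 s2

theorem evDo {t : TD} {m m0 : ℕ} (e : A.evDo t = some (m, m0)) :
    ∃ c, Disc (R m) c ∧ R m0 = R m \ c := by
  obtain ⟨⟨m', r⟩, e2, e3⟩ := Option.map_eq_some_iff.1 e
  simp only [Prod.mk.injEq] at e3
  exact ⟨R r, e3.1 ▸ h.evD g e2, by rw [← e3.2, h.rl.df, e3.1]⟩

theorem evB {t : TB} {m r : ℕ} (e : A.evB t = some (m, r)) : Bl (R m) (R r) := by
  simp only [Atoms.evB] at e
  split at e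
  · cases e
  · rename_i m0 r0 e1
    refine glueGo_ok h.rl (P := Bl) (Qo := fun d d0 => ∃ c, Disc d c ∧ d0 = d \ c)
      (fun t d d0 e => h.evDo g e) h.h3 ?_ _ _ _ _ _ (h.h3 _ _ _ e1) e
    rintro O c m r d d0 h1 h2 ⟨c0, ha, rfl⟩ i s1 s2
    exact g.ball h1 h2 ha i s1 s2

end Atoms.Ok

end Pool.Agent.Lib.MP_b7d179_gt.C
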