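import Pool.Agent.Lib.MP_b7d179_gt.C.Sep

/-! Obstacles: thickening, retraction into carriers, separation. -/

namespace Pool.Agent.Lib.MP_b7d179_gt.C

open Set

variable {Z : Type} [MetricSpace Z] {ι : Type}

variable {S D Y X W w W' w' a a' s Q c : Set Z} {p q p' q' x y : Z}

theorem thicken (hS : Sph S) (hW : Disc W w) (hW' : Disc W' w') (ha : Arc a p q)
    (hs : W ∪ a ∪ W' ⊆ S) (hd : Disjoint W W') (i : a ∩ W = {p}) (i' : a ∩ W' = {q})
    (hX : IsClosed X) (hXa : Disjoint X a) :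
    ∃ T t, Disc T t ∧ T ⊆ S ∧ W ∪ a ∪ W' ⊆ T ∧ T ∩ X ⊆ W ∪ W' := by
  have sW : W ⊆ S := fun z hz => hs (Or.inl (Or.inl hz))
  have sa : a ⊆ S := fun z hz => hs (Or.inl (Or.inr hz))
  have sW' : W' ⊆ S := fun z hz => hs (Or.inr hz)
  have pw : p ∈ w := hS.end_rim hW sW ha sa (i.ge rfl).2 (i.le.trans fun z hz => Or.inl hz)
  have qw : q ∈ w' := hS.end_rim hW' sW' ha.symm sa (i'.ge rfl).2
    (i'.le.trans fun z hz => Or.inl hz)
  obtain ⟨E, hE⟩ := hS.compl hW sW
  have out : ∀ z ∈ S, z ∉ W → z ∈ E \ w := fun z hz hn =>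
    ⟨(hE.union.ge hz).resolve_left hn, fun h => hn (hW.rim_sub h)⟩
  obtain ⟨p1, hp1, np⟩ := hW.exists_rim (E := {p}) (toFinite _)
  obtain ⟨q1, hq1, nq⟩ := hW'.exists_rim (E := {q}) (toFinite _)
  obtain ⟨u, v, huv⟩ := hW.exists_two pw hp1 (Ne.symm np)
  have hH : Holes (E \ w) (univ : Set Unit) (fun _ => W') (fun _ => w') :=
    ⟨toFinite _, fun _ _ => hW', fun _ _ z hz => out z (sW' hz) fun h => disjoint_left.1 hd h hz,
      fun _ _ _ _ h => (h rfl).elim⟩
  obtain ⟨η, r, r', N, N', -, -, -, hr, hN, -, -, -, -, iW', -, iw, -, un, -⟩ :=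
    anncut (j := ()) hE.d2 hH (mem_univ _) huv qw hq1 (Ne.symm nq) ha (by
      intro z hz
      refine ⟨out z (sa hz.1) fun h => hz.2 (Or.inl (i.le ⟨hz.1, h⟩)), fun h => ?_⟩
      obtain ⟨_, _, h⟩ := mem_iUnion₂.1 h
      exact hz.2 (Or.inr (i'.le ⟨hz.1, h⟩)))
  have NE : N ⊆ E := fun z hz => un.le (Or.inl (Or.inl hz))
  obtain ⟨u0, u1, y, au, -, -, uu, uX⟩ := huv.a1.start
    (hX.isOpen_compl.mem_nhds fun h => disjoint_left.1 hXa h ha.left)
  obtain ⟨r0, r1, y', ar, -, -, rr, rX⟩ := hr.a1.start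
    (hX.isOpen_compl.mem_nhds fun h => disjoint_left.1 hXa h ha.right)
  have su : u0 ⊆ u := uu ▸ subset_union_left
  have sr : r0 ⊆ r := rr ▸ subset_union_left
  have uw : u0 ⊆ w := su.trans huv.sub1
  have rw' : r0 ⊆ w' := sr.trans hr.sub1
  have uW : u0 ⊆ W := uw.trans hW.rim_sub
  have rW : r0 ⊆ W' := rw'.trans hW'.rim_sub
  have a1 : Arc (u0 ∪ a) y q := au.symm.cat ha
    (ann_inter au.left ha.left fun z h1 h2 => i.le ⟨h2, uW h1⟩)
  have a2 : Arc (u0 ∪ a ∪ r0) y y' := a1.cat ar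
    (ann_inter a1.right ar.left fun z h1 h2 => h1.elim
      (fun h => (disjoint_left.1 hd (uW h) (rW h2)).elim) fun h => i'.le ⟨h, rW h2⟩)
  obtain ⟨I', hI⟩ := hN.two_of_arc a2 (by
    rintro z ((h | h) | h)
    · exact Or.inl (Or.inl (Or.inl (su h)))
    · exact Or.inl (Or.inl (Or.inr h))
    · exact Or.inl (Or.inr (sr h)))
  obtain ⟨g, M, M', hM, dM⟩ := bite0 hN hI hX (by
    rw [disjoint_union_right, disjoint_union_right]
    exact ⟨⟨disjoint_left.2 fun z h h' => uX h' h, hXa⟩, disjoint_left.2 fun z h h' => rX h' h⟩)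
  have IM : u0 ∪ a ∪ r0 ⊆ M := subset_union_left.trans hM.d1.rim_sub
  have i1 : W ∩ M = u0 := by
    refine Subset.antisymm (fun z hz => ?_) fun z hz => ⟨uW hz, IM (Or.inl (Or.inl hz))⟩
    have h1 : z ∈ u := iw.le ⟨hM.sub1 hz.2, hE.inter.le ⟨hz.1, NE (hM.sub1 hz.2)⟩⟩
    rcases hM.inter_rim.le ⟨hz.2, Or.inl (Or.inl (Or.inl h1))⟩ with (h | h) | h
    · exact h
    · exact (i.le ⟨h, hz.1⟩ : z = p) ▸ au.left
    · exact (disjoint_left.1 hd hz.1 (rW h)).elim
  have i2 : (W ∪ M) ∩ W' = r0 := by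
    refine Subset.antisymm (fun z hz => ?_) fun z hz => ⟨Or.inr (IM (Or.inr hz)), rW hz⟩
    have h0 : z ∈ M := hz.1.resolve_left fun h => disjoint_left.1 hd h hz.2
    have h1 : z ∈ r := iW'.le ⟨hM.sub1 h0, hz.2⟩
    rcases hM.inter_rim.le ⟨h0, Or.inl (Or.inr h1)⟩ with (h | h) | h
    · exact (disjoint_left.1 hd (uW h) hz.2).elim
    · exact (i'.le ⟨h, hz.2⟩ : z = q) ▸ ar.left
    · exact h
  have g1 := hW.glue' hM.d1 au i1 uw fun z hz => Or.inl (Or.inl (Or.inl hz))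
  have g2 := g1.glue' hW' ar i2
    (fun z hz => ⟨Or.inr (Or.inl (Or.inr hz)), fun h => disjoint_left.1 hd (uW h.1) (rW hz)⟩) rw'
  refine ⟨_, _, g2, ?_, ?_, ?_⟩
  · exact union_subset (union_subset sW (hM.sub1.trans (NE.trans hE.sub2))) sW'
  · exact union_subset_union_left _
      (union_subset_union_right _ fun z hz => IM (Or.inl (Or.inr hz)))
  · rintro z ⟨(h | h) | h, hz⟩
    · exact Or.inl h
    · exact (disjoint_left.1 dM h hz).elim
    · exact Or.inr h

theorem Obs.facts (h : Obs S D Y) : IsCompact D ∧ IsCompact Y ∧ D ∪ Y ⊆ S := by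
  induction h with
  | disc h1 h2 => exact ⟨h1.compact, isCompact_empty, by rwa [union_empty]⟩
  | add _ ha sa _ _ hW sW _ _ ih =>
    refine ⟨ih.1.union hW.compact, ih.2.1.union ha.compact, ?_⟩
    exact union_subset (union_subset (subset_union_left.trans ih.2.2) sW)
      (union_subset (subset_union_right.trans ih.2.2) sa)

theorem Obs.image {F : Z → Z} (h : Obs S D Y) (hF : Emb F S) :
    Obs (F '' S) (F '' D) (F '' Y) := by
  induction h with
  | disc h1 h2 =>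
    rw [image_empty]
    exact Obs.disc (h1.image hF h2) (image_mono h2)
  | add h0 ha sa i d hW sW dW iW ih =>
    have sD := subset_union_left.trans h0.facts.2.2
    have sY := subset_union_right.trans h0.facts.2.2
    rw [image_union, image_union]
    refine Obs.add ih (ha.image hF sa) (image_mono sa) ?_ (hF.disjoint sa sY d) (hW.image hF sW)
      (image_mono sW) ?_ ?_
    · rw [← hF.inter sa sD, i, image_singleton]
    · rw [← image_union]
      exact hF.disjoint sW h0.facts.2.2 dW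
    · rw [← hF.inter sa sW, iW, image_singleton]

theorem Obs.thick (h : Obs S D Y) (hS : Sph S) (hX : IsClosed X) (hd : Disjoint X Y) :
    ∃ T t, Disc T t ∧ T ⊆ S ∧ D ∪ Y ⊆ T ∧ T ∩ X ⊆ D := by
  induction h generalizing X with
  | disc h1 h2 => exact ⟨_, _, h1, h2, by rw [union_empty], inter_subset_left⟩
  | @add D Y a W w p q h0 ha sa i d hW sW dW iW ih =>
    rw [disjoint_union_right] at hd dW
    obtain ⟨T, t, hT, sT, hDT, iT⟩ := ih (X := X ∪ a ∪ W)
      ((hX.union ha.closed).union hW.closed) (by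
        rw [disjoint_union_left, disjoint_union_left]; exact ⟨⟨hd.1, d⟩, dW.2⟩)
    have hp := i.ge (mem_singleton p)
    obtain ⟨T', t', hT', sT', s1, i1⟩ := thicken hS hT hW ha
      (union_subset (union_subset sT sa) sW)
      (disjoint_left.2 fun z h h' => disjoint_left.1 dW.1 h' (iT ⟨h, Or.inr h'⟩))
      (ann_inter hp.1 (hDT (Or.inl hp.2)) fun z h h' => i.le ⟨h, iT ⟨h', Or.inl (Or.inr h)⟩⟩)
      iW hX hd.2
    refine ⟨T', t', hT', sT', ?_, fun z hz => ?_⟩
    · rintro z ((h | h) | h | h)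
      · exact s1 (Or.inl (Or.inl (hDT (Or.inl h))))
      · exact s1 (Or.inr h)
      · exact s1 (Or.inl (Or.inl (hDT (Or.inr h))))
      · exact s1 (Or.inl (Or.inr h))
    · exact (i1 hz).imp_left fun h => iT ⟨h, Or.inl (Or.inl hz.2)⟩

end Pool.Agent.Lib.MP_b7d179_gt.C
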