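import Pool.Agent.Lib.MP_b7d179_gt.C.OpRe

/-! Carriers: pushes. -/

namespace Pool.Agent.Lib.MP_b7d179_gt.C

open Set

variable {Z : Type} [MetricSpace Z] {ι : Type}

variable [Finite ι] {A : Atoms} {R : ℕ → Set Z} {nd : ℕ → Option (ℕ × ℕ)} {n0 fr pad : ℕ}
  {K : Set Z} {𝒞 : Set (Set ι)} {rel : ι → ι → ι → Prop} {grp : ι → Bool} {x y : PS}
  {b : ℕ → ι → Set Z}

theorem opPop_sub (hR : Rl R) {cs : List Car} (h : CS R 𝒞 rel grp cs b) {S : Set Z}
    (hs : ∀ k ∈ cs, R k.q ⊆ S) (n : ℕ) (i : ι) : b n i ⊆ S := by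
  rcases e : cs[n]? with _ | k
  · rw [h.nil n i (List.getElem?_eq_none_iff.1 e)]; exact empty_subset _
  · exact (h.sub_u hR e i).2.trans (hs k (List.mem_of_getElem? e))

/-- transport of the pieces along an embedding that fixes the landing arcs -/
theorem opPop_image (hR : Rl R) {cs cs' : List Car} (h : CS R 𝒞 rel grp cs b) {S : Set Z}
    {H : Z → Z} (kS : IsCompact S) (eH : Emb H S) (hs : ∀ k ∈ cs, R k.q ⊆ S)
    (len : cs'.length = cs.length)
    (hk : ∀ (n : ℕ) (k' : Car), cs'[n]? = some k' → ∃ k, cs[n]? = some k ∧ H '' R k.q = R k'.q ∧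
      H '' R k.c = R k'.c ∧ (∀ L ∈ k.ls, R L ⊆ S ∧ EqOn H id (R L)) ∧ k'.ls = k.ls ∧
        k'.tag = k.tag) :
    CS R 𝒞 rel grp cs' fun n i => H '' b n i := by
  have sb := opPop_sub hR h hs
  have key : ∀ (n : ℕ) (T : Set ι) (L : Set Z), L ⊆ S → EqOn H id L →
      tot T (fun i => H '' b n i) ∩ L = tot T (b n) ∩ L := fun n T L h1 h2 => by
    have e : tot T (fun i => H '' b n i) = H '' tot T (b n) := by simp only [tot, image_iUnion]
    have s : tot T (b n) ⊆ S := iUnion₂_subset fun i _ => sb n i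
    rw [e]
    conv_lhs => rw [← h2.image_eq_self, ← eH.inter s h1]
    exact (h2.mono inter_subset_right).image_eq_self
  refine ⟨fun k' m => ?_, fun n i l => ?_, fun n k' e i => ?_,
    fun n i j ne => eH.disjoint (sb n i) (sb n j) (h.dj n ne),
    fun n n' k1 k2 e1 e2 L m1 m2 T hT => ?_, fun n k' e i j s r => ?_⟩
  · obtain ⟨n, e⟩ := List.mem_iff_getElem?.1 m
    obtain ⟨k, e', q, c, -⟩ := hk n k' e
    have m' := List.mem_of_getElem? e'
    exact q ▸ c ▸ (h.disc k m').image eH (hs k m')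
  · rw [h.nil n i (len ▸ l), image_empty]
  · obtain ⟨k, e', q, c, f, ls, tg⟩ := hk n k' e
    have m' := List.mem_of_getElem? e'
    rcases h.cc n k e' i with z | ⟨g, u, v, cc, L, hL, L', hL', ne, mu, mv⟩
    · exact Or.inl (by rw [z, image_empty])
    · have := cc.image (h.disc k m').rim_sub eH (hs k m')
      rw [q, c, (f L hL).2 mu, (f L' hL').2 mv] at this
      exact Or.inr ⟨tg ▸ g, u, v, this, L, ls ▸ hL, L', ls ▸ hL', ne, mu, mv⟩
  · obtain ⟨k, e, -, -, f, ls, -⟩ := hk n k1 e1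
    obtain ⟨k', e', -, -, -, ls', -⟩ := hk n' k2 e2
    obtain ⟨f1, f2⟩ := f L (ls ▸ m1)
    rw [key n T _ f1 f2, key n' T _ f1 f2]
    exact h.bal n n' k k' e e' L (ls ▸ m1) (ls' ▸ m2) T hT
  · obtain ⟨k, e', q, c, -⟩ := hk n k' e
    have m' := List.mem_of_getElem? e'
    have s1 := hs k m'
    rw [← q, ← c, ← eH.diff s1 ((h.disc k m').rim_sub.trans s1)]
    exact (h.sep n k e' i j s r).image kS eH (sdiff_subset.trans s1) (sb n s) (sb n i) (sb n j)

omit [Finite ι] in
/-- the data of the last step of a chain -/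
theorem opPop_step (hn : NdB R nd) {t : Stp} {l : List Stp} {bb s : ℕ}
    (h : Chain R nd n0 (t :: l) bb s) : bb = t.b ∧ s = t.s ∧ Chain R nd n0 l t.b1 t.s1 ∧
      Ball (R t.b1) (R t.s1) ∧ Ball (R t.w) (R t.sw) ∧
      Gl (R t.b) (R t.s) (R t.b1) (R t.s1) (R t.w) (R t.sw) (R t.d) (R t.c) := by
  cases h with
  | step c e g => exact ⟨rfl, rfl, c, c.ball hn, hn _ _ _ e, g⟩

theorem op_pop (hA : A.Ok R Ball) (hn : NdB R nd) (hK : IsClosed K) (hf : Disjoint (R fr) K)
    (hx : x.Ok R nd n0 fr pad) (h : CS R 𝒞 rel grp x.cs b)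
    (e : stepOp A fr x .pop = some y) (hw : wf fr pad y.s y.cs = true) (hp : sub pad y.s = true) :
    ∃ b' H, y.Ok R nd n0 fr pad ∧ CS R 𝒞 rel grp y.cs b' ∧ Mvd R K pad x y b b' H := by
  have hR := hA.rl
  obtain ⟨l, bb, s, cs⟩ := x
  simp only [stepOp] at e
  split at e
  · rename_i t l
    split at e
    · rename_i k
      cases e
      rw [Bool.and_eq_true] at k
      obtain ⟨rfl, rfl, c, h1, hW, g⟩ := opPop_step hn hx.ch
      obtain ⟨H, m, i, j, f, -⟩ := push g h1 hW hK (hf.mono_left (hR.sub k.1))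
      refine ⟨b, H, ⟨c, hw, hp⟩, h, m, i, j,
        f.mono (subset_inter (hR.sub hx.pad) ((hR.sub hp).trans h1.rim_sub)), fun i => ?_⟩
      refine (f.mono (iUnion_subset fun n => opPop_sub hR h (fun q hq => ?_) n i)).image_eq_self
      exact subset_inter ((wf_facts hR hx.wf).1 q hq).1
        (((wf_facts hR hw).1 q hq).1.trans h1.rim_sub)
    · cases e
  · cases e

theorem op_popF {n : ℕ} (hA : A.Ok R Ball) (hn : NdB R nd) (hK : IsClosed K) (hf : Disjoint (R fr) K)
    (hx : x.Ok R nd n0 fr pad) (h : CS R 𝒞 rel grp x.cs b)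
    (e : stepOp A fr x (.popF n) = some y) (hw : wf fr pad y.s y.cs = true) (hp : sub pad y.s = true) :
    ∃ b' H, y.Ok R nd n0 fr pad ∧ CS R 𝒞 rel grp y.cs b' ∧ Mvd R K pad x y b b' H := by
  have hR := hA.rl
  obtain ⟨l, bb, s, cs⟩ := x
  simp only [stepOp] at e
  split at e
  · rename_i t l k ek
    split at e
    · rename_i ck
      cases e
      rw [Bool.and_eq_true] at ck
      obtain ⟨rfl, rfl, c, h1, hW, g⟩ := opPop_step hn hx.ch
      obtain ⟨H, m, i, j, f, o⟩ := push g h1 hW hK (hf.mono_left (hR.sub ck.1))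
      obtain ⟨th, t1, -, -, t4, -⟩ := g.th h1 hW
      obtain ⟨w1, w2⟩ := wf_facts hR hx.wf
      have hB := g.ball h1 hW
      have mk := List.mem_of_getElem? ek
      have oq : R t.s ∩ R t.w ⊆ R k.q := hR.and _ _ ▸ hR.sub ck.2
      have oi := (h.disc k mk).sub_int th.d2 oq
      have fx : ∀ X ⊆ R t.s, Disjoint (R k.q \ R k.c) X → EqOn H id X := fun X a d =>
        f.mono fun z hz => (t1.le (a hz)).elim id fun u => t4.ge (Or.inr (by_contra fun v =>
          disjoint_left.1 d (oi ⟨u, v⟩) hz))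
      refine ⟨fun n i => H '' b n i, H, ⟨c, hw, hp⟩, opPop_image hR h hB.rim_compact
        (m.1.mono hB.rim_sub) (fun q hq => (w1 q hq).1) List.length_set fun n' k' e' => ?_, m, i, j,
        f.mono (subset_inter (hR.sub hx.pad) ((hR.sub hp).trans h1.rim_sub)),
        fun i => image_iUnion⟩
      by_cases nn : n = n'
      · subst nn
        rw [List.getElem?_set_self (List.getElem?_eq_some_iff.1 ek).1] at e'
        cases e'
        obtain ⟨a1, -, -, a2, -⟩ := w1 k mk
        have cs' := (h.disc k mk).rim_sub.trans a1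
        have fc := fx _ cs' disjoint_sdiff_left
        refine ⟨k, ek, ?_, fc.image_eq_self,
          fun L hL => ⟨(a2 L hL).trans cs', fc.mono (a2 L hL)⟩, rfl, rfl⟩
        rw [hR.or, hR.df, hR.and, ← o]
        conv_lhs => rw [← sdiff_union_of_subset oq, image_union]
        rw [(f.mono fun z hz => (t1.le (a1 hz.1)).resolve_right hz.2).image_eq_self]
      · rw [List.getElem?_set_ne nn] at e'
        have mk' := List.mem_of_getElem? e'
        obtain ⟨a1, -, -, a2, -⟩ := w1 k' mk'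
        have fq := fx _ a1 (w2 n n' k k' ek e' nn).1
        have cq := (h.disc k' mk').rim_sub
        exact ⟨k', e', fq.image_eq_self, (fq.mono cq).image_eq_self, fun L hL =>
          ⟨((a2 L hL).trans cq).trans a1, fq.mono ((a2 L hL).trans cq)⟩, rfl, rfl⟩
    · cases e
  · cases e

end Pool.Agent.Lib.MP_b7d179_gt.C
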