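import Pool.Agent.Lib.MP_b7d179_gt.C.ObsC

/-! Prolongation of crosscuts and points by access arcs. -/

namespace Pool.Agent.Lib.MP_b7d179_gt.C

open Set

variable {Z : Type} [MetricSpace Z] {ι : Type}

variable {S D Y P O c I : Set Z} {rel : ι → ι → ι → Prop} {grp : ι → Bool} {a a' : ι → Set Z}
  {α β : Z → Set Z} {f f' : Z → Z} {x y : Z}

theorem post_self {s b : Set Z} : Sep O s s b := fun _ _ _ h _ hx _ => ⟨_, h.left, hx⟩

omit [MetricSpace Z] in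
theorem post_DY {s : Set Z} (h : s ∩ (D ∪ Y) = {x, y}) (hx : x ∉ Y) (hy : y ∉ Y) :
    s ∩ D = {x, y} ∧ Disjoint s Y := by
  have k : Disjoint s Y := disjoint_left.2 fun z hz hz' => by
    rcases h.subset ⟨hz, .inr hz'⟩ with rfl | rfl
    · exact hx hz'
    · exact hy hz'
  refine ⟨?_, k⟩
  rw [← h, inter_union_distrib_left, k.inter_eq, union_empty]

omit [MetricSpace Z] in
theorem post_tot {i : ι} {e : Z} (h : e ∈ a i) : e ∈ tot univ a := mem_biUnion (mem_univ i) h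

theorem post_core (hS : Sph S) (ho : Obs S D Y) (hP : Disc P c) (hs : P ⊆ S)
    (hi : P ∩ (D ∪ Y) ⊆ c) (h : ∀ i, a i = ∅ ∨ ∃ p q x y, Arc (a i) p q ∧ a i ⊆ S ∧
      a i ∩ (D ∪ Y) = {p, q} ∧ p ∉ Y ∧ q ∉ Y ∧ Cc P c (a i ∩ P) x y)
    (dj : Pairwise (Function.onFun Disjoint a)) {i j s : ι}
    (k : Sep (P \ c) (a s ∩ P) (a i ∩ P) (a j ∩ P)) : Sep (S \ (D ∪ Y)) (a s) (a i) (a j) := by
  by_cases e : i = s
  · rw [e]
    exact post_self
  by_cases e' : j = s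
  · rw [e']
    exact post_self.symm
  rcases h i with h1 | ⟨p1, q1, x1, y1, a1, s1, i1, m1, n1, c1⟩
  · rw [h1]
    exact sep_empty_left
  rcases h j with h2 | ⟨p2, q2, x2, y2, a2, s2, i2, m2, n2, c2⟩
  · rw [h2]
    exact sep_empty_right
  rcases h s with h0 | ⟨p0, q0, x0, y0, a0, s0, i0, m0, n0, c0⟩
  · obtain ⟨z, hz, -⟩ := k.nonempty hP c1 c2
    exact absurd hz.1 (by rw [h0]; exact notMem_empty z)
  have ne : i ≠ j := by
    rintro rfl
    obtain ⟨z, hz, hz'⟩ := c1.arc.exists_notMem (toFinite {x1, y1})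
    obtain ⟨J, u, v, hJ, hs', -⟩ := c1.arc.small (U := univ) ⟨hz, hz'⟩ Filter.univ_mem
    obtain ⟨w, hw, hw'⟩ := k J u v hJ (fun t ht => ⟨(hs' ht).1.1.2, fun tc =>
      (hs' ht).1.2 (c1.inter.subset ⟨(hs' ht).1.1, tc⟩)⟩) (hs' hJ.left).1.1 (hs' hJ.right).1.1
    exact disjoint_left.1 (dj e) (hs' hw).1.1.1 hw'.1
  obtain ⟨z1, t1, t1'⟩ := sepB_int c1
  obtain ⟨z2, t2, t2'⟩ := sepB_int c2
  exact sep_ob hS ho hP hs hi a0 s0 (post_DY i0 m0 n0).1 (post_DY i0 m0 n0).2 c0 a1 s1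
    (post_DY i1 m1 n1).1.subset (post_DY i1 m1 n1).2 a2 s2 (post_DY i2 m2 n2).1.subset
    (post_DY i2 m2 n2).2 ⟨z1, t1.1, t1'⟩ ⟨z2, t2.1, t2'⟩ (dj e) (dj e') (dj ne) k

theorem post_disc {Ls : Bool → Set (Set Z)} (hS : Sph S) (ho : Obs S D Y) (hP : Disc P c)
    (hs : P ⊆ S) (hi : P ∩ (D ∪ Y) ⊆ c) (h : FamD P c Ls rel grp a)
    (hβ : ∀ e ∈ tot univ a ∩ c, Arc (β e) e (f e) ∧ β e ⊆ S ∧ β e ∩ P = {e} ∧
      β e ∩ (D ∪ Y) = {f e} ∧ f e ∉ Y) (hd : (tot univ a ∩ c).PairwiseDisjoint β)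
    (ha : ∀ i, a' i = a i ∪ ⋃ e ∈ a i ∩ c, β e) :
    (∀ i p q, Cc P c (a i) p q → Arc (a' i) (f p) (f q) ∧ a' i ⊆ S ∧ a' i ∩ (D ∪ Y) = {f p, f q}) ∧
      Pairwise (Function.onFun Disjoint a') ∧
      ∀ i j s, rel i j s → grp i = grp j → Sep (S \ (D ∪ Y)) (a' s) (a' i) (a' j) := by
  have sub : ∀ i, a i ⊆ P := fun i => by
    rcases h.arc i with e | ⟨p, q, k, -⟩
    · rw [e]
      exact empty_subset _
    · exact k.sub
  have mem : ∀ i z, z ∈ a' i ↔ z ∈ a i ∨ ∃ e ∈ a i ∩ c, z ∈ β e := fun i z => by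
    simp only [ha, mem_union, mem_iUnion₂, exists_prop]
  have tr : ∀ i, a' i ∩ P = a i := fun i => by
    refine Subset.antisymm (fun z hz => ?_) fun z hz => ⟨(mem i z).2 (.inl hz), sub i hz⟩
    rcases (mem i z).1 hz.1 with k | ⟨e, he, k⟩
    · exact k
    · rw [show z = e from (hβ e ⟨post_tot he.1, he.2⟩).2.2.1.subset ⟨k, hz.2⟩]
      exact he.1
  have one : ∀ i p q, Cc P c (a i) p q →
      Arc (a' i) (f p) (f q) ∧ a' i ⊆ S ∧ a' i ∩ (D ∪ Y) = {f p, f q} := by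
    intro i p q k
    have mp : p ∈ tot univ a ∩ c := ⟨post_tot k.arc.left, k.left⟩
    have mq : q ∈ tot univ a ∩ c := ⟨post_tot k.arc.right, k.right⟩
    obtain ⟨p1, p2, p3, p4, -⟩ := hβ p mp
    obtain ⟨q1, q2, q3, q4, -⟩ := hβ q mq
    have e : a' i = β p ∪ a i ∪ β q := by
      rw [ha, k.inter, biUnion_pair, ← union_assoc, union_comm (a i)]
    rw [e]
    refine ⟨(p1.symm.cat k.arc ?_).cat q1 ?_, union_subset (union_subset p2 (k.sub.trans hs)) q2,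
      Subset.antisymm ?_ ?_⟩
    · exact Subset.antisymm (fun z hz => p3.subset ⟨hz.1, k.sub hz.2⟩)
        (singleton_subset_iff.2 ⟨p1.left, k.arc.left⟩)
    · refine Subset.antisymm ?_ (singleton_subset_iff.2 ⟨.inr k.arc.right, q1.left⟩)
      rintro z ⟨hz | hz, hz'⟩
      · exact absurd hz' (disjoint_left.1 (hd mp mq k.arc.ne) hz)
      · exact q3.subset ⟨hz', k.sub hz⟩
    · rintro z ⟨(hz | hz) | hz, hz'⟩
      · exact .inl (p4.subset ⟨hz, hz'⟩)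
      · rcases k.inter.subset ⟨hz, hi ⟨k.sub hz, hz'⟩⟩ with rfl | rfl
        · exact .inl (p4.subset ⟨p1.left, hz'⟩)
        · exact .inr (q4.subset ⟨q1.left, hz'⟩)
      · exact .inr (q4.subset ⟨hz, hz'⟩)
    · rintro z (rfl | rfl)
      · exact ⟨.inl (.inl p1.right), (p4.symm.subset rfl).2⟩
      · exact ⟨.inr q1.right, (q4.symm.subset rfl).2⟩
  have dj : Pairwise (Function.onFun Disjoint a') := fun i j ne => disjoint_left.2 fun z hz hz' => by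
    have d := disjoint_left.1 (h.dj ne)
    rcases (mem i z).1 hz with k | ⟨e, he, k⟩
    · exact d k ((tr j).subset ⟨hz', sub i k⟩)
    rcases (mem j z).1 hz' with k' | ⟨e', he', k'⟩
    · exact d ((tr i).subset ⟨hz, sub j k'⟩) k'
    · exact disjoint_left.1 (hd ⟨post_tot he.1, he.2⟩ ⟨post_tot he'.1, he'.2⟩
        fun r => d he.1 (r ▸ he'.1)) k k'
  refine ⟨one, dj, fun i j s r g => post_core hS ho hP hs hi (fun i => ?_) dj ?_⟩
  · rcases h.arc i with e | ⟨p, q, k, -⟩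
    · exact .inl (by simp [ha, e])
    · obtain ⟨k1, k2, k3⟩ := one i p q k
      exact .inr ⟨_, _, p, q, k1, k2, k3, (hβ p ⟨post_tot k.arc.left, k.left⟩).2.2.2.2,
        (hβ q ⟨post_tot k.arc.right, k.right⟩).2.2.2.2, (tr i).symm ▸ k⟩
  · rw [tr, tr, tr]
    exact h.sep i j s r g

theorem post_pt {L : Bool → Set Z} (hS : Sph S) (ho : Obs S D Y) (hO : Disc O c) (hs : O ⊆ S)
    (hi : O ∩ (D ∪ Y) ⊆ c) (hI : Arc I x y) (hIc : I ⊆ c) (h : FamP L rel grp a)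
    (hr : ∀ i j s, rel i j s → i ≠ j)
    (hL : ∀ g, L g ⊆ I ∧ IsPreconnected (L g) ∧ Disjoint (L g) (D ∪ Y))
    (hα : ∀ e ∈ tot univ a, Cc O c (α e) e (f e) ∧ f e ∉ I ∧ f e ∈ D ∧ f e ∉ Y)
    (hβ : ∀ e ∈ tot univ a, Arc (β e) e (f' e) ∧ β e ⊆ S ∧ β e ∩ O = {e} ∧
      β e ∩ (D ∪ Y) = {f' e} ∧ f' e ∉ Y) (dα : (tot univ a).PairwiseDisjoint α)
    (dβ : (tot univ a).PairwiseDisjoint β) (ha : ∀ i, a' i = ⋃ e ∈ a i, α e ∪ β e) :
    (∀ i e, a i = {e} → Arc (a' i) (f e) (f' e) ∧ a' i ⊆ S ∧ a' i ∩ (D ∪ Y) = {f e, f' e}) ∧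
      Pairwise (Function.onFun Disjoint a') ∧
      ∀ i j s, rel i j s → grp i = grp j → Sep (S \ (D ∪ Y)) (a' s) (a' i) (a' j) := by
  have mt : ∀ {i e}, a i = {e} → e ∈ tot univ a := fun k => post_tot (k.symm.subset rfl)
  have eq : ∀ {i e}, a i = {e} → a' i = α e ∪ β e := fun k => by rw [ha, k, biUnion_singleton]
  have nil : ∀ {i}, a i = ∅ → a' i = ∅ := fun k => by simp [ha, k]
  have tr : ∀ {i e}, a i = {e} → a' i ∩ O = α e := fun {i e} k => by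
    have c1 := (hα e (mt k)).1
    rw [eq k, union_inter_distrib_right, (hβ e (mt k)).2.2.1, inter_eq_left.2 c1.sub,
      union_eq_left.2 (singleton_subset_iff.2 c1.arc.left)]
  have one : ∀ i e, a i = {e} →
      Arc (a' i) (f e) (f' e) ∧ a' i ⊆ S ∧ a' i ∩ (D ∪ Y) = {f e, f' e} := by
    intro i e k
    obtain ⟨p1, -, p3, -⟩ := hα e (mt k)
    obtain ⟨q1, q2, q3, q4, -⟩ := hβ e (mt k)
    rw [eq k]
    refine ⟨p1.arc.symm.cat q1 ?_, union_subset (p1.sub.trans hs) q2, Subset.antisymm ?_ ?_⟩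
    · exact Subset.antisymm (fun z hz => q3.subset ⟨hz.2, p1.sub hz.1⟩)
        (singleton_subset_iff.2 ⟨p1.arc.left, q1.left⟩)
    · rintro z ⟨hz | hz, hz'⟩
      · rcases p1.inter.subset ⟨hz, hi ⟨p1.sub hz, hz'⟩⟩ with rfl | rfl
        · exact .inr (q4.subset ⟨q1.left, hz'⟩)
        · exact .inl rfl
      · exact .inr (q4.subset ⟨hz, hz'⟩)
    · rintro z (rfl | rfl)
      · exact ⟨.inl p1.arc.right, .inl p3⟩
      · exact ⟨.inr q1.right, (q4.symm.subset rfl).2⟩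
  have ne : ∀ {i j e e'}, i ≠ j → a i = {e} → a j = {e'} → e ≠ e' := fun n k k' r =>
    disjoint_left.1 (h.dj n) (k.symm.subset rfl) (k'.symm.subset r)
  have dj : Pairwise (Function.onFun Disjoint a') := fun i j n => by
    rcases h.pt i with k | ⟨e, -, k⟩
    · exact disjoint_left.2 fun z hz _ => (nil k).subset hz
    rcases h.pt j with k' | ⟨e', -, k'⟩
    · exact disjoint_left.2 fun z _ hz => (nil k').subset hz
    have d := disjoint_left.1 (dα (mt k) (mt k') (ne n k k'))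
    refine disjoint_left.2 fun z hz hz' => ?_
    rcases (eq k).subset hz with m | m
    · exact d m ((tr k').subset ⟨hz', (hα e (mt k)).1.sub m⟩)
    rcases (eq k').subset hz' with m' | m'
    · exact d ((tr k).subset ⟨hz, (hα e' (mt k')).1.sub m'⟩) m'
    · exact disjoint_left.1 (dβ (mt k) (mt k') (ne n k k')) m m'
  refine ⟨one, dj, fun i j s r g => post_core hS ho hO hs hi (fun i => ?_) dj ?_⟩
  · rcases h.pt i with k | ⟨e, -, k⟩
    · exact .inl (nil k)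
    · obtain ⟨k1, k2, k3⟩ := one i e k
      exact .inr ⟨_, _, e, f e, k1, k2, k3, (hα e (mt k)).2.2.2, (hβ e (mt k)).2.2.2.2,
        (tr k).symm ▸ (hα e (mt k)).1⟩
  by_cases e1 : i = s
  · rw [e1]
    exact post_self
  by_cases e2 : j = s
  · rw [e2]
    exact post_self.symm
  rcases h.pt i with k | ⟨e, m, k⟩
  · rw [nil k, empty_inter]
    exact sep_empty_left
  rcases h.pt j with k' | ⟨e', m', k'⟩
  · rw [nil k', empty_inter]
    exact sep_empty_right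
  rw [← g] at m'
  obtain ⟨l1, l2, -⟩ := hL (grp i)
  have sp : Sep I (a s) {e} {e'} := by
    rintro u _ _ hu su rfl rfl
    exact h.sep i j s r g u _ _ hu (hI.sub_of_conn hu su l2 l1 m m') (k.symm.subset rfl)
      (k'.symm.subset rfl)
  have n := ne (hr i j s r) k k'
  obtain ⟨u, su, hu⟩ := hI.sub (l1 m) (l1 m') n
  obtain ⟨z, zu, zs⟩ := sp u _ _ hu su rfl rfl
  rcases h.pt s with k0 | ⟨e0, -, k0⟩
  · exact absurd zs (by rw [k0]; exact notMem_empty z)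
  rw [k0] at sp zs
  rw [tr k, tr k', tr k0]
  exact (sep_of_order hO hI hIc (hα e0 (mt k0)).1 (hα e (mt k)).1 (hα e' (mt k')).1
    (mem_singleton_iff.1 zs ▸ su zu) (l1 m) (l1 m') (hα e0 (mt k0)).2.1
    (dα (mt k) (mt k0) (ne e1 k k0)) (dα (mt k') (mt k0) (ne e2 k' k0)) n sp).mono sdiff_subset
    Subset.rfl Subset.rfl inter_subset_left

end Pool.Agent.Lib.MP_b7d179_gt.C
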