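import Pool.Agent.Lib.MP_b7d179_gt.C.Defs
import Pool.Agent.Lib.MP_b7d179_gt.U.Ball3

/-! Refinement and amalgamation of tables. -/

namespace Pool.Agent.Lib.MP_b7d179_gt.C

open Set

variable {Z : Type} [MetricSpace Z] {ι : Type}

theorem glues : Glues Z Ball :=
  ⟨Arc.cat, Disc.glue', fun h h' d i s s' => Gl.ball ⟨d, i, s, s', rfl, rfl⟩ h h'⟩

theorem Rl.image {R : ℕ → Set Z} (h : Rl R) (γ : Z ≃ₜ Z) : Rl fun m => γ '' R m :=
  ⟨fun a b => by rw [h.and, image_inter γ.injective], fun a b => by rw [h.or, image_union],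
    fun a b => by rw [h.df, image_sdiff γ.injective]⟩

theorem Atoms.Ok.image {A : Atoms} {R : ℕ → Set Z} (h : A.Ok R Ball) (γ : Z ≃ₜ Z) :
    A.Ok (fun m => γ '' R m) Ball := by
  have e : Emb γ univ := ⟨γ.continuous.continuousOn, γ.injective.injOn⟩
  refine ⟨h.rl.image γ, fun t m u v k => ?_, fun t m r k => (h.h2 t m r k).image e (subset_univ _),
    fun t m r k => (h.h3 t m r k).image e (subset_univ _)⟩
  obtain ⟨x, y, a, b, c⟩ := h.h1 t m u v k
  exact ⟨γ x, γ y, a.image e (subset_univ _), by rw [b, image_singleton],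
    by rw [c, image_singleton]⟩

theorem ref_small {n m : ℕ} : small n m = true ↔ ∀ i, m.testBit i = true → i < n := by
  refine ⟨fun h i k => ?_, fun h => ?_⟩
  · by_contra! c
    have e : m >>> n = 0 := Nat.eq_of_beq_eq_true h
    have := Nat.testBit_shiftRight (i := n) (j := i - n) m
    rw [e, Nat.zero_testBit, Nat.add_sub_cancel' c, k] at this
    cases this
  · have e : m >>> n = 0 := Nat.eq_of_testBit_eq fun j => by
      rw [Nat.testBit_shiftRight, Nat.zero_testBit]
      by_contra c
      have := h _ (Bool.eq_true_of_not_eq_false c)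
      omega
    exact (congrArg (Nat.beq · 0) e).trans rfl

theorem ref_one (t i : ℕ) : (Nat.shiftLeft 1 t).testBit i = decide (t = i) := by
  rw [← Nat.testBit_two_pow, ← Nat.one_shiftLeft]; rfl

theorem ref_three (n i : ℕ) : (Nat.shiftLeft 3 n).testBit i = decide (i = n ∨ i = n + 1) := by
  have := Nat.testBit_shiftLeft (i := n) (j := i) (2 ^ 2 - 1)
  rw [Nat.testBit_two_pow_sub_one] at this
  refine this.trans ?_
  rw [← Bool.decide_and, decide_eq_decide]
  omega

theorem ref_dis {m t : ℕ} : dis m (Nat.shiftLeft 1 t) = true ↔ m.testBit t = false := by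
  refine ⟨fun h => ?_, fun h => ?_⟩
  · have := bit_and m (Nat.shiftLeft 1 t) t
    rw [Nat.eq_of_beq_eq_true h, ref_one] at this
    simpa using this
  · have e : Nat.land m (Nat.shiftLeft 1 t) = 0 := Nat.eq_of_testBit_eq fun j => by
      rw [bit_and, ref_one, Nat.zero_testBit]
      by_cases c : t = j
      · simp [← c, h]
      · simp [c]
    exact (congrArg (Nat.beq · 0) e).trans rfl

theorem ref_lift {cb n m : ℕ} (h : small n m = true) : small (n + 2) (lift1 cb n m) = true := by
  rw [ref_small] at h ⊢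
  intro i k
  unfold lift1 at k
  split_ifs at k
  · exact (h i k).trans (by omega)
  · rw [bit_or, ref_three, Bool.or_eq_true, decide_eq_true_eq] at k
    rcases k with k | k
    · exact (h i k).trans (by omega)
    · omega

theorem ref_or {n a b : ℕ} :
    small n (Nat.lor a b) = true ↔ small n a = true ∧ small n b = true := by
  simp only [ref_small, bit_or, Bool.or_eq_true, or_imp, forall_and]

omit [MetricSpace Z] in
/-- one open cell is cut into three -/
theorem ref_cut {R : ℕ → Set Z} (h : Rl R) {t n : ℕ} (tn : t < n) {P Q S : Set Z}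
    (d1 : Disjoint P Q) (d2 : Disjoint P S) (d3 : Disjoint Q S)
    (u : P ∪ Q ∪ S = R (Nat.shiftLeft 1 t)) : ∃ R' : ℕ → Set Z, Rl R' ∧
      (∀ m, small n m = true → R' (lift1 (Nat.shiftLeft 1 t) n m) = R m) ∧
      R' (Nat.shiftLeft 1 t) = P ∧ R' (Nat.shiftLeft 1 n) = Q ∧
      R' (Nat.shiftLeft 1 (n + 1)) = S := by
  have lo (m i : ℕ) : (Nat.land m (2 ^ n - 1)).testBit i = (m.testBit i && decide (i < n)) := by
    rw [bit_and, Nat.testBit_two_pow_sub_one]
  have f (z : Z) : (z ∈ P → z ∉ Q) ∧ (z ∈ P → z ∉ S) ∧ (z ∈ Q → z ∉ S) :=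
    ⟨fun a => disjoint_left.1 d1 a, fun a => disjoint_left.1 d2 a, fun a => disjoint_left.1 d3 a⟩
  have n1 : t ≠ n + 1 := by omega
  have n2 : n ≠ n + 1 := by omega
  have z0 : R 0 = ∅ := (h.df 0 0).trans Set.sdiff_self
  let R' : ℕ → Set Z := fun m => {z | (z ∈ R (Nat.land m (2 ^ n - 1)) ∧ z ∉ P ∧ z ∉ Q ∧ z ∉ S) ∨
    (m.testBit t = true ∧ z ∈ P) ∨ (m.testBit n = true ∧ z ∈ Q) ∨
    (m.testBit (n + 1) = true ∧ z ∈ S)}
  refine ⟨R', ⟨fun a b => ?_, fun a b => ?_, fun a b => ?_⟩, fun m k => ?_, ?_, ?_, ?_⟩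
  · have : Nat.land (Nat.land a b) (2 ^ n - 1) =
        Nat.land (Nat.land a (2 ^ n - 1)) (Nat.land b (2 ^ n - 1)) :=
      Nat.eq_of_testBit_eq fun i => by
        rw [lo, bit_and, bit_and, lo, lo]; cases a.testBit i <;> cases b.testBit i <;> simp
    ext z
    have := f z
    simp only [R', mem_ofPred_eq, mem_inter_iff, bit_and, Bool.and_eq_true, ‹_ = Nat.land _ _›,
      h.and (Nat.land a _)]
    grind
  · have : Nat.land (Nat.lor a b) (2 ^ n - 1) =
        Nat.lor (Nat.land a (2 ^ n - 1)) (Nat.land b (2 ^ n - 1)) :=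
      Nat.eq_of_testBit_eq fun i => by
        rw [lo, bit_or, bit_or, lo, lo]; cases a.testBit i <;> cases b.testBit i <;> simp
    ext z
    simp only [R', mem_ofPred_eq, mem_union, bit_or, Bool.or_eq_true, this, h.or]
    grind
  · have : Nat.land (df a b) (2 ^ n - 1) =
        df (Nat.land a (2 ^ n - 1)) (Nat.land b (2 ^ n - 1)) :=
      Nat.eq_of_testBit_eq fun i => by
        rw [lo, bit_df, bit_df, lo, lo]; cases a.testBit i <;> cases b.testBit i <;> simp
    ext z
    have := f z
    simp only [R', mem_ofPred_eq, mem_sdiff, bit_df, Bool.and_eq_true, ‹_ = df _ _›, h.df,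
      Bool.not_eq_true']
    grind
  · have k' := ref_small.1 k
    have b1 : m.testBit n = false := by
      by_contra c; have := k' _ (Bool.eq_true_of_not_eq_false c); omega
    have b2 : m.testBit (n + 1) = false := by
      by_contra c; have := k' _ (Bool.eq_true_of_not_eq_false c); omega
    have e : Nat.land (lift1 (Nat.shiftLeft 1 t) n m) (2 ^ n - 1) = m :=
      Nat.eq_of_testBit_eq fun i => by
        have := k' i
        unfold lift1
        split_ifs
        · rw [lo]; cases c : m.testBit i <;> simp_all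
        · rw [lo, bit_or, ref_three]
          cases c : m.testBit i
          · simp; omega
          · simp_all
    ext z
    have g : z ∈ P ∪ Q ∪ S ↔ z ∈ R (Nat.shiftLeft 1 t) := by rw [u]
    simp only [R', mem_ofPred_eq, e, mem_union] at g ⊢
    unfold lift1
    split_ifs with c
    · have d : z ∈ R m → z ∉ R (Nat.shiftLeft 1 t) := fun a b => by
        have : z ∈ R (Nat.land m (Nat.shiftLeft 1 t)) := h.and _ _ ▸ ⟨a, b⟩
        rwa [Nat.eq_of_beq_eq_true c, z0] at this
      rw [ref_dis.1 c, b1, b2]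
      grind
    · rw [ref_dis, Bool.not_eq_false] at c
      have s : Nat.land (Nat.shiftLeft 1 t) m = Nat.shiftLeft 1 t :=
        Nat.eq_of_testBit_eq fun i => by
          rw [bit_and, ref_one]
          by_cases a : t = i
          · simp [← a, c]
          · simp [a]
      have d : z ∈ R (Nat.shiftLeft 1 t) → z ∈ R m := fun a => by
        rw [← s, h.and] at a; exact a.2
      simp only [bit_or, ref_three, c, Bool.true_or, true_or, or_true, decide_true, Bool.or_true,
        true_and]
      grind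
  · have e : Nat.land (Nat.shiftLeft 1 t) (2 ^ n - 1) = Nat.shiftLeft 1 t :=
      Nat.eq_of_testBit_eq fun i => by
        rw [lo, ref_one, ← Bool.decide_and, decide_eq_decide]; omega
    ext z
    simp only [R', mem_ofPred_eq, e, ← u, mem_union, ref_one, decide_eq_true_eq, tn.ne, n1,
      false_and, or_false, true_and]
    tauto
  · have e : Nat.land (Nat.shiftLeft 1 n) (2 ^ n - 1) = 0 :=
      Nat.eq_of_testBit_eq fun i => by
        rw [lo, ref_one, ← Bool.decide_and, Nat.zero_testBit, decide_eq_false_iff_not]; omega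
    ext z
    simp only [R', mem_ofPred_eq, e, z0, mem_empty_iff_false, ref_one, decide_eq_true_eq, tn.ne',
      n2, false_and, or_false, false_or, true_and]
  · have e : Nat.land (Nat.shiftLeft 1 (n + 1)) (2 ^ n - 1) = 0 :=
      Nat.eq_of_testBit_eq fun i => by
        rw [lo, ref_one, ← Bool.decide_and, Nat.zero_testBit, decide_eq_false_iff_not]; omega
    ext z
    simp only [R', mem_ofPred_eq, e, z0, mem_empty_iff_false, ref_one, decide_eq_true_eq, n1.symm,
      n2.symm, false_and, false_or, true_and]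

/-- the rim of the disc number `t` uses only the first `n` bits -/
def rimOk (A : Atoms) (n t : ℕ) : Bool :=
  match A.a2 t with
  | some (_, r) => small n r
  | none => true

theorem ref_diag {A A' : Atoms} {R : ℕ → Set Z} {n t : ℕ} {u v : TA} (h : A.Ok R Ball)
    (hr : rimOk A n t = true) (e : diag A n t u v = some A') :
    (∀ s, rimOk A' (n + 2) s = true) ∧ ∃ R' : ℕ → Set Z, A'.Ok R' Ball ∧
      ∀ m, small n m = true → R' (lift1 (Nat.shiftLeft 1 t) n m) = R m := by
  unfold diag at e
  split at e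
  swap
  · cases e
  rename_i m r mu p q mv p' q' e1 e2 e3
  simp only at e
  split_ifs at e with k
  simp only [Bool.and_eq_true] at k
  obtain ⟨⟨⟨⟨⟨k1, k2⟩, k3⟩, k4⟩, k5⟩, k6⟩ := k
  obtain rfl := Nat.eq_of_beq_eq_true k2
  obtain rfl := Nat.eq_of_beq_eq_true k3
  obtain rfl := Nat.eq_of_beq_eq_true k4
  replace k1 := Nat.eq_of_beq_eq_true k1
  replace k5 := Nat.eq_of_beq_eq_true k5
  simp only [rimOk, e1] at hr
  obtain ⟨su, sv⟩ := ref_or.1 hr
  have bt := bit_df m (Nat.lor mu mv) t
  rw [k1, ref_one, decide_eq_true rfl, eq_comm, Bool.and_eq_true, Bool.not_eq_true', bit_or,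
    Bool.or_eq_false_iff] at bt
  have tn : t < n := ref_small.1 k6 t bt.1
  have pq (i) : (p.testBit i || q.testBit i) = (mu.testBit i && mv.testBit i) := by
    rw [← bit_or, ← k5, bit_and]
  have sp : small n p = true ∧ small n q = true := by
    rw [← ref_or, ref_small]
    intro i a
    rw [bit_or, pq, Bool.and_eq_true] at a
    exact ref_small.1 su i a.1
  have bp : p.testBit t = false ∧ q.testBit t = false := by
    rw [← Bool.or_eq_false_iff, pq, bt.2.1, Bool.false_and]
  have hD := h.h2 _ _ _ e1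
  obtain ⟨x, y, a1, hp, hq⟩ := h.evA glues e2
  obtain ⟨x', y', a2, hp', hq'⟩ := h.evA glues e3
  obtain rfl : x = x' := singleton_injective (hp.symm.trans hp')
  obtain rfl : y = y' := singleton_injective (hq.symm.trans hq')
  have tw : Two (R (Nat.lor mu mv)) (R mu) (R mv) x y :=
    ⟨a1, a2, by rw [← h.rl.and, k5, h.rl.or, hp, hq]; rfl, (h.rl.or _ _).symm⟩
  obtain ⟨g, hg⟩ := hD.exists_cc (tw.sub1 a1.left) (tw.sub1 a1.right) a1.ne
  obtain ⟨D, E, c⟩ := hD.cut tw hg
  obtain ⟨R', rl, lf, r1, r2, r3⟩ := ref_cut h.rl tn (P := D \ (R mu ∪ g)) (Q := g \ {x, y})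
    (S := E \ (R mv ∪ g)) (disjoint_left.2 fun z a b => a.2 (.inr b.1))
    (disjoint_left.2 fun z a b => a.2 (.inr (c.inter.le ⟨a.1, b.1⟩)))
    (disjoint_left.2 fun z a b => b.2 (.inr a.1)) (by
      rw [← k1, h.rl.df]
      refine Subset.antisymm (union_subset (union_subset
        (fun z a => ⟨c.sub1 a.1, fun b => a.2 (.inl (c.inter_rim.le ⟨a.1, b⟩))⟩)
        fun z a => ⟨hg.sub a.1, fun b => a.2 (hg.inter.le ⟨a.1, b⟩)⟩)
        fun z a => ⟨c.sub2 a.1, fun b => a.2 (.inl (c.symm.inter_rim.le ⟨a.1, b⟩))⟩) fun z a => ?_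
      by_cases b : z ∈ g
      · exact .inl (.inr ⟨b, fun d => a.2 (hg.inter.ge d).2⟩)
      · exact (c.union.ge a.1).imp (fun d => .inl ⟨d, fun f => f.elim (fun f => a.2 (tw.sub1 f)) b⟩)
          fun d => ⟨d, fun f => f.elim (fun f => a.2 (tw.sub2 f)) b⟩)
  have kp (m) (a : small n m = true) (b : m.testBit t = false) : R' m = R m := by
    have := lf m a
    rwa [lift1, if_pos (ref_dis.2 b)] at this
  have o3 (a b c) : R' (orL [a, b, c]) = R' a ∪ (R' b ∪ R' c) := by
    simp only [orL, List.foldr, rl.or, rl.zero, union_empty]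
  have rp := (kp p sp.1 bp.1).trans hp
  have rq := (kp q sp.2 bp.2).trans hq
  have rg : R' (orL [Nat.shiftLeft 1 n, p, q]) = g := by
    rw [o3, r2, rp, rq]; exact sdiff_union_of_subset hg.arc.ends
  have sg : small (n + 2) (orL [Nat.shiftLeft 1 n, p, q]) = true := ref_small.2 fun i a => by
    simp only [orL, List.foldr, bit_or, ref_one, Nat.zero_testBit, Bool.or_false, Bool.or_eq_true,
      decide_eq_true_eq] at a
    rcases a with a | a | a
    · omega
    · exact (ref_small.1 sp.1 i a).trans (by omega)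
    · exact (ref_small.1 sp.2 i a).trans (by omega)
  have up {a} (s : small n a = true) : small (n + 2) a = true :=
    ref_small.2 fun i b => (ref_small.1 s i b).trans (by omega)
  obtain rfl := Option.some.inj e
  refine ⟨fun s => ?_, R', ⟨rl, fun s a b d k => ?_, fun s a b k => ?_, fun s a b k => ?_⟩, lf⟩
  · unfold rimOk
    split
    swap
    · rfl
    rename_i a b k
    simp only at k
    split_ifs at k
    · cases k; exact ref_or.2 ⟨up su, sg⟩
    · cases k; exact ref_or.2 ⟨up sv, sg⟩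
    · cases k; exact up hr
    · obtain ⟨w, -, k⟩ := Option.bind_eq_some_iff.1 k
      split_ifs at k with l
      cases k
      exact ref_lift (ref_or.1 l).2
  · simp only at k
    split_ifs at k
    · cases k; exact ⟨x, y, rg.symm ▸ hg.arc, rp, rq⟩
    · cases k; exact ⟨y, x, rg.symm ▸ hg.arc.symm, rq, rp⟩
    · obtain ⟨w, k1, k⟩ := Option.bind_eq_some_iff.1 k
      split_ifs at k with l
      cases k
      simp only [Bool.and_eq_true, orL, List.foldr, ref_or, ref_dis, bit_or,
        Bool.or_eq_false_iff] at l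
      rw [kp a l.1.1 l.2.1, kp b l.1.2.1 l.2.2.1, kp d l.1.2.2.1 l.2.2.2.1]
      exact h.h1 _ _ _ _ k1
  · simp only at k
    split_ifs at k
    · cases k
      rw [o3, rl.or, r1, rg, kp mu su bt.2.1, sdiff_union_of_subset c.d1.rim_sub]
      exact c.d1
    · cases k
      rw [o3, rl.or, r3, rg, kp mv sv bt.2.2, sdiff_union_of_subset c.d2.rim_sub]
      exact c.d2
    · cases k
      rw [lf m k6, kp _ hr (by rw [bit_or, bt.2.1, bt.2.2]; rfl)]
      exact hD
    · obtain ⟨w, k1, k⟩ := Option.bind_eq_some_iff.1 k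
      split_ifs at k with l
      cases k
      rw [lf _ (ref_or.1 l).1, lf _ (ref_or.1 l).2]
      exact h.h2 _ _ _ k1
  · obtain ⟨w, k1, k⟩ := Option.bind_eq_some_iff.1 k
    split_ifs at k with l
    cases k
    rw [lf _ (ref_or.1 l).1, lf _ (ref_or.1 l).2]
    exact h.h3 _ _ _ k1

theorem diag_ok' {A A' : Atoms} {R : ℕ → Set Z} {n t : ℕ} {u v : TA} (h : A.Ok R Ball)
    (hr : rimOk A n t = true) (e : diag A n t u v = some A') : ∃ R' : ℕ → Set Z, A'.Ok R' Ball ∧
      ∀ m, small n m = true → R' (lift1 (Nat.shiftLeft 1 t) n m) = R m := (ref_diag h hr e).2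

theorem diags_ok' {l : List (ℕ × TA × TA)} {A A' : Atoms} {R : ℕ → Set Z} {n : ℕ}
    (h : A.Ok R Ball) (hr : ∀ x ∈ l.head?, rimOk A n x.1 = true) (e : diags A n l = some A') :
    ∃ R' : ℕ → Set Z, A'.Ok R' Ball ∧ ∀ m, small n m = true → R' (lifts n l m) = R m := by
  induction l generalizing A R n with
  | nil => cases e; exact ⟨R, h, fun _ _ => rfl⟩
  | cons x l ih =>
    obtain ⟨t, u, v⟩ := x
    obtain ⟨A₁, e1, e2⟩ := Option.bind_eq_some_iff.1 e
    obtain ⟨a, R₁, b, c⟩ := ref_diag h (hr _ rfl) e1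
    obtain ⟨R₂, d, f⟩ := ih b (fun x _ => a x.1) e2
    exact ⟨R₂, d, fun m k => (f _ (ref_lift k)).trans (c m k)⟩

end Pool.Agent.Lib.MP_b7d179_gt.C
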