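import Pool.Agent.Lib.MP_b7d179_gt.C.Ref

/-! Refinement and amalgamation of tables. -/

namespace Pool.Agent.Lib.MP_b7d179_gt.C

open Set

variable {Z : Type} [MetricSpace Z] {ι : Type}

theorem refB_small {n m : ℕ} : small n m = true ↔ ∀ i, n ≤ i → m.testBit i = false := by
  have e : small n m = true ↔ m >>> n = 0 := Nat.beq_eq ▸ Iff.rfl
  rw [e]
  refine ⟨fun h i hi => ?_, fun h => Nat.eq_of_testBit_eq fun i => ?_⟩
  · have := Nat.testBit_shiftRight (i := n) (j := i - n) m
    rw [h, Nat.zero_testBit, Nat.add_sub_cancel' hi] at this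
    exact this.symm
  · rw [Nat.testBit_shiftRight, Nat.zero_testBit]; exact h _ (Nat.le_add_right _ _)

theorem refB_sub {a b : ℕ} : sub a b = true ↔ ∀ i, a.testBit i = true → b.testBit i = true := by
  have e : sub a b = true ↔ Nat.land a b = a := Nat.beq_eq ▸ Iff.rfl
  rw [e]
  refine ⟨fun h i hi => ?_, fun h => Nat.eq_of_testBit_eq fun i => ?_⟩
  · rw [← h, bit_and, Bool.and_eq_true] at hi; exact hi.2
  · have := h i
    rw [bit_and]
    revert this
    cases a.testBit i <;> cases b.testBit i <;> simp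

theorem refB_shl (a n i : ℕ) :
    (Nat.shiftLeft a n).testBit i = (decide (n ≤ i) && a.testBit (i - n)) :=
  Nat.testBit_shiftLeft (i := n) (j := i) a

/-- a mask that meets a single bit contains it -/
theorem refB_one {m t : ℕ} (h : ¬ dis m (Nat.shiftLeft 1 t) = true) :
    sub (Nat.shiftLeft 1 t) m = true := by
  have k : ∀ i, (Nat.shiftLeft 1 t).testBit i = true → i = t := fun i hi => by
    rw [refB_shl, Bool.and_eq_true, decide_eq_true_eq, Nat.testBit_one_eq_true_iff_self_eq_zero] at hi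
    omega
  refine refB_sub.2 fun i hi => by_contra fun hm => h ?_
  have e : Nat.land m (Nat.shiftLeft 1 t) = 0 := Nat.eq_of_testBit_eq fun j => by
    rw [bit_and, Nat.zero_testBit, Bool.and_eq_false_imp]
    intro hj
    by_contra hj'
    rw [Bool.not_eq_false] at hj'
    exact hm (by rw [k i hi, ← k j hj']; exact hj)
  rw [dis, e]
  rfl

/-- the low part and the blocks of a mask -/
def refBlow (M : Amal) (m : ℕ) : ℕ := m % 2 ^ M.n
def refBget (M : Amal) (j m : ℕ) : ℕ := Nat.land (m >>> (M.n + M.w * j)) M.loc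

theorem refB_low (M : Amal) (m i : ℕ) : (refBlow M m).testBit i = (decide (i < M.n) && m.testBit i) :=
  Nat.testBit_mod_two_pow m M.n i

theorem refB_get (M : Amal) (j m i : ℕ) :
    (refBget M j m).testBit i = (m.testBit (M.n + M.w * j + i) && M.loc.testBit i) := by
  rw [refBget, bit_and, Nat.testBit_shiftRight]

theorem refB_rl_low {R : ℕ → Set Z} (h : Rl R) (M : Amal) : Rl fun m => R (refBlow M m) := by
  refine ⟨fun a b => ?_, fun a b => ?_, fun a b => ?_⟩
  · rw [← h.and]
    refine congrArg R (Nat.eq_of_testBit_eq fun i => ?_)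
    simp only [refB_low, bit_and]
    cases decide (i < M.n) <;> rfl
  · rw [← h.or]
    refine congrArg R (Nat.eq_of_testBit_eq fun i => ?_)
    simp only [refB_low, bit_or]
    cases decide (i < M.n) <;> rfl
  · rw [← h.df]
    refine congrArg R (Nat.eq_of_testBit_eq fun i => ?_)
    simp only [refB_low, bit_df]
    cases decide (i < M.n) <;> rfl

theorem refB_rl_get {R : ℕ → Set Z} (h : Rl R) (M : Amal) (j : ℕ) :
    Rl fun m => R (refBget M j m) := by
  refine ⟨fun a b => ?_, fun a b => ?_, fun a b => ?_⟩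
  · rw [← h.and]
    refine congrArg R (Nat.eq_of_testBit_eq fun i => ?_)
    simp only [refB_get, bit_and]
    cases M.loc.testBit i <;> simp
  · rw [← h.or]
    refine congrArg R (Nat.eq_of_testBit_eq fun i => ?_)
    simp only [refB_get, bit_or]
    cases M.loc.testBit i <;> simp
  · rw [← h.df]
    refine congrArg R (Nat.eq_of_testBit_eq fun i => ?_)
    simp only [refB_get, bit_df]
    cases M.loc.testBit i <;> simp

theorem refB_low_blk (M : Amal) (j m : ℕ) : refBlow M (M.blk j m) = 0 :=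
  Nat.eq_of_testBit_eq fun i => by
    rw [refB_low, Amal.blk, refB_shl, Nat.zero_testBit]
    by_cases hi : i < M.n
    · rw [decide_eq_false (p := M.n + M.w * j ≤ i) (by omega)]; simp
    · rw [decide_eq_false hi]; rfl

theorem refB_get_self (M : Amal) (j m : ℕ) : refBget M j (M.blk j m) = Nat.land m M.loc :=
  Nat.eq_of_testBit_eq fun i => by
    rw [refB_get, Amal.blk, refB_shl, Nat.add_sub_cancel_left, bit_and,
      decide_eq_true (Nat.le_add_right _ _)]
    cases M.loc.testBit i <;> simp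

theorem refB_get_ne (M : Amal) (hw : small M.w M.loc = true) {i j : ℕ} (hij : i ≠ j) (m : ℕ) :
    refBget M i (M.blk j m) = 0 :=
  Nat.eq_of_testBit_eq fun k => by
    rw [refB_get, Amal.blk, refB_shl, bit_and, Nat.zero_testBit]
    by_cases hk : M.w ≤ k
    · rw [refB_small.1 hw k hk]; simp
    · rcases lt_or_gt_of_ne hij with l | l
      · have := Nat.mul_le_mul_left M.w (Nat.succ_le_of_lt l)
        rw [Nat.mul_succ] at this
        rw [decide_eq_false (p := M.n + M.w * j ≤ _) (by omega)]; simp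
      · have := Nat.mul_le_mul_left M.w (Nat.succ_le_of_lt l)
        rw [Nat.mul_succ] at this
        rw [refB_small.1 hw (_ - _) (by omega)]; simp

theorem refB_core (M : Amal) {R : ℕ → Set Z} {Rb : ℕ → ℕ → Set Z} (h : Rl R)
    (h' : ∀ j < 3, Rl (Rb j)) (hw : small M.w M.loc = true)
    (hd : ∀ i < 3, ∀ j < 3, i ≠ j → dis (M.hb i) (M.hb j) = true)
    (hl : ∀ j < 3, Rb j M.loc = R (M.hb j)) :
    ∃ R' : ℕ → Set Z, Rl R' ∧
      (∀ m, small M.n m = true → R' m = R m \ {x | ∃ j < 3, x ∈ R (M.hb j)}) ∧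
      ∀ j < 3, ∀ m, R' (M.blk j m) = Rb j (Nat.land m M.loc) := by
  have hs : ∀ j < 3, ∀ m, Rb j (refBget M j m) ⊆ R (M.hb j) := fun j hj m => by
    rw [refBget, (h' j hj).and, hl j hj]; exact inter_subset_right
  let R' : ℕ → Set Z := fun m => {x | (x ∈ R (refBlow M m) ∧ ¬ ∃ j < 3, x ∈ R (M.hb j)) ∨
    ∃ j < 3, x ∈ Rb j (refBget M j m)}
  have key : ∀ x, ∃ F : ℕ → Set Z, Rl F ∧ ∀ m, x ∈ R' m ↔ x ∈ F m := fun x => by
    by_cases hx : ∃ j < 3, x ∈ R (M.hb j)
    · obtain ⟨j, hj, hx⟩ := hx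
      refine ⟨_, refB_rl_get (h' j hj) M j, fun m => ⟨?_, fun k => Or.inr ⟨j, hj, k⟩⟩⟩
      rintro (k | ⟨i, hi, k⟩)
      · exact absurd ⟨j, hj, hx⟩ k.2
      · by_cases e : i = j
        · exact e ▸ k
        · exact absurd hx (disjoint_left.1 (h.dis (hd i hi j hj e)) (hs i hi m k))
    · refine ⟨_, refB_rl_low h M, fun m => ⟨?_, fun k => Or.inl ⟨k, hx⟩⟩⟩
      rintro (k | ⟨i, hi, k⟩)
      · exact k.1
      · exact absurd ⟨i, hi, hs i hi m k⟩ hx
  refine ⟨R', ⟨fun a b => ?_, fun a b => ?_, fun a b => ?_⟩, fun m hm => ?_, fun j hj m => ?_⟩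
  · ext x
    obtain ⟨F, hF, k⟩ := key x
    rw [mem_inter_iff, k, k, k, hF.and, mem_inter_iff]
  · ext x
    obtain ⟨F, hF, k⟩ := key x
    rw [mem_union, k, k, k, hF.or, mem_union]
  · ext x
    obtain ⟨F, hF, k⟩ := key x
    rw [mem_sdiff, k, k, k, hF.df, mem_sdiff]
  · have e1 : refBlow M m = m := Nat.eq_of_testBit_eq fun i => by
      rw [refB_low]
      by_cases hi : i < M.n
      · rw [decide_eq_true hi, Bool.true_and]
      · rw [refB_small.1 hm i (by omega), Bool.and_false]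
    have e2 : ∀ j, refBget M j m = 0 := fun j => Nat.eq_of_testBit_eq fun i => by
      rw [refB_get, refB_small.1 hm _ (by omega), Bool.false_and, Nat.zero_testBit]
    ext x
    refine ⟨?_, fun k => Or.inl ⟨e1.symm ▸ k.1, k.2⟩⟩
    rintro (k | ⟨i, hi, k⟩)
    · exact ⟨e1 ▸ k.1, k.2⟩
    · rw [e2, (h' i hi).zero] at k
      exact k.elim
  · ext x
    refine ⟨?_, fun k => Or.inr ⟨j, hj, (refB_get_self M j m).symm ▸ k⟩⟩
    rintro (k | ⟨i, hi, k⟩)
    · rw [refB_low_blk, h.zero] at k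
      exact k.1.elim
    · by_cases e : i = j
      · subst e
        exact refB_get_self M i m ▸ k
      · rw [refB_get_ne M hw e, (h' i hi).zero] at k
        exact k.elim

theorem refB_small_or {n a b : ℕ} (h : small n (Nat.lor a b) = true) :
    small n a = true ∧ small n b = true := by
  simp only [refB_small, bit_or, Bool.or_eq_false_iff] at h ⊢
  exact ⟨fun i hi => (h i hi).1, fun i hi => (h i hi).2⟩

theorem refB_sub_or {c a b : ℕ} (h : sub (Nat.lor a b) c = true) :
    sub a c = true ∧ sub b c = true := by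
  simp only [refB_sub, bit_or a b, Bool.or_eq_true] at h ⊢
  exact ⟨fun i hi => h i (Or.inl hi), fun i hi => h i (Or.inr hi)⟩

theorem refB_bind {α β : Type} {o : Option α} {c : α → Bool} {f : α → β} {y : β}
    (e : (o.bind fun a => if c a = true then some (f a) else none) = some y) :
    ∃ a, o = some a ∧ c a = true ∧ f a = y := by
  obtain ⟨a, ha, k⟩ := Option.bind_eq_some_iff.1 e
  by_cases hc : c a = true
  · rw [if_pos hc] at k; exact ⟨a, ha, hc, Option.some.inj k⟩
  · rw [if_neg hc] at k; cases k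

theorem amal_ok (M : Amal) {A A' : Atoms} {R : ℕ → Set Z} {Rb : ℕ → ℕ → Set Z} (h : A.Ok R Ball)
    (h' : ∀ j < 3, A'.Ok (Rb j) Ball) (hw : small M.w M.loc = true)
    (hb : ∀ j < 3, ∃ t < M.n, M.hb j = Nat.shiftLeft 1 t)
    (hd : ∀ i < 3, ∀ j < 3, i ≠ j → dis (M.hb i) (M.hb j) = true)
    (hl : ∀ j < 3, Rb j M.loc = R (M.hb j))
    (ht : ∀ j < 3, ∀ m, sub m M.bd = true → small M.n (M.tr j m) = true ∧ Rb j m = R (M.tr j m)) :
    ∃ R' : ℕ → Set Z, (M.tab A A').Ok R' Ball ∧ (∀ m, small M.n m = true → R' (M.up m) = R m) ∧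
      ∀ j < 3, ∀ m, sub m (Nat.lor M.loc M.bd) = true → R' (M.emb j m) = Rb j m := by
  obtain ⟨R', r, lo, bl⟩ := refB_core M h.rl (fun j hj => (h' j hj).rl) hw hd hl
  have one : ∀ j < 3, ∀ m, R' (if dis m (M.hb j) = true then 0 else M.blk j M.loc) =
      R m ∩ R (M.hb j) := fun j hj m => by
    by_cases c : dis m (M.hb j) = true
    · rw [if_pos c, r.zero, (h.rl.dis c).inter_eq]
    · rw [if_neg c, bl j hj, (h' j hj).rl.and, inter_self, hl j hj]
      obtain ⟨t, -, e⟩ := hb j hj
      rw [e] at c ⊢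
      exact (inter_eq_right.2 (h.rl.sub (refB_one c))).symm
  have up : ∀ m, small M.n m = true → R' (M.up m) = R m := fun m hm => by
    rw [Amal.up]
    simp only [orL, List.foldr]
    rw [r.or, r.or, r.or, r.or, one 0 (by norm_num), one 1 (by norm_num), one 2 (by norm_num),
      r.zero, lo m hm]
    ext x
    refine ⟨?_, fun k => ?_⟩
    · rintro (k | k | k | k | k)
      exacts [k.1, k.1, k.1, k.1, k.elim]
    · by_cases c : ∃ j < 3, x ∈ R (M.hb j)
      · obtain ⟨j, hj, c⟩ := c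
        interval_cases j
        exacts [.inr (.inl ⟨k, c⟩), .inr (.inr (.inl ⟨k, c⟩)), .inr (.inr (.inr (.inl ⟨k, c⟩)))]
      · exact .inl ⟨k, c⟩
  have em : ∀ j < 3, ∀ m, sub m (Nat.lor M.loc M.bd) = true → R' (M.emb j m) = Rb j m :=
    fun j hj m hm => by
      obtain ⟨k1, k2⟩ := ht j hj (Nat.land m M.bd) (refB_sub.2 fun i hi => by
        rw [bit_and, Bool.and_eq_true] at hi; exact hi.2)
      have s := (h' j hj).rl.sub hm
      rw [(h' j hj).rl.or] at s
      rw [Amal.emb, r.or, bl j hj, up _ k1, ← k2, (h' j hj).rl.and, (h' j hj).rl.and,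
        ← inter_union_distrib_left, inter_eq_left.2 s]
  have old : ∀ {P : Set Z → Set Z → Prop} {o : Option (ℕ × ℕ)} {m s : ℕ},
      (∀ m s, o = some (m, s) → P (R m) (R s)) →
      (o.bind fun e => if small M.n (Nat.lor e.1 e.2) = true then some (M.up e.1, M.up e.2)
        else none) = some (m, s) → P (R' m) (R' s) := fun hP e => by
    obtain ⟨a, ha, c, k⟩ := refB_bind e
    obtain ⟨c1, c2⟩ := refB_small_or c
    rw [← (Prod.mk.inj k).1, ← (Prod.mk.inj k).2, up _ c1, up _ c2]
    exact hP _ _ ha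
  refine ⟨R', ⟨r, fun t m u v e => ?_, fun t m s e => ?_, fun t m s e => old (h.h3 t) e⟩, up, em⟩
  · simp only [Amal.tab] at e
    split_ifs at e with c1 c2
    · obtain ⟨a, ha, c, k⟩ := refB_bind e
      obtain ⟨d1, d⟩ := refB_small_or c
      obtain ⟨d2, d⟩ := refB_small_or d
      cases k
      rw [up _ d1, up _ d2, up _ (refB_small_or d).1]
      exact h.h1 _ _ _ _ ha
    · obtain ⟨a, ha, c, k⟩ := refB_bind e
      obtain ⟨d1, d⟩ := refB_sub_or c
      obtain ⟨d2, d⟩ := refB_sub_or d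
      cases k
      rw [em _ c2 _ d1, em _ c2 _ d2, em _ c2 _ (refB_sub_or d).1]
      exact (h' _ c2).h1 _ _ _ _ ha
  · simp only [Amal.tab] at e
    split_ifs at e with c1 c2
    · exact old (h.h2 t) e
    · obtain ⟨a, ha, c, k⟩ := refB_bind e
      obtain ⟨d1, d2⟩ := refB_sub_or c
      cases k
      rw [em _ c2 _ d1, em _ c2 _ d2]
      exact (h' _ c2).h2 _ _ _ ha

end Pool.Agent.Lib.MP_b7d179_gt.C
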