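import Pool.Agent.Lib.MP_b7d179_gt.C.Defs
import Pool.Agent.Lib.MP_b7d179_gt.U.Req

/-! Separation by crosscuts. -/

namespace Pool.Agent.Lib.MP_b7d179_gt.C

open Set

variable {Z : Type} [MetricSpace Z] {ι : Type}

variable {S O O' Q c k s s' a a' b b' P Y D I L : Set Z} {p q p' q' x y e e' e₀ : Z}

theorem Sep.mono (h : Sep O s a a') (hO : O' ⊆ O) (hb : b ⊆ a) (hb' : b' ⊆ a')
    (hs : s ∩ O' ⊆ s') : Sep O' s' b b' := fun P x y hP hPO hx hy =>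
  (h P x y hP (hPO.trans hO) (hb hx) (hb' hy)).imp fun _ k => ⟨k.1, hs ⟨k.2, hPO k.1⟩⟩

theorem Sep.symm (h : Sep O s a a') : Sep O s a' a := fun P x y hP hPO hx hy =>
  h P y x hP.symm hPO hy hx

theorem sep_empty_left : Sep O s ∅ a' := fun _ _ _ _ _ hx _ => hx.elim

theorem sep_empty_right : Sep O s a ∅ := fun _ _ _ _ _ _ hy => hy.elim

theorem Sep.image {F : Z → Z} (h : Sep O s a a') (hS : IsCompact S) (hF : Emb F S) (hO : O ⊆ S)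
    (hs : s ⊆ S) (ha : a ⊆ S) (ha' : a' ⊆ S) : Sep (F '' O) (F '' s) (F '' a) (F '' a') := by
  rintro P _ _ hP hPO ⟨x, hx, rfl⟩ ⟨y, hy, rfl⟩
  have : Nonempty Z := ⟨x⟩
  obtain ⟨G, eG, l, r, i⟩ := hF.inv hS
  have hPS : P ⊆ F '' S := hPO.trans (image_mono hO)
  have k := hP.image eG hPS
  rw [l x (ha hx), l y (ha' hy)] at k
  obtain ⟨_, ⟨z, hz, rfl⟩, hzs⟩ := h _ x y k ((image_mono hPO).trans (i O hO).le) hx hy
  exact ⟨z, hz, G z, hzs, r z (hPS hz)⟩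

/-- two different inner points of a disc are joined inside -/
theorem Disc.inner_arc (h : Disc Q c) (hx : x ∈ Q \ c) (hy : y ∈ Q \ c) (hne : x ≠ y) :
    ∃ P ⊆ Q \ c, Arc P x y := by
  obtain ⟨φ, e, rfl, rfl⟩ := h
  rw [← circb_ball e le_rfl] at hx hy ⊢
  obtain ⟨x, hx, rfl⟩ := hx
  obtain ⟨y, hy, rfl⟩ := hy
  obtain ⟨a, ha, k, -⟩ := plane_arc_fin Metric.isOpen_ball (convex_ball _ _).isPreconnected hx hy
    fun n => hne (congrArg φ n)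
  exact ⟨_, image_mono ha, k.image e (ha.trans Metric.ball_subset_closedBall)⟩

theorem Sep.nonempty (h : Sep (Q \ c) s a a') (hQ : Disc Q c) (ha : Cc Q c a p q)
    (ha' : Cc Q c a' p' q') : (s ∩ (Q \ c)).Nonempty := by
  obtain ⟨x, hx, nx⟩ := ha.arc.exists_notMem (toFinite {p, q})
  obtain ⟨y, hy, ny⟩ := ha'.arc.exists_notMem (toFinite {x, p', q'})
  obtain ⟨P, hP, k⟩ := Disc.inner_arc hQ ⟨ha.sub hx, fun n => nx (ha.inter.le ⟨hx, n⟩)⟩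
    ⟨ha'.sub hy, fun n => ny (.inr (ha'.inter.le ⟨hy, n⟩))⟩ fun n => ny (.inl n.symm)
  exact (h P x y k hP hx hy).imp fun _ m => ⟨m.2, hP m.1⟩

/-- separation means different halves -/
theorem Sep.cut {u v E : Set Z} (h : Sep (Q \ c) s a a') (hc : Cut Q c u v s D E x y)
    (ha : (a ∩ (D \ (u ∪ s))).Nonempty) (ha' : (a' ∩ (D \ (u ∪ s))).Nonempty)
    (hd : Disjoint a a') : False := by
  obtain ⟨z, hz, mz⟩ := ha
  obtain ⟨w, hw, mw⟩ := ha'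
  obtain ⟨P, hP, k⟩ := Disc.inner_arc hc.d1 mz mw fun n => disjoint_left.1 hd hz (n ▸ hw)
  obtain ⟨t, ht, hts⟩ := h P z w k (hP.trans (hc.disc.sub_int hc.d1 hc.sub1)) hz hw
  exact (hP ht).2 (.inr hts)

theorem sep_of_cut {u v E : Set Z} (hc : Cut Q c u v s D E x y) (ha : a ∩ Q ⊆ D) (ha' : a' ∩ Q ⊆ E) :
    Sep Q s a a' := by
  intro P z w hP hPQ hz hw
  by_contra n
  rcases hc.side hP.conn hPQ (disjoint_iff_inter_eq_empty.2 (not_nonempty_iff_eq_empty.1 n)) with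
    k | k
  · exact n ⟨w, hP.right, hc.inter.le ⟨k hP.right, ha' ⟨hw, hPQ hP.right⟩⟩⟩
  · exact n ⟨z, hP.left, hc.inter.le ⟨ha ⟨hz, hPQ hP.left⟩, k hP.left⟩⟩

end Pool.Agent.Lib.MP_b7d179_gt.C
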