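import Pool.Agent.Lib.MP_b7d179_gt.C.Ref
import Pool.Agent.Lib.MP_b7d179_gt.U.SolA

/-! Shellings give balls, good balls, cuts and trees. -/

namespace Pool.Agent.Lib.MP_b7d179_gt.C

open Set

variable {Z : Type} [MetricSpace Z] {ι : Type}

variable {A : Atoms} {R : ℕ → Set Z} {nd : ℕ → Option (ℕ × ℕ)} {n0 b s fr : ℕ} {l : List Stp}
  {σ : Tw Z}

theorem shellGo_ok (h : A.Ok R Ball) {t : List (ℕ × TD)} :
    ∀ {b0 s0 : ℕ} {acc : List Stp}, Chain R nd n0 acc b0 s0 →
      shellGo A nd b0 s0 acc t = some (l, b, s) → Chain R nd n0 l b s := by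
  induction t with
  | nil =>
    intro b0 s0 acc hc e
    simp only [shellGo, Option.some.injEq, Prod.mk.injEq] at e
    obtain ⟨rfl, rfl, rfl⟩ := e
    exact hc
  | cons a t ih =>
    obtain ⟨n, u⟩ := a
    intro b0 s0 acc hc e
    simp only [shellGo] at e
    split at e
    · rename_i w sw d c e1 e2
      split at e
      · rename_i k
        simp only [Bool.and_eq_true] at k
        refine ih ?_ e
        refine Chain.step (x := ⟨n, b0, s0, w, sw, d, c, _, _⟩) hc e1
          ⟨h.evD glues e2, h.rl.inter k.1.1, h.rl.sub k.1.2, h.rl.sub k.2, h.rl.or _ _, ?_⟩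
        show R (df (Nat.lor s0 sw) (df d c)) = _
        rw [h.rl.df, h.rl.or, h.rl.df]
      · cases e
    · cases e

theorem shell_ok (h : A.Ok R Ball) {t : List (ℕ × TD)} (e : shell A nd n0 t = some (l, b, s)) :
    Chain R nd n0 l b s := by
  unfold shell at e
  obtain ⟨⟨b0, s0⟩, e0, e⟩ := Option.bind_eq_some_iff.1 e
  exact shellGo_ok h (Chain.base e0) e
theorem Chain.ball (h : Chain R nd n0 l b s) (hn : NdB R nd) : Ball (R b) (R s) := by
  induction h with
  | base h => exact hn _ _ _ h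
  | step _ hx g ih => exact g.ball ih (hn _ _ _ hx)
theorem Chain.good (h : Chain R nd n0 l b s) (hR : Rl R) (hn : NdB R nd)
    (hf : Disjoint (R fr) σ.K) {hit : List ℕ} (hh : ∀ m ∈ hit, (σ.K ∩ R m).Nonempty)
    (e : gOk fr hit l = true)
    (hG : ∀ n ∈ full fr n0 l, ∀ w sw, nd n = some (w, sw) → G σ (R w) (R sw)) :
    G σ (R b) (R s) := by
  induction h with
  | base h => exact hG n0 (by simp [full]) _ _ h
  | @step l x hc hx g ih =>
    simp only [gOk, List.all_cons, Bool.and_eq_true] at e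
    obtain ⟨e1, e2⟩ := e
    by_cases fre : sub x.w fr = true
    · have fl : full fr n0 (x :: l) = full fr n0 l := by simp [full, fre]
      rw [fl] at hG
      exact G.glue0 (ih e2 hG) (hn _ _ _ hx) (hf.mono_left (hR.sub fre)) g
    · have fl : ∀ n, n ∈ full fr n0 (x :: l) ↔ n ∈ full fr n0 l ∨ n = x.n := fun n => by
        simp only [full, List.filter_cons, fre, Bool.not_false, if_true, List.map_cons,
          List.mem_cons]
        tauto
      simp only [fre, Bool.false_or, Bool.and_eq_true] at e1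
      obtain ⟨m, hm, k⟩ := List.any_eq_true.1 e1.2
      exact G.glue1 (ih e2 fun n h => hG n ((fl n).2 (Or.inl h)))
        (hG x.n ((fl _).2 (Or.inr rfl)) _ _ hx) g
        ⟨g.d, hf.mono_left (hR.sub e1.1), (hh m hm).mono (inter_subset_inter_right _ (hR.sub k))⟩
/-- one lane `(bl, sl)` with trace `(t, c)` and far side `d`, and the rest `(br, sr)` -/
theorem sol_cert (hR : Rl R) {bl sl br sr t d c h : ℕ} (hL : G σ (R bl) (R sl))
    (hr : G σ (R br) (R sr)) (hT : Disc (R t) (R c)) (hD : Disc (R d) (R c))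
    (hf : Disjoint (R fr) σ.K) (hh : (σ.K ∩ R h).Nonempty)
    (e : (Nat.beq sl (Nat.lor t d) && Nat.beq sr (Nat.lor (df s t) d) && Nat.beq (Nat.land bl s) t &&
      Nat.beq (Nat.land bl br) d && Nat.beq (Nat.land d s) c && Nat.beq b (Nat.lor br bl) &&
      sub c fr && sub h d) = true) : Sol σ (R b) (R s) {(R t, R c)} := by
  simp only [Bool.and_eq_true] at e
  obtain ⟨⟨⟨⟨⟨⟨⟨e1, e2⟩, e3⟩, e4⟩, e5⟩, e6⟩, e7⟩, e8⟩ := e
  rw [Nat.eq_of_beq_eq_true e1, hR.or] at hL
  rw [Nat.eq_of_beq_eq_true e2, hR.or, hR.df] at hr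
  exact sol_one hL hr hT
    ⟨hD, hf.mono_left (hR.sub e7), hh.mono (inter_subset_inter_right _ (hR.sub e8))⟩
    (hR.inter e3) (hR.inter e4) (hR.inter e5) (by rw [Nat.eq_of_beq_eq_true e6, hR.or])

end Pool.Agent.Lib.MP_b7d179_gt.C
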