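import Pool.Agent.Lib.MP_b7d179_gt.C.Shell

/-! Shellings give balls, good balls, cuts and trees. -/

namespace Pool.Agent.Lib.MP_b7d179_gt.C

open Set

variable {Z : Type} [MetricSpace Z] {ι : Type}

variable {A : Atoms} {R : ℕ → Set Z} {nd : ℕ → Option (ℕ × ℕ)} {n0 b s fr : ℕ} {l : List Stp}
  {σ : Tw Z}

theorem ball_inner {B S : Set Z} (h : Ball B S) : (B \ S).Nonempty := by
  obtain ⟨f, hf, rfl, rfl⟩ := h
  have h0 : (0 : ℂ × ℝ) ∈ Metric.closedBall (0 : ℂ × ℝ) 1 := Metric.mem_closedBall_self zero_le_one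
  refine ⟨f 0, mem_image_of_mem _ h0, fun h => ?_⟩
  simpa using (hf.mem_iff Metric.sphere_subset_closedBall h0).1 h

theorem shellB_side {B S B1 S1 B2 S2 D C : Set Z} (g : Gl B S B1 S1 B2 S2 D C) (h2 : S2 ⊆ B2) :
    B1 ⊆ B ∧ B1 ∩ S ⊆ S1 ∧ B1 ∩ B2 ⊆ S1 := by
  refine ⟨g.u ▸ subset_union_left, fun x hx => ?_, g.i ▸ g.s1⟩
  rcases (g.r.le hx.2).1 with h | h
  exacts [h, g.s1 (g.i.le ⟨hx.1, h2 h⟩)]

theorem tree_leaf {B S : Set Z} {F : Set σ.φ} {V : Set σ.β} (ok : σ.Ok0) (h : Tree σ false B S F V) :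
    (∀ w ∈ V, σ.B w ⊆ B ∧ σ.B w ∩ S ⊆ σ.S w) ∧
      ∀ w ∈ V, ∀ w' ∈ V, w ≠ w' → σ.B w ∩ σ.B w' ⊆ σ.S w := by
  induction h with
  | leaf v =>
    refine ⟨?_, fun w hw w' hw' hne => absurd (hw.trans hw'.symm) hne⟩
    rintro w rfl
    exact ⟨subset_rfl, inter_subset_right⟩
  | move h => cases h
  | glue0 _ hW _ g _ ih =>
    have k := shellB_side g hW.rim_sub
    exact ⟨fun w hw => ⟨(ih.1 w hw).1.trans k.1,
      fun x hx => (ih.1 w hw).2 ⟨hx.1, k.2.1 ⟨(ih.1 w hw).1 hx.1, hx.2⟩⟩⟩, ih.2⟩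
  | glue1 t1 t2 g _ _ _ _ _ i1 i2 =>
    have k := shellB_side g (t2.ball ok).rim_sub
    have k' := shellB_side g.symm (t1.ball ok).rim_sub
    refine ⟨?_, ?_⟩
    · rintro w (hw | hw)
      · exact ⟨(i1.1 w hw).1.trans k.1,
          fun x hx => (i1.1 w hw).2 ⟨hx.1, k.2.1 ⟨(i1.1 w hw).1 hx.1, hx.2⟩⟩⟩
      · exact ⟨(i2.1 w hw).1.trans k'.1,
          fun x hx => (i2.1 w hw).2 ⟨hx.1, k'.2.1 ⟨(i2.1 w hw).1 hx.1, hx.2⟩⟩⟩
    · rintro w (hw | hw) w' (hw' | hw') hne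
      · exact i1.2 w hw w' hw' hne
      · exact fun x hx => (i1.1 w hw).2 ⟨hx.1, k.2.2 ⟨(i1.1 w hw).1 hx.1, (i2.1 w' hw').1 hx.2⟩⟩
      · exact fun x hx => (i2.1 w hw).2 ⟨hx.1, k'.2.2 ⟨(i2.1 w hw).1 hx.1, (i1.1 w' hw').1 hx.2⟩⟩
      · exact i2.2 w hw w' hw' hne

theorem shB_iff {a b : ℕ} : sub a b = true ↔ ∀ i, a.testBit i = true → b.testBit i = true := by
  constructor
  · intro h i hi
    have := bit_and a b i
    rw [Nat.eq_of_beq_eq_true h, hi] at this
    simpa using this.symm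
  · intro h
    have : Nat.land a b = a := Nat.eq_of_testBit_eq fun i => by
      rw [bit_and]
      cases e : a.testBit i
      · rfl
      · simpa using h i e
    rw [sub, this]
    exact Nat.beq_refl a

theorem shB_trans {a b c : ℕ} (h : sub a b = true) (h' : sub b c = true) : sub a c = true :=
  shB_iff.2 fun i hi => shB_iff.1 h' i (shB_iff.1 h i hi)

theorem shB_df {a b c : ℕ} (h : sub a (df b c) = true) : sub a b = true :=
  shB_iff.2 fun i hi => by
    have := shB_iff.1 h i hi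
    rw [bit_df, Bool.and_eq_true] at this
    exact this.1

/-- the walls lie in both rims, as masks -/
def wOk (l : List Stp) : Bool := l.all fun x => sub x.d x.s1 && sub x.d x.sw

theorem shellGo_wOk {t : List (ℕ × TD)} : ∀ {b s : ℕ} {acc : List Stp} {r : List Stp × ℕ × ℕ},
    wOk acc = true → shellGo A nd b s acc t = some r → wOk r.1 = true := by
  induction t with
  | nil =>
    intro b s acc r h e
    simp only [shellGo, Option.some.injEq] at e
    rw [← e]; exact h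
  | cons a t ih =>
    intro b s acc r h e
    obtain ⟨n, u⟩ := a
    simp only [shellGo] at e
    split at e
    · split at e
      · rename_i hc
        simp only [Bool.and_eq_true] at hc
        refine ih ?_ e
        simp only [wOk, List.all_cons, Bool.and_eq_true] at h ⊢
        exact ⟨⟨hc.1.2, hc.2⟩, h⟩
      · cases e
    · cases e

theorem shell_wOk {t : List (ℕ × TD)} (e : shell A nd n0 t = some (l, b, s)) : wOk l = true := by
  obtain ⟨a, -, e⟩ := Option.bind_eq_some_iff.1 e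
  exact shellGo_wOk (acc := []) rfl e

/-- the feet in the cells of `hs` that lie in `s` -/
def ftOf (hs : List ℕ) (fs : ℕ → Set σ.φ) (s : ℕ) : Set σ.φ :=
  {g | ∃ h ∈ hs, sub h s = true ∧ g ∈ fs h}
theorem Chain.tree' (h : Chain R nd n0 l b s) (ok : σ.Ok0) (hR : Rl R) (hn : NdB R nd)
    (hf : Disjoint (R fr) σ.K) {hs : List ℕ} {fs : ℕ → Set σ.φ} {V : ℕ → Set σ.β}
    (hw : wOk l = true)
    (hfs : ∀ m ∈ hs, (fs m).Nonempty ∧ ∀ g ∈ fs m, σ.A g ⊆ R m ∧ (σ.A g).Nonempty)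
    (e : tOk fr hs l = true)
    (hT : ∀ n ∈ full fr n0 l, ∀ w sw, nd n = some (w, sw) →
      Tree σ false (R w) (R sw) (ftOf hs fs sw) (V n)) :
    Tree σ false (R b) (R s) (ftOf hs fs s) (⋃ n ∈ full fr n0 l, V n) := by
  have ne : ∀ m ∈ hs, (R m).Nonempty := fun m hm => by
    obtain ⟨g, hg⟩ := (hfs m hm).1
    exact ((hfs m hm).2 g hg).2.mono ((hfs m hm).2 g hg).1
  induction h with
  | base h =>
    have := hT n0 (by simp [full]) _ _ h
    simpa [full] using this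
  | @step l x hc hx g ih =>
    simp only [tOk, wOk, List.all_cons, Bool.and_eq_true] at e hw
    obtain ⟨⟨e1, e2⟩, e3⟩ := e
    have hW := hn _ _ _ hx
    have e1 : ∀ m ∈ hs, (sub m (df x.d x.c) = true ∨ dis m x.d = true) ∧
        sub m x.s = ((sub m x.s1 || sub m x.sw) && dis m x.d) := fun m hm => by
      simpa using List.all_eq_true.1 e1 m hm
    have dw : R x.d ⊆ R x.w := g.s2.trans hW.rim_sub
    have pos : ∀ m ∈ hs, R m ⊆ R x.d \ R x.c ∨ Disjoint (R m) (R x.d) := fun m hm =>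
      (e1 m hm).1.imp (fun h => hR.df _ _ ▸ hR.sub h) hR.dis
    by_cases fre : sub x.w fr = true
    · rw [if_pos fre] at e2
      have e2 : ∀ m ∈ hs, Disjoint (R m) (R x.w) := fun m hm => hR.dis (List.all_eq_true.1 e2 m hm)
      have fl : full fr n0 (x :: l) = full fr n0 l := by simp [full, fre]
      rw [fl] at hT ⊢
      have eq : ftOf hs fs x.s = ftOf hs fs x.s1 := by
        have k : ∀ m ∈ hs, sub m x.s = sub m x.s1 := fun m hm => by
          have a : sub m x.sw = false := Bool.eq_false_iff.2 fun h =>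
            (ne m hm).ne_empty (((e2 m hm).eq_bot_of_le ((hR.sub h).trans hW.rim_sub)))
          have b : dis m x.d = true := (e1 m hm).1.resolve_left fun h =>
            (ne m hm).ne_empty (((e2 m hm).eq_bot_of_le ((hR.sub (shB_df h)).trans dw)))
          rw [(e1 m hm).2, a, b]; simp
        ext f
        exact ⟨fun ⟨m, hm, h, hf⟩ => ⟨m, hm, k m hm ▸ h, hf⟩,
          fun ⟨m, hm, h, hf⟩ => ⟨m, hm, (k m hm).symm ▸ h, hf⟩⟩
      rw [eq]
      refine Tree.glue0 (ih hw.2 e3 hT) hW (hf.mono_left (hR.sub fre)) g ?_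
      rintro f ⟨m, hm, -, hf⟩
      exact (e2 m hm).mono ((hfs m hm).2 f hf).1 dw
    · rw [if_neg fre] at e2
      have fl : ∀ n, n ∈ full fr n0 (x :: l) ↔ n ∈ full fr n0 l ∨ n = x.n := fun n => by
        simp only [full, List.filter_cons, fre, Bool.not_false, if_true, List.map_cons,
          List.mem_cons]
        tauto
      have un : (⋃ n ∈ full fr n0 (x :: l), V n) = (⋃ n ∈ full fr n0 l, V n) ∪ V x.n := by
        ext v
        simp only [mem_iUnion, fl, mem_union]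
        constructor
        · rintro ⟨n, h | rfl, hv⟩
          exacts [Or.inl ⟨n, h, hv⟩, Or.inr hv]
        · rintro (⟨n, h, hv⟩ | hv)
          exacts [⟨n, Or.inl h, hv⟩, ⟨_, Or.inr rfl, hv⟩]
      have t1 := ih hw.2 e3 fun n h => hT n ((fl n).2 (Or.inl h))
      have t2 := hT x.n ((fl _).2 (Or.inr rfl)) _ _ hx
      have ind : ∀ m ∈ hs, ∀ f ∈ fs m, σ.A f ⊆ R x.d → sub m x.d = true := fun m hm f hf h =>
        shB_df ((e1 m hm).1.resolve_right fun h' => ((hfs m hm).2 f hf).2.ne_empty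
          (((hR.dis h').mono_left ((hfs m hm).2 f hf).1).eq_bot_of_le h))
      rw [un]
      refine Tree.glue1 t1 t2 g ?_ ?_ ?_ ?_ ?_
      · rintro f (⟨m, hm, -, hf⟩ | ⟨m, hm, -, hf⟩) <;>
          exact (pos m hm).imp ((hfs m hm).2 f hf).1.trans
            (Disjoint.mono_left ((hfs m hm).2 f hf).1)
      · exact fun f h => ⟨fun ⟨m, hm, _, hf⟩ => ⟨m, hm, shB_trans (ind m hm f hf h) hw.1.2, hf⟩,
          fun ⟨m, hm, _, hf⟩ => ⟨m, hm, shB_trans (ind m hm f hf h) hw.1.1, hf⟩⟩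
      · obtain ⟨m, hm, h⟩ := List.any_eq_true.1 e2
        obtain ⟨f, hf⟩ := (hfs m hm).1
        exact ⟨f, ⟨m, hm, shB_trans h hw.1.1, hf⟩, ((hfs m hm).2 f hf).1.trans (hR.sub h)⟩
      · refine disjoint_left.2 fun v h1 h2 => ?_
        obtain ⟨y, hy, hy'⟩ := ball_inner (ok.ball v)
        have a := (tree_leaf ok t1).1 v h1
        have b := (tree_leaf ok t2).1 v h2
        exact hy' (a.2 ⟨hy, g.s1 (g.i.le ⟨a.1 hy, b.1 hy⟩)⟩)
      · intro f
        constructor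
        · rintro ⟨m, hm, h, hf⟩
          rw [(e1 m hm).2, Bool.and_eq_true, Bool.or_eq_true] at h
          exact ⟨h.1.imp (fun h => ⟨m, hm, h, hf⟩) fun h => ⟨m, hm, h, hf⟩,
            (hR.dis h.2).mono_left ((hfs m hm).2 f hf).1⟩
        · have k : ∀ m ∈ hs, f ∈ fs m → Disjoint (σ.A f) (R x.d) → dis m x.d = true :=
            fun m hm hf hd => (e1 m hm).1.resolve_left fun h => ((hfs m hm).2 f hf).2.ne_empty
              (hd.eq_bot_of_le (((hfs m hm).2 f hf).1.trans (hR.sub (shB_df h))))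
          rintro ⟨⟨m, hm, h, hf⟩ | ⟨m, hm, h, hf⟩, hd⟩ <;>
            exact ⟨m, hm, by rw [(e1 m hm).2, h, k m hm hf hd]; simp, hf⟩

/-- the form for a chain that comes from a checked shelling -/
theorem Chain.treeS (h : Chain R nd n0 l b s) {t : List (ℕ × TD)}
    (e₀ : shell A nd n0 t = some (l, b, s)) (ok : σ.Ok0) (hR : Rl R) (hn : NdB R nd)
    (hf : Disjoint (R fr) σ.K) {hs : List ℕ} {fs : ℕ → Set σ.φ} {V : ℕ → Set σ.β}
    (hfs : ∀ m ∈ hs, (fs m).Nonempty ∧ ∀ g ∈ fs m, σ.A g ⊆ R m ∧ (σ.A g).Nonempty)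
    (e : tOk fr hs l = true)
    (hT : ∀ n ∈ full fr n0 l, ∀ w sw, nd n = some (w, sw) →
      Tree σ false (R w) (R sw) (ftOf hs fs sw) (V n)) :
    Tree σ false (R b) (R s) (ftOf hs fs s) (⋃ n ∈ full fr n0 l, V n) :=
  h.tree' ok hR hn hf (shell_wOk e₀) hfs e hT

end Pool.Agent.Lib.MP_b7d179_gt.C
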