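import Pool.Agent.Lib.MP_b7d179_gt.C.Defs2
import Pool.Agent.Lib.MP_b7d179_gt.C.Obs

/-! Obstacles, translation of descriptions. -/

namespace Pool.Agent.Lib.MP_b7d179_gt.C

open Set

variable {Z : Type} [MetricSpace Z] {ι : Type}

variable {A : Atoms} {R : ℕ → Set Z}

theorem tr_go (h : A.Ok R Ball) {S : Set Z} {D Y : ℕ} (hs : R D ∪ R Y ⊆ S)
    {l : List (TA × TD)} : ∀ {D0 Y0 : ℕ}, obsGo A D0 Y0 l = some (D, Y) →
      (R D0 ⊆ R D ∧ R Y0 ⊆ R Y) ∧ (Obs S (R D0) (R Y0) → Obs S (R D) (R Y)) := by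
  induction l with
  | nil =>
    intro D0 Y0 e
    cases e
    exact ⟨⟨Subset.rfl, Subset.rfl⟩, id⟩
  | cons x l ih =>
    obtain ⟨a, t⟩ := x
    intro D0 Y0 e
    simp only [obsGo] at e
    split at e
    swap
    · cases e
    rename_i m p q W w e1 e2
    split_ifs at e with k
    simp only [Bool.and_eq_true] at k
    obtain ⟨⟨s1, s2⟩, o⟩ := ih e
    rw [h.rl.or] at s1 s2
    rw [h.rl.or, h.rl.or] at o
    obtain ⟨x, y, ha, hp, hq⟩ := h.evA glues e1
    refine ⟨⟨subset_union_left.trans s1, subset_union_left.trans s2⟩, fun o0 => o ?_⟩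
    exact o0.add ha (subset_union_right.trans (s2.trans (subset_union_right.trans hs)))
      ((h.rl.inter k.1.1.1).trans hp) (h.rl.dis k.1.1.2) (h.evD glues e2)
      (subset_union_right.trans (s1.trans (subset_union_left.trans hs)))
      (h.rl.or _ _ ▸ h.rl.dis k.1.2) ((h.rl.inter k.2).trans hq)

theorem evObs_ok (h : A.Ok R Ball) {o : TO} {D Y : ℕ} (e : evObs A o = some (D, Y)) {S : Set Z}
    (hs : R D ∪ R Y ⊆ S) : Obs S (R D) (R Y) := by
  obtain ⟨⟨W, w⟩, e1, e2⟩ := Option.bind_eq_some_iff.1 e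
  obtain ⟨⟨s1, -⟩, o⟩ := tr_go h hs e2
  refine o ?_
  rw [h.rl.zero]
  exact .disc (h.evD glues e1) (s1.trans (subset_union_left.trans hs))
theorem mapO_mem {α β : Type} {τ : α → Option β} {l : List α} {l' : List β}
    (e : mapO τ l = some l') : (∀ x ∈ l, ∃ y ∈ l', τ x = some y) ∧ (∀ y ∈ l', ∃ x ∈ l, τ x = some y) ∧
      l'.length = l.length ∧ ∀ (n : ℕ) x, l[n]? = some x → ∃ y, l'[n]? = some y ∧ τ x = some y := by
  induction l generalizing l' with
  | nil => cases e; simp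
  | cons a l ih =>
    obtain ⟨y, e1, e2⟩ := Option.bind_eq_some_iff.1 e
    obtain ⟨m, e3, rfl⟩ := Option.map_eq_some_iff.1 e2
    obtain ⟨h1, h2, h3, h4⟩ := ih e3
    refine ⟨fun x hx => ?_, fun z hz => ?_, by simp [h3], fun n x hx => ?_⟩
    · rcases List.mem_cons.1 hx with rfl | hx
      · exact ⟨y, List.mem_cons_self, e1⟩
      · obtain ⟨z, hz, k⟩ := h1 x hx
        exact ⟨z, List.mem_cons_of_mem _ hz, k⟩
    · rcases List.mem_cons.1 hz with rfl | hz
      · exact ⟨a, List.mem_cons_self, e1⟩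
      · obtain ⟨x, hx, k⟩ := h2 z hz
        exact ⟨x, List.mem_cons_of_mem _ hx, k⟩
    · cases n with
      | zero =>
        obtain rfl : a = x := by simpa using hx
        exact ⟨y, by simp, e1⟩
      | succ n => simpa using h4 n x (by simpa using hx)
theorem setsA_tr {α β : Type} {τ : α → Option β} {ρ : α → Set Z} {ρ' : β → Set Z}
    (h : ∀ x y, τ x = some y → ρ' y = ρ x) {l : List α} {l' : List β} (e : mapO τ l = some l') :
    setsA ρ' l' = setsA ρ l := by
  obtain ⟨h1, h2, -⟩ := mapO_mem e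
  ext L
  constructor
  · rintro ⟨y, hy, rfl⟩
    obtain ⟨x, hx, k⟩ := h2 y hy
    exact ⟨x, hx, h _ _ k⟩
  · rintro ⟨x, hx, rfl⟩
    obtain ⟨y, hy, k⟩ := h1 x hx
    exact ⟨y, hy, (h _ _ k).symm⟩
theorem Sp.St_tr {α β : Type} {τ : α → Option β} {ρ : α → Set Z} {ρ' : β → Set Z}
    (h : ∀ x y, τ x = some y → ρ' y = ρ x) {sp : Sp α} {sp' : Sp β} (e : sp.tr τ = some sp')
    {rel : ι → ι → ι → Prop} {grp : ι → Bool} {a : ι → Set Z} :
    sp'.St ρ' rel grp a ↔ sp.St ρ rel grp a := by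
  cases sp with
  | fa S D Y L0 L1 =>
    simp only [Sp.tr, Option.bind_eq_some_iff, Option.map_eq_some_iff] at e
    obtain ⟨S', a1, D', a2, Y', a3, M0, a4, M1, a5, rfl⟩ := e
    have : (fun g => setsA ρ' (cond g M1 M0)) = fun g => setsA ρ (cond g L1 L0) := by
      funext g; cases g
      exacts [setsA_tr h a4, setsA_tr h a5]
    simp only [Sp.St, h _ _ a1, h _ _ a2, h _ _ a3, this]
  | di P c L0 L1 =>
    simp only [Sp.tr, Option.bind_eq_some_iff, Option.map_eq_some_iff] at e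
    obtain ⟨P', a1, c', a2, M0, a4, M1, a5, rfl⟩ := e
    have : (fun g => setsA ρ' (cond g M1 M0)) = fun g => setsA ρ (cond g L1 L0) := by
      funext g; cases g
      exacts [setsA_tr h a4, setsA_tr h a5]
    simp only [Sp.St, h _ _ a1, h _ _ a2, this]
  | pt L0 L1 =>
    simp only [Sp.tr, Option.bind_eq_some_iff, Option.map_eq_some_iff] at e
    obtain ⟨M0, a4, M1, a5, rfl⟩ := e
    have : (fun g => ρ' (cond g M1 M0)) = fun g => ρ (cond g L1 L0) := by
      funext g; cases g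
      exacts [h _ _ a4, h _ _ a5]
    simp only [Sp.St, this]

end Pool.Agent.Lib.MP_b7d179_gt.C
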