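import Pool.Agent.Lib.MP_b7d179_gt.C.SepB

/-! Discs with three marked arcs on the rim. -/

namespace Pool.Agent.Lib.MP_b7d179_gt.C

open Set

variable {Z : Type} [MetricSpace Z] {ι : Type}

/-- the rim is the cycle `w 0, e 0, w 1, e 1, w 2, e 2` -/
structure Tri (P c : Set Z) (w e : Fin 3 → Set Z) (p q : Fin 3 → Z) : Prop where
  disc : Disc P c
  aw : ∀ j, Arc (w j) (p j) (q j)
  ae : ∀ j, Arc (e j) (q j) (p (j + 1))
  i1 : ∀ j, w j ∩ e j = {q j}
  i2 : ∀ j, e j ∩ w (j + 1) = {p (j + 1)}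
  d1 : Pairwise (Function.onFun Disjoint w)
  d2 : Pairwise (Function.onFun Disjoint e)
  d3 : ∀ j, Disjoint (e j) (w (j + 2))
  u : c = ⋃ j, w j ∪ e j

/-- the arc `I` from `x` to `y` is cut at `m` into `u` and `v` -/
structure Spl (I u v : Set Z) (x m y : Z) : Prop where
  a1 : Arc u x m
  a2 : Arc v m y
  i : u ∩ v = {m}
  u : u ∪ v = I

variable {P c I u v u' v' w₀ l r L : Set Z} {w e : Fin 3 → Set Z} {p q : Fin 3 → Z}
  {rel : ι → ι → ι → Prop} {grp : ι → Bool} {a : ι → Set Z} {x y m x' y' z z' : Z}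

theorem Spl.arc (h : Spl I u v x m y) : Arc I x y := h.u ▸ h.a1.cat h.a2 h.i

theorem tri_symm (h : Spl I u v x m y) : Spl I v u y m x :=
  ⟨h.a2.symm, h.a1.symm, by rw [inter_comm, h.i], by rw [union_comm, h.u]⟩

theorem tri_sub1 (h : Spl I u v x m y) : u ⊆ I := h.u ▸ subset_union_left

theorem tri_sub2 (h : Spl I u v x m y) : v ⊆ I := h.u ▸ subset_union_right

theorem tri_le (h : Spl I u v x m y) (h' : Spl I u' v' x m y) : u ⊆ u' :=
  h.arc.sub_of_conn h.a1 (tri_sub1 h) h'.a1.conn (tri_sub1 h') h'.a1.left h'.a1.right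

theorem Spl.unique (h : Spl I u v x m y) (h' : Spl I u' v' x m y) : u = u' ∧ v = v' :=
  ⟨(tri_le h h').antisymm (tri_le h' h),
    (tri_le (tri_symm h) (tri_symm h')).antisymm (tri_le (tri_symm h') (tri_symm h))⟩

/-- a cut of an arc cuts a middle part -/
theorem Spl.mid (h : Spl I u v x m y) (h1 : Spl I l (w₀ ∪ r) x x' y) (h2 : Spl (w₀ ∪ r) w₀ r x' y' y)
    (hm : m ∈ w₀ \ {x', y'}) : Spl w₀ (u ∩ w₀) (v ∩ w₀) x' m y' := by
  obtain ⟨s, t, as, bt, i, un⟩ := h2.a1.split hm.1 (fun k => hm.2 (.inl k)) fun k => hm.2 (.inr k)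
  have sw : s ⊆ w₀ := un ▸ subset_union_left
  have tw : t ⊆ w₀ := un ▸ subset_union_right
  have k1 : l ∩ s = {x'} := Subset.antisymm (fun z hz => h1.i.le ⟨hz.1, .inl (sw hz.2)⟩)
    (singleton_subset_iff.2 ⟨h1.a1.right, as.left⟩)
  have k2 : t ∩ r = {y'} := Subset.antisymm (fun z hz => h2.i.le ⟨tw hz.1, hz.2⟩)
    (singleton_subset_iff.2 ⟨bt.right, h2.a2.left⟩)
  have k3 : ∀ z ∈ s, z ∈ t ∪ r → z = m := fun z hz k => k.elim (fun k => i.le ⟨hz, k⟩) fun k => by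
    obtain rfl : z = y' := h2.i.le ⟨sw hz, k⟩
    exact i.le ⟨hz, bt.right⟩
  have k : Spl I (l ∪ s) (t ∪ r) x m y := by
    refine ⟨h1.a1.cat as k1, bt.cat h2.a2 k2, Subset.antisymm ?_
      (singleton_subset_iff.2 ⟨.inr as.right, .inl bt.left⟩), ?_⟩
    · rintro z ⟨hz | hz, hz'⟩
      · obtain rfl : z = x' := h1.i.le ⟨hz, hz'.imp_left fun k => tw k⟩
        exact k3 _ as.left hz'
      · exact k3 _ hz hz'
    · rw [union_assoc, ← union_assoc s, un, h1.u]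
  obtain ⟨rfl, rfl⟩ := h.unique k
  have e1 : (l ∪ s) ∩ w₀ = s := by
    refine Subset.antisymm ?_ fun z hz => ⟨.inr hz, sw hz⟩
    rintro z ⟨hz | hz, hz'⟩
    · obtain rfl : z = x' := h1.i.le ⟨hz, .inl hz'⟩
      exact as.left
    · exact hz
  have e2 : (t ∪ r) ∩ w₀ = t := by
    refine Subset.antisymm ?_ fun z hz => ⟨.inl hz, tw hz⟩
    rintro z ⟨hz | hz, hz'⟩
    · exact hz
    · obtain rfl : z = y' := h2.i.le ⟨hz', hz⟩
      exact bt.right
  rw [e1, e2]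
  exact ⟨as, bt, i, un⟩

theorem tri_one (h : Spl I u v x m y) (hL : I \ {x, y} ⊆ L) (hz : z ∈ u \ {x, m})
    (hz' : z' ∈ u \ {x, m}) (hne : z ≠ z') (hs : Sep L {m} {z} {z'}) : False := by
  obtain ⟨A, hA, aA⟩ := h.a1.sub hz.1 hz'.1 hne
  have s := h.a1.sub_of_conn aA hA h.a1.conn_open sdiff_subset hz hz'
  obtain ⟨k, hk, rfl⟩ := hs A z z' aA (fun k hk => hL ⟨tri_sub1 h (hA hk), fun n => (s hk).2
    (n.imp_right fun n : k = y => h.i.le ⟨hA hk, n ▸ h.a2.right⟩)⟩) rfl rfl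
  exact (s hk).2 (.inr rfl)

/-- two points on one side of `m` are not separated by `m` -/
theorem Spl.not_sep (h : Spl I u v x m y) (hL : I \ {x, y} ⊆ L) (hz : z ∈ I \ {x, y, m})
    (hz' : z' ∈ I \ {x, y, m}) (hne : z ≠ z') (hs : Sep L {m} {z} {z'}) : z ∈ u ↔ z' ∈ v := by
  refine ⟨fun k => (h.u.ge hz'.1).elim (fun k' => ?_) id, fun k' => (h.u.ge hz.1).elim id fun k => ?_⟩
  · exact (tri_one h hL ⟨k, fun n => hz.2 (n.imp_right .inr)⟩
      ⟨k', fun n => hz'.2 (n.imp_right .inr)⟩ hne hs).elim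
  · exact (tri_one (tri_symm h) (pair_comm x y ▸ hL) ⟨k, fun n => hz.2 (.inr n)⟩
      ⟨k', fun n => hz'.2 (.inr n)⟩ hne hs).elim

theorem tri_off (hT : Tri P c w e p q) {j : Fin 3} (hz : z ∈ w j \ {p j, q j}) (k : Fin 3) :
    z ∉ e k := fun n => by
  have o : ∀ j k : Fin 3, j = k ∨ j = k + 1 ∨ j = k + 2 := by decide
  rcases o j k with rfl | rfl | rfl
  · exact hz.2 (.inr ((hT.i1 _).le ⟨hz.1, n⟩))
  · exact hz.2 (.inl ((hT.i2 _).le ⟨n, hz.1⟩))
  · exact disjoint_left.1 (hT.d3 _) n hz.1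

theorem tri_two (hT : Tri P c w e p q) {b : Fin 3} (h1 : Spl (w b) u v (p b) x (q b))
    (h2 : Spl (w (b + 1)) u' v' (p (b + 1)) y (q (b + 1))) :
    Two c (v ∪ e b ∪ u') (u ∪ e (b + 2) ∪ w (b + 2) ∪ e (b + 1) ∪ v') x y := by
  have o : ∀ b : Fin 3, b + 1 + 1 = b + 2 ∧ b + 2 + 1 = b ∧ b + 1 + 2 = b ∧ b + 2 + 2 = b + 1 ∧
      b ≠ b + 1 ∧ b ≠ b + 2 ∧ b + 1 ≠ b + 2 ∧ ∀ j, j = b ∨ j = b + 1 ∨ j = b + 2 := by decide
  obtain ⟨o1, o2, o3, o4, n1, n2, n3, o5⟩ := o b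
  have a0 := hT.ae b
  have a1 := hT.ae (b + 1)
  have a2 := hT.ae (b + 2)
  have a3 := hT.aw (b + 2)
  have j0 := hT.i2 b
  have j1 := hT.i2 (b + 1)
  have j2 := hT.i2 (b + 2)
  have d0 := hT.d3 b
  have d1 := hT.d3 (b + 1)
  have d2 := hT.d3 (b + 2)
  rw [o1] at a1 j1
  rw [o2] at a2 j2
  rw [o3] at d1
  rw [o4] at d2
  have cu : c = w b ∪ e b ∪ (w (b + 1) ∪ e (b + 1)) ∪ (w (b + 2) ∪ e (b + 2)) := by
    rw [hT.u]
    refine Subset.antisymm (iUnion_subset fun j => ?_) (union_subset (union_subset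
      (subset_iUnion (fun j => w j ∪ e j) _) (subset_iUnion (fun j => w j ∪ e j) _))
      (subset_iUnion (fun j => w j ∪ e j) _))
    rcases o5 j with rfl | rfl | rfl
    · exact fun z hz => .inl (.inl hz)
    · exact fun z hz => .inl (.inr hz)
    · exact fun z hz => .inr hz
  have f1 := Set.ext_iff.1 h1.u
  have f2 := Set.ext_iff.1 h1.i
  have f3 := Set.ext_iff.1 h2.u
  have f4 := Set.ext_iff.1 h2.i
  have g0 := Set.ext_iff.1 (hT.i1 b)
  have g1 := Set.ext_iff.1 (hT.i1 (b + 1))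
  have g2 := Set.ext_iff.1 (hT.i1 (b + 2))
  have g3 := Set.ext_iff.1 j0
  have g4 := Set.ext_iff.1 j1
  have g5 := Set.ext_iff.1 j2
  have w1 := disjoint_left.1 (hT.d1 n1)
  have w2 := disjoint_left.1 (hT.d1 n2)
  have w3 := disjoint_left.1 (hT.d1 n3)
  have e1 := disjoint_left.1 (hT.d2 n1)
  have e2 := disjoint_left.1 (hT.d2 n2)
  have e3 := disjoint_left.1 (hT.d2 n3)
  rw [disjoint_left] at d0 d1 d2
  have m1 := h1.a1.left
  have m2 := h1.a2.right
  have m3 := h2.a1.left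
  have m4 := h2.a2.right
  have m5 := h1.a1.ne
  have m6 := h1.a2.ne
  have m7 := h2.a1.ne
  have m8 := h2.a2.ne
  simp only [mem_union, mem_inter_iff, mem_singleton_iff] at f1 f2 f3 f4 g0 g1 g2 g3 g4 g5
  refine ⟨(h1.a2.cat a0 ?_).cat h2.a1 ?_,
    (((h1.a1.symm.cat a2.symm ?_).cat a3.symm ?_).cat a1.symm ?_).cat h2.a2.symm ?_, ?_, ?_⟩
  all_goals
    ext k
    have := f1 k
    have := f2 k
    have := f3 k
    have := f4 k
    have := g0 k
    have := g1 k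
    have := g2 k
    have := g3 k
    have := g4 k
    have := g5 k
    have := @w1 k
    have := @w2 k
    have := @w3 k
    have := @e1 k
    have := @e2 k
    have := @e3 k
    have := @d0 k
    have := @d1 k
    have := @d2 k
    simp only [cu, mem_union, mem_inter_iff, mem_singleton_iff, mem_insert_iff]
    grind

/-- the two sides of the crosscut with label `t` -/
theorem tri_group (hT : Tri P c w e p q) {Ls : Bool → Set (Set Z)} (h : FamD P c Ls rel grp a)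
    (hg : ∀ i, a i ≠ ∅ → grp i = false) (hL : ∀ L ∈ Ls false, ∃ j, L = w j \ {p j, q j}) {t : ι}
    {b : Fin 3} (ht : Cc P c (a t) x y) (h1 : Spl (w b) u v (p b) x (q b))
    (h2 : Spl (w (b + 1)) u' v' (p (b + 1)) y (q (b + 1))) :
    ∃ g : ι → Bool, (∀ i, i ≠ t → ∀ z z', Cc P c (a i) z z' → Lands (Ls false) z z' →
        (g i = true → (z ∈ v \ {x} ∧ z' ∈ u' \ {y}) ∨ (z' ∈ v \ {x} ∧ z ∈ u' \ {y})) ∧
        (g i = false → ∀ k ∈ ({z, z'} : Set Z), k ∈ u \ {x} ∨ k ∈ v' \ {y} ∨ k ∈ w (b + 2))) ∧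
      ∀ i j, rel i j t → i ≠ j → i ≠ t → j ≠ t → a i ≠ ∅ → a j ≠ ∅ → g i ≠ g j := by
  classical
  obtain ⟨D, E, hc⟩ := hT.disc.cut (tri_two hT h1 h2) ht
  have side : ∀ i, i ≠ t → ∀ z z', Cc P c (a i) z z' → ¬ a i ⊆ D → a i ⊆ E := fun i hi z z' k n =>
    (hc.side k.arc.conn k.sub (h.dj hi)).resolve_left n
  refine ⟨fun i => decide (a i ⊆ D), fun i hi z z' k ⟨L, mL, L', mL', ne, hz, hz'⟩ => ?_, ?_⟩
  · obtain ⟨j, rfl⟩ := hL L mL
    obtain ⟨j', rfl⟩ := hL L' mL'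
    have jj : j ≠ j' := fun n => ne (n ▸ rfl)
    have nx : ∀ s ∈ a i, s ∉ ({x} : Set Z) := fun s hs n =>
      disjoint_left.1 (h.dj hi) hs (n ▸ ht.arc.left)
    have ny : ∀ s ∈ a i, s ∉ ({y} : Set Z) := fun s hs n =>
      disjoint_left.1 (h.dj hi) hs (n ▸ ht.arc.right)
    have same : ∀ {s : Z} {j k : Fin 3}, s ∈ w j → s ∈ w k → j = k := fun m m' =>
      by_contra fun n => disjoint_left.1 (hT.d1 n) m m'
    refine ⟨fun gi => ?_, fun gi => ?_⟩
    · have s : a i ⊆ D := of_decide_eq_true gi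
      rcases hc.inter_rim.le ⟨s k.arc.left, k.left⟩ with (m | m) | m
      · rcases hc.inter_rim.le ⟨s k.arc.right, k.right⟩ with (m' | m') | m'
        · exact (jj ((same hz.1 (tri_sub2 h1 m)).trans (same (tri_sub2 h1 m') hz'.1))).elim
        · exact (tri_off hT hz' _ m').elim
        · exact .inl ⟨⟨m, nx _ k.arc.left⟩, m', ny _ k.arc.right⟩
      · exact (tri_off hT hz _ m).elim
      · rcases hc.inter_rim.le ⟨s k.arc.right, k.right⟩ with (m' | m') | m'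
        · exact .inr ⟨⟨m', nx _ k.arc.right⟩, m, ny _ k.arc.left⟩
        · exact (tri_off hT hz' _ m').elim
        · exact (jj ((same hz.1 (tri_sub1 h2 m)).trans (same (tri_sub1 h2 m') hz'.1))).elim
    · have s := side i hi z z' k (of_decide_eq_false gi)
      have key : ∀ r ∈ a i, r ∈ c → (∀ n, r ∉ e n) →
          r ∈ u \ {x} ∨ r ∈ v' \ {y} ∨ r ∈ w (b + 2) := fun r hr rc n => by
        rcases hc.symm.inter_rim.le ⟨s hr, rc⟩ with (((m | m) | m) | m) | m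
        · exact .inl ⟨m, nx _ hr⟩
        · exact (n _ m).elim
        · exact .inr (.inr m)
        · exact (n _ m).elim
        · exact .inr (.inl ⟨m, ny _ hr⟩)
      rintro r (rfl | rfl)
      · exact key _ k.arc.left k.left (tri_off hT hz)
      · exact key _ k.arc.right k.right (tri_off hT hz')
  · intro i j hr ij it jt ni nj eq
    obtain ⟨z, z', ki, -⟩ := (h.arc i).resolve_left ni
    obtain ⟨s, s', kj, -⟩ := (h.arc j).resolve_left nj
    have sp := h.sep i j t hr ((hg i ni).trans (hg j nj).symm)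
    have no : ∀ {U V D E : Set Z}, Cut P c U V (a t) D E x y → a i ⊆ D → a j ⊆ D → False :=
      fun hc si sj => by
        obtain ⟨k, hk, -, n⟩ := sepB_int ki
        obtain ⟨k', hk', -, n'⟩ := sepB_int kj
        exact sp.cut hc ⟨k, hk, si hk, fun m => m.elim (fun m => n (hc.two.sub1 m))
          (disjoint_left.1 (h.dj it) hk)⟩ ⟨k', hk', sj hk', fun m => m.elim
          (fun m => n' (hc.two.sub1 m)) (disjoint_left.1 (h.dj jt) hk')⟩ (h.dj ij)
    have iff : a i ⊆ D ↔ a j ⊆ D := decide_eq_decide.1 eq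
    by_cases si : a i ⊆ D
    · exact no hc si (iff.1 si)
    · exact no hc.symm (side i it z z' ki si) (side j jt s s' kj fun n => si (iff.2 n))

end Pool.Agent.Lib.MP_b7d179_gt.C
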