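import Pool.Agent.Lib.MP_b7d179_gt.C.Ref

/-! A new vertex on an open edge; lists of refinements. -/

namespace Pool.Agent.Lib.MP_b7d179_gt.C

open Set

variable {Z : Type} [MetricSpace Z]

/-- A new vertex (bit `n`) on the open edge with bit `t`. The first half keeps the bit `t` and the
arc numbers `2 t`, `2 t + 1`; the second half has the bit `n + 1` and the arc numbers `2 (n + 1)`,
`2 (n + 1) + 1`; the whole edge has the numbers `2 n`, `2 n + 1`. -/
def vert (A : Atoms) (n t : ℕ) : Option Atoms :=
  match A.a1 (2 * t) with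
  | some (m, p, q) =>
    let cb := Nat.shiftLeft 1 t
    let w := Nat.shiftLeft 1 n
    let h1 := orL [cb, p, w]
    let h2 := orL [Nat.shiftLeft 1 (n + 1), w, q]
    if Nat.beq (df m (Nat.lor p q)) cb && small n (orL [m, p, q]) then
      some
        { a1 := fun s => if s = 2 * t then some (h1, p, w) else if s = 2 * t + 1 then some (h1, w, p)
            else if s = 2 * (n + 1) then some (h2, w, q)
            else if s = 2 * (n + 1) + 1 then some (h2, q, w)
            else if s = 2 * n then some (lift1 cb n m, p, q)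
            else if s = 2 * n + 1 then some (lift1 cb n m, q, p)
            else (A.a1 s).bind fun e =>
              if small n (orL [e.1, e.2.1, e.2.2]) then
                some (lift1 cb n e.1, lift1 cb n e.2.1, lift1 cb n e.2.2) else none
          a2 := fun s => (A.a2 s).bind fun e =>
              if small n (Nat.lor e.1 e.2) then some (lift1 cb n e.1, lift1 cb n e.2) else none
          a3 := fun s => (A.a3 s).bind fun e =>
              if small n (Nat.lor e.1 e.2) then some (lift1 cb n e.1, lift1 cb n e.2) else none }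
    else none
  | none => none

theorem vert_ok {A A' : Atoms} {R : ℕ → Set Z} {n t : ℕ} (h : A.Ok R Ball)
    (e : vert A n t = some A') : ∃ R' : ℕ → Set Z, A'.Ok R' Ball ∧
      ∀ m, small n m = true → R' (lift1 (Nat.shiftLeft 1 t) n m) = R m := by
  unfold vert at e
  split at e
  swap
  · cases e
  rename_i m p q e1
  simp only at e
  split_ifs at e with k
  simp only [Bool.and_eq_true, orL, List.foldr, ref_or] at k
  obtain ⟨k1, sm, sp, sq, -⟩ := k
  replace k1 := Nat.eq_of_beq_eq_true k1
  have bt := bit_df m (Nat.lor p q) t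
  rw [k1, ref_one, decide_eq_true rfl, eq_comm, Bool.and_eq_true, Bool.not_eq_true', bit_or,
    Bool.or_eq_false_iff] at bt
  have tn : t < n := ref_small.1 sm t bt.1
  obtain ⟨x, y, a, hp, hq⟩ := h.h1 _ _ _ _ e1
  obtain ⟨w, hw, nw⟩ := a.exists_notMem (toFinite {x, y})
  simp only [mem_insert_iff, mem_singleton_iff, not_or] at nw
  obtain ⟨c, d, ac, ad, i, un⟩ := a.split hw nw.1 nw.2
  have yc : y ∉ c := fun b => nw.2 (i.le ⟨b, ad.right⟩).symm
  have xd : x ∉ d := fun b => nw.1 (i.le ⟨ac.left, b⟩).symm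
  obtain ⟨R', rl, lf, r1, r2, r3⟩ := ref_cut h.rl tn (P := c \ {x, w}) (Q := {w}) (S := d \ {w, y})
    (disjoint_left.2 fun z a b => a.2 (.inr b))
    (disjoint_left.2 fun z a b => a.2 (.inr (i.le ⟨a.1, b.1⟩)))
    (disjoint_left.2 fun z a b => b.2 (.inl a)) (by
      rw [← k1, h.rl.df, h.rl.or, hp, hq, ← un]
      have := ac.right
      ext z
      simp only [mem_union, mem_diff, mem_insert_iff, mem_singleton_iff]
      grind)
  have kp (m) (a : small n m = true) (b : m.testBit t = false) : R' m = R m := by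
    have := lf m a
    rwa [lift1, if_pos (ref_dis.2 b)] at this
  have o3 (a b c) : R' (orL [a, b, c]) = R' a ∪ (R' b ∪ R' c) := by
    simp only [orL, List.foldr, rl.or, rl.zero, union_empty]
  have rp := (kp p sp bt.2.1).trans hp
  have rq := (kp q sq bt.2.2).trans hq
  have rc : R' (orL [Nat.shiftLeft 1 t, p, Nat.shiftLeft 1 n]) = c := by
    rw [o3, r1, r2, rp]; exact sdiff_union_of_subset ac.ends
  have rd : R' (orL [Nat.shiftLeft 1 (n + 1), Nat.shiftLeft 1 n, q]) = d := by
    rw [o3, r3, r2, rq]; exact sdiff_union_of_subset ad.ends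
  obtain rfl := Option.some.inj e
  refine ⟨R', ⟨rl, fun s a b d k => ?_, fun s a b k => ?_, fun s a b k => ?_⟩, lf⟩
  · simp only at k
    split_ifs at k
    · cases k; exact ⟨x, w, rc.symm ▸ ac, rp, r2⟩
    · cases k; exact ⟨w, x, rc.symm ▸ ac.symm, r2, rp⟩
    · cases k; exact ⟨w, y, rd.symm ▸ ad, r2, rq⟩
    · cases k; exact ⟨y, w, rd.symm ▸ ad.symm, rq, r2⟩
    · cases k; exact ⟨x, y, (lf m sm).symm ▸ a, rp, rq⟩
    · cases k; exact ⟨y, x, (lf m sm).symm ▸ a.symm, rq, rp⟩
    · obtain ⟨w, k1, k⟩ := Option.bind_eq_some_iff.1 k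
      split_ifs at k with l
      cases k
      simp only [orL, List.foldr, ref_or] at l
      rw [lf _ l.1, lf _ l.2.1, lf _ l.2.2.1]
      exact h.h1 _ _ _ _ k1
  · obtain ⟨w, k1, k⟩ := Option.bind_eq_some_iff.1 k
    split_ifs at k with l
    cases k
    rw [lf _ (ref_or.1 l).1, lf _ (ref_or.1 l).2]
    exact h.h2 _ _ _ k1
  · obtain ⟨w, k1, k⟩ := Option.bind_eq_some_iff.1 k
    split_ifs at k with l
    cases k
    rw [lf _ (ref_or.1 l).1, lf _ (ref_or.1 l).2]
    exact h.h3 _ _ _ k1

/-- one refinement: a crosscut of the 2-cell `t` or a vertex on the edge `t` -/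
inductive Rf
  | dg (t : ℕ) (u v : TA)
  | vt (t : ℕ)

def Rf.cell : Rf → ℕ
  | .dg t _ _ => t
  | .vt t => t

def Rf.run (A : Atoms) (n : ℕ) : Rf → Option Atoms
  | .dg t u v => if rimOk A n t then diag A n t u v else none
  | .vt t => vert A n t

/-- several refinements; each uses two new bits -/
def refs (A : Atoms) (n : ℕ) : List Rf → Option Atoms
  | [] => some A
  | x :: l => (x.run A n).bind fun A' => refs A' (n + 2) l

def rlift (n : ℕ) : List Rf → ℕ → ℕ
  | [], m => m
  | x :: l, m => rlift (n + 2) l (lift1 (Nat.shiftLeft 1 x.cell) n m)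

theorem refs_ok {l : List Rf} {A A' : Atoms} {R : ℕ → Set Z} {n : ℕ} (h : A.Ok R Ball)
    (e : refs A n l = some A') :
    ∃ R' : ℕ → Set Z, A'.Ok R' Ball ∧ ∀ m, small n m = true → R' (rlift n l m) = R m := by
  induction l generalizing A R n with
  | nil => cases e; exact ⟨R, h, fun _ _ => rfl⟩
  | cons x l ih =>
    obtain ⟨A₁, e1, e2⟩ := Option.bind_eq_some_iff.1 e
    obtain ⟨R₁, b, c⟩ : ∃ R' : ℕ → Set Z, A₁.Ok R' Ball ∧
        ∀ m, small n m = true → R' (lift1 (Nat.shiftLeft 1 x.cell) n m) = R m := by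
      cases x with
      | dg t u v =>
        simp only [Rf.run] at e1
        split_ifs at e1 with k
        exact diag_ok' h k e1
      | vt t => exact vert_ok h e1
    obtain ⟨R₂, d, f⟩ := ih b e2
    exact ⟨R₂, d, fun m k => (f _ (ref_lift k)).trans (c m k)⟩

end Pool.Agent.Lib.MP_b7d179_gt.C
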